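import Mathlib
import Pool.Agent.H720R2.HP.Cut1

/-!
Poisson type sums over a packed family of dyadic boxes: arbitrary points of the half plane.
-/

set_option autoImplicit false

open Metric Set Filter Topology Complex

namespace Run7.h512

open Pool.Agent.H720R2.HP

/-- one step -/
theorem arc_step {T u : ℝ} (hT : 1 / 2 ≤ T) :
    T / (u ^ 2 + T ^ 2) ≤ 9 * (Real.arctan ((u + 1) / T) - Real.arctan (u / T)) := by
  have hT0 : 0 < T := by linarith
  have hlt : u / T < (u + 1) / T := by gcongr; linarith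
  obtain ⟨c, hc, hd⟩ := exists_deriv_eq_slope Real.arctan hlt
    Real.continuous_arctan.continuousOn Real.differentiable_arctan.differentiableOn
  rw [Real.deriv_arctan] at hd
  have h1 : (u + 1) / T - u / T = 1 / T := by field_simp; ring
  rw [h1] at hd
  have hd' : 1 / (1 + c ^ 2) = (Real.arctan ((u + 1) / T) - Real.arctan (u / T)) / (1 / T) := hd
  have h2 : Real.arctan ((u + 1) / T) - Real.arctan (u / T) = 1 / (1 + c ^ 2) * (1 / T) := by
    rw [hd']
    field_simp
  rw [h2]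
  have hcl : u ≤ c * T := by
    have := hc.1.le
    rwa [div_le_iff₀ hT0] at this
  have hcu : c * T ≤ u + 1 := by
    have := hc.2.le
    rwa [le_div_iff₀ hT0] at this
  have h3 : (c * T) ^ 2 ≤ 2 * u ^ 2 + 2 := by
    have : |c * T| ≤ |u| + 1 := by
      rw [abs_le]
      constructor
      · linarith [neg_abs_le u]
      · linarith [le_abs_self u]
    have h4 : |c * T| ^ 2 ≤ (|u| + 1) ^ 2 := by gcongr
    rw [sq_abs] at h4
    nlinarith [sq_abs u, sq_nonneg (|u| - 1)]
  have h5 : T ^ 2 + (c * T) ^ 2 ≤ 9 * (u ^ 2 + T ^ 2) := by nlinarith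
  have h6 : 1 / (1 + c ^ 2) * (1 / T) = T / (T ^ 2 + (c * T) ^ 2) := by
    have h7 : (1 : ℝ) + c ^ 2 ≠ 0 := by positivity
    have h8 : T ^ 2 + (c * T) ^ 2 = T ^ 2 * (1 + c ^ 2) := by ring
    rw [h8]
    field_simp
  rw [h6]
  have h9 : T / (u ^ 2 + T ^ 2) = 9 * (T / (9 * (u ^ 2 + T ^ 2))) := by
    field_simp
  rw [h9]
  gcongr

theorem arc_sum {T x : ℝ} (hT : 1 / 2 ≤ T) (F : Finset ℤ) :
    ∑ m ∈ F, T / ((x - m) ^ 2 + T ^ 2) ≤ 9 * Real.pi := by
  have hT0 : 0 < T := by linarith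
  have key : ∀ (n : ℕ) (a : ℤ), ∑ k ∈ Finset.range n, T / ((x - ((a + k : ℤ) : ℝ)) ^ 2 + T ^ 2) ≤
      9 * (Real.arctan (((a + n : ℤ) - x) / T) - Real.arctan ((a - x) / T)) := by
    intro n a
    induction n with
    | zero => simp
    | succ n ih =>
      rw [Finset.sum_range_succ]
      have h1 := arc_step (T := T) (u := ((a + n : ℤ) : ℝ) - x) hT
      have h2 : (((a + n : ℤ) : ℝ) - x) ^ 2 = (x - ((a + n : ℤ) : ℝ)) ^ 2 := by ring
      rw [h2] at h1
      have h3 : (((a + n : ℤ) : ℝ) - x + 1) = ((a + (n + 1 : ℕ) : ℤ) : ℝ) - x := by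
        push_cast
        ring
      rw [h3] at h1
      linarith
  rcases F.eq_empty_or_nonempty with h0 | h0
  · rw [h0, Finset.sum_empty]
    positivity
  set a : ℤ := F.min' h0 with ha
  set b : ℤ := F.max' h0 with hb
  have hab : a ≤ b := F.min'_le _ (F.max'_mem h0)
  set n : ℕ := (b - a + 1).toNat with hn
  have hncast : (n : ℤ) = b - a + 1 := Int.toNat_of_nonneg (by omega)
  have hsub : F ⊆ (Finset.range n).image (fun k : ℕ => a + (k : ℤ)) := by
    intro m hm
    have h1 := F.min'_le m hm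
    have h2 := F.le_max' m hm
    rw [Finset.mem_image]
    refine ⟨(m - a).toNat, ?_, ?_⟩
    · rw [Finset.mem_range]
      omega
    · omega
  have hinj : Set.InjOn (fun k : ℕ => a + (k : ℤ)) (Finset.range n) := by
    intro k _ l _ h
    simpa using h
  calc ∑ m ∈ F, T / ((x - m) ^ 2 + T ^ 2)
      ≤ ∑ m ∈ (Finset.range n).image (fun k : ℕ => a + (k : ℤ)), T / ((x - m) ^ 2 + T ^ 2) :=
        Finset.sum_le_sum_of_subset_of_nonneg hsub (fun _ _ _ => by positivity)
    _ = ∑ k ∈ Finset.range n, T / ((x - ((a + k : ℤ) : ℝ)) ^ 2 + T ^ 2) :=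
        Finset.sum_image hinj
    _ ≤ 9 * (Real.arctan (((a + n : ℤ) - x) / T) - Real.arctan ((a - x) / T)) := key n a
    _ ≤ 9 * Real.pi := by
        have h1 := Real.arctan_lt_pi_div_two (((a + n : ℤ) - x) / T)
        have h2 := Real.neg_pi_div_two_lt_arctan ((a - x) / T)
        linarith

/-- points of the boxes -/
theorem box_range {Λ : ℝ} {q : ℕ × ℤ} {z : ℂ} (h : z ∈ Tp Λ q) :
    q.2 * ln Λ q.1 ≤ z.re ∧ z.re ≤ (q.2 + 1) * ln Λ q.1 ∧ ln Λ q.1 / 2 ≤ z.im ∧ z.im ≤ ln Λ q.1 :=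
  ⟨h.1, h.2.1.le, h.2.2.1.le, h.2.2.2⟩

/-- **Poisson sums over a packed family.** -/
theorem pk_all {C Λ : ℝ} {T : Finset (ℕ × ℤ)} (h : Pk C T) (hC : 0 ≤ C) (hΛ : 0 < Λ)
    (a : ℕ × ℤ → ℂ) (ha : ∀ j ∈ T, a j ∈ Tp Λ j) {w : ℂ} (hw : 0 < w.im) :
    ∑ j ∈ T, 4 * (a j).im * w.im / ‖w - starRingEnd ℂ (a j)‖ ^ 2 ≤ 9 * Real.pi * (36 * C + 48) := by
  classical
  set x : ℝ := w.re with hx
  set y : ℝ := w.im with hy
  have hden : ∀ j, ‖w - starRingEnd ℂ (a j)‖ ^ 2 = (x - (a j).re) ^ 2 + (y + (a j).im) ^ 2 := by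
    intro j
    rw [← Complex.normSq_eq_norm_sq, Complex.normSq_apply]
    simp only [Complex.sub_re, Complex.sub_im, Complex.conj_re, Complex.conj_im]
    ring
  -- the generation of the point
  obtain ⟨i0, hi1, hi2⟩ : ∃ i0 : ℕ, ln Λ i0 / 2 ≤ y ∧ ∀ i, i < i0 → y ≤ ln Λ i0 := by
    rcases le_or_gt y Λ with h1 | h1
    · obtain ⟨q, hq⟩ := Tp_exists hw h1
      exact ⟨q.1, hq.2.2.1.le, fun _ _ => hq.2.2.2⟩
    · refine ⟨0, ?_, fun i hi => absurd hi (Nat.not_lt_zero _)⟩
      have : ln Λ 0 = Λ := by simp [ln]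
      rw [this]
      linarith
  set L : ℝ := ln Λ i0 with hL
  have hL0 : 0 < L := ln_pos hΛ i0
  set T1 : Finset (ℕ × ℤ) := T.filter (fun j => i0 ≤ j.1) with hT1
  set T2 : Finset (ℕ × ℤ) := T.filter (fun j => ¬ i0 ≤ j.1) with hT2
  have hpos : ∀ j ∈ T, 0 < (a j).im := fun j hj => by
    have := (box_range (ha j hj)).2.2.1
    have := ln_pos hΛ j.1
    linarith
  -- the small boxes
  have hs1 : ∑ j ∈ T1, 4 * (a j).im * y / ‖w - starRingEnd ℂ (a j)‖ ^ 2 ≤
      9 * Real.pi * (36 * C) := by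
    set m : ℕ × ℤ → ℤ := fun j => j.2 / 2 ^ (j.1 - i0) with hm
    have hterm : ∀ j ∈ T1, 4 * (a j).im * y / ‖w - starRingEnd ℂ (a j)‖ ^ 2 ≤
        (1 / 2 : ℝ) ^ j.1 * (Λ * (36 * y / ((x - m j * L) ^ 2 + y ^ 2))) := by
      intro j hj
      rw [hT1, Finset.mem_filter] at hj
      obtain ⟨b1, b2, b3, b4⟩ := box_range (ha j hj.1)
      have hp := hpos j hj.1
      have hdesc : desc (i0, m j) j := ⟨hj.2, rfl⟩
      have hg := desc_geo hΛ hdesc
      rw [hden]
      have hre : m j * L ≤ (a j).re ∧ (a j).re ≤ (m j + 1) * L := by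
        obtain ⟨g1, g2⟩ := desc_range hdesc
        have e1 : ln Λ i0 = 2 ^ (j.1 - i0) * ln Λ j.1 := by
          have := ln_add Λ i0 (j.1 - i0)
          rwa [Nat.add_sub_cancel' hj.2] at this
        have hlj := ln_pos hΛ j.1
        constructor
        · refine le_trans ?_ b1
          rw [hL, e1, ← mul_assoc]
          refine mul_le_mul_of_nonneg_right ?_ hlj.le
          have : (m j : ℤ) * 2 ^ (j.1 - i0) ≤ j.2 := by simpa using g1
          exact_mod_cast this
        · refine b2.trans ?_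
          rw [hL, e1, ← mul_assoc]
          refine mul_le_mul_of_nonneg_right ?_ hlj.le
          have : j.2 < ((m j : ℤ) + 1) * 2 ^ (j.1 - i0) := by simpa using g2
          have h2 : j.2 + 1 ≤ ((m j : ℤ) + 1) * 2 ^ (j.1 - i0) := this
          exact_mod_cast h2
      have e2 : (1 / 2 : ℝ) ^ j.1 * (Λ * (36 * y / ((x - m j * L) ^ 2 + y ^ 2))) =
          4 * ln Λ j.1 * y / (((x - m j * L) ^ 2 + y ^ 2) / 9) := by
        unfold ln
        field_simp
        ring
      rw [e2]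
      have e3 : ((x - m j * L) ^ 2 + y ^ 2) / 9 ≤ (x - (a j).re) ^ 2 + (y + (a j).im) ^ 2 := by
        have h1 : |x - m j * L| ≤ |x - (a j).re| + 2 * y := by
          have : |x - m j * L| ≤ |x - (a j).re| + |(a j).re - m j * L| := by
            have : x - m j * L = (x - (a j).re) + ((a j).re - m j * L) := by ring
            rw [this]
            exact abs_add_le _ _
          have h2 : |(a j).re - m j * L| ≤ 2 * y := by
            rw [abs_of_nonneg (by linarith [hre.1])]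
            have := hre.2
            linarith
          linarith
        have h2 : |x - m j * L| ^ 2 ≤ (|x - (a j).re| + 2 * y) ^ 2 := by gcongr
        rw [sq_abs] at h2
        nlinarith [sq_abs (x - (a j).re), sq_nonneg (|x - (a j).re| - 2 * y), hp, hw]
      have e4 : 0 < ((x - m j * L) ^ 2 + y ^ 2) / 9 := by positivity
      have e5 : 0 ≤ 4 * ln Λ j.1 * y := by
        have := ln_pos hΛ j.1
        positivity
      gcongr
    refine (Finset.sum_le_sum hterm).trans ?_
    -- group by the ancestor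
    have hgrp : ∑ j ∈ T1, (1 / 2 : ℝ) ^ j.1 * (Λ * (36 * y / ((x - m j * L) ^ 2 + y ^ 2))) =
        ∑ k ∈ T1.image m, ∑ j ∈ T1.filter (fun j => m j = k),
          (1 / 2 : ℝ) ^ j.1 * (Λ * (36 * y / ((x - m j * L) ^ 2 + y ^ 2))) := by
      rw [Finset.sum_fiberwise_of_maps_to (fun j hj => Finset.mem_image_of_mem m hj)]
    rw [hgrp]
    have hk : ∀ k ∈ T1.image m, ∑ j ∈ T1.filter (fun j => m j = k),
          (1 / 2 : ℝ) ^ j.1 * (Λ * (36 * y / ((x - m j * L) ^ 2 + y ^ 2))) ≤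
          36 * C * ((y / L) / ((x / L - k) ^ 2 + (y / L) ^ 2)) := by
      intro k _
      have e1 : ∑ j ∈ T1.filter (fun j => m j = k),
          (1 / 2 : ℝ) ^ j.1 * (Λ * (36 * y / ((x - m j * L) ^ 2 + y ^ 2))) =
          (∑ j ∈ T1.filter (fun j => m j = k), (1 / 2 : ℝ) ^ j.1) *
            (Λ * (36 * y / ((x - k * L) ^ 2 + y ^ 2))) := by
        rw [Finset.sum_mul]
        refine Finset.sum_congr rfl (fun j hj => ?_)
        rw [Finset.mem_filter] at hj
        rw [hj.2]
      have e2 : ∑ j ∈ T1.filter (fun j => m j = k), (1 / 2 : ℝ) ^ j.1 ≤ C * (1 / 2) ^ i0 := by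
        refine le_trans (Finset.sum_le_sum_of_subset_of_nonneg ?_ (fun _ _ _ => by positivity))
          (h (i0, k))
        intro j hj
        rw [hT1, Finset.mem_filter, Finset.mem_filter] at hj
        rw [Finset.mem_filter]
        exact ⟨hj.1.1, hj.1.2, hj.2⟩
      rw [e1]
      have e3 : 36 * C * ((y / L) / ((x / L - k) ^ 2 + (y / L) ^ 2)) =
          C * (1 / 2) ^ i0 * (Λ * (36 * y / ((x - k * L) ^ 2 + y ^ 2))) := by
        have h1 : (x / L - k) ^ 2 + (y / L) ^ 2 = ((x - k * L) ^ 2 + y ^ 2) / L ^ 2 := by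
          field_simp
        rw [h1]
        have h2 : (1 / 2 : ℝ) ^ i0 * Λ = L := by rw [hL]; unfold ln; ring
        have h3 : 0 < (x - k * L) ^ 2 + y ^ 2 := by positivity
        calc 36 * C * (y / L / (((x - k * L) ^ 2 + y ^ 2) / L ^ 2))
            = C * L * (36 * y / ((x - k * L) ^ 2 + y ^ 2)) := by
              field_simp
          _ = C * ((1 / 2) ^ i0 * Λ) * (36 * y / ((x - k * L) ^ 2 + y ^ 2)) := by rw [h2]
          _ = _ := by ring
      rw [e3]
      gcongr
    refine (Finset.sum_le_sum hk).trans ?_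
    rw [← Finset.mul_sum]
    have harc := arc_sum (T := y / L) (x := x / L) (by
      rw [div_le_div_iff₀ (by norm_num) hL0]
      linarith) (T1.image m)
    have : 0 ≤ 36 * C := by positivity
    nlinarith
  -- the large boxes
  have hs2 : ∑ j ∈ T2, 4 * (a j).im * y / ‖w - starRingEnd ℂ (a j)‖ ^ 2 ≤
      9 * Real.pi * 48 := by
    have hterm : ∀ j ∈ T2, 4 * (a j).im * y / ‖w - starRingEnd ℂ (a j)‖ ^ 2 ≤
        (1 / 2 : ℝ) ^ (i0 - j.1) * (48 * (1 / ((x / ln Λ j.1 - j.2) ^ 2 + 1 ^ 2))) := by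
      intro j hj
      rw [hT2, Finset.mem_filter, not_le] at hj
      obtain ⟨b1, b2, b3, b4⟩ := box_range (ha j hj.1)
      have hp := hpos j hj.1
      have hl := ln_pos hΛ j.1
      set l : ℝ := ln Λ j.1 with hld
      have hyL : y ≤ L := hi2 j.1 hj.2
      have hLl : L = (1 / 2 : ℝ) ^ (i0 - j.1) * l := by
        have := ln_add Λ j.1 (i0 - j.1)
        rw [Nat.add_sub_cancel' hj.2.le] at this
        rw [hL, hld, this, ← mul_assoc, ← mul_pow]
        norm_num
      rw [hden]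
      have e3 : ((x - j.2 * l) ^ 2 + l ^ 2) / 12 ≤ (x - (a j).re) ^ 2 + (y + (a j).im) ^ 2 := by
        have h1 : |x - j.2 * l| ≤ |x - (a j).re| + l := by
          have : |x - j.2 * l| ≤ |x - (a j).re| + |(a j).re - j.2 * l| := by
            have : x - j.2 * l = (x - (a j).re) + ((a j).re - j.2 * l) := by ring
            rw [this]
            exact abs_add_le _ _
          have h2 : |(a j).re - j.2 * l| ≤ l := by
            rw [abs_of_nonneg (by linarith)]
            linarith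
          linarith
        have h2 : |x - j.2 * l| ^ 2 ≤ (|x - (a j).re| + l) ^ 2 := by gcongr
        rw [sq_abs] at h2
        have h3 : (l / 2) ^ 2 ≤ (y + (a j).im) ^ 2 := by
          have : l / 2 ≤ y + (a j).im := by linarith
          gcongr
        nlinarith [sq_abs (x - (a j).re), sq_nonneg (|x - (a j).re| - l)]
      have e4 : 0 < ((x - j.2 * l) ^ 2 + l ^ 2) / 12 := by positivity
      have e5 : (1 / 2 : ℝ) ^ (i0 - j.1) * (48 * (1 / ((x / l - j.2) ^ 2 + 1 ^ 2))) =
          4 * l * L / (((x - j.2 * l) ^ 2 + l ^ 2) / 12) := by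
        rw [hLl]
        have h1 : (x / l - j.2) ^ 2 + 1 ^ 2 = ((x - j.2 * l) ^ 2 + l ^ 2) / l ^ 2 := by
          field_simp
        rw [h1]
        field_simp
        ring
      rw [e5]
      gcongr
    refine (Finset.sum_le_sum hterm).trans ?_
    have hgrp : ∑ j ∈ T2, (1 / 2 : ℝ) ^ (i0 - j.1) *
          (48 * (1 / ((x / ln Λ j.1 - j.2) ^ 2 + 1 ^ 2))) =
        ∑ i ∈ Finset.range i0, ∑ j ∈ T2.filter (fun j => j.1 = i),
          (1 / 2 : ℝ) ^ (i0 - j.1) * (48 * (1 / ((x / ln Λ j.1 - j.2) ^ 2 + 1 ^ 2))) := by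
      rw [Finset.sum_fiberwise_of_maps_to (fun j hj => ?_)]
      rw [hT2, Finset.mem_filter, not_le] at hj
      exact Finset.mem_range.2 hj.2
    rw [hgrp]
    have hi : ∀ i ∈ Finset.range i0, ∑ j ∈ T2.filter (fun j => j.1 = i),
          (1 / 2 : ℝ) ^ (i0 - j.1) * (48 * (1 / ((x / ln Λ j.1 - j.2) ^ 2 + 1 ^ 2))) ≤
          (1 / 2 : ℝ) ^ (i0 - i) * (48 * (9 * Real.pi)) := by
      intro i _
      have e1 : ∑ j ∈ T2.filter (fun j => j.1 = i),
          (1 / 2 : ℝ) ^ (i0 - j.1) * (48 * (1 / ((x / ln Λ j.1 - j.2) ^ 2 + 1 ^ 2))) =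
          (1 / 2 : ℝ) ^ (i0 - i) * (48 * ∑ k ∈ (T2.filter (fun j => j.1 = i)).image Prod.snd,
            (1 / ((x / ln Λ i - k) ^ 2 + 1 ^ 2))) := by
        rw [Finset.mul_sum, Finset.mul_sum, Finset.sum_image]
        · refine Finset.sum_congr rfl (fun j hj => ?_)
          rw [Finset.mem_filter] at hj
          rw [hj.2]
        · intro j hj k hk hjk
          rw [Finset.mem_coe, Finset.mem_filter] at hj hk
          exact Prod.ext (hj.2.trans hk.2.symm) hjk
      rw [e1]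
      have := arc_sum (T := 1) (x := x / ln Λ i) (by norm_num)
        ((T2.filter (fun j => j.1 = i)).image Prod.snd)
      gcongr
    refine (Finset.sum_le_sum hi).trans ?_
    rw [← Finset.sum_mul]
    have hgeo : ∑ i ∈ Finset.range i0, (1 / 2 : ℝ) ^ (i0 - i) ≤ 1 := by
      have e1 : ∀ n : ℕ, ∑ i ∈ Finset.range n, (1 / 2 : ℝ) ^ (n - i) = 1 - (1 / 2) ^ n := by
        intro n
        induction n with
        | zero => simp
        | succ n ih =>
          rw [Finset.sum_range_succ']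
          have e2 : ∑ k ∈ Finset.range n, (1 / 2 : ℝ) ^ (n + 1 - (k + 1)) = 1 - (1 / 2) ^ n := by
            rw [← ih]
            refine Finset.sum_congr rfl (fun k _ => ?_)
            congr 1
            omega
          rw [e2]
          simp only [Nat.sub_zero]
          rw [pow_succ]
          ring
      rw [e1]
      have : (0 : ℝ) < (1 / 2) ^ i0 := by positivity
      linarith
    have hpi := Real.pi_pos
    nlinarith
  have hsplit : ∑ j ∈ T, 4 * (a j).im * y / ‖w - starRingEnd ℂ (a j)‖ ^ 2 =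
      ∑ j ∈ T1, 4 * (a j).im * y / ‖w - starRingEnd ℂ (a j)‖ ^ 2 +
      ∑ j ∈ T2, 4 * (a j).im * y / ‖w - starRingEnd ℂ (a j)‖ ^ 2 :=
    (Finset.sum_filter_add_sum_filter_not _ _ _).symm
  rw [hsplit]
  linarith

end Run7.h512
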