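import Mathlib

/-!
Hyperplane tubes in the unit ball of a complex inner product space: elementary estimates.
-/

set_option autoImplicit false

open Metric Set Filter Topology Complex

namespace Run7.h512

/-- `|1 - conj c x|` -/
noncomputable def mm (c x : ℂ) : ℝ := ‖1 - starRingEnd ℂ c * x‖

/-- `1 - |c|²` -/
noncomputable def SS (c : ℂ) : ℝ := 1 - ‖c‖ ^ 2

/-- the Moebius factor -/
noncomputable def bl (c x : ℂ) : ℂ := (x - c) / (1 - starRingEnd ℂ c * x)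

/-- `1 - |bl c x|²` -/
noncomputable def uu (c x : ℂ) : ℝ := SS c * (1 - ‖x‖ ^ 2) / mm c x ^ 2

noncomputable def AA (c x : ℂ) : ℝ := SS c * (1 - ‖c‖ ^ 2 * ‖x‖ ^ 2) / mm c x ^ 2

noncomputable def kk (c x : ℂ) : ℝ := SS c ^ 2 / mm c x ^ 2

theorem SS_pos {c : ℂ} (hc : ‖c‖ < 1) : 0 < SS c := by
  unfold SS
  nlinarith [norm_nonneg c]

theorem SS_le (c : ℂ) : SS c ≤ 1 := by
  unfold SS
  nlinarith [norm_nonneg c]

theorem mm_ge {c x : ℂ} : 1 - ‖c‖ * ‖x‖ ≤ mm c x := by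
  unfold mm
  have h := norm_sub_norm_le (1 : ℂ) (starRingEnd ℂ c * x)
  rw [norm_mul, RCLike.norm_conj, norm_one] at h
  exact h

theorem mm_pos {c x : ℂ} (hc : ‖c‖ < 1) (hx : ‖x‖ ≤ 1) : 0 < mm c x := by
  have h := @mm_ge c x
  nlinarith [norm_nonneg c, norm_nonneg x]

theorem mm_le_two {c x : ℂ} (hc : ‖c‖ ≤ 1) (hx : ‖x‖ ≤ 1) : mm c x ≤ 2 := by
  unfold mm
  refine (norm_sub_le _ _).trans ?_
  rw [norm_mul, RCLike.norm_conj, norm_one]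
  nlinarith [norm_nonneg c, norm_nonneg x]

/-- the basic identity -/
theorem mm_sq (c x : ℂ) : mm c x ^ 2 = SS c * (1 - ‖x‖ ^ 2) + ‖x - c‖ ^ 2 := by
  unfold mm SS
  rw [← Complex.normSq_eq_norm_sq, ← Complex.normSq_eq_norm_sq, ← Complex.normSq_eq_norm_sq,
    ← Complex.normSq_eq_norm_sq]
  simp only [Complex.normSq_apply, Complex.sub_re, Complex.sub_im, Complex.mul_re, Complex.mul_im,
    Complex.conj_re, Complex.conj_im, Complex.one_re, Complex.one_im]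
  ring

theorem norm_sub_le_mm {c x : ℂ} (hc : ‖c‖ < 1) (hx : ‖x‖ ≤ 1) : ‖x - c‖ ≤ mm c x := by
  have h := mm_sq c x
  have h1 : 0 ≤ SS c * (1 - ‖x‖ ^ 2) :=
    mul_nonneg (SS_pos hc).le (by nlinarith [norm_nonneg x])
  have h2 : 0 ≤ mm c x := norm_nonneg _
  nlinarith [norm_nonneg (x - c)]

theorem norm_bl (c x : ℂ) : ‖bl c x‖ = ‖x - c‖ / mm c x := by
  unfold bl mm
  rw [norm_div]

theorem uu_eq {c x : ℂ} (hc : ‖c‖ < 1) (hx : ‖x‖ ≤ 1) : 1 - ‖bl c x‖ ^ 2 = uu c x := by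
  have h := mm_sq c x
  have h0 := mm_pos hc hx
  rw [norm_bl, uu, div_pow, eq_div_iff (by positivity)]
  field_simp
  linarith

theorem uu_nonneg {c x : ℂ} (hc : ‖c‖ < 1) (hx : ‖x‖ ≤ 1) : 0 ≤ uu c x := by
  unfold uu
  have := SS_pos hc
  have h1 : 0 ≤ 1 - ‖x‖ ^ 2 := by nlinarith [norm_nonneg x]
  positivity

theorem uu_le_one {c x : ℂ} (hc : ‖c‖ < 1) (hx : ‖x‖ ≤ 1) : uu c x ≤ 1 := by
  rw [← uu_eq hc hx]
  nlinarith [norm_nonneg (bl c x)]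

theorem kk_nonneg (c x : ℂ) : 0 ≤ kk c x := by unfold kk; positivity

theorem AA_le {c x : ℂ} (hx : ‖x‖ ≤ 1) : AA c x ≤ uu c x + kk c x := by
  unfold AA uu kk
  rw [← add_div]
  refine div_le_div_of_nonneg_right ?_ (by positivity)
  unfold SS
  nlinarith [sq_nonneg (1 - ‖c‖ ^ 2), norm_nonneg x, mul_nonneg (sq_nonneg (1 - ‖c‖ ^ 2))
    (show 0 ≤ 1 - ‖x‖ ^ 2 by nlinarith [norm_nonneg x])]

theorem kk_le_AA {c x : ℂ} (hc : ‖c‖ < 1) (hx : ‖x‖ ≤ 1) : kk c x ≤ AA c x := by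
  unfold AA kk
  have h1 := SS_pos hc
  refine div_le_div_of_nonneg_right ?_ (by positivity)
  rw [sq]
  refine mul_le_mul_of_nonneg_left ?_ h1.le
  unfold SS
  nlinarith [sq_nonneg ‖c‖, mul_nonneg (sq_nonneg ‖c‖)
    (show 0 ≤ 1 - ‖x‖ ^ 2 by nlinarith [norm_nonneg x])]

theorem uu_le_AA {c x : ℂ} (hc : ‖c‖ < 1) : uu c x ≤ AA c x := by
  unfold AA uu
  have h1 := SS_pos hc
  refine div_le_div_of_nonneg_right ?_ (by positivity)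
  refine mul_le_mul_of_nonneg_left ?_ h1.le
  nlinarith [sq_nonneg ‖x‖, sq_nonneg ‖c‖, mul_nonneg (sq_nonneg ‖x‖)
    (show 0 ≤ 1 - ‖c‖ ^ 2 by nlinarith [norm_nonneg c])]

theorem AA_nonneg {c x : ℂ} (hc : ‖c‖ < 1) (hx : ‖x‖ ≤ 1) : 0 ≤ AA c x :=
  (kk_nonneg c x).trans (kk_le_AA hc hx)

theorem kk_le_four {c x : ℂ} (hc : ‖c‖ < 1) (hx : ‖x‖ ≤ 1) : kk c x ≤ 4 := by
  unfold kk
  have h0 := mm_pos hc hx
  have h1 : 1 - ‖c‖ ≤ mm c x := by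
    have := @mm_ge c x
    nlinarith [norm_nonneg c, norm_nonneg x]
  rw [div_le_iff₀ (by positivity)]
  unfold SS
  have h2 : (0 : ℝ) < 1 - ‖c‖ := by linarith
  have h3 : 1 - ‖c‖ ^ 2 ≤ 2 * mm c x := by nlinarith [norm_nonneg c]
  have h4 : 0 ≤ 1 - ‖c‖ ^ 2 := by nlinarith [norm_nonneg c]
  nlinarith

/-- comparison with a point closer to the centre -/
theorem kk_radial {c x : ℂ} {τ : ℝ} (hc : ‖c‖ < 1) (hx : ‖x‖ ≤ 1) (h0 : 0 < τ) (h1 : τ ≤ 1)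
    (hm : τ ≤ mm c x) : kk c x ≤ 4 * (SS c / τ) * uu c ((1 - τ : ℝ) * x) := by
  have hS := SS_pos hc
  have hm0 := mm_pos hc hx
  have hx' : ‖((1 - τ : ℝ) : ℂ) * x‖ ≤ 1 - τ := by
    rw [norm_mul, Complex.norm_real, Real.norm_of_nonneg (by linarith)]
    nlinarith
  have hx1 : ‖((1 - τ : ℝ) : ℂ) * x‖ ≤ 1 := hx'.trans (by linarith)
  have hm1 : mm c ((1 - τ : ℝ) * x) ≤ 2 * mm c x := by
    have : 1 - starRingEnd ℂ c * (((1 - τ : ℝ) : ℂ) * x) =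
        (1 - starRingEnd ℂ c * x) + (τ : ℂ) * (starRingEnd ℂ c * x) := by
      push_cast
      ring
    unfold mm at *
    rw [this]
    refine (norm_add_le _ _).trans ?_
    rw [norm_mul, norm_mul, RCLike.norm_conj, Complex.norm_real, Real.norm_of_nonneg h0.le]
    have h2 : ‖c‖ * ‖x‖ ≤ 1 := by nlinarith [norm_nonneg c, norm_nonneg x]
    nlinarith
  have hm2 := mm_pos hc hx1
  have h3 : τ ≤ 1 - ‖((1 - τ : ℝ) : ℂ) * x‖ ^ 2 := by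
    nlinarith [norm_nonneg (((1 - τ : ℝ) : ℂ) * x)]
  unfold kk uu
  have h4 : SS c * τ / (2 * mm c x) ^ 2 ≤
      SS c * (1 - ‖((1 - τ : ℝ) : ℂ) * x‖ ^ 2) / mm c ((1 - τ : ℝ) * x) ^ 2 := by
    have h5 : 0 ≤ SS c * (1 - ‖((1 - τ : ℝ) : ℂ) * x‖ ^ 2) := mul_nonneg hS.le (by linarith)
    gcongr
  calc SS c ^ 2 / mm c x ^ 2 = 4 * (SS c / τ) * (SS c * τ / (2 * mm c x) ^ 2) := by
        field_simp
        ring
    _ ≤ _ := by gcongr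

/-- in the tube -/
theorem tube_mm {c x : ℂ} {δ : ℝ} (hc : ‖c‖ < 1) (hx : ‖x‖ < 1) (hδ0 : 0 ≤ δ) (hδ : δ < 1)
    (h : ‖bl c x‖ ≤ δ) : (1 - δ ^ 2) * mm c x ≤ 2 * SS c := by
  have hS := SS_pos hc
  have hm0 := mm_pos hc hx.le
  have h1 : 1 - δ ^ 2 ≤ uu c x := by
    rw [← uu_eq hc hx.le]
    nlinarith [norm_nonneg (bl c x)]
  have h2 : 1 - ‖x‖ ≤ mm c x := by
    have := @mm_ge c x
    nlinarith [norm_nonneg c, norm_nonneg x]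
  have h3 : 1 - ‖x‖ ^ 2 ≤ 2 * mm c x := by nlinarith [norm_nonneg x]
  unfold uu at h1
  rw [le_div_iff₀ (by positivity)] at h1
  have h4 : (1 - δ ^ 2) * mm c x ^ 2 ≤ SS c * (2 * mm c x) := h1.trans (by gcongr)
  have h5 : ((1 - δ ^ 2) * mm c x) * mm c x ≤ (2 * SS c) * mm c x := by nlinarith
  exact le_of_mul_le_mul_right h5 hm0

theorem tube_x {c x : ℂ} {δ : ℝ} (hc : ‖c‖ < 1) (hx : ‖x‖ < 1) (hδ0 : 0 ≤ δ) (hδ : δ < 1)
    (h : ‖bl c x‖ ≤ δ) : (1 - δ ^ 2) * SS c ≤ 4 * (1 - ‖x‖ ^ 2) := by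
  have hS := SS_pos hc
  have hm0 := mm_pos hc hx.le
  have h1 : 1 - δ ^ 2 ≤ uu c x := by
    rw [← uu_eq hc hx.le]
    nlinarith [norm_nonneg (bl c x)]
  have h2 : 1 - ‖c‖ ≤ mm c x := by
    have := @mm_ge c x
    nlinarith [norm_nonneg c, norm_nonneg x]
  have h3 : SS c ≤ 2 * mm c x := by
    unfold SS
    nlinarith [norm_nonneg c]
  unfold uu at h1
  rw [le_div_iff₀ (by positivity)] at h1
  have hd : 0 ≤ 1 - δ ^ 2 := by nlinarith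
  have h4 : (1 - δ ^ 2) * SS c ^ 2 ≤ 4 * (SS c * (1 - ‖x‖ ^ 2)) := by
    have : SS c ^ 2 ≤ 4 * mm c x ^ 2 := by nlinarith
    nlinarith
  have h5 : ((1 - δ ^ 2) * SS c) * SS c ≤ (4 * (1 - ‖x‖ ^ 2)) * SS c := by nlinarith
  exact le_of_mul_le_mul_right h5 hS

theorem tube_x' {c x : ℂ} {δ : ℝ} (hc : ‖c‖ < 1) (hx : ‖x‖ < 1) (hδ0 : 0 ≤ δ) (hδ : δ < 1)
    (h : ‖bl c x‖ ≤ δ) : (1 - δ ^ 2) * (1 - ‖x‖ ^ 2) ≤ 4 * SS c := by
  have h1 := tube_mm hc hx hδ0 hδ h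
  have h2 : 1 - ‖x‖ ≤ mm c x := by
    have := @mm_ge c x
    nlinarith [norm_nonneg c, norm_nonneg x]
  have h3 : 1 - ‖x‖ ^ 2 ≤ 2 * mm c x := by nlinarith [norm_nonneg x]
  have hd : 0 ≤ 1 - δ ^ 2 := by nlinarith
  nlinarith

theorem tube_kk {c x : ℂ} {δ : ℝ} (hc : ‖c‖ < 1) (hx : ‖x‖ < 1) (hδ0 : 0 ≤ δ) (hδ : δ < 1)
    (h : ‖bl c x‖ ≤ δ) : (1 - δ ^ 2) ^ 2 / 4 ≤ kk c x := by
  have h1 := tube_mm hc hx hδ0 hδ h
  have hm0 := mm_pos hc hx.le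
  have hd : 0 ≤ 1 - δ ^ 2 := by nlinarith
  unfold kk
  rw [le_div_iff₀ (by positivity)]
  have h2 : ((1 - δ ^ 2) * mm c x) ^ 2 ≤ (2 * SS c) ^ 2 := by
    have : 0 ≤ (1 - δ ^ 2) * mm c x := by positivity
    gcongr
  nlinarith

/-- the planar lemma: `x` lies in the disc with centre `o` and radius `√R₂`, the point `c` does not -/
theorem planar {c x o : ℂ} {R₂ : ℝ} (hc : ‖c‖ < 1) (hx : ‖x - o‖ ^ 2 ≤ R₂)
    (hco : R₂ ≤ ‖c - o‖ ^ 2) (hR : R₂ ≤ (1 - ‖o‖) ^ 2) (ho : ‖o‖ < 1)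
    (hd : 16 * (1 - ‖x‖ ^ 2) ≤ SS c) :
    SS c * (1 - ‖o‖) ≤ 4 * ‖x - c‖ ^ 2 := by
  have hS := SS_pos hc
  have e1 : ‖x - o‖ ^ 2 = ‖x‖ ^ 2 - 2 * (starRingEnd ℂ o * x).re + ‖o‖ ^ 2 := by
    rw [← Complex.normSq_eq_norm_sq, ← Complex.normSq_eq_norm_sq, ← Complex.normSq_eq_norm_sq]
    simp only [Complex.normSq_apply, Complex.sub_re, Complex.sub_im, Complex.mul_re,
      Complex.conj_re, Complex.conj_im]
    ring
  have e2 : ‖c - o‖ ^ 2 = ‖c‖ ^ 2 - 2 * (starRingEnd ℂ o * c).re + ‖o‖ ^ 2 := by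
    rw [← Complex.normSq_eq_norm_sq, ← Complex.normSq_eq_norm_sq, ← Complex.normSq_eq_norm_sq]
    simp only [Complex.normSq_apply, Complex.sub_re, Complex.sub_im, Complex.mul_re,
      Complex.conj_re, Complex.conj_im]
    ring
  set s : ℝ := SS c with hs
  have hs' : ‖c‖ ^ 2 = 1 - s := by rw [hs]; unfold SS; ring
  set d : ℝ := 1 - ‖x‖ ^ 2 with hdd
  have hd' : ‖x‖ ^ 2 = 1 - d := by rw [hdd]; ring
  set p : ℝ := ‖o‖ with hp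
  have hp0 : 0 ≤ p := norm_nonneg _
  rw [hd'] at e1
  rw [hs'] at e2
  rcases eq_or_lt_of_le hp0 with hp1 | hp1
  · -- the centre is `0`
    exfalso
    have ho0 : o = 0 := norm_eq_zero.1 (by rw [← hp]; exact hp1.symm)
    rw [ho0] at hx hco
    simp only [sub_zero] at hx hco
    rw [hd'] at hx
    rw [hs'] at hco
    linarith
  -- the unit vector
  set ω : ℂ := o / p with hω
  have hω1 : ‖ω‖ = 1 := by
    rw [hω, norm_div, Complex.norm_real, Real.norm_of_nonneg hp0, ← hp]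
    field_simp
  have hoω : o = p * ω := by
    rw [hω]
    have : (p : ℂ) ≠ 0 := by exact_mod_cast hp1.ne'
    field_simp
  have key : ∀ y : ℂ, ‖ω - y‖ ^ 2 = 1 - 2 * (starRingEnd ℂ ω * y).re + ‖y‖ ^ 2 := by
    intro y
    have : ‖ω‖ ^ 2 = 1 := by rw [hω1]; ring
    rw [← Complex.normSq_eq_norm_sq] at this ⊢
    rw [← Complex.normSq_eq_norm_sq]
    simp only [Complex.normSq_apply, Complex.sub_re, Complex.sub_im, Complex.mul_re,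
      Complex.conj_re, Complex.conj_im] at this ⊢
    nlinarith
  have hre : ∀ y : ℂ, (starRingEnd ℂ o * y).re = p * (starRingEnd ℂ ω * y).re := by
    intro y
    rw [hoω]
    simp only [map_mul, Complex.conj_ofReal, Complex.mul_re, Complex.ofReal_re, Complex.ofReal_im,
      Complex.mul_im]
    ring
  have k1 := key x
  have k2 := key c
  rw [hre] at e1 e2
  rw [hd'] at k1
  rw [hs'] at k2
  set a : ℝ := (starRingEnd ℂ ω * x).re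
  set b : ℝ := (starRingEnd ℂ ω * c).re
  have h1p : 0 ≤ 1 - p := by linarith
  have q1 : p * ‖ω - x‖ ^ 2 = d * (1 - p) - (1 - p) ^ 2 + ‖x - o‖ ^ 2 := by
    rw [k1, e1]; ring
  have q2 : p * ‖ω - c‖ ^ 2 = s * (1 - p) - (1 - p) ^ 2 + ‖c - o‖ ^ 2 := by
    rw [k2, e2]; ring
  have q3 : d * (1 - p) ≤ (s / 16) * (1 - p) := by
    refine mul_le_mul_of_nonneg_right ?_ h1p
    linarith
  have q4 : 0 ≤ p * ‖ω - x‖ ^ 2 := by positivity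
  have hsq1 : p * ‖ω - x‖ ^ 2 ≤ (s / 16) * (1 - p) := by linarith
  have hsq2 : (15 / 16) * s * (1 - p) ≤ p * ‖ω - c‖ ^ 2 := by linarith
  -- triangle inequality
  have htri : ‖ω - c‖ ≤ ‖ω - x‖ + ‖x - c‖ := by
    have : ω - c = (ω - x) + (x - c) := by ring
    rw [this]
    exact norm_add_le _ _
  have h0 : ‖ω - c‖ ^ 2 ≤ (5 / 4) * ‖x - c‖ ^ 2 + 5 * ‖ω - x‖ ^ 2 := by
    have h1 : ‖ω - c‖ ^ 2 ≤ (‖ω - x‖ + ‖x - c‖) ^ 2 := by gcongr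
    nlinarith [sq_nonneg (‖x - c‖ - 4 * ‖ω - x‖)]
  have h1 : p * ‖ω - c‖ ^ 2 ≤ (5 / 4) * (p * ‖x - c‖ ^ 2) + 5 * (p * ‖ω - x‖ ^ 2) := by
    have := mul_le_mul_of_nonneg_left h0 hp0
    linarith
  have h2 : p * ‖x - c‖ ^ 2 ≤ ‖x - c‖ ^ 2 := by
    have h3 : 0 ≤ ‖x - c‖ ^ 2 := by positivity
    have h4 : p * ‖x - c‖ ^ 2 ≤ 1 * ‖x - c‖ ^ 2 := mul_le_mul_of_nonneg_right ho.le h3
    linarith
  linarith

end Run7.h512
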