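import Mathlib
import Pool.Agent.Run7.h512.Hyp

/-!
Hyperplane tubes in the unit ball of a complex inner product space: geometry.
-/

set_option autoImplicit false

open Metric Set Filter Topology Complex

namespace Run7.h512

variable {X : Type*} [NormedAddCommGroup X] [InnerProductSpace ℂ X]

/-- the part orthogonal to `f` -/
theorem orth_sq {f a : X} (hf : ‖f‖ = 1) :
    ‖a - (inner ℂ f a : ℂ) • f‖ ^ 2 = ‖a‖ ^ 2 - ‖(inner ℂ f a : ℂ)‖ ^ 2 := by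
  have h := @norm_sub_sq ℂ X _ _ _ a ((inner ℂ f a : ℂ) • f)
  rw [inner_smul_right, norm_smul, hf, mul_one] at h
  have h1 : (inner ℂ f a : ℂ) * inner ℂ a f = ((‖(inner ℂ f a : ℂ)‖ ^ 2 : ℝ) : ℂ) := by
    rw [← inner_conj_symm a f, Complex.mul_conj, Complex.normSq_eq_norm_sq]
  rw [h1] at h
  rw [h]
  simp only [RCLike.re_to_complex, Complex.ofReal_re]
  ring

theorem inner_orth {f : X} (hf : ‖f‖ = 1) (a b : X) :
    (inner ℂ (a - (inner ℂ f a : ℂ) • f) (b - (inner ℂ f b : ℂ) • f) : ℂ) =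
      inner ℂ a b - inner ℂ a f * inner ℂ f b := by
  have h1 : (inner ℂ f f : ℂ) = 1 := by
    rw [inner_self_eq_norm_sq_to_K, hf]
    simp
  simp only [inner_sub_left, inner_sub_right, inner_smul_left, inner_smul_right, h1,
    inner_conj_symm]
  ring

/-- Cauchy-Schwarz for the parts orthogonal to `f` -/
theorem cs {f : X} (hf : ‖f‖ = 1) (a b : X) :
    ‖(inner ℂ a b : ℂ) - inner ℂ a f * inner ℂ f b‖ ^ 2 ≤
      (‖a‖ ^ 2 - ‖(inner ℂ f a : ℂ)‖ ^ 2) * (‖b‖ ^ 2 - ‖(inner ℂ f b : ℂ)‖ ^ 2) := by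
  rw [← inner_orth hf, ← orth_sq hf, ← orth_sq hf, ← mul_pow]
  gcongr
  exact norm_inner_le_norm _ _

theorem inner_lt {e z : X} (he : ‖e‖ = 1) (hz : ‖z‖ < 1) : ‖(inner ℂ e z : ℂ)‖ < 1 := by
  have := norm_inner_le_norm (𝕜 := ℂ) e z
  rw [he, one_mul] at this
  linarith

/-- the image of a slice -/
theorem slice_le {e f z : X} (he : ‖e‖ = 1) (hf : ‖f‖ = 1) (hz : ‖z‖ ≤ 1) :
    ‖(inner ℂ e z : ℂ) - inner ℂ e f * inner ℂ f z‖ ^ 2 ≤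
      (1 - ‖(inner ℂ e f : ℂ)‖ ^ 2) * (1 - ‖(inner ℂ f z : ℂ)‖ ^ 2) := by
  have h := cs hf e z
  rw [he, norm_inner_symm f e] at h
  refine h.trans ?_
  have h1 : 0 ≤ 1 - ‖(inner ℂ e f : ℂ)‖ ^ 2 := by
    have := norm_inner_le_norm (𝕜 := ℂ) e f
    rw [he, hf, one_mul] at this
    nlinarith [norm_nonneg (inner ℂ e f : ℂ)]
  have h2 : ‖z‖ ^ 2 ≤ 1 := by nlinarith [norm_nonneg z]
  rw [one_pow]
  gcongr

theorem slice_ex {e f : X} (he : ‖e‖ = 1) (hf : ‖f‖ = 1) {ζ c : ℂ}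
    (h : ‖c - inner ℂ e f * ζ‖ ^ 2 < (1 - ‖(inner ℂ e f : ℂ)‖ ^ 2) * (1 - ‖ζ‖ ^ 2)) (hζ : ‖ζ‖ < 1) :
    ∃ z : X, ‖z‖ < 1 ∧ (inner ℂ f z : ℂ) = ζ ∧ (inner ℂ e z : ℂ) = c := by
  set γ : ℂ := inner ℂ e f with hγ
  have hs : 0 < 1 - ‖γ‖ ^ 2 := by
    have h0 : 0 < 1 - ‖ζ‖ ^ 2 := by nlinarith [norm_nonneg ζ]
    have h1 : 0 < (1 - ‖γ‖ ^ 2) * (1 - ‖ζ‖ ^ 2) := lt_of_le_of_lt (by positivity) h
    exact (pos_iff_pos_of_mul_pos h1).2 h0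
  have hsC : (((1 - ‖γ‖ ^ 2 : ℝ)) : ℂ) ≠ 0 := by exact_mod_cast hs.ne'
  set e' : X := e - (inner ℂ f e : ℂ) • f with he'
  have hff : (inner ℂ f f : ℂ) = 1 := by
    rw [inner_self_eq_norm_sq_to_K, hf]
    simp
  have hee : (inner ℂ e e : ℂ) = 1 := by
    rw [inner_self_eq_norm_sq_to_K, he]
    simp
  have h1 : (inner ℂ f e' : ℂ) = 0 := by
    rw [he', inner_sub_right, inner_smul_right, hff]
    ring
  have hfe : (inner ℂ f e : ℂ) * γ = ((‖γ‖ ^ 2 : ℝ) : ℂ) := by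
    rw [← inner_conj_symm f e, ← hγ, mul_comm, Complex.mul_conj, Complex.normSq_eq_norm_sq]
  have h2 : (inner ℂ e e' : ℂ) = ((1 - ‖γ‖ ^ 2 : ℝ) : ℂ) := by
    rw [he', inner_sub_right, inner_smul_right, hee, ← hγ, hfe]
    push_cast
    ring
  have h3 : ‖e'‖ ^ 2 = 1 - ‖γ‖ ^ 2 := by
    rw [he', orth_sq hf, he, norm_inner_symm f e, ← hγ, one_pow]
  set lam : ℂ := (c - γ * ζ) / ((1 - ‖γ‖ ^ 2 : ℝ) : ℂ) with hlam
  refine ⟨ζ • f + lam • e', ?_, ?_, ?_⟩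
  · have h4 : ‖ζ • f + lam • e'‖ ^ 2 = ‖ζ‖ ^ 2 + ‖lam‖ ^ 2 * ‖e'‖ ^ 2 := by
      have h := @norm_add_sq ℂ X _ _ _ (ζ • f) (lam • e')
      rw [inner_smul_right, inner_smul_left, h1, norm_smul, norm_smul, hf] at h
      rw [h]
      simp
      ring
    have h5 : ‖lam‖ ^ 2 * ‖e'‖ ^ 2 < 1 - ‖ζ‖ ^ 2 := by
      rw [h3, hlam, norm_div, Complex.norm_real, Real.norm_of_nonneg hs.le, div_pow]
      rw [div_mul_eq_mul_div, div_lt_iff₀ (by positivity)]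
      have : ‖c - γ * ζ‖ ^ 2 * (1 - ‖γ‖ ^ 2) < ((1 - ‖γ‖ ^ 2) * (1 - ‖ζ‖ ^ 2)) * (1 - ‖γ‖ ^ 2) :=
        mul_lt_mul_of_pos_right h hs
      nlinarith
    have h6 : ‖ζ • f + lam • e'‖ ^ 2 < 1 := by linarith
    nlinarith [norm_nonneg (ζ • f + lam • e')]
  · rw [inner_add_right, inner_smul_right, inner_smul_right, h1, hff]
    ring
  · rw [inner_add_right, inner_smul_right, inner_smul_right, h2, ← hγ, hlam]
    field_simp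
    ring

/-- main geometric estimate -/
theorem geo_main {e f z : X} {c a : ℂ} {δ : ℝ} (he : ‖e‖ = 1) (hf : ‖f‖ = 1) (hc : ‖c‖ < 1)
    (ha : ‖a‖ < 1) (hδ0 : 0 ≤ δ) (hδ : δ < 1) (hz : ‖z‖ < 1) (hzt : ‖bl a (inner ℂ f z)‖ ≤ δ)
    (hdis : ∀ y : X, ‖y‖ < 1 → (inner ℂ f y : ℂ) = inner ℂ f z → (inner ℂ e y : ℂ) ≠ c)
    (hd : 16 * (1 - ‖(inner ℂ e z : ℂ)‖ ^ 2) ≤ SS c) :
    (1 - δ ^ 2) * (SS c * SS a) ≤ 32 * mm c (inner ℂ e z) ^ 2 := by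
  set ζ : ℂ := inner ℂ f z with hζ
  set x : ℂ := inner ℂ e z with hx
  set γ : ℂ := inner ℂ e f with hγ
  have hζ1 : ‖ζ‖ < 1 := inner_lt hf hz
  have hx1 : ‖x‖ < 1 := inner_lt he hz
  have hγ1 : ‖γ‖ ≤ 1 := by
    have := norm_inner_le_norm (𝕜 := ℂ) e f
    rwa [he, hf, one_mul] at this
  have hS := SS_pos hc
  have ho : ‖γ * ζ‖ ≤ ‖ζ‖ := by
    rw [norm_mul]
    nlinarith [norm_nonneg ζ]
  have h1 : ‖x - γ * ζ‖ ^ 2 ≤ (1 - ‖γ‖ ^ 2) * (1 - ‖ζ‖ ^ 2) := slice_le he hf hz.le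
  have h2 : (1 - ‖γ‖ ^ 2) * (1 - ‖ζ‖ ^ 2) ≤ ‖c - γ * ζ‖ ^ 2 := by
    by_contra hcon
    push Not at hcon
    obtain ⟨y, hy1, hy2, hy3⟩ := slice_ex he hf hcon hζ1
    exact hdis y hy1 hy2 hy3
  have h3 : (1 - ‖γ‖ ^ 2) * (1 - ‖ζ‖ ^ 2) ≤ (1 - ‖γ * ζ‖) ^ 2 := by
    rw [norm_mul]
    nlinarith [sq_nonneg (‖γ‖ - ‖ζ‖)]
  have h4 := planar hc h1 h2 h3 (lt_of_le_of_lt ho hζ1) hd
  have h5 := norm_sub_le_mm hc hx1.le
  have h6 := tube_x ha hζ1 hδ0 hδ hzt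
  have h7 : 1 - ‖ζ‖ ^ 2 ≤ 2 * (1 - ‖γ * ζ‖) := by nlinarith [norm_nonneg ζ]
  have h8 : (1 - δ ^ 2) * SS a ≤ 8 * (1 - ‖γ * ζ‖) := by linarith
  have h9 : SS c * ((1 - δ ^ 2) * SS a) ≤ SS c * (8 * (1 - ‖γ * ζ‖)) :=
    mul_le_mul_of_nonneg_left h8 hS.le
  have h10 : ‖x - c‖ ^ 2 ≤ mm c x ^ 2 := by gcongr
  nlinarith

/-- the estimate of `kk` in a tube which does not meet the hyperplane -/
theorem kk_tube {e f z : X} {c a : ℂ} {δ : ℝ} (he : ‖e‖ = 1) (hf : ‖f‖ = 1) (hc : ‖c‖ < 1)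
    (ha : ‖a‖ < 1) (hδ0 : 0 ≤ δ) (hδ : δ < 1) (hz : ‖z‖ < 1) (hzt : ‖bl a (inner ℂ f z)‖ ≤ δ)
    (hdis : ∀ y : X, ‖y‖ < 1 → (inner ℂ f y : ℂ) = inner ℂ f z → (inner ℂ e y : ℂ) ≠ c)
    (hS : SS c ≤ SS a) :
    ∃ i : ℕ, kk c (inner ℂ e z) ≤ 16 * uu c (inner ℂ e z) +
      (512 / (1 - δ ^ 2)) * ((1 / 2 : ℝ) ^ i *
        uu c (inner ℂ e ((((1 - SS a * (1 / 2) ^ i : ℝ)) : ℂ) • z))) := by
  have hθ : 0 < 1 - δ ^ 2 := by nlinarith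
  have hx1 : ‖(inner ℂ e z : ℂ)‖ < 1 := inner_lt he hz
  have hSc := SS_pos hc
  have hSa := SS_pos ha
  have hm := mm_pos hc hx1.le
  have huu := uu_nonneg hc hx1.le
  have hτ : ∀ i : ℕ, 0 < SS a * (1 / 2) ^ i ∧ SS a * (1 / 2) ^ i ≤ 1 := by
    intro i
    have h1 : (1 / 2 : ℝ) ^ i ≤ 1 := pow_le_one₀ (by norm_num) (by norm_num)
    refine ⟨by positivity, ?_⟩
    nlinarith [SS_le a, show (0 : ℝ) < (1 / 2) ^ i by positivity]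
  have huu' : ∀ i : ℕ, 0 ≤ uu c (inner ℂ e ((((1 - SS a * (1 / 2) ^ i : ℝ)) : ℂ) • z)) := by
    intro i
    refine uu_nonneg hc ?_
    rw [inner_smul_right, norm_mul, Complex.norm_real, Real.norm_of_nonneg (by linarith [(hτ i).2])]
    nlinarith [norm_nonneg (inner ℂ e z : ℂ), (hτ i).1, (hτ i).2]
  by_cases hd : 16 * (1 - ‖(inner ℂ e z : ℂ)‖ ^ 2) ≤ SS c
  swap
  · refine ⟨0, ?_⟩
    push Not at hd
    have h1 : kk c (inner ℂ e z) ≤ 16 * uu c (inner ℂ e z) := by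
      unfold kk uu
      rw [← mul_div_assoc]
      refine div_le_div_of_nonneg_right ?_ (by positivity)
      nlinarith
    have := huu' 0
    have h2 : 0 ≤ (512 / (1 - δ ^ 2)) * ((1 / 2 : ℝ) ^ 0 *
        uu c (inner ℂ e ((((1 - SS a * (1 / 2) ^ 0 : ℝ)) : ℂ) • z))) := by positivity
    linarith
  have hg := geo_main he hf hc ha hδ0 hδ hz hzt hdis hd
  -- the dyadic scale
  have hex : ∃ i : ℕ, SS a * (1 / 2) ^ i ≤ mm c (inner ℂ e z) := by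
    have ht : Tendsto (fun i : ℕ => SS a * (1 / 2 : ℝ) ^ i) atTop (𝓝 (SS a * 0)) :=
      (tendsto_pow_atTop_nhds_zero_of_lt_one (by norm_num) (by norm_num)).const_mul _
    rw [mul_zero] at ht
    exact ((ht.eventually (gt_mem_nhds hm)).exists).imp (fun i hi => hi.le)
  classical
  set i := Nat.find hex with hi
  have hi1 : SS a * (1 / 2) ^ i ≤ mm c (inner ℂ e z) := Nat.find_spec hex
  refine ⟨i, ?_⟩
  have hr := kk_radial hc hx1.le (hτ i).1 (hτ i).2 hi1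
  have hsm : (inner ℂ e ((((1 - SS a * (1 / 2) ^ i : ℝ)) : ℂ) • z) : ℂ) =
      ((1 - SS a * (1 / 2) ^ i : ℝ) : ℂ) * inner ℂ e z := inner_smul_right _ _ _
  have hu0 := huu' i
  rw [hsm] at hu0 ⊢
  set U := uu c (((1 - SS a * (1 / 2) ^ i : ℝ) : ℂ) * inner ℂ e z) with hU
  have hfac : 4 * (SS c / (SS a * (1 / 2) ^ i)) ≤ 512 / (1 - δ ^ 2) * (1 / 2) ^ i := by
    rw [← mul_div_assoc, div_le_iff₀ (hτ i).1]
    have hp : (0 : ℝ) < (1 / 2) ^ i := by positivity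
    rcases Nat.eq_zero_or_pos i with h0 | h0
    · rw [h0]
      simp only [pow_zero, mul_one]
      have h1 : (4 : ℝ) ≤ 512 / (1 - δ ^ 2) := by
        rw [le_div_iff₀ hθ]
        nlinarith
      nlinarith
    · have h1 : mm c (inner ℂ e z) < SS a * (1 / 2) ^ (i - 1) := by
        have := Nat.find_min hex (m := i - 1) (by omega)
        push Not at this
        exact this
      have h2 : (1 / 2 : ℝ) ^ (i - 1) = 2 * (1 / 2) ^ i := by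
        have : i = (i - 1) + 1 := by omega
        rw [this, pow_succ]
        simp
        ring
      rw [h2] at h1
      have h3 : mm c (inner ℂ e z) ^ 2 ≤ (SS a * (2 * (1 / 2) ^ i)) ^ 2 := by gcongr
      have h4 : (1 - δ ^ 2) * (SS c * SS a) ≤ 128 * (SS a * (1 / 2) ^ i) ^ 2 := by nlinarith
      have h5 : (1 - δ ^ 2) * SS c ≤ 128 * SS a * ((1 / 2) ^ i) ^ 2 := by
        have : ((1 - δ ^ 2) * SS c) * SS a ≤ (128 * SS a * ((1 / 2) ^ i) ^ 2) * SS a := by nlinarith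
        exact le_of_mul_le_mul_right this hSa
      rw [div_mul_eq_mul_div, div_mul_eq_mul_div, le_div_iff₀ hθ]
      nlinarith
  calc kk c (inner ℂ e z) ≤ 4 * (SS c / (SS a * (1 / 2) ^ i)) * U := hr
    _ ≤ 512 / (1 - δ ^ 2) * (1 / 2) ^ i * U := by gcongr
    _ ≤ _ := by nlinarith

/-- quasi-metric inequality -/
theorem quasi {a b z : X} (ha : ‖a‖ ≤ 1) (hb : ‖b‖ ≤ 1) (hz : ‖z‖ ≤ 1) :
    ‖1 - (inner ℂ a b : ℂ)‖ ≤ 4 * (‖1 - (inner ℂ a z : ℂ)‖ + ‖1 - (inner ℂ z b : ℂ)‖) := by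
  rcases eq_or_ne z 0 with h0 | h0
  · rw [h0, inner_zero_right, inner_zero_left, sub_zero, norm_one]
    have h1 := norm_sub_le (1 : ℂ) (inner ℂ a b)
    have h2 := norm_inner_le_norm (𝕜 := ℂ) a b
    rw [norm_one] at h1
    nlinarith [norm_nonneg a, norm_nonneg b]
  set t : ℝ := ‖z‖ with ht
  have ht0 : 0 < t := norm_pos_iff.2 h0
  set f : X := ((t : ℂ)⁻¹) • z with hf
  have hf1 : ‖f‖ = 1 := by
    rw [hf, norm_smul, norm_inv, Complex.norm_real, Real.norm_of_nonneg ht0.le, ← ht]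
    field_simp
  have hzf : z = (t : ℂ) • f := by
    rw [hf, smul_smul, mul_inv_cancel₀ (by exact_mod_cast ht0.ne'), one_smul]
  set α : ℂ := inner ℂ a f with hα
  set β : ℂ := inner ℂ f b with hβ
  have h1 : (inner ℂ a z : ℂ) = t * α := by rw [hzf, inner_smul_right]
  have h2 : (inner ℂ z b : ℂ) = t * β := by
    rw [hzf, inner_smul_left, Complex.conj_ofReal]
  have hα1 : ‖α‖ ≤ 1 := by
    have := norm_inner_le_norm (𝕜 := ℂ) a f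
    rw [hf1, mul_one] at this
    linarith
  have hβ1 : ‖β‖ ≤ 1 := by
    have := norm_inner_le_norm (𝕜 := ℂ) f b
    rw [hf1, one_mul] at this
    linarith
  have key : ∀ w : ℂ, ‖w‖ ≤ 1 → ‖1 - w‖ ≤ 2 * ‖1 - t * w‖ := by
    intro w hw
    have e1 : 1 - w = (1 - t * w) - ((1 - t : ℝ) : ℂ) * w := by push_cast; ring
    have e2 : ‖1 - w‖ ≤ ‖1 - t * w‖ + (1 - t) * 1 := by
      rw [e1]
      refine (norm_sub_le _ _).trans ?_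
      rw [norm_mul, Complex.norm_real, Real.norm_of_nonneg (by linarith)]
      gcongr
    have e3 : 1 - t ≤ ‖1 - t * w‖ := by
      have := norm_sub_norm_le (1 : ℂ) (t * w)
      rw [norm_one, norm_mul, Complex.norm_real, Real.norm_of_nonneg ht0.le] at this
      nlinarith
    linarith
  rw [h1, h2]
  have k1 := key α hα1
  have k2 := key β hβ1
  have h3 := cs hf1 a b
  rw [norm_inner_symm f a, ← hα, ← hβ] at h3
  have e4 : 0 ≤ 1 - ‖α‖ := by linarith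
  have e5 : 0 ≤ 1 - ‖β‖ := by linarith
  have e6 : 1 - ‖α‖ ≤ ‖1 - α‖ := by
    have := norm_sub_norm_le (1 : ℂ) α
    rwa [norm_one] at this
  have e7 : 1 - ‖β‖ ≤ ‖1 - β‖ := by
    have := norm_sub_norm_le (1 : ℂ) β
    rwa [norm_one] at this
  have h4 : ‖(inner ℂ a b : ℂ) - α * β‖ ≤ ‖1 - α‖ + ‖1 - β‖ := by
    have i1 : ‖a‖ ^ 2 - ‖α‖ ^ 2 ≤ 2 * ‖1 - α‖ := by nlinarith [norm_nonneg a, norm_nonneg α]
    have i2 : ‖b‖ ^ 2 - ‖β‖ ^ 2 ≤ 2 * ‖1 - β‖ := by nlinarith [norm_nonneg b, norm_nonneg β]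
    have j1 : ‖α‖ ≤ ‖a‖ := by
      have := norm_inner_le_norm (𝕜 := ℂ) a f
      rwa [hf1, mul_one] at this
    have j2 : ‖β‖ ≤ ‖b‖ := by
      have := norm_inner_le_norm (𝕜 := ℂ) f b
      rwa [hf1, one_mul] at this
    have i3 : 0 ≤ ‖a‖ ^ 2 - ‖α‖ ^ 2 := by nlinarith [norm_nonneg α]
    have i4 : 0 ≤ ‖b‖ ^ 2 - ‖β‖ ^ 2 := by nlinarith [norm_nonneg β]
    have i5 : (‖a‖ ^ 2 - ‖α‖ ^ 2) * (‖b‖ ^ 2 - ‖β‖ ^ 2) ≤ (2 * ‖1 - α‖) * (2 * ‖1 - β‖) := by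
      gcongr
    have i6 : ‖(inner ℂ a b : ℂ) - α * β‖ ^ 2 ≤ (‖1 - α‖ + ‖1 - β‖) ^ 2 := by
      nlinarith [sq_nonneg (‖1 - α‖ - ‖1 - β‖)]
    exact le_of_sq_le_sq i6 (by positivity)
  have h5 : ‖1 - α * β‖ ≤ ‖1 - α‖ + ‖1 - β‖ := by
    have : 1 - α * β = (1 - α) + α * (1 - β) := by ring
    rw [this]
    refine (norm_add_le _ _).trans ?_
    rw [norm_mul]
    nlinarith [norm_nonneg (1 - β), norm_nonneg α]
  have h6 : ‖1 - (inner ℂ a b : ℂ)‖ ≤ 2 * (‖1 - α‖ + ‖1 - β‖) := by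
    have : 1 - (inner ℂ a b : ℂ) = (1 - α * β) - ((inner ℂ a b : ℂ) - α * β) := by ring
    rw [this]
    refine (norm_sub_le _ _).trans ?_
    linarith
  linarith

/-- tubes which meet: the larger one is seen from the base point of the smaller one -/
theorem meet {e f z : X} {c a : ℂ} {δ : ℝ} (he : ‖e‖ = 1) (hf : ‖f‖ = 1) (hc : ‖c‖ < 1)
    (ha : ‖a‖ < 1) (hδ0 : 0 ≤ δ) (hδ : δ < 1) (hz : ‖z‖ < 1) (hzt : ‖bl a (inner ℂ f z)‖ ≤ δ)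
    (hzt' : ‖bl c (inner ℂ e z)‖ ≤ δ) (hS : SS a ≤ SS c) :
    (1 - δ ^ 2) ^ 4 / 16384 ≤ uu c (inner ℂ e (a • f)) := by
  have hθ : 0 < 1 - δ ^ 2 := by nlinarith
  set θ : ℝ := 1 - δ ^ 2 with hθd
  set ζ : ℂ := inner ℂ f z with hζ
  set x : ℂ := inner ℂ e z with hx
  set γ : ℂ := inner ℂ e f with hγ
  have hζ1 : ‖ζ‖ < 1 := inner_lt hf hz
  have hx1 : ‖x‖ < 1 := inner_lt he hz
  have hγ1 : ‖γ‖ ≤ 1 := by
    have := norm_inner_le_norm (𝕜 := ℂ) e f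
    rwa [he, hf, one_mul] at this
  have hSc := SS_pos hc
  have hSa := SS_pos ha
  have hp : (inner ℂ e (a • f) : ℂ) = a * γ := inner_smul_right _ _ _
  rw [hp]
  have hp1 : ‖a * γ‖ < 1 := by
    rw [norm_mul]
    nlinarith [norm_nonneg a, norm_nonneg γ]
  have hm := mm_pos hc hp1.le
  -- upper bound of the denominator
  have hq := @quasi X _ _ (c • e) (a • f) z (by rw [norm_smul, he]; linarith)
    (by rw [norm_smul, hf]; linarith) hz.le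
  have q1 : (inner ℂ (c • e) (a • f) : ℂ) = starRingEnd ℂ c * (a * γ) := by
    rw [inner_smul_left, inner_smul_right]
  have q2 : (inner ℂ (c • e) z : ℂ) = starRingEnd ℂ c * x := inner_smul_left _ _ _
  have q3 : ‖1 - (inner ℂ z (a • f) : ℂ)‖ = mm a ζ := by
    unfold mm
    rw [← RCLike.norm_conj, map_sub, map_one, inner_conj_symm, inner_smul_left]
  rw [q1, q2, q3] at hq
  change mm c (a * γ) ≤ 4 * (mm c x + mm a ζ) at hq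
  have t1 := tube_mm hc hx1 hδ0 hδ hzt'
  have t2 := tube_mm ha hζ1 hδ0 hδ hzt
  rw [← hθd] at t1 t2
  have hq2 : θ * mm c (a * γ) ≤ 16 * SS c := by nlinarith
  -- lower bound of the numerator
  have s1 := tube_x hc hx1 hδ0 hδ hzt'
  have s2 := tube_x' ha hζ1 hδ0 hδ hzt
  rw [← hθd] at s1 s2
  have s3 : ‖x - γ * ζ‖ ^ 2 ≤ (1 - ‖γ‖ ^ 2) * (1 - ‖ζ‖ ^ 2) := slice_le he hf hz.le
  have s4 : (1 - ‖γ‖ ^ 2) * (1 - ‖ζ‖ ^ 2) ≤ (1 - ‖γ * ζ‖) ^ 2 := by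
    rw [norm_mul]
    nlinarith [sq_nonneg (‖γ‖ - ‖ζ‖)]
  have ho : ‖γ * ζ‖ < 1 := by
    rw [norm_mul]
    nlinarith [norm_nonneg ζ, norm_nonneg γ]
  have s5 : ‖x - γ * ζ‖ ≤ 1 - ‖γ * ζ‖ := le_of_sq_le_sq (s3.trans s4) (by linarith)
  have s6 : ‖γ * ζ‖ - ‖x‖ ≤ ‖x - γ * ζ‖ := by
    rw [norm_sub_rev]
    exact norm_sub_norm_le _ _
  have s7 : θ * SS c ≤ 16 * (1 - ‖γ * ζ‖ ^ 2) := by
    have : 1 - ‖x‖ ≤ 2 * (1 - ‖γ * ζ‖) := by linarith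
    nlinarith [norm_nonneg x, norm_nonneg (γ * ζ)]
  have s8 : θ * (1 - ‖γ * ζ‖ ^ 2) ≤ 4 * (1 - ‖a * γ‖ ^ 2) := by
    rw [norm_mul, norm_mul, mul_pow, mul_pow]
    have u1 : 0 ≤ 1 - ‖γ‖ ^ 2 := by nlinarith [norm_nonneg γ]
    have u2 : ‖γ‖ ^ 2 * (θ * (1 - ‖ζ‖ ^ 2)) ≤ ‖γ‖ ^ 2 * (4 * SS a) := by gcongr
    have u3 : θ ≤ 1 := by rw [hθd]; nlinarith
    unfold SS at u2
    nlinarith
  have s9 : θ ^ 2 * SS c ≤ 64 * (1 - ‖a * γ‖ ^ 2) := by nlinarith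
  unfold uu
  rw [le_div_iff₀ (by positivity)]
  have v1 : (θ * mm c (a * γ)) ^ 2 ≤ (16 * SS c) ^ 2 := by gcongr
  have v2 : θ ^ 4 / 16384 * mm c (a * γ) ^ 2 ≤ θ ^ 2 / 16384 * (16 * SS c) ^ 2 := by
    have : θ ^ 4 / 16384 * mm c (a * γ) ^ 2 = θ ^ 2 / 16384 * (θ * mm c (a * γ)) ^ 2 := by ring
    rw [this]
    gcongr
  have v3 : θ ^ 2 / 16384 * (16 * SS c) ^ 2 = (θ ^ 2 * SS c / 64) * SS c := by ring
  rw [v3] at v2
  refine v2.trans ?_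
  rw [mul_comm]
  refine mul_le_mul_of_nonneg_left ?_ hSc.le
  linarith

end Run7.h512
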