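import Mathlib
import Pool.Agent.H720R2.Cor.Jones
import Pool.Agent.Run7.h512.Geo

/-!
Weights for families of hyperplane tubes in the unit ball.
-/

set_option autoImplicit false

open Metric Set Filter Topology Complex

namespace Run7.h512

variable {X : Type*} [NormedAddCommGroup X] [InnerProductSpace ℂ X]

/-- greedy colouring -/
theorem colour {ι : Type*} [Fintype ι] [DecidableEq ι] (S : ι → ℝ) (r : ι → ι → Prop)
    (hr : ∀ j k, r j k → r k j) (L : ℕ)
    (h : ∀ k, ∀ T : Finset ι, (∀ j ∈ T, j ≠ k ∧ r j k ∧ S k ≤ S j) → T.card ≤ L) :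
    ∃ col : ι → ℕ, (∀ k, col k ≤ L) ∧ ∀ j k, j ≠ k → r j k → col j ≠ col k := by
  classical
  suffices H : ∀ s : Finset ι, ∃ col : ι → ℕ, (∀ k, col k ≤ L) ∧
      ∀ j ∈ s, ∀ k ∈ s, j ≠ k → r j k → col j ≠ col k by
    obtain ⟨col, h1, h2⟩ := H Finset.univ
    exact ⟨col, h1, fun j k => h2 j (Finset.mem_univ _) k (Finset.mem_univ _)⟩
  intro s
  induction s using Finset.induction_on_min_value S with
  | empty => exact ⟨fun _ => 0, fun _ => Nat.zero_le _, by simp⟩
  | insert a s ha hmin ih =>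
    obtain ⟨col, h1, h2⟩ := ih
    set T : Finset ι := s.filter (fun j => r j a) with hT
    have hTc : T.card ≤ L := h a T (fun j hj => by
      rw [hT, Finset.mem_filter] at hj
      exact ⟨fun hja => ha (hja ▸ hj.1), hj.2, hmin j hj.1⟩)
    have hex : ∃ c ∈ Finset.range (L + 1), c ∉ T.image col := by
      by_contra hcon
      push Not at hcon
      have h3 : (Finset.range (L + 1)).card ≤ (T.image col).card := Finset.card_le_card hcon
      rw [Finset.card_range] at h3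
      have h4 := Finset.card_image_le (s := T) (f := col)
      omega
    obtain ⟨c, hc1, hc2⟩ := hex
    refine ⟨Function.update col a c, ?_, ?_⟩
    · intro k
      by_cases hk : k = a
      · rw [hk, Function.update_self]
        exact Nat.lt_succ_iff.1 (Finset.mem_range.1 hc1)
      · rw [Function.update_of_ne hk]
        exact h1 k
    · intro j hj k hk hjk hrjk
      rw [Finset.mem_insert] at hj hk
      rcases hj with rfl | hj
      · rcases hk with rfl | hk
        · exact absurd rfl hjk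
        · have hka : k ≠ j := fun h => hjk h.symm
          rw [Function.update_self, Function.update_of_ne hka]
          intro hcc
          apply hc2
          rw [Finset.mem_image]
          refine ⟨k, ?_, hcc.symm⟩
          rw [hT, Finset.mem_filter]
          exact ⟨hk, hr _ _ hrjk⟩
      · rcases hk with rfl | hk
        · rw [Function.update_self, Function.update_of_ne hjk]
          intro hcc
          apply hc2
          rw [Finset.mem_image]
          refine ⟨j, ?_, hcc⟩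
          rw [hT, Finset.mem_filter]
          exact ⟨hj, hrjk⟩
        · have hja : j ≠ a := fun h => ha (h ▸ hj)
          have hka : k ≠ a := fun h => ha (h ▸ hk)
          rw [Function.update_of_ne hja, Function.update_of_ne hka]
          exact h2 j hj k hk hjk hrjk

/-- the family of hyperplanes `⟨e k, z⟩ = a k` -/
structure HF (X : Type*) [NormedAddCommGroup X] [InnerProductSpace ℂ X] {ι : Type*} [Fintype ι]
    (e : ι → X) (a : ι → ℂ) (M : ℝ) : Prop where
  he : ∀ k, ‖e k‖ = 1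
  ha : ∀ k, ‖a k‖ < 1
  sum : ∀ z : X, ‖z‖ < 1 → ∑ k, uu (a k) (inner ℂ (e k) z) ≤ M

variable {ι : Type*} [Fintype ι] {e : ι → X} {a : ι → ℂ} {M δ : ℝ}

theorem HF.sub (h : HF X e a M) (J : Finset ι) {z : X} (hz : ‖z‖ < 1) :
    ∑ k ∈ J, uu (a k) (inner ℂ (e k) z) ≤ M := by
  refine le_trans ?_ (h.sum z hz)
  exact Finset.sum_le_sum_of_subset_of_nonneg (Finset.subset_univ _)
    (fun k _ _ => uu_nonneg (h.ha k) (inner_lt (h.he k) hz).le)

theorem HF.M0 (h : HF X e a M) : 0 ≤ M := by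
  have := h.sub ∅ (z := (0 : X)) (by simp)
  simpa using this

/-- the key bound -/
theorem HF.sum_AA (h : HF X e a M) (hδ0 : 0 ≤ δ) (hδ : δ < 1) (k : ι) (J : Finset ι)
    (hJ : ∀ j ∈ J, SS (a j) ≤ SS (a k) ∧ ∀ y : X, ‖y‖ < 1 → ‖bl (a k) (inner ℂ (e k) y)‖ ≤ δ →
      (inner ℂ (e j) y : ℂ) ≠ a j) {z : X} (hz : ‖z‖ < 1) (hzt : ‖bl (a k) (inner ℂ (e k) z)‖ ≤ δ) :
    ∑ j ∈ J, AA (a j) (inner ℂ (e j) z) ≤ (17 + 1024 / (1 - δ ^ 2)) * M := by
  have hθ : 0 < 1 - δ ^ 2 := by nlinarith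
  have hM0 := h.M0
  have h1 : ∀ j : ι, ∃ i : ℕ, j ∈ J → kk (a j) (inner ℂ (e j) z) ≤
      16 * uu (a j) (inner ℂ (e j) z) + (512 / (1 - δ ^ 2)) * ((1 / 2 : ℝ) ^ i *
        uu (a j) (inner ℂ (e j) ((((1 - SS (a k) * (1 / 2) ^ i : ℝ)) : ℂ) • z))) := by
    intro j
    by_cases hj : j ∈ J
    · obtain ⟨i, hi⟩ := kk_tube (h.he j) (h.he k) (h.ha j) (h.ha k) hδ0 hδ hz hzt
        (fun y hy hyz => (hJ j hj).2 y hy (by rw [hyz]; exact hzt)) (hJ j hj).1
      exact ⟨i, fun _ => hi⟩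
    · exact ⟨0, fun hj' => absurd hj' hj⟩
  choose i hi using h1
  have hpt : ∀ n : ℕ, ‖(((1 - SS (a k) * (1 / 2) ^ n : ℝ)) : ℂ) • z‖ < 1 := by
    intro n
    have hS := SS_pos (h.ha k)
    have hS1 := SS_le (a k)
    have hp1 : (1 / 2 : ℝ) ^ n ≤ 1 := pow_le_one₀ (by norm_num) (by norm_num)
    have hp0 : (0 : ℝ) < (1 / 2 : ℝ) ^ n := by positivity
    have h2 : SS (a k) * (1 / 2) ^ n ≤ 1 := by nlinarith
    have h3 : 0 < SS (a k) * (1 / 2) ^ n := by positivity
    rw [norm_smul, Complex.norm_real, Real.norm_of_nonneg (by linarith)]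
    nlinarith [norm_nonneg z]
  set I : ℕ := J.sup i + 1 with hI
  have hb : ∑ j ∈ J, (1 / 2 : ℝ) ^ (i j) *
      uu (a j) (inner ℂ (e j) ((((1 - SS (a k) * (1 / 2) ^ (i j) : ℝ)) : ℂ) • z)) ≤ 2 * M := by
    calc ∑ j ∈ J, (1 / 2 : ℝ) ^ (i j) *
          uu (a j) (inner ℂ (e j) ((((1 - SS (a k) * (1 / 2) ^ (i j) : ℝ)) : ℂ) • z))
        ≤ ∑ j ∈ J, ∑ n ∈ Finset.range I, (1 / 2 : ℝ) ^ n *
          uu (a j) (inner ℂ (e j) ((((1 - SS (a k) * (1 / 2) ^ n : ℝ)) : ℂ) • z)) := by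
          refine Finset.sum_le_sum (fun j hj => ?_)
          refine Finset.single_le_sum (f := fun n => (1 / 2 : ℝ) ^ n *
            uu (a j) (inner ℂ (e j) ((((1 - SS (a k) * (1 / 2) ^ n : ℝ)) : ℂ) • z)))
            (fun n _ => ?_) ?_
          · exact mul_nonneg (by positivity) (uu_nonneg (h.ha j) (inner_lt (h.he j) (hpt n)).le)
          · rw [Finset.mem_range, hI]
            exact Nat.lt_succ_of_le (Finset.le_sup hj)
      _ = ∑ n ∈ Finset.range I, (1 / 2 : ℝ) ^ n * ∑ j ∈ J,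
          uu (a j) (inner ℂ (e j) ((((1 - SS (a k) * (1 / 2) ^ n : ℝ)) : ℂ) • z)) := by
          rw [Finset.sum_comm]
          exact Finset.sum_congr rfl (fun n _ => by rw [Finset.mul_sum])
      _ ≤ ∑ n ∈ Finset.range I, (1 / 2 : ℝ) ^ n * M := by
          refine Finset.sum_le_sum (fun n _ => ?_)
          exact mul_le_mul_of_nonneg_left (h.sub J (hpt n)) (by positivity)
      _ = (∑ n ∈ Finset.range I, (1 / 2 : ℝ) ^ n) * M := by rw [Finset.sum_mul]
      _ ≤ 2 * M := by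
          refine mul_le_mul_of_nonneg_right ?_ hM0
          have := sum_geometric_two_le I
          simpa using this
  have hu := h.sub J hz
  calc ∑ j ∈ J, AA (a j) (inner ℂ (e j) z)
      ≤ ∑ j ∈ J, (17 * uu (a j) (inner ℂ (e j) z) + (512 / (1 - δ ^ 2)) * ((1 / 2 : ℝ) ^ (i j) *
        uu (a j) (inner ℂ (e j) ((((1 - SS (a k) * (1 / 2) ^ (i j) : ℝ)) : ℂ) • z)))) := by
        refine Finset.sum_le_sum (fun j hj => ?_)
        have h1 := @AA_le (a j) _ (inner_lt (h.he j) hz).le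
        have h2 := hi j hj
        linarith
    _ = 17 * ∑ j ∈ J, uu (a j) (inner ℂ (e j) z) + (512 / (1 - δ ^ 2)) *
        ∑ j ∈ J, (1 / 2 : ℝ) ^ (i j) *
        uu (a j) (inner ℂ (e j) ((((1 - SS (a k) * (1 / 2) ^ (i j) : ℝ)) : ℂ) • z)) := by
        rw [Finset.sum_add_distrib, Finset.mul_sum, Finset.mul_sum]
    _ ≤ 17 * M + (512 / (1 - δ ^ 2)) * (2 * M) := by gcongr
    _ = (17 + 1024 / (1 - δ ^ 2)) * M := by ring

/-- the relation: the closed tubes meet -/
def Meets (e : ι → X) (a : ι → ℂ) (δ : ℝ) (j k : ι) : Prop :=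
  ∃ z : X, ‖z‖ < 1 ∧ ‖bl (a j) (inner ℂ (e j) z)‖ ≤ δ ∧ ‖bl (a k) (inner ℂ (e k) z)‖ ≤ δ

theorem HF.card (h : HF X e a M) (hδ0 : 0 ≤ δ) (hδ : δ < 1) (k : ι) (T : Finset ι)
    (hT : ∀ j ∈ T, j ≠ k ∧ Meets e a δ j k ∧ SS (a k) ≤ SS (a j)) :
    T.card ≤ ⌊M * 16384 / (1 - δ ^ 2) ^ 4⌋₊ := by
  have hθ : 0 < 1 - δ ^ 2 := by nlinarith
  have hM0 := h.M0
  have hak : ‖a k • e k‖ < 1 := by
    rw [norm_smul, h.he k, mul_one]
    exact h.ha k
  refine Nat.le_floor ?_
  rw [le_div_iff₀ (by positivity)]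
  have h1 : ∑ j ∈ T, (1 - δ ^ 2) ^ 4 / 16384 ≤ M := by
    refine le_trans (Finset.sum_le_sum (fun j hj => ?_)) (h.sub T hak)
    obtain ⟨-, ⟨z, hz, hz1, hz2⟩, hS⟩ := hT j hj
    exact meet (h.he j) (h.he k) (h.ha j) (h.ha k) hδ0 hδ hz hz2 hz1 hS
  rw [Finset.sum_const, nsmul_eq_mul] at h1
  linarith

/-- the exponent -/
noncomputable def ww (c x : ℂ) : ℂ :=
  (SS c : ℂ) * (1 + starRingEnd ℂ c * x) / (1 - starRingEnd ℂ c * x)

theorem ww_re {c x : ℂ} (hc : ‖c‖ < 1) (hx : ‖x‖ ≤ 1) : (ww c x).re = AA c x := by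
  have hm := mm_pos hc hx
  unfold ww AA
  set y : ℂ := starRingEnd ℂ c * x with hy
  have h1 : ‖c‖ ^ 2 * ‖x‖ ^ 2 = ‖y‖ ^ 2 := by
    rw [hy, norm_mul, RCLike.norm_conj, mul_pow]
  have h2 : mm c x = ‖1 - y‖ := rfl
  rw [h1, h2]
  rw [h2] at hm
  rw [Complex.div_re, ← Complex.normSq_eq_norm_sq, ← Complex.normSq_eq_norm_sq, ← add_div]
  congr 1
  simp only [Complex.mul_re, Complex.mul_im, Complex.ofReal_re, Complex.ofReal_im, Complex.add_re,
    Complex.add_im, Complex.sub_re, Complex.sub_im, Complex.one_re, Complex.one_im,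
    Complex.normSq_apply]
  ring

theorem ww_diff {c : ℂ} {e : X} (hc : ‖c‖ < 1) (he : ‖e‖ = 1) :
    DifferentiableOn ℂ (fun z : X => ww c (inner ℂ e z)) (ball 0 1) := by
  intro z hz
  have hz1 := mem_ball_zero_iff.1 hz
  have hm := mm_pos hc (inner_lt he hz1).le
  have hne : 1 - starRingEnd ℂ c * inner ℂ e z ≠ 0 := norm_pos_iff.1 hm
  have hi : DifferentiableAt ℂ (fun z : X => (inner ℂ e z : ℂ)) z :=
    (innerSL ℂ e).differentiableAt
  unfold ww
  simp only [div_eq_mul_inv]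
  exact ((((hi.const_mul _).const_add _).const_mul _).fun_mul
    (((hi.const_mul _).const_sub _).fun_inv hne)).differentiableWithinAt

/-- the factor -/
noncomputable def kf (c x : ℂ) : ℂ := ((SS c : ℂ) / (1 - starRingEnd ℂ c * x)) ^ 2

theorem kf_norm {c x : ℂ} (hc : ‖c‖ < 1) : ‖kf c x‖ = kk c x := by
  unfold kf kk mm
  rw [norm_pow, norm_div, Complex.norm_real, Real.norm_of_nonneg (SS_pos hc).le, div_pow]

theorem kf_diff {c : ℂ} {e : X} (hc : ‖c‖ < 1) (he : ‖e‖ = 1) :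
    DifferentiableOn ℂ (fun z : X => kf c (inner ℂ e z)) (ball 0 1) := by
  intro z hz
  have hz1 := mem_ball_zero_iff.1 hz
  have hm := mm_pos hc (inner_lt he hz1).le
  have hne : 1 - starRingEnd ℂ c * inner ℂ e z ≠ 0 := norm_pos_iff.1 hm
  have hi : DifferentiableAt ℂ (fun z : X => (inner ℂ e z : ℂ)) z :=
    (innerSL ℂ e).differentiableAt
  unfold kf
  simp only [div_eq_mul_inv]
  exact (((((hi.const_mul _).const_sub _).fun_inv hne).const_mul _).fun_pow
    2).differentiableWithinAt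

/-- **Weights for families of tubes.** -/
theorem weights (δ M : ℝ) (hδ0 : 0 ≤ δ) (hδ : δ < 1) :
    ∃ L c : ℝ, 0 < c ∧ ∀ (X : Type) [NormedAddCommGroup X] [InnerProductSpace ℂ X] (ι : Type)
      [Fintype ι] (e : ι → X) (a : ι → ℂ), HF X e a M →
      ∃ W : ι → X → ℂ, (∀ k, DifferentiableOn ℂ (W k) (ball 0 1)) ∧
        (∀ k, ∀ z ∈ ball (0 : X) 1, ‖W k z‖ ≤ 1) ∧
        (∀ z ∈ ball (0 : X) 1, ∑ k, ‖W k z‖ ≤ L) ∧
        ∀ k, ∀ z ∈ ball (0 : X) 1, ‖bl (a k) (inner ℂ (e k) z)‖ ≤ δ → c ≤ ‖W k z‖ := by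
  have hθ : 0 < 1 - δ ^ 2 := by nlinarith
  set L : ℕ := ⌊M * 16384 / (1 - δ ^ 2) ^ 4⌋₊ with hL
  refine ⟨(L : ℝ) + 1, (1 - δ ^ 2) ^ 2 / 4 * Real.exp (-(5 + (17 + 1024 / (1 - δ ^ 2)) * M)),
    by positivity, ?_⟩
  intro X _ _ ι _ e a h
  classical
  obtain ⟨col, hcol1, hcol2⟩ := colour (fun k => SS (a k)) (Meets e a δ)
    (fun j k ⟨z, h1, h2, h3⟩ => ⟨z, h1, h3, h2⟩) L (fun k T hT => h.card hδ0 hδ k T hT)
  set J : ι → Finset ι := fun k => Finset.univ.filter
    (fun j => col j = col k ∧ SS (a j) ≤ SS (a k)) with hJ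
  set W : ι → X → ℂ := fun k z => kf (a k) (inner ℂ (e k) z) *
    Complex.exp (-∑ j ∈ J k, ww (a j) (inner ℂ (e j) z)) with hW
  have hWn : ∀ k, ∀ z : X, ‖z‖ < 1 → ‖W k z‖ = kk (a k) (inner ℂ (e k) z) *
      Real.exp (-∑ j ∈ J k, AA (a j) (inner ℂ (e j) z)) := by
    intro k z hz
    simp only [hW]
    rw [norm_mul, kf_norm (h.ha k), Complex.norm_exp]
    congr 2
    rw [Complex.neg_re, Complex.re_sum]
    congr 1
    exact Finset.sum_congr rfl (fun j _ => ww_re (h.ha j) (inner_lt (h.he j) hz).le)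
  have hAA : ∀ z : X, ‖z‖ < 1 → ∀ j, 0 ≤ AA (a j) (inner ℂ (e j) z) := fun z hz j =>
    AA_nonneg (h.ha j) (inner_lt (h.he j) hz).le
  have hself : ∀ k, k ∈ J k := fun k => by simp [hJ]
  refine ⟨W, ?_, ?_, ?_, ?_⟩
  · intro k
    have h1 : DifferentiableOn ℂ (fun z : X => -∑ j ∈ J k, ww (a j) (inner ℂ (e j) z))
        (ball 0 1) := by
      refine DifferentiableOn.fun_neg ?_
      exact DifferentiableOn.fun_sum (fun j _ => ww_diff (h.ha j) (h.he j))
    exact (kf_diff (h.ha k) (h.he k)).mul h1.cexp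
  · intro k z hz
    have hz1 := mem_ball_zero_iff.1 hz
    rw [hWn k z hz1]
    have h1 : AA (a k) (inner ℂ (e k) z) ≤ ∑ j ∈ J k, AA (a j) (inner ℂ (e j) z) :=
      Finset.single_le_sum (f := fun j => AA (a j) (inner ℂ (e j) z)) (fun j _ => hAA z hz1 j)
        (hself k)
    have h2 := kk_le_AA (h.ha k) (inner_lt (h.he k) hz1).le
    set A := AA (a k) (inner ℂ (e k) z) with hA
    calc kk (a k) (inner ℂ (e k) z) * Real.exp (-∑ j ∈ J k, AA (a j) (inner ℂ (e j) z))
        ≤ A * Real.exp (-A) := by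
          have := hAA z hz1 k
          gcongr
      _ ≤ 1 := by
          rw [Real.exp_neg, ← div_eq_mul_inv, div_le_one (Real.exp_pos _)]
          linarith [Real.add_one_le_exp A]
  · intro z hz
    have hz1 := mem_ball_zero_iff.1 hz
    have h1 : ∀ k, ‖W k z‖ ≤ AA (a k) (inner ℂ (e k) z) *
        Real.exp (-∑ j ∈ J k, AA (a j) (inner ℂ (e j) z)) := by
      intro k
      rw [hWn k z hz1]
      have h2 := kk_le_AA (h.ha k) (inner_lt (h.he k) hz1).le
      gcongr
    have h2 : ∑ k, ‖W k z‖ ≤ ∑ n ∈ Finset.range (L + 1), ∑ k ∈ Finset.univ.filter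
        (fun k => col k = n), AA (a k) (inner ℂ (e k) z) *
        Real.exp (-∑ j ∈ J k, AA (a j) (inner ℂ (e j) z)) := by
      rw [Finset.sum_fiberwise_of_maps_to]
      · exact Finset.sum_le_sum (fun k _ => h1 k)
      · intro k _
        rw [Finset.mem_range]
        exact Nat.lt_succ_of_le (hcol1 k)
    refine h2.trans ?_
    have h3 : ∀ n ∈ Finset.range (L + 1), ∑ k ∈ Finset.univ.filter
        (fun k => col k = n), AA (a k) (inner ℂ (e k) z) *
        Real.exp (-∑ j ∈ J k, AA (a j) (inner ℂ (e j) z)) ≤ 1 := by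
      intro n _
      have h5 := Pool.Agent.H720R2.Cor.exp_sum_le (Finset.univ.filter (fun k => col k = n))
        (fun k => -SS (a k)) (fun k => AA (a k) (inner ℂ (e k) z)) (fun k _ => hAA z hz1 k)
      have h6 : ∀ k ∈ Finset.univ.filter (fun k => col k = n),
          (Finset.univ.filter (fun k => col k = n)).filter
            (fun j => -SS (a k) ≤ -SS (a j)) = J k := by
        intro k hk
        rw [Finset.mem_filter] at hk
        simp only [hJ]
        rw [Finset.filter_filter]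
        refine Finset.filter_congr (fun j _ => ?_)
        rw [neg_le_neg_iff, hk.2]
      have h7 : ∑ k ∈ Finset.univ.filter (fun k => col k = n), AA (a k) (inner ℂ (e k) z) *
          Real.exp (-∑ j ∈ J k, AA (a j) (inner ℂ (e j) z)) =
          ∑ k ∈ Finset.univ.filter (fun k => col k = n), AA (a k) (inner ℂ (e k) z) *
          Real.exp (-∑ j ∈ (Finset.univ.filter (fun k => col k = n)).filter
            (fun j => -SS (a k) ≤ -SS (a j)), AA (a j) (inner ℂ (e j) z)) := by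
        refine Finset.sum_congr rfl (fun k hk => ?_)
        rw [h6 k hk]
      rw [h7]
      refine h5.trans ?_
      have := Real.exp_pos (-∑ j ∈ Finset.univ.filter (fun k => col k = n),
        AA (a j) (inner ℂ (e j) z))
      linarith
    refine (Finset.sum_le_sum h3).trans ?_
    simp
  · intro k z hz hzt
    have hz1 := mem_ball_zero_iff.1 hz
    rw [hWn k z hz1]
    have h1 : ∑ j ∈ J k, AA (a j) (inner ℂ (e j) z) ≤ 5 + (17 + 1024 / (1 - δ ^ 2)) * M := by
      rw [← Finset.add_sum_erase _ _ (hself k)]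
      have h2 : AA (a k) (inner ℂ (e k) z) ≤ 5 := by
        have i1 := @AA_le (a k) _ (inner_lt (h.he k) hz1).le
        have i2 := kk_le_four (h.ha k) (inner_lt (h.he k) hz1).le
        have i3 := uu_le_one (h.ha k) (inner_lt (h.he k) hz1).le
        linarith
      have h3 := h.sum_AA hδ0 hδ k ((J k).erase k) (by
        intro j hj
        rw [Finset.mem_erase, hJ, Finset.mem_filter] at hj
        obtain ⟨hne, -, hc, hS⟩ := hj
        refine ⟨hS, fun y hy hyt hyj => hcol2 j k hne ?_ hc⟩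
        refine ⟨y, hy, ?_, hyt⟩
        rw [hyj]
        unfold bl
        simpa using hδ0) hz1 hzt
      exact add_le_add h2 h3
    have h2 := tube_kk (h.ha k) (inner_lt (h.he k) hz1) hδ0 hδ hzt
    have h3 := kk_nonneg (a k) (inner ℂ (e k) z)
    gcongr

end Run7.h512
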