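import Mathlib
import Pool.Agent.Y263.GF.Alg
import Pool.Agent.Run7.h512.Wt

/-!
Corona data which are solvable on the tubes of a family of hyperplanes.
-/

set_option autoImplicit false

open Metric Set Filter Topology Complex

namespace Run7.h512

open Pool.Agent.Y263.LF (Bez)
open Pool.Agent.Y263.GF (AF frac_AF loc_aff)

theorem lin_AF {X : Type} [NormedAddCommGroup X] [InnerProductSpace ℂ X] (e : X) :
    AF (ball (0 : X) 1) (fun z => (inner ℂ e z : ℂ)) := by
  have h := frac_AF (innerSL ℂ e) (0 : X →L[ℂ] ℂ) 0 1 (fun z _ => by simp)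
  have h1 : (fun z : X => ((innerSL ℂ e) z + 0) / ((0 : X →L[ℂ] ℂ) z + 1)) =
      fun z => (inner ℂ e z : ℂ) := by
    funext z
    simp
  rwa [h1] at h

theorem bl_diff {c : ℂ} (hc : ‖c‖ < 1) : DifferentiableOn ℂ (bl c) (ball 0 1) := by
  intro x hx
  have hx1 := mem_ball_zero_iff.1 hx
  have hm := mm_pos hc hx1.le
  have hne : 1 - starRingEnd ℂ c * x ≠ 0 := norm_pos_iff.1 hm
  unfold bl
  simp only [div_eq_mul_inv]
  have h1 : DifferentiableAt ℂ (fun x : ℂ => x - c) x := by fun_prop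
  have h2 : DifferentiableAt ℂ (fun x : ℂ => 1 - starRingEnd ℂ c * x) x :=
    (differentiableAt_id.const_mul _).const_sub _
  exact (h1.fun_mul (h2.fun_inv hne)).differentiableWithinAt

theorem bl_le {c x : ℂ} (hc : ‖c‖ < 1) (hx : ‖x‖ ≤ 1) : ‖bl c x‖ ≤ 1 := by
  have h1 := uu_eq hc hx
  have h2 := uu_nonneg hc hx
  nlinarith [norm_nonneg (bl c x)]

theorem blz_diff {X : Type*} [NormedAddCommGroup X] [InnerProductSpace ℂ X] {c : ℂ} {e : X}
    (hc : ‖c‖ < 1) (he : ‖e‖ = 1) :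
    DifferentiableOn ℂ (fun z : X => bl c (inner ℂ e z)) (ball 0 1) := by
  refine (bl_diff hc).comp (g := bl c) (f := fun z : X => (inner ℂ e z : ℂ)) ?_ ?_
  · exact (innerSL ℂ e).differentiable.differentiableOn
  · intro z hz
    exact mem_ball_zero_iff.2 (inner_lt he (mem_ball_zero_iff.1 hz))

section

variable {X : Type} [NormedAddCommGroup X] [InnerProductSpace ℂ X] [FiniteDimensional ℂ X]

/-- one tube -/
theorem one_tube (m : ℕ) {δ Q c : ℝ} (hδ : 0 < δ) (hc : 0 < c) : ∃ C : ℝ, 0 ≤ C ∧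
    ∀ (X : Type) [NormedAddCommGroup X] [InnerProductSpace ℂ X] [FiniteDimensional ℂ X]
    (e : X) (a : ℂ), ‖e‖ = 1 → ‖a‖ < 1 → ∀ W : X → ℂ, DifferentiableOn ℂ W (ball 0 1) →
    (∀ z ∈ ball (0 : X) 1, ‖W z‖ ≤ 1) →
    (∀ z ∈ ball (0 : X) 1, ‖bl a (inner ℂ e z)‖ < δ → c ≤ ‖W z‖) →
    ∀ F : Fin m → X → ℂ, (∀ i, DifferentiableOn ℂ (F i) (ball 0 1)) →
    (∀ i, ∀ z ∈ ball (0 : X) 1, ‖F i z‖ ≤ 1) →
    Bez {z : X | ‖z‖ < 1 ∧ ‖bl a (inner ℂ e z)‖ < δ} F Q →
    ∃ (g : X → ℂ) (b : Fin m → X → ℂ), DifferentiableOn ℂ g (ball 0 1) ∧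
      (∀ i, DifferentiableOn ℂ (b i) (ball 0 1)) ∧ (∀ z ∈ ball (0 : X) 1, ‖g z‖ ≤ C) ∧
      (∀ i, ∀ z ∈ ball (0 : X) 1, ‖b i z‖ ≤ C) ∧
      ∀ z ∈ ball (0 : X) 1, bl a (inner ℂ e z) * g z = 1 - W z * ∑ i, F i z * b i z := by
  obtain ⟨C, hC, H⟩ := loc_aff 1 1 m (ε := δ) (Q := max Q 0 / c) hδ (by positivity)
  refine ⟨C, hC, ?_⟩
  intro X _ _ _ e a he ha W hW hW1 hWc F hF hF1 hbez
  obtain ⟨h, h1, h2, h3⟩ := H X (fun _ z => (inner ℂ e z : ℂ)) (fun _ _ => bl a)
    (fun _ => lin_AF e) (fun _ z hz => inner_lt he (mem_ball_zero_iff.1 hz))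
    (fun _ _ => bl_diff ha) (fun _ _ x hx => bl_le ha (mem_ball_zero_iff.1 hx).le)
    (fun i z => W z * F i z) (fun i => hW.mul (hF i))
    (fun i z hz => by
      rw [norm_mul]
      have := hW1 z hz
      have := hF1 i z hz
      nlinarith [norm_nonneg (W z), norm_nonneg (F i z)])
    (by
      obtain ⟨g, g1, g2, g3⟩ := hbez
      have hsub : {z : X | ‖z‖ < 1 ∧ ∀ _ : Fin 1, ∀ _ : Fin 1, ‖bl a (inner ℂ e z)‖ < δ} ⊆
          {z : X | ‖z‖ < 1 ∧ ‖bl a (inner ℂ e z)‖ < δ} := fun z hz => ⟨hz.1, hz.2 0 0⟩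
      have hne : ∀ z ∈ {z : X | ‖z‖ < 1 ∧ ‖bl a (inner ℂ e z)‖ < δ}, W z ≠ 0 := by
        intro z hz
        have h4 := hWc z (mem_ball_zero_iff.2 hz.1) hz.2
        exact norm_pos_iff.1 (lt_of_lt_of_le hc h4)
      refine ⟨fun i z => g i z * (W z)⁻¹, fun i => ?_, fun i z hz => ?_, fun z hz => ?_⟩
      · refine DifferentiableOn.mono ?_ hsub
        refine (g1 i).mul ?_
        exact (hW.mono (fun z hz => mem_ball_zero_iff.2 hz.1)).inv hne
      · have hz' := hsub hz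
        have h4 := hWc z (mem_ball_zero_iff.2 hz'.1) hz'.2
        have h5 := g2 i z hz'
        rw [norm_mul, norm_inv, ← div_eq_mul_inv]
        have h6 : ‖g i z‖ ≤ max Q 0 := h5.trans (le_max_left _ _)
        gcongr
      · have hz' := hsub hz
        rw [← g3 z hz']
        refine Finset.sum_congr rfl (fun i _ => ?_)
        have := hne z hz'
        field_simp)
  refine ⟨h (Sum.inl (0, 0)), fun i => h (Sum.inr i), h1 _, fun i => h1 _, fun z hz => h2 _ z hz,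
    fun i z hz => h2 _ z hz, fun z hz => ?_⟩
  have h4 := h3 z hz
  rw [Fintype.sum_sum_type] at h4
  simp only [Sum.elim_inl, Sum.elim_inr] at h4
  have h5 : ∑ q : Fin 1 × Fin 1, bl a (inner ℂ e z) * h (Sum.inl q) z =
      bl a (inner ℂ e z) * h (Sum.inl (0, 0)) z := by
    rw [Fintype.sum_prod_type]
    simp
  rw [h5] at h4
  rw [Finset.mul_sum, eq_sub_iff_add_eq]
  rw [← h4]
  congr 1
  exact Finset.sum_congr rfl (fun i _ => by ring)

theorem prod_diff {X : Type*} [NormedAddCommGroup X] [NormedSpace ℂ X] {ι : Type*} (s : Finset ι)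
    (f : ι → X → ℂ) (U : Set X) (h : ∀ k ∈ s, DifferentiableOn ℂ (f k) U) :
    DifferentiableOn ℂ (fun z => ∏ k ∈ s, f k z) U := by
  classical
  induction s using Finset.induction_on with
  | empty =>
    simp only [Finset.prod_empty]
    exact differentiableOn_const _
  | insert a s ha ih =>
    simp only [Finset.prod_insert ha]
    exact (h a (Finset.mem_insert_self _ _)).mul
      (ih (fun k hk => h k (Finset.mem_insert_of_mem hk)))

theorem prod_le_exp {ι : Type*} (s : Finset ι) (x : ι → ℂ) (t : ι → ℝ)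
    (h : ∀ k ∈ s, ‖x k‖ ≤ Real.exp (t k)) : ‖∏ k ∈ s, x k‖ ≤ Real.exp (∑ k ∈ s, t k) := by
  rw [norm_prod, Real.exp_sum]
  exact Finset.prod_le_prod (fun k _ => norm_nonneg _) h

/-- expansion of the product -/
theorem expand {X : Type*} [NormedAddCommGroup X] [NormedSpace ℂ X] {ι : Type*} {m : ℕ} {C : ℝ}
    (hC : 0 ≤ C) (W : ι → X → ℂ) (F : Fin m → X → ℂ)
    (b : ι → Fin m → X → ℂ) (hW : ∀ k, DifferentiableOn ℂ (W k) (ball 0 1))
    (hF : ∀ i, DifferentiableOn ℂ (F i) (ball 0 1)) (hF1 : ∀ i, ∀ z ∈ ball (0 : X) 1, ‖F i z‖ ≤ 1)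
    (hb : ∀ k i, DifferentiableOn ℂ (b k i) (ball 0 1))
    (hbC : ∀ k i, ∀ z ∈ ball (0 : X) 1, ‖b k i z‖ ≤ C) (s : Finset ι) :
    ∃ y : Fin m → X → ℂ, (∀ i, DifferentiableOn ℂ (y i) (ball 0 1)) ∧
      (∀ i, ∀ z ∈ ball (0 : X) 1, ‖y i z‖ ≤
        C * (∑ k ∈ s, ‖W k z‖) * Real.exp (m * C * ∑ k ∈ s, ‖W k z‖)) ∧
      ∀ z ∈ ball (0 : X) 1, 1 - ∏ k ∈ s, (1 - W k z * ∑ i, F i z * b k i z) =
        ∑ i, F i z * y i z := by
  classical
  have hfac : ∀ k, ∀ z ∈ ball (0 : X) 1, ‖1 - W k z * ∑ i, F i z * b k i z‖ ≤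
      Real.exp (m * C * ‖W k z‖) := by
    intro k z hz
    have h1 : ‖∑ i, F i z * b k i z‖ ≤ m * C := by
      refine (norm_sum_le _ _).trans ?_
      have : ∀ i ∈ (Finset.univ : Finset (Fin m)), ‖F i z * b k i z‖ ≤ C := by
        intro i _
        rw [norm_mul]
        have h2 := hF1 i z hz
        have h3 := hbC k i z hz
        nlinarith [norm_nonneg (F i z), norm_nonneg (b k i z)]
      refine (Finset.sum_le_sum this).trans ?_
      simp
    have h2 : ‖1 - W k z * ∑ i, F i z * b k i z‖ ≤ 1 + ‖W k z‖ * (m * C) := by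
      refine (norm_sub_le _ _).trans ?_
      rw [norm_one, norm_mul]
      gcongr
    refine h2.trans ?_
    have := Real.add_one_le_exp (m * C * ‖W k z‖)
    linarith
  induction s using Finset.induction_on with
  | empty =>
    refine ⟨fun _ _ => 0, fun _ => differentiableOn_const _, fun i z _ => by simp, fun z _ => by simp⟩
  | insert a s ha ih =>
    obtain ⟨y, y1, y2, y3⟩ := ih
    have hPd : DifferentiableOn ℂ (fun z => ∏ k ∈ s, (1 - W k z * ∑ i, F i z * b k i z))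
        (ball 0 1) := by
      refine prod_diff s _ _ (fun k _ => ?_)
      refine (differentiableOn_const _).sub ((hW k).mul ?_)
      exact DifferentiableOn.fun_sum (fun i _ => (hF i).mul (hb k i))
    refine ⟨fun i z => y i z + W a z * b a i z * ∏ k ∈ s, (1 - W k z * ∑ i, F i z * b k i z),
      fun i => ?_, fun i z hz => ?_, fun z hz => ?_⟩
    · exact (y1 i).add (((hW a).mul (hb a i)).mul hPd)
    · rw [Finset.sum_insert ha]
      set σ : ℝ := ∑ k ∈ s, ‖W k z‖ with hσ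
      have hσ0 : 0 ≤ σ := Finset.sum_nonneg (fun k _ => norm_nonneg _)
      have hP : ‖∏ k ∈ s, (1 - W k z * ∑ i, F i z * b k i z)‖ ≤ Real.exp (m * C * σ) := by
        have h1 := prod_le_exp s (fun k => 1 - W k z * ∑ i, F i z * b k i z)
          (fun k => m * C * ‖W k z‖) (fun k _ => hfac k z hz)
        rwa [← Finset.mul_sum] at h1
      have h3 := y2 i z hz
      have h4 := hbC a i z hz
      have h5 : Real.exp (m * C * σ) ≤ Real.exp (m * C * (‖W a z‖ + σ)) := by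
        refine Real.exp_le_exp.2 ?_
        have : 0 ≤ m * C * ‖W a z‖ := by positivity
        linarith
      calc ‖y i z + W a z * b a i z * ∏ k ∈ s, (1 - W k z * ∑ i, F i z * b k i z)‖
          ≤ ‖y i z‖ + ‖W a z‖ * ‖b a i z‖ * ‖∏ k ∈ s, (1 - W k z * ∑ i, F i z * b k i z)‖ := by
            refine (norm_add_le _ _).trans ?_
            rw [norm_mul, norm_mul]
        _ ≤ C * σ * Real.exp (m * C * σ) + ‖W a z‖ * C * Real.exp (m * C * σ) := by gcongr
        _ = C * (‖W a z‖ + σ) * Real.exp (m * C * σ) := by ring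
        _ ≤ _ := by gcongr
    · rw [Finset.prod_insert ha]
      have h1 := y3 z hz
      have h2 : ∑ i, F i z * (y i z + W a z * b a i z *
          ∏ k ∈ s, (1 - W k z * ∑ i, F i z * b k i z)) =
          ∑ i, F i z * y i z + W a z * (∑ i, F i z * b a i z) *
            ∏ k ∈ s, (1 - W k z * ∑ i, F i z * b k i z) := by
        rw [Finset.mul_sum, Finset.sum_mul, ← Finset.sum_add_distrib]
        exact Finset.sum_congr rfl (fun i _ => by ring)
      rw [h2, ← h1]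
      ring

end

/-- **Main theorem on families of tubes.** -/
theorem tubes_main (m : ℕ) (M : ℝ) {ε : ℝ} (Q : ℝ) (hε : 0 < ε) : ∃ C : ℝ, 0 ≤ C ∧
    ∀ (X : Type) [NormedAddCommGroup X] [InnerProductSpace ℂ X] [FiniteDimensional ℂ X]
      (ι : Type) [Fintype ι] (e : ι → X) (a : ι → ℂ), HF X e a M →
      ∀ F : Fin m → X → ℂ, (∀ i, DifferentiableOn ℂ (F i) (ball 0 1)) →
      (∀ i, ∀ z ∈ ball (0 : X) 1, ‖F i z‖ ≤ 1) →
      (∀ k, Bez {z : X | ‖z‖ < 1 ∧ ‖bl (a k) (inner ℂ (e k) z)‖ < ε} F Q) →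
      ∃ (h : Fin m → X → ℂ) (g : X → ℂ), (∀ i, DifferentiableOn ℂ (h i) (ball 0 1)) ∧
        DifferentiableOn ℂ g (ball 0 1) ∧ (∀ i, ∀ z ∈ ball (0 : X) 1, ‖h i z‖ ≤ C) ∧
        (∀ z ∈ ball (0 : X) 1, ‖g z‖ ≤ C) ∧
        ∀ z ∈ ball (0 : X) 1, ∑ i, F i z * h i z +
          (∏ k, bl (a k) (inner ℂ (e k) z)) * g z = 1 := by
  set δ : ℝ := min ε (1 / 2) with hδd
  have hδ : 0 < δ := lt_min hε (by norm_num)
  have hδ2 : δ ≤ 1 / 2 := min_le_right _ _
  have hδε : δ ≤ ε := min_le_left _ _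
  obtain ⟨L, c, hc, HW⟩ := weights δ M hδ.le (by linarith)
  obtain ⟨C₀, hC₀, H1⟩ := one_tube m (δ := δ) (Q := Q) hδ hc
  set L' : ℝ := max L 0 with hL'
  refine ⟨max (C₀ * L' * Real.exp (m * C₀ * L'))
    (Real.exp (m * C₀ * L' + (1 / δ ^ 2 + 2 * C₀) * max M 0)), by positivity, ?_⟩
  intro X _ _ _ ι _ e a h F hF hF1 hbez
  classical
  obtain ⟨W, w1, w2, w3, w4⟩ := HW X ι e a h
  have w3' : ∀ z ∈ ball (0 : X) 1, ∑ k, ‖W k z‖ ≤ L' := fun z hz => (w3 z hz).trans (le_max_left _ _)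
  have hk : ∀ k, ∃ (g : X → ℂ) (b : Fin m → X → ℂ), DifferentiableOn ℂ g (ball 0 1) ∧
      (∀ i, DifferentiableOn ℂ (b i) (ball 0 1)) ∧ (∀ z ∈ ball (0 : X) 1, ‖g z‖ ≤ C₀) ∧
      (∀ i, ∀ z ∈ ball (0 : X) 1, ‖b i z‖ ≤ C₀) ∧
      ∀ z ∈ ball (0 : X) 1, bl (a k) (inner ℂ (e k) z) * g z =
        1 - W k z * ∑ i, F i z * b i z := by
    intro k
    refine H1 X (e k) (a k) (h.he k) (h.ha k) (W k) (w1 k) (w2 k)
      (fun z hz hzt => w4 k z hz hzt.le) F hF hF1 ?_
    exact (hbez k).mono (fun z hz => ⟨hz.1, lt_of_lt_of_le hz.2 hδε⟩) le_rfl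
  choose g b g1 b1 g2 b2 g3 using hk
  obtain ⟨y, y1, y2, y3⟩ := expand hC₀ W F b w1 hF hF1 b1 b2 Finset.univ
  refine ⟨y, fun z => ∏ k, g k z, y1, ?_, ?_, ?_, ?_⟩
  · exact prod_diff _ _ _ (fun k _ => g1 k)
  · intro i z hz
    refine le_trans ((y2 i z hz).trans ?_) (le_max_left _ _)
    have h0 : 0 ≤ ∑ k, ‖W k z‖ := Finset.sum_nonneg (fun k _ => norm_nonneg _)
    have := w3' z hz
    gcongr
  · intro z hz
    have hz1 := mem_ball_zero_iff.1 hz
    refine le_trans ?_ (le_max_right _ _)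
    have h1 : ∀ k ∈ (Finset.univ : Finset ι), ‖g k z‖ ≤ Real.exp (m * C₀ * ‖W k z‖ +
        (1 / δ ^ 2 + 2 * C₀) * uu (a k) (inner ℂ (e k) z)) := by
      intro k _
      have hx := inner_lt (h.he k) hz1
      have hu := uu_eq (h.ha k) hx.le
      have hu0 := uu_nonneg (h.ha k) hx.le
      set β := bl (a k) (inner ℂ (e k) z) with hβ
      set u := uu (a k) (inner ℂ (e k) z) with hud
      by_cases hlt : ‖β‖ < δ
      · have h2 : 3 / 4 ≤ u := by
          rw [← hu]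
          nlinarith [norm_nonneg β]
        refine (g2 k z hz).trans ?_
        have h3 : C₀ ≤ Real.exp C₀ := by linarith [Real.add_one_le_exp C₀]
        refine h3.trans (Real.exp_le_exp.2 ?_)
        have h4 : 0 ≤ m * C₀ * ‖W k z‖ := by positivity
        have h5 : 0 ≤ 1 / δ ^ 2 * u := by positivity
        nlinarith
      · push Not at hlt
        have hβ0 : 0 < ‖β‖ := lt_of_lt_of_le hδ hlt
        have hβ1 : ‖β‖ ≤ 1 := bl_le (h.ha k) hx.le
        have h2 : ‖g k z‖ = ‖1 - W k z * ∑ i, F i z * b k i z‖ / ‖β‖ := by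
          rw [← g3 k z hz, norm_mul, ← hβ]
          field_simp
        have h3 : ‖1 - W k z * ∑ i, F i z * b k i z‖ ≤ Real.exp (m * C₀ * ‖W k z‖) := by
          have i1 : ‖∑ i, F i z * b k i z‖ ≤ m * C₀ := by
            refine (norm_sum_le _ _).trans ?_
            have : ∀ i ∈ (Finset.univ : Finset (Fin m)), ‖F i z * b k i z‖ ≤ C₀ := by
              intro i _
              rw [norm_mul]
              have j1 := hF1 i z hz
              have j2 := b2 k i z hz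
              nlinarith [norm_nonneg (F i z), norm_nonneg (b k i z)]
            refine (Finset.sum_le_sum this).trans ?_
            simp
          have i2 : ‖1 - W k z * ∑ i, F i z * b k i z‖ ≤ 1 + ‖W k z‖ * (m * C₀) := by
            refine (norm_sub_le _ _).trans ?_
            rw [norm_one, norm_mul]
            gcongr
          refine i2.trans ?_
          have := Real.add_one_le_exp (m * C₀ * ‖W k z‖)
          linarith
        have h4 : 1 / ‖β‖ ≤ Real.exp (1 / δ ^ 2 * u) := by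
          have j1 : 1 / ‖β‖ ≤ 1 / ‖β‖ ^ 2 := by
            refine one_div_le_one_div_of_le (by positivity) ?_
            nlinarith
          have j2 : 1 / ‖β‖ ^ 2 = 1 + u / ‖β‖ ^ 2 := by
            rw [← hu]
            field_simp
            ring
          have j3 : u / ‖β‖ ^ 2 ≤ u / δ ^ 2 := by gcongr
          have j4 := Real.add_one_le_exp (1 / δ ^ 2 * u)
          have j5 : u / δ ^ 2 = 1 / δ ^ 2 * u := by ring
          linarith
        rw [h2, div_eq_mul_one_div]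
        calc ‖1 - W k z * ∑ i, F i z * b k i z‖ * (1 / ‖β‖)
            ≤ Real.exp (m * C₀ * ‖W k z‖) * Real.exp (1 / δ ^ 2 * u) := by gcongr
          _ = Real.exp (m * C₀ * ‖W k z‖ + 1 / δ ^ 2 * u) := by rw [← Real.exp_add]
          _ ≤ _ := by
            refine Real.exp_le_exp.2 ?_
            nlinarith
    refine (prod_le_exp _ _ _ h1).trans (Real.exp_le_exp.2 ?_)
    rw [Finset.sum_add_distrib, ← Finset.mul_sum, ← Finset.mul_sum]
    have h2 := w3' z hz
    have h3 : ∑ k, uu (a k) (inner ℂ (e k) z) ≤ max M 0 := (h.sum z hz1).trans (le_max_left _ _)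
    gcongr
  · intro z hz
    have h1 := y3 z hz
    have h2 : ∏ k, (1 - W k z * ∑ i, F i z * b k i z) =
        (∏ k, bl (a k) (inner ℂ (e k) z)) * ∏ k, g k z := by
      rw [← Finset.prod_mul_distrib]
      exact Finset.prod_congr rfl (fun k _ => (g3 k z hz).symm)
    rw [← h1, h2]
    ring

end Run7.h512
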