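import Mathlib
import Pool.Agent.Run7.h512.Tubes

/-!
Sums over packed points where a bounded holomorphic function is small are controlled by the defect
`1 - |f|²`.
-/

set_option autoImplicit false

open Metric Set Filter Topology Complex

namespace Run7.h512

theorem bl_lt {c x : ℂ} (hc : ‖c‖ < 1) (hx : ‖x‖ < 1) : ‖bl c x‖ < 1 := by
  have h1 := uu_eq hc hx.le
  have h2 : 0 < uu c x := by
    unfold uu
    have := SS_pos hc
    have h3 : 0 < 1 - ‖x‖ ^ 2 := by nlinarith [norm_nonneg x]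
    have := mm_pos hc hx.le
    positivity
  nlinarith [norm_nonneg (bl c x)]

theorem bl_inv {b x : ℂ} (hb : ‖b‖ < 1) (hx : ‖x‖ ≤ 1) : bl (-b) (bl b x) = x := by
  have hm := mm_pos hb hx
  have hne : 1 - starRingEnd ℂ b * x ≠ 0 := norm_pos_iff.1 hm
  have hS := SS_pos hb
  have hbb : starRingEnd ℂ b * b = ((‖b‖ ^ 2 : ℝ) : ℂ) := by
    rw [mul_comm, Complex.mul_conj, Complex.normSq_eq_norm_sq]
  have h1 : (1 : ℂ) - starRingEnd ℂ b * b ≠ 0 := by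
    rw [hbb]
    have : (1 : ℝ) - ‖b‖ ^ 2 ≠ 0 := by unfold SS at hS; linarith
    exact_mod_cast this
  unfold bl
  rw [map_neg]
  generalize hcb : starRingEnd ℂ b = c at *
  have h2 : (x - b) / (1 - c * x) - -b = x * (1 - c * b) / (1 - c * x) := by
    rw [eq_div_iff hne, sub_mul, div_mul_cancel₀ _ hne]
    ring
  have h3 : 1 - -c * ((x - b) / (1 - c * x)) = (1 - c * b) / (1 - c * x) := by
    rw [eq_div_iff hne, sub_mul, mul_assoc, div_mul_cancel₀ _ hne]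
    ring
  rw [h2, h3, div_div_div_cancel_right₀ hne, mul_div_cancel_right₀ _ h1]

/-- weak form of the Schwarz-Pick inequality -/
theorem pick {f : ℂ → ℂ} (hf : DifferentiableOn ℂ f (ball 0 1))
    (hf1 : ∀ ζ ∈ ball (0 : ℂ) 1, ‖f ζ‖ ≤ 1) {b w : ℂ} (hb : ‖b‖ < 1) (hw : ‖w‖ < 1) :
    ‖f w - f b‖ ≤ 2 * ‖bl b w‖ := by
  have hb' : ‖-b‖ < 1 := by rwa [norm_neg]
  have hmap : MapsTo (bl (-b)) (ball 0 1) (ball 0 1) := fun x hx =>
    mem_ball_zero_iff.2 (bl_lt hb' (mem_ball_zero_iff.1 hx))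
  have h0 : bl (-b) 0 = b := by
    unfold bl
    simp
  have h1 := Complex.dist_le_div_mul_dist_of_mapsTo_ball (f := fun x => f (bl (-b) x)) (c := 0)
    (R₁ := 1) (R₂ := 2) (z := bl b w) (hf.comp (bl_diff hb') hmap) (by
      intro x hx
      simp only [mem_closedBall, dist_eq_norm]
      have h2 := hf1 _ (hmap hx)
      have h3 := hf1 _ (hmap (mem_ball_self one_pos))
      exact (norm_sub_le _ _).trans (by linarith)) (mem_ball_zero_iff.2 (bl_lt hb hw))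
  simp only [h0, bl_inv hb hw.le, dist_eq_norm, sub_zero] at h1
  linarith

theorem bl_unit {c x : ℂ} (hc : ‖c‖ < 1) (hx : ‖x‖ = 1) : ‖bl c x‖ = 1 := by
  have h1 := uu_eq hc hx.le
  have h2 : uu c x = 0 := by
    unfold uu
    rw [hx]
    simp
  rw [h2] at h1
  have h3 : ‖bl c x‖ ^ 2 = 1 := by linarith
  nlinarith [norm_nonneg (bl c x), sq_nonneg (‖bl c x‖ - 1)]

theorem bl_diff' {c x : ℂ} (hc : ‖c‖ < 1) (hx : ‖x‖ ≤ 1) : DifferentiableAt ℂ (bl c) x := by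
  have hm := mm_pos hc hx
  have hne : 1 - starRingEnd ℂ c * x ≠ 0 := norm_pos_iff.1 hm
  unfold bl
  simp only [div_eq_mul_inv]
  have h1 : DifferentiableAt ℂ (fun x : ℂ => x - c) x := by fun_prop
  have h2 : DifferentiableAt ℂ (fun x : ℂ => 1 - starRingEnd ℂ c * x) x :=
    (differentiableAt_id.const_mul _).const_sub _
  exact h1.fun_mul (h2.fun_inv hne)

/-- **Refined packing estimate.** -/
theorem refined {Cp : ℝ} (hCp : 0 ≤ Cp) : ∃ C : ℝ, 0 ≤ C ∧ ∀ (f : ℂ → ℂ) (R : ℝ), 1 < R →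
    DifferentiableOn ℂ f (ball 0 R) → (∀ ζ : ℂ, ‖ζ‖ ≤ 1 → ‖f ζ‖ ≤ 1) →
    ∀ (ι : Type) [Fintype ι] (b : ι → ℂ), (∀ i, ‖b i‖ < 1) → (∀ i, ‖f (b i)‖ ≤ 1 / 8) →
      (∀ w : ℂ, ‖w‖ < 1 → ∑ i, uu (b i) w ≤ Cp) →
      ∀ w : ℂ, ‖w‖ < 1 → ∑ i, uu (b i) w ≤ C * (1 - ‖f w‖ ^ 2) := by
  obtain ⟨l, hl⟩ : ∃ l : ℕ, Real.exp (15 * Cp) ≤ 2 ^ l := pow_unbounded_of_one_lt _ (by norm_num)
    |>.imp fun _ h => h.le
  refine ⟨max (4 * (l : ℝ)) (4 / 3 * Cp), by positivity, ?_⟩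
  intro f R hR hf hf1 ι _ b hb hfb hsum w hw
  have hfw := hf1 w hw.le
  have hfw0 : 0 ≤ 1 - ‖f w‖ ^ 2 := by nlinarith [norm_nonneg (f w)]
  rcases le_or_gt ‖f w‖ (1 / 2) with hsm | hbig
  · have h1 := hsum w hw
    have h2 : (3 : ℝ) / 4 ≤ 1 - ‖f w‖ ^ 2 := by nlinarith [norm_nonneg (f w)]
    calc ∑ i, uu (b i) w ≤ Cp := h1
      _ = 4 / 3 * Cp * (3 / 4) := by ring
      _ ≤ max (4 * (l : ℝ)) (4 / 3 * Cp) * (1 - ‖f w‖ ^ 2) := by
        gcongr
        exact le_max_right _ _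
  -- the Blaschke product
  have hfd : ∀ ζ : ℂ, ‖ζ‖ ≤ 1 → DifferentiableAt ℂ f ζ := fun ζ hζ =>
    hf.differentiableAt (isOpen_ball.mem_nhds (mem_ball_zero_iff.2 (lt_of_le_of_lt hζ hR)))
  have hfD : DifferentiableOn ℂ f (ball 0 1) := fun ζ hζ =>
    (hfd ζ (mem_ball_zero_iff.1 hζ).le).differentiableWithinAt
  set B : ℂ → ℂ := fun ζ => ∏ i, bl (b i) ζ with hB
  have hBd : ∀ ζ : ℂ, ‖ζ‖ ≤ 1 → DifferentiableAt ℂ B ζ := by
    intro ζ hζ
    have : B = ∏ i, bl (b i) := by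
      funext ζ
      simp [hB]
    rw [this]
    exact DifferentiableAt.finsetProd (fun i _ => bl_diff' (hb i) hζ)
  have hlow : ∀ ζ : ℂ, ‖ζ‖ < 1 → 1 / 2 ≤ ‖f ζ‖ → ∀ i, 3 / 16 ≤ ‖bl (b i) ζ‖ := by
    intro ζ hζ hfζ i
    have h1 := pick hfD (fun ζ hζ => hf1 ζ (mem_ball_zero_iff.1 hζ).le) (hb i) hζ
    have h2 := norm_sub_norm_le (f ζ) (f (b i))
    have h3 := hfb i
    linarith
  have hBne : ∀ ζ : ℂ, ‖ζ‖ ≤ 1 → 1 / 2 ≤ ‖f ζ‖ → B ζ ≠ 0 := by
    intro ζ hζ hfζ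
    refine Finset.prod_ne_zero_iff.2 (fun i _ h0 => ?_)
    rcases lt_or_eq_of_le hζ with h1 | h1
    · have := hlow ζ h1 hfζ i
      rw [h0, norm_zero] at this
      linarith
    · have := bl_unit (hb i) h1
      rw [h0, norm_zero] at this
      exact zero_ne_one this
  have hBlow : ∀ ζ : ℂ, ‖ζ‖ < 1 → 1 / 2 ≤ ‖f ζ‖ → Real.exp (-(15 * Cp)) ≤ ‖B ζ‖ := by
    intro ζ hζ hfζ
    have h1 : ∀ i ∈ (Finset.univ : Finset ι),
        Real.exp (-(15 * uu (b i) ζ)) ≤ ‖bl (b i) ζ‖ := by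
      intro i _
      have h2 := hlow ζ hζ hfζ i
      have h3 := uu_eq (hb i) hζ.le
      have h4 := uu_nonneg (hb i) hζ.le
      set u := uu (b i) ζ
      set t := ‖bl (b i) ζ‖ with ht
      have h5 : t ^ 2 = 1 - u := by linarith
      have h6 : Real.exp (-(30 * u)) ≤ t ^ 2 := by
        -- `exp (-30 u) ≤ 1 - u` for `u ≤ 1 - 9/256`
        have h7 : 1 - u ≥ 9 / 256 := by nlinarith
        have h8 := Real.add_one_le_exp (30 * u)
        rw [Real.exp_neg, h5, inv_le_comm₀ (Real.exp_pos _) (by linarith), inv_le_iff_one_le_mul₀ (by linarith)]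
        have h9 : 1 ≤ (30 * u + 1) * (1 - u) := by nlinarith
        nlinarith
      have h10 : Real.exp (-(15 * u)) ^ 2 = Real.exp (-(30 * u)) := by
        rw [← Real.exp_nat_mul]
        congr 1
        push_cast
        ring
      rw [← h10] at h6
      exact le_of_sq_le_sq h6 (norm_nonneg _)
    calc Real.exp (-(15 * Cp)) ≤ Real.exp (∑ i, -(15 * uu (b i) ζ)) := by
          refine Real.exp_le_exp.2 ?_
          rw [Finset.sum_neg_distrib, ← Finset.mul_sum]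
          have := hsum ζ hζ
          linarith
      _ = ∏ i, Real.exp (-(15 * uu (b i) ζ)) := Real.exp_sum _ _
      _ ≤ ∏ i, ‖bl (b i) ζ‖ := Finset.prod_le_prod (fun _ _ => (Real.exp_pos _).le) h1
      _ = ‖B ζ‖ := by rw [hB, norm_prod]
  -- the maximum principle
  set Ω : Set ℂ := {ζ | ‖ζ‖ < 1 ∧ 1 / 2 < ‖f ζ‖} with hΩ
  have hfc : ContinuousOn f (closedBall 0 1) := fun ζ hζ =>
    (hfd ζ (mem_closedBall_zero_iff.1 hζ)).continuousAt.continuousWithinAt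
  have hclos : closure Ω ⊆ {ζ | ‖ζ‖ ≤ 1 ∧ 1 / 2 ≤ ‖f ζ‖} := by
    have h1 : IsClosed {ζ | ζ ∈ closedBall (0 : ℂ) 1 ∧ f ζ ∈ {y : ℂ | 1 / 2 ≤ ‖y‖}} :=
      hfc.preimage_isClosed_of_isClosed isClosed_closedBall
        (isClosed_le continuous_const continuous_norm)
    have h2 : Ω ⊆ {ζ | ζ ∈ closedBall (0 : ℂ) 1 ∧ f ζ ∈ {y : ℂ | 1 / 2 ≤ ‖y‖}} := fun ζ hζ =>
      ⟨mem_closedBall_zero_iff.2 hζ.1.le, hζ.2.le⟩
    intro ζ hζ
    have h3 := closure_minimal h2 h1 hζ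
    exact ⟨mem_closedBall_zero_iff.1 h3.1, h3.2⟩
  have hΩo : IsOpen Ω := by
    have h1 := hfD.continuousOn.isOpen_inter_preimage isOpen_ball
      (isOpen_lt (continuous_const (y := (1 / 2 : ℝ))) (continuous_norm (E := ℂ)))
    have h2 : Ω = ball 0 1 ∩ f ⁻¹' {y : ℂ | 1 / 2 < ‖y‖} := by
      ext ζ
      simp [hΩ]
    rw [h2]
    exact h1
  have hmax : ∀ ζ ∈ closure Ω, ‖f ζ ^ l / B ζ‖ ≤ 1 := by
    intro ζ hζ
    refine Complex.norm_le_of_forall_mem_frontier_norm_le (U := Ω) (f := fun ζ => f ζ ^ l / B ζ)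
      ?_ ?_ ?_ hζ
    · exact (isBounded_ball (x := (0 : ℂ)) (r := 1)).subset
        (fun ζ hζ => mem_ball_zero_iff.2 hζ.1)
    · refine DifferentiableOn.diffContOnCl (fun y hy => ?_)
      have h1 := hclos hy
      exact (((hfd y h1.1).pow l).fun_div (hBd y h1.1) (hBne y h1.1 h1.2)).differentiableWithinAt
    · intro y hy
      have h1 := hclos (frontier_subset_closure hy)
      have h2 : y ∉ Ω := by
        rw [hΩo.frontier_eq] at hy
        exact hy.2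
      rw [norm_div, norm_pow]
      rcases lt_or_eq_of_le h1.1 with h3 | h3
      · have h4 : ‖f y‖ = 1 / 2 := by
          refine le_antisymm ?_ h1.2
          by_contra hcon
          push Not at hcon
          exact h2 ⟨h3, hcon⟩
        have h5 := hBlow y h3 h1.2
        have h6 : 0 < ‖B y‖ := lt_of_lt_of_le (Real.exp_pos _) h5
        rw [div_le_one h6, h4]
        refine le_trans ?_ h5
        rw [Real.exp_neg, div_pow, one_pow, one_div]
        exact inv_anti₀ (Real.exp_pos _) hl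
      · have h4 : ‖B y‖ = 1 := by
          rw [hB, norm_prod]
          exact Finset.prod_eq_one (fun i _ => bl_unit (hb i) h3)
        rw [h4, div_one]
        exact pow_le_one₀ (norm_nonneg _) (hf1 y h1.1)
  have hwΩ : w ∈ Ω := ⟨hw, hbig⟩
  have h1 := hmax w (subset_closure hwΩ)
  have hBw : 0 < ‖B w‖ := norm_pos_iff.2 (hBne w hw.le hbig.le)
  rw [norm_div, norm_pow, div_le_one hBw] at h1
  -- conclusion
  have h2 : ‖B w‖ ^ 2 ≤ Real.exp (-∑ i, uu (b i) w) := by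
    rw [hB, norm_prod, ← Finset.prod_pow, ← Finset.sum_neg_distrib, Real.exp_sum]
    refine Finset.prod_le_prod (fun _ _ => by positivity) (fun i _ => ?_)
    have h3 := uu_eq (hb i) hw.le
    have h4 := Real.add_one_le_exp (-uu (b i) w)
    linarith
  have h3 : (‖f w‖ ^ 2) ^ l ≤ Real.exp (-∑ i, uu (b i) w) := by
    refine le_trans ?_ h2
    rw [← pow_mul, mul_comm, pow_mul]
    gcongr
  have hf2 : 1 / 4 < ‖f w‖ ^ 2 := by nlinarith
  have h4 : l * Real.log (‖f w‖ ^ 2) ≤ -∑ i, uu (b i) w := by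
    have h5 := Real.log_le_log (by positivity) h3
    rwa [Real.log_pow, Real.log_exp] at h5
  have h5 := Real.one_sub_inv_le_log_of_pos (x := ‖f w‖ ^ 2) (by positivity)
  have h6 : (‖f w‖ ^ 2)⁻¹ - 1 ≤ 4 * (1 - ‖f w‖ ^ 2) := by
    have h7 : (‖f w‖ ^ 2)⁻¹ - 1 = (1 - ‖f w‖ ^ 2) / ‖f w‖ ^ 2 := by
      field_simp
    rw [h7, div_le_iff₀ (by positivity)]
    nlinarith
  have hl0 : (0 : ℝ) ≤ l := Nat.cast_nonneg l
  calc ∑ i, uu (b i) w ≤ l * ((‖f w‖ ^ 2)⁻¹ - 1) := by nlinarith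
    _ ≤ l * (4 * (1 - ‖f w‖ ^ 2)) := by gcongr
    _ = 4 * l * (1 - ‖f w‖ ^ 2) := by ring
    _ ≤ _ := by
      gcongr
      exact le_max_left _ _

end Run7.h512
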