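import Mathlib
import Pool.Agent.H720R2.HP.CutN
import Pool.Agent.Run7.h512.Arc
import Pool.Agent.Run7.h512.MaxP

/-!
Carleson type cutoff functions on the disc, with cells which are controlled by the defect `1 - |f|²`.
-/

set_option autoImplicit false

open MeasureTheory Metric Set Filter Topology Complex
open scoped ContDiff

namespace Run7.h512

open Pool.Agent.H720R2 Pool.Agent.H720R2.HP

/-- the inverse Cayley transform -/
noncomputable def yy (t : ℂ) : ℂ := I * (1 + t) / (1 - t)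

theorem one_sub_ne' {t : ℂ} (ht : ‖t‖ < 1) : 1 - t ≠ 0 := by
  intro h
  have : t = 1 := (sub_eq_zero.1 h).symm
  rw [this, norm_one] at ht
  exact lt_irrefl _ ht

theorem yy_im {t : ℂ} (ht : ‖t‖ < 1) : (yy t).im = (1 - ‖t‖ ^ 2) / ‖1 - t‖ ^ 2 := by
  have h2 := one_sub_ne' ht
  have h4 : 0 < normSq (1 - t) := normSq_pos.2 h2
  rw [← Complex.normSq_eq_norm_sq, ← Complex.normSq_eq_norm_sq]
  unfold yy
  rw [Complex.div_im]
  simp only [normSq_apply]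
  simp
  ring

theorem yy_im_pos {t : ℂ} (ht : ‖t‖ < 1) : 0 < (yy t).im := by
  rw [yy_im ht]
  have h2 := norm_pos_iff.2 (one_sub_ne' ht)
  have : 0 < 1 - ‖t‖ ^ 2 := by nlinarith [norm_nonneg t]
  positivity

theorem yy_sub {b x : ℂ} (hb : ‖b‖ < 1) (hx : ‖x‖ < 1) :
    ‖yy x - starRingEnd ℂ (yy b)‖ = 2 * mm b x / (‖1 - x‖ * ‖1 - b‖) := by
  have h1 := one_sub_ne' hx
  have h2 := one_sub_ne' hb
  have h3 : 1 - starRingEnd ℂ b ≠ 0 := one_sub_ne' (by rwa [RCLike.norm_conj])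
  have h4 : yy x - starRingEnd ℂ (yy b) =
      2 * I * (1 - starRingEnd ℂ b * x) / ((1 - x) * (1 - starRingEnd ℂ b)) := by
    unfold yy
    rw [map_div₀, map_mul, map_add, map_sub, map_one, conj_I, div_sub_div _ _ h1 h3]
    congr 1
    ring
  have h5 : ‖1 - starRingEnd ℂ b‖ = ‖1 - b‖ := by
    rw [← RCLike.norm_conj (1 - b), map_sub, map_one]
  rw [h4, norm_div, norm_mul, norm_mul, norm_mul, h5, norm_I, mul_one, RCLike.norm_ofNat]
  rfl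

theorem yy_uu {b x : ℂ} (hb : ‖b‖ < 1) (hx : ‖x‖ < 1) :
    uu b x = 4 * (yy b).im * (yy x).im / ‖yy x - starRingEnd ℂ (yy b)‖ ^ 2 := by
  have h1 := norm_pos_iff.2 (one_sub_ne' hx)
  have h2 := norm_pos_iff.2 (one_sub_ne' hb)
  have h3 := mm_pos hb hx.le
  rw [yy_sub hb hx, yy_im hb, yy_im hx]
  unfold uu SS
  field_simp
  ring

theorem cay_yy {t : ℂ} (ht : ‖t‖ < 1) : (yy t - I) / (yy t + I) = t := by
  have h2 := one_sub_ne' ht
  have h3 : yy t + I = 2 * I / (1 - t) := by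
    unfold yy
    rw [eq_div_iff h2, add_mul, div_mul_cancel₀ _ h2]
    ring
  have h4 : yy t - I = 2 * I * t / (1 - t) := by
    unfold yy
    rw [eq_div_iff h2, sub_mul, div_mul_cancel₀ _ h2]
    ring
  rw [h3, h4, div_div_div_cancel_right₀ h2]
  have : (2 * I : ℂ) ≠ 0 := by simp
  field_simp

theorem yy_deriv {t : ℂ} (ht : ‖t‖ < 1) : HasDerivAt yy (2 * I / (1 - t) ^ 2) t := by
  have h2 := one_sub_ne' ht
  have h3 : HasDerivAt (fun t : ℂ => I * (1 + t)) I t := by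
    have := ((hasDerivAt_id t).const_add 1).const_mul I
    simpa using this
  have h4 : HasDerivAt (fun t : ℂ => 1 - t) (-1) t := by
    have := (hasDerivAt_id t).const_sub 1
    simpa using this
  have h5 := h3.div h4 h2
  have h6 : 2 * I / (1 - t) ^ 2 = (I * (1 - t) - I * (1 + t) * (-1)) / (1 - t) ^ 2 := by
    congr 1
    ring
  rw [h6]
  exact h5

theorem yy_meas : Measurable yy := by
  unfold yy
  fun_prop

/-- the boxes have small hyperbolic diameter -/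
theorem box_half {Λ : ℝ} (hΛ : 0 < Λ) {q : ℕ × ℤ} {a v : ℂ} (ha : a ∈ Tp Λ q) (hv : v ∈ Tp Λ q) :
    1 / 2 ≤ 4 * a.im * v.im / ‖v - starRingEnd ℂ a‖ ^ 2 := by
  obtain ⟨a1, a2, a3, a4⟩ := box_range ha
  obtain ⟨v1, v2, v3, v4⟩ := box_range hv
  have hl := ln_pos hΛ q.1
  set l := ln Λ q.1
  have h1 : ‖v - starRingEnd ℂ a‖ ^ 2 = (v.re - a.re) ^ 2 + (v.im + a.im) ^ 2 := by
    rw [← Complex.normSq_eq_norm_sq, Complex.normSq_apply]
    simp only [Complex.sub_re, Complex.sub_im, Complex.conj_re, Complex.conj_im]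
    ring
  have h2 : 0 < (v.re - a.re) ^ 2 + (v.im + a.im) ^ 2 := by
    have : 0 < v.im + a.im := by linarith
    positivity
  rw [h1, div_le_div_iff₀ (by norm_num) h2]
  have h3 : |v.re - a.re| ≤ l := by
    rw [abs_le]
    constructor <;> nlinarith
  have h4 : (v.re - a.re) ^ 2 ≤ l ^ 2 := sq_le_sq' (abs_le.1 h3).1 (abs_le.1 h3).2
  nlinarith [mul_nonneg (sub_nonneg.2 a3) (sub_nonneg.2 v3), mul_nonneg (sub_nonneg.2 a4)
    (sub_nonneg.2 v3), mul_nonneg (sub_nonneg.2 a3) (sub_nonneg.2 v4), mul_nonneg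
    (sub_nonneg.2 a4) (sub_nonneg.2 v4), mul_nonneg (sub_nonneg.2 a3) (sub_nonneg.2 a4),
    mul_nonneg (sub_nonneg.2 v3) (sub_nonneg.2 v4)]

/-- **Cutoff functions with controlled cells.** -/
theorem cc {ε : ℝ} (hε : 0 < ε) (hε1 : ε ≤ 1 / 16) : ∃ ε' C Cs : ℝ, 0 < ε' ∧ ε' ≤ ε ∧ 0 ≤ C ∧
    0 ≤ Cs ∧ ∀ (f : ℂ → ℂ) (R ρ : ℝ), 1 < R → 0 < ρ → ρ < 1 → DifferentiableOn ℂ f (ball 0 R) →
      (∀ ζ : ℂ, ‖ζ‖ ≤ 1 → ‖f ζ‖ ≤ 1) →
      ∃ (S : Finset (ℕ × ℤ)) (b : S → ℂ) (A : S → Set ℂ) (χ : ℂ → ℂ),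
        (∀ i, ‖b i‖ < 1) ∧ (∀ i, MeasurableSet (A i)) ∧
        (∀ i, ∀ ζ ∈ A i, ‖ζ‖ < 1 ∧ ‖bl (b i) ζ‖ < 3 / 4 ∧ ε' ≤ ‖f ζ‖ ∧ ‖f ζ‖ ≤ 2 * ε) ∧
        ContDiffOn ℝ 1 χ (ball 0 ρ) ∧ (∀ ζ ∈ ball (0 : ℂ) ρ, ‖χ ζ‖ ≤ 1) ∧
        (∀ ζ ∈ ball (0 : ℂ) ρ, χ ζ ≠ 0 → ‖f ζ‖ ≤ 2 * ε) ∧
        (∀ ζ ∈ ball (0 : ℂ) ρ, χ ζ ≠ 1 → ε' ≤ ‖f ζ‖) ∧
        (∀ ζ ∈ ball (0 : ℂ) ρ, ∑ i, (A i).indicator (db χ) ζ = db χ ζ) ∧
        (∀ i, ∀ ζ ∈ A i, ‖db χ ζ‖ ≤ C / SS (b i)) ∧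
        ∀ w : ℂ, ‖w‖ < 1 → ∑ i, uu (b i) w ≤ Cs * (1 - ‖f w‖ ^ 2) := by
  classical
  obtain ⟨ε₀, C₀, κ, hε₀, hC₀, hκ, hcut⟩ := cut1 hε (by linarith)
  obtain ⟨Cs, hCs, href⟩ := refined (Cp := 9 * Real.pi * (36 * C₀ + 48)) (by positivity)
  refine ⟨min (ε₀ / 2) ε, 20 * C₀, Cs, by positivity, min_le_right _ _, by positivity, hCs, ?_⟩
  intro f R ρ hR hρ0 hρ1 hf hf1
  have hR0 : 0 < R := by linarith
  -- the function on the half plane
  set g : ℂ → ℂ := fun w => f ((w - I) / (w + I)) with hg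
  have hRi0 : 0 < R⁻¹ := by positivity
  have hRi1 : R⁻¹ < 1 := inv_lt_one_of_one_lt₀ hR
  set η : ℝ := (1 - R⁻¹ ^ 2) / 16 with hη
  have hη0 : 0 < η := by
    have : R⁻¹ ^ 2 < 1 := by nlinarith
    rw [hη]
    linarith
  have hη1 : η ≤ 1 / 16 := by
    rw [hη]
    nlinarith [sq_nonneg R⁻¹]
  have hcay : ∀ w : ℂ, -η < w.im → (w - I) / (w + I) ∈ ball (0 : ℂ) R := by
    intro w hw
    have h1 := TB.cay_small hRi0 hRi1 hw
    rw [norm_mul, Complex.norm_real, Real.norm_of_nonneg hRi0.le, inv_mul_lt_iff₀ hR0, mul_one] at h1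
    exact mem_ball_zero_iff.2 h1
  have hcay1 : ∀ w : ℂ, 0 ≤ w.im → ‖(w - I) / (w + I)‖ ≤ 1 := by
    intro w hw
    have h1 : 0 < ‖w + I‖ := by
      rw [norm_pos_iff]
      intro h
      have := congrArg Complex.im h
      simp at this
      linarith
    rw [norm_div, div_le_one h1]
    have h2 : ‖w - I‖ ^ 2 ≤ ‖w + I‖ ^ 2 := by
      rw [Complex.sq_norm, Complex.sq_norm, Complex.normSq_apply, Complex.normSq_apply]
      simp only [Complex.sub_re, Complex.sub_im, Complex.add_re, Complex.add_im, Complex.I_re,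
        Complex.I_im]
      nlinarith
    exact le_of_sq_le_sq h2 h1.le
  have hnice : Nice g η := by
    refine ⟨hη0, ?_, fun w hw => hf1 _ (hcay1 w hw)⟩
    have h1 : DifferentiableOn ℂ (fun w : ℂ => (w - I) / (w + I)) {w : ℂ | -η < w.im} := by
      refine DifferentiableOn.fun_div (by fun_prop) (by fun_prop) ?_
      intro w hw
      have hw' : -η < w.im := hw
      exact TB.add_I_ne (by linarith)
    exact hf.comp h1 (fun w hw => hcay w hw)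
  have hlim : Tendsto g (Bornology.cobounded ℂ ⊓ 𝓟 {w : ℂ | 0 ≤ w.im}) (𝓝 (f 1)) := by
    have h1 : ContinuousAt f 1 :=
      (hf.differentiableAt (isOpen_ball.mem_nhds (by
        rw [mem_ball_zero_iff, norm_one]; exact hR))).continuousAt
    exact (h1.tendsto.comp TB.cay_tendsto).mono_left inf_le_left
  -- the parameters
  set κ' : ℝ := min κ (min (ε₀ / 2) ε) with hκ'
  have hκ'0 : 0 < κ' := by positivity
  have hκ'1 : κ' ≤ κ := min_le_left _ _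
  have hκ'2 : κ' ≤ ε₀ / 2 := (min_le_right _ _).trans (min_le_left _ _)
  have hκ'3 : κ' ≤ ε := (min_le_right _ _).trans (min_le_right _ _)
  obtain ⟨u1, u2⟩ := unif_far hnice hlim hκ'0
  obtain ⟨Λ, hΛ1, hΛ0⟩ := (u1.and (eventually_gt_atTop (0 : ℝ))).exists
  have hρ2 : 0 < (1 - ρ ^ 2) / 4 := by
    have : ρ ^ 2 < 1 := by nlinarith
    linarith
  obtain ⟨J, hJ1, hJ2, hJ3⟩ : ∃ J : ℕ, (∀ w : ℂ, 0 ≤ w.im → ‖g (w + ln Λ J * I) - g w‖ ≤ κ') ∧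
      ln Λ J < (1 - ρ ^ 2) / 4 ∧ 1 ≤ J := by
    have h2 : Tendsto (fun J : ℕ => ln Λ J) atTop (𝓝[>] 0) := by
      rw [tendsto_nhdsWithin_iff]
      constructor
      · have h3 := (tendsto_pow_atTop_nhds_zero_of_lt_one (r := (1 / 2 : ℝ)) (by norm_num)
          (by norm_num)).const_mul Λ
        rw [mul_zero] at h3
        exact h3
      · exact Eventually.of_forall (fun J => ln_pos hΛ0 J)
    have h3 : ∀ᶠ h : ℝ in 𝓝[>] 0, h < (1 - ρ ^ 2) / 4 :=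
      (Iio_mem_nhds hρ2 |> mem_nhdsWithin_of_mem_nhds)
    obtain ⟨J, hJ⟩ := (((h2.eventually u2).and (h2.eventually h3)).and
      (eventually_ge_atTop 1)).exists
    exact ⟨J, hJ.1.1, hJ.1.2, hJ.2⟩
  obtain ⟨p, S₀, hS1, hS2, hp1, hp2, hp3, hp4, hp5, hp6⟩ := hcut g η (f 1) Λ J hnice hΛ0 hJ3
    (fun w hw hw2 => (hΛ1 w hw hw2).trans hκ'1) (fun w hw => (hJ1 w hw).trans hκ'1)
  set h : ℝ := ln Λ J with hh
  have hh0 : 0 < h := ln_pos hΛ0 J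
  -- the geometry
  have hyy : ∀ ζ ∈ ball (0 : ℂ) ρ, h < (yy ζ).im := by
    intro ζ hζ
    have hζ' := mem_ball_zero_iff.1 hζ
    have hζ1 : ‖ζ‖ < 1 := by linarith
    rw [yy_im hζ1]
    have h1 := norm_pos_iff.2 (one_sub_ne' hζ1)
    have h2 : ‖1 - ζ‖ ≤ 2 := by
      refine (norm_sub_le _ _).trans ?_
      rw [norm_one]
      linarith
    have h3 : ‖1 - ζ‖ ^ 2 ≤ 4 := by nlinarith
    have h4 : ‖ζ‖ ^ 2 ≤ ρ ^ 2 := by
      have := norm_nonneg ζ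
      gcongr
    have h5 : (1 - ρ ^ 2) / 4 ≤ (1 - ‖ζ‖ ^ 2) / ‖1 - ζ‖ ^ 2 := by
      rw [div_le_div_iff₀ (by norm_num) (by positivity)]
      nlinarith
    linarith
  set u : ℂ → ℂ := fun ζ => yy ζ - h * I with hu
  have huim : ∀ ζ, (u ζ).im = (yy ζ).im - h := by
    intro ζ
    simp [hu]
  have hu0 : ∀ ζ ∈ ball (0 : ℂ) ρ, 0 < (u ζ).im := by
    intro ζ hζ
    rw [huim]
    have := hyy ζ hζ
    linarith
  have hback : ∀ ζ, u ζ + ln Λ J * I = yy ζ := by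
    intro ζ
    simp only [hu, ← hh]
    ring
  have hfg : ∀ ζ : ℂ, ‖ζ‖ < 1 → g (yy ζ) = f ζ := by
    intro ζ hζ
    simp only [hg]
    rw [cay_yy hζ]
  have hclose : ∀ ζ ∈ ball (0 : ℂ) ρ, ‖f ζ - g (u ζ)‖ ≤ κ' := by
    intro ζ hζ
    have h1 := hJ1 (u ζ) (hu0 ζ hζ).le
    rw [hback, hfg ζ (by have := mem_ball_zero_iff.1 hζ; linarith)] at h1
    exact h1
  set χ : ℂ → ℂ := fun ζ => ((1 - p (u ζ) : ℝ) : ℂ) with hχ
  have hud : ∀ ζ ∈ ball (0 : ℂ) ρ, HasDerivAt u (2 * I / (1 - ζ) ^ 2) ζ := by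
    intro ζ hζ
    exact (yy_deriv (by have := mem_ball_zero_iff.1 hζ; linarith)).sub_const _
  have huC : ContDiffOn ℝ 1 u (ball 0 ρ) := by
    have h1 : DifferentiableOn ℂ u (ball 0 ρ) := fun ζ hζ =>
      (hud ζ hζ).differentiableAt.differentiableWithinAt
    exact (h1.contDiffOn isOpen_ball).restrict_scalars ℝ
  have hχC : ContDiffOn ℝ 1 χ (ball 0 ρ) := by
    have h1 : ContDiffOn ℝ 1 (fun ζ => 1 - p (u ζ)) (ball 0 ρ) :=
      contDiffOn_const.sub (hp1.comp huC (fun ζ hζ => hu0 ζ hζ))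
    exact Complex.ofRealCLM.contDiff.comp_contDiffOn h1
  have hopen : IsOpen {w : ℂ | 0 < w.im} := isOpen_lt continuous_const Complex.continuous_im
  have hpd : ∀ w : ℂ, 0 < w.im → DifferentiableAt ℝ p w := fun w hw =>
    (hp1.differentiableOn one_ne_zero w hw).differentiableAt (hopen.mem_nhds hw)
  have hχf : ∀ ζ ∈ ball (0 : ℂ) ρ, HasFDerivAt χ (-(Complex.ofRealCLM.comp ((fderiv ℝ p (u ζ)).comp
      ((ContinuousLinearMap.toSpanSingleton ℂ (2 * I / (1 - ζ) ^ 2)).restrictScalars ℝ)))) ζ := by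
    intro ζ hζ
    have h1 : HasFDerivAt u ((ContinuousLinearMap.toSpanSingleton ℂ
        (2 * I / (1 - ζ) ^ 2)).restrictScalars ℝ) ζ :=
      (hud ζ hζ).hasFDerivAt.restrictScalars ℝ
    have h2 := (hpd (u ζ) (hu0 ζ hζ)).hasFDerivAt.comp ζ h1
    have h3 := h2.const_sub 1
    have h4 := (Complex.ofRealCLM.hasFDerivAt (x := 1 - p (u ζ))).comp ζ h3
    rw [ContinuousLinearMap.comp_neg] at h4
    exact h4
  have hχn : ∀ ζ ∈ ball (0 : ℂ) ρ, ‖fderiv ℝ χ ζ‖ ≤ 2 * C₀ / (1 - ‖ζ‖ ^ 2) := by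
    intro ζ hζ
    have hζ1 : ‖ζ‖ < 1 := by have := mem_ball_zero_iff.1 hζ; linarith
    rw [(hχf ζ hζ).fderiv, norm_neg]
    refine (ContinuousLinearMap.opNorm_comp_le _ _).trans ?_
    rw [Complex.ofRealCLM_norm, one_mul]
    refine (ContinuousLinearMap.opNorm_comp_le _ _).trans ?_
    rw [ContinuousLinearMap.norm_restrictScalars, ContinuousLinearMap.norm_toSpanSingleton]
    have h1 := hp5 (u ζ) (hu0 ζ hζ)
    rw [huim, sub_add_cancel, yy_im hζ1] at h1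
    have h2 := norm_pos_iff.2 (one_sub_ne' hζ1)
    have h3 : 0 < 1 - ‖ζ‖ ^ 2 := by nlinarith [norm_nonneg ζ]
    rw [norm_div, norm_mul, norm_pow, norm_I, mul_one, RCLike.norm_ofNat]
    calc ‖fderiv ℝ p (u ζ)‖ * (2 / ‖1 - ζ‖ ^ 2)
        ≤ C₀ / ((1 - ‖ζ‖ ^ 2) / ‖1 - ζ‖ ^ 2) * (2 / ‖1 - ζ‖ ^ 2) := by gcongr
      _ = 2 * C₀ / (1 - ‖ζ‖ ^ 2) := by
        field_simp
  have hdbn : ∀ ζ : ℂ, ‖db χ ζ‖ ≤ ‖fderiv ℝ χ ζ‖ := by
    intro ζ
    unfold db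
    rw [norm_div, RCLike.norm_ofNat]
    have h1 := (fderiv ℝ χ ζ).le_opNorm 1
    have h2 := (fderiv ℝ χ ζ).le_opNorm I
    rw [norm_one, mul_one] at h1
    rw [norm_I, mul_one] at h2
    have h3 := norm_add_le (fderiv ℝ χ ζ 1) (I * fderiv ℝ χ ζ I)
    rw [norm_mul, norm_I, one_mul] at h3
    linarith
  -- where the derivative does not vanish
  have hne : ∀ ζ ∈ ball (0 : ℂ) ρ, db χ ζ ≠ 0 →
      fderiv ℝ p (u ζ) ≠ 0 ∧ p (u ζ) ≠ 0 ∧ p (u ζ) ≠ 1 := by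
    intro ζ hζ hdb
    have h1 : fderiv ℝ p (u ζ) ≠ 0 := by
      intro h0
      apply hdb
      have h2 : fderiv ℝ χ ζ = 0 := by
        rw [(hχf ζ hζ).fderiv, h0, ContinuousLinearMap.zero_comp, ContinuousLinearMap.comp_zero,
          neg_zero]
      unfold db
      rw [h2]
      simp
    have hnh := hopen.mem_nhds (hu0 ζ hζ)
    refine ⟨h1, fun h0 => h1 ?_, fun h0 => h1 ?_⟩
    · refine IsLocalMin.fderiv_eq_zero ?_
      filter_upwards [hnh] with w hw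
      rw [h0]
      exact (hp2 w hw).1
    · refine IsLocalMax.fderiv_eq_zero ?_
      filter_upwards [hnh] with w hw
      rw [h0]
      exact (hp2 w hw).2
  have hlow : ∀ ζ ∈ ball (0 : ℂ) ρ, p (u ζ) ≠ 0 → min (ε₀ / 2) ε ≤ ‖f ζ‖ := by
    intro ζ hζ h0
    have h1 := hp3 (u ζ) (hu0 ζ hζ) h0
    have h2 := hclose ζ hζ
    have h3 := norm_sub_norm_le (g (u ζ)) (f ζ)
    rw [norm_sub_rev] at h3
    refine (min_le_left _ _).trans ?_
    linarith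
  have hupp : ∀ ζ ∈ ball (0 : ℂ) ρ, p (u ζ) ≠ 1 → ‖f ζ‖ ≤ 2 * ε := by
    intro ζ hζ h0
    have h1 := hp4 (u ζ) (hu0 ζ hζ) h0
    have h2 := hclose ζ hζ
    have h3 := norm_sub_norm_le (f ζ) (g (u ζ))
    linarith
  -- the cells
  set A₀ : ℕ × ℤ → Set ℂ := fun j => {ζ | ζ ∈ ball (0 : ℂ) ρ ∧ yy ζ ∈ Tp Λ j ∧ db χ ζ ≠ 0} with hA₀
  set S : Finset (ℕ × ℤ) := S₀.filter (fun j => (A₀ j).Nonempty) with hS
  have hSne : ∀ j : S, (A₀ j).Nonempty := fun j => (Finset.mem_filter.1 j.2).2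
  choose b hb using hSne
  have hb1 : ∀ i, ‖b i‖ < 1 := fun i => by
    have := mem_ball_zero_iff.1 (hb i).1
    linarith
  have hAcell : ∀ i : S, ∀ ζ ∈ A₀ i, ‖ζ‖ < 1 ∧ ‖bl (b i) ζ‖ < 3 / 4 := by
    intro i ζ hζ
    have hζ1 : ‖ζ‖ < 1 := by
      have := mem_ball_zero_iff.1 hζ.1
      linarith
    refine ⟨hζ1, ?_⟩
    have h1 := box_half hΛ0 (hb i).2.1 hζ.2.1
    rw [← yy_uu (hb1 i) hζ1, ← uu_eq (hb1 i) hζ1.le] at h1
    by_contra hcon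
    push Not at hcon
    nlinarith
  refine ⟨S, b, fun i => A₀ i, χ, hb1, ?_, ?_, hχC, ?_, ?_, ?_, ?_, ?_, ?_⟩
  · intro i
    refine measurableSet_ball.inter (MeasurableSet.inter ?_ ?_)
    · exact yy_meas (Tp_meas Λ i)
    · exact (db_meas χ) (measurableSet_singleton (0 : ℂ)).compl
  · intro i ζ hζ
    obtain ⟨h1, h2⟩ := hAcell i ζ hζ
    obtain ⟨-, h3, h4⟩ := hne ζ hζ.1 hζ.2.2
    exact ⟨h1, h2, hlow ζ hζ.1 h3, hupp ζ hζ.1 h4⟩
  · intro ζ hζ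
    have h1 := hp2 (u ζ) (hu0 ζ hζ)
    simp only [hχ]
    rw [Complex.norm_real, Real.norm_eq_abs, abs_le]
    constructor <;> linarith [h1.1, h1.2]
  · intro ζ hζ h0
    refine hupp ζ hζ (fun h1 => h0 ?_)
    simp only [hχ]
    rw [h1, sub_self, Complex.ofReal_zero]
  · intro ζ hζ h0
    refine hlow ζ hζ (fun h1 => h0 ?_)
    simp only [hχ]
    rw [h1, sub_zero, Complex.ofReal_one]
  · intro ζ hζ
    by_cases hdb : db χ ζ = 0
    · rw [hdb]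
      refine Finset.sum_eq_zero (fun i _ => ?_)
      by_cases hi : ζ ∈ A₀ i
      · exact absurd hdb hi.2.2
      · exact indicator_of_notMem hi _
    · obtain ⟨h1, -, -⟩ := hne ζ hζ hdb
      obtain ⟨j, hj, hj2⟩ := hp6 (u ζ) (hu0 ζ hζ) h1
      rw [hback] at hj2
      have hjA : ζ ∈ A₀ j := ⟨hζ, hj2, hdb⟩
      have hjS : j ∈ S := Finset.mem_filter.2 ⟨hj, ⟨ζ, hjA⟩⟩
      rw [Finset.sum_eq_single (⟨j, hjS⟩ : S)]
      · exact indicator_of_mem hjA _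
      · intro i _ hi
        refine indicator_of_notMem (fun hiA => hi ?_) _
        exact Subtype.ext (Tp_unique hΛ0 hiA.2.1 hj2)
      · intro hcon
        exact absurd (Finset.mem_univ _) hcon
  · intro i ζ hζ
    obtain ⟨h1, h2⟩ := hAcell i ζ hζ
    have h3 := tube_x (hb1 i) h1 (by norm_num) (by norm_num) h2.le
    have hS0 := SS_pos (hb1 i)
    have h4 : 0 < 1 - ‖ζ‖ ^ 2 := by nlinarith [norm_nonneg ζ]
    refine (hdbn ζ).trans ((hχn ζ hζ.1).trans ?_)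
    rw [div_le_div_iff₀ h4 hS0]
    nlinarith
  · refine href f R hR hf hf1 S b hb1 ?_ ?_
    · intro i
      obtain ⟨-, h3, h4⟩ := hne (b i) (hb i).1 (hb i).2.2
      have := hupp (b i) (hb i).1 h4
      linarith
    · intro w hw
      have hPS : Pk C₀ S := hS2.mono (Finset.filter_subset _ _)
      have h1 := pk_all hPS hC₀.le hΛ0
        (fun j => if hj : j ∈ S then yy (b ⟨j, hj⟩) else 0) (fun j hj => by
          rw [dif_pos hj]
          exact (hb ⟨j, hj⟩).2.1) (yy_im_pos hw)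
      refine le_trans (le_of_eq ?_) h1
      rw [← Finset.sum_coe_sort S]
      refine Finset.sum_congr rfl (fun i _ => ?_)
      rw [dif_pos i.2, yy_uu (hb1 i) hw]

end Run7.h512
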