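import Mathlib
import Pool.Agent.HopfPinch.AnS1
import Pool.Agent.H720R2.HP.Kern
import Pool.Agent.Y263.GF.Osg
import Pool.Agent.Run7.h512.Geo
import Pool.Agent.Run7.h512.Tubes

/-!
The solution operator of the d-bar equation for a single tube of the ball.
-/

set_option autoImplicit false

open MeasureTheory Metric Set Filter Topology Complex
open scoped ContDiff

namespace Run7.h512

open Pool.Agent.H720R2 Pool.Agent.H720R2.HP

/-- integral of the Cauchy kernel over a disc with another centre -/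
theorem inv_ball_le (w a : ℂ) {r : ℝ} (hr : 0 < r) :
    ∫ ζ in ball a r, ‖w - ζ‖⁻¹ ≤ 3 * Real.pi * r := by
  have hint : IntegrableOn (fun ζ : ℂ => ‖w - ζ‖⁻¹) (ball a r) := by
    refine (inv_ball_int w (‖w - a‖ + r)).mono_set (ball_subset_ball' ?_)
    rw [dist_comm, dist_eq_norm]
    linarith
  have h1 : ∫ ζ in ball a r, ‖w - ζ‖⁻¹ ≤ ∫ ζ in ball a r,
      ((ball w r).indicator (fun ζ => ‖w - ζ‖⁻¹) ζ + r⁻¹) := by
    refine setIntegral_mono_on hint ?_ measurableSet_ball (fun ζ _ => ?_)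
    · refine Integrable.add ?_ (integrableOn_const measure_ball_lt_top.ne (by simp))
      exact ((integrable_indicator_iff measurableSet_ball).2 (inv_ball_int w r)).integrableOn
    · by_cases h : ζ ∈ ball w r
      · rw [indicator_of_mem h]
        have : 0 ≤ r⁻¹ := by positivity
        linarith
      · rw [indicator_of_notMem h, zero_add]
        rw [mem_ball, dist_comm, dist_eq_norm, not_lt] at h
        gcongr
  refine h1.trans ?_
  rw [integral_add ((integrable_indicator_iff measurableSet_ball).2 (inv_ball_int w r)).integrableOn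
    (integrableOn_const measure_ball_lt_top.ne (by simp))]
  have h2 : ∫ ζ in ball a r, (ball w r).indicator (fun ζ => ‖w - ζ‖⁻¹) ζ ≤ 2 * Real.pi * r := by
    rw [← inv_ball_eq w hr.le, ← integral_indicator measurableSet_ball (μ := volume)
      (f := fun ζ => ‖w - ζ‖⁻¹)]
    refine setIntegral_le_integral ((integrable_indicator_iff measurableSet_ball).2
      (inv_ball_int w r)) (Eventually.of_forall fun ζ => ?_)
    exact indicator_nonneg (fun _ _ => by positivity) _
  have h3 : ∫ _ζ in ball a r, r⁻¹ = Real.pi * r := by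
    rw [setIntegral_const, Measure.real, Complex.volume_ball]
    simp only [ENNReal.toReal_mul, ENNReal.toReal_pow, ENNReal.toReal_ofReal hr.le,
      ENNReal.coe_toReal, NNReal.coe_real_pi, smul_eq_mul]
    field_simp
  linarith

section

variable {X : Type} [NormedAddCommGroup X] [InnerProductSpace ℂ X]

/-- the retraction onto the slice `⟨e, z⟩ = ζ` -/
noncomputable def TT (e : X) (ζ : ℂ) (z : X) : X :=
  ζ • e + ((1 - (‖ζ‖ ^ 2 : ℝ)) / (1 - starRingEnd ℂ ζ * inner ℂ e z) : ℂ) •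
    (z - (inner ℂ e z : ℂ) • e)

theorem TT_inner {e : X} (he : ‖e‖ = 1) (ζ : ℂ) (z : X) : (inner ℂ e (TT e ζ z) : ℂ) = ζ := by
  have hee : (inner ℂ e e : ℂ) = 1 := by
    rw [inner_self_eq_norm_sq_to_K, he]
    simp
  unfold TT
  rw [inner_add_right, inner_smul_right, inner_smul_right, inner_sub_right, inner_smul_right, hee]
  ring

theorem TT_self {e : X} (he : ‖e‖ = 1) {z : X} (hz : ‖z‖ < 1) : TT e (inner ℂ e z) z = z := by
  have h := inner_lt he hz
  unfold TT
  have h1 : starRingEnd ℂ (inner ℂ e z : ℂ) * inner ℂ e z = ((‖(inner ℂ e z : ℂ)‖ ^ 2 : ℝ) : ℂ) := by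
    rw [mul_comm, Complex.mul_conj, Complex.normSq_eq_norm_sq]
  rw [h1]
  have h2 : (1 - ((‖(inner ℂ e z : ℂ)‖ ^ 2 : ℝ) : ℂ)) ≠ 0 := by
    have : (1 : ℝ) - ‖(inner ℂ e z : ℂ)‖ ^ 2 ≠ 0 := by nlinarith [norm_nonneg (inner ℂ e z : ℂ)]
    exact_mod_cast this
  rw [div_self h2, one_smul]
  abel

theorem TT_lt {e : X} (he : ‖e‖ = 1) {ζ : ℂ} (hζ : ‖ζ‖ < 1) {z : X} (hz : ‖z‖ < 1) :
    ‖TT e ζ z‖ < 1 := by
  have hx := inner_lt he hz
  set x : ℂ := inner ℂ e z with hxd
  have hm := mm_pos hζ hx.le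
  have hS := SS_pos hζ
  have hee : (inner ℂ e e : ℂ) = 1 := by
    rw [inner_self_eq_norm_sq_to_K, he]
    simp
  set c : ℂ := ((1 - (‖ζ‖ ^ 2 : ℝ)) / (1 - starRingEnd ℂ ζ * x) : ℂ) with hc
  have hcn : ‖c‖ = SS ζ / mm ζ x := by
    rw [hc, norm_div]
    unfold SS mm
    congr 1
    have : (1 : ℂ) - ((‖ζ‖ ^ 2 : ℝ) : ℂ) = ((1 - ‖ζ‖ ^ 2 : ℝ) : ℂ) := by push_cast; ring
    rw [this, Complex.norm_real]
    exact Real.norm_of_nonneg hS.le
  have h1 : ‖TT e ζ z‖ ^ 2 = ‖ζ‖ ^ 2 + ‖c‖ ^ 2 * (‖z‖ ^ 2 - ‖x‖ ^ 2) := by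
    have h := @norm_add_sq ℂ X _ _ _ (ζ • e) (c • (z - x • e))
    have h0 : (inner ℂ e (z - x • e) : ℂ) = 0 := by
      rw [inner_sub_right, inner_smul_right, hee, ← hxd]
      ring
    rw [inner_smul_right, inner_smul_left, h0, norm_smul, norm_smul, he] at h
    unfold TT
    rw [← hxd, ← hc, h, ← orth_sq he, ← hxd]
    simp
    ring
  have h2 : ‖z‖ ^ 2 - ‖x‖ ^ 2 < 1 - ‖x‖ ^ 2 := by nlinarith [norm_nonneg z]
  have h3 : 0 ≤ ‖z‖ ^ 2 - ‖x‖ ^ 2 := by
    rw [hxd, ← orth_sq he]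
    positivity
  have hu := uu_le_one hζ hx.le
  have h4 : ‖c‖ ^ 2 * (1 - ‖x‖ ^ 2) = SS ζ * uu ζ x := by
    rw [hcn]
    unfold uu
    field_simp
  have hcpos : 0 < ‖c‖ ^ 2 := by
    rw [hcn]
    positivity
  have h5 : ‖c‖ ^ 2 * (‖z‖ ^ 2 - ‖x‖ ^ 2) < SS ζ := by
    calc ‖c‖ ^ 2 * (‖z‖ ^ 2 - ‖x‖ ^ 2) < ‖c‖ ^ 2 * (1 - ‖x‖ ^ 2) := by gcongr
      _ = SS ζ * uu ζ x := h4
      _ ≤ SS ζ * 1 := by gcongr
      _ = SS ζ := mul_one _
  unfold SS at h5
  have h6 : ‖TT e ζ z‖ ^ 2 < 1 := by linarith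
  nlinarith [norm_nonneg (TT e ζ z)]

theorem TT_diff {e : X} (he : ‖e‖ = 1) {ζ : ℂ} (hζ : ‖ζ‖ < 1) {z : X} (hz : ‖z‖ < 1) :
    DifferentiableAt ℂ (TT e ζ) z := by
  have hx := inner_lt he hz
  have hm := mm_pos hζ hx.le
  have hne : 1 - starRingEnd ℂ ζ * inner ℂ e z ≠ 0 := norm_pos_iff.1 hm
  have hi : DifferentiableAt ℂ (fun z : X => (inner ℂ e z : ℂ)) z :=
    (innerSL ℂ e).differentiableAt
  unfold TT
  simp only [div_eq_mul_inv]
  refine (differentiableAt_const _).add ?_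
  exact (((hi.const_mul _).const_sub _).fun_inv hne |>.const_mul _).smul
    (differentiableAt_id.sub (hi.smul_const e))

theorem TT_cont (e : X) (he : ‖e‖ = 1) :
    ContinuousOn (fun p : ℂ × X => TT e p.1 p.2) (ball 0 1 ×ˢ ball 0 1) := by
  intro p hp
  obtain ⟨hp1, hp2⟩ := hp
  have h1 := mem_ball_zero_iff.1 hp1
  have h2 := mem_ball_zero_iff.1 hp2
  have hm := mm_pos h1 (inner_lt he h2).le
  have hne : 1 - starRingEnd ℂ p.1 * inner ℂ e p.2 ≠ 0 := norm_pos_iff.1 hm
  have hi : Continuous (fun p : ℂ × X => (inner ℂ e p.2 : ℂ)) :=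
    (innerSL ℂ e).continuous.comp continuous_snd
  refine ContinuousAt.continuousWithinAt ?_
  unfold TT
  refine ContinuousAt.add (by fun_prop) ?_
  refine ContinuousAt.smul ?_ ?_
  · refine ContinuousAt.div ?_ ?_ hne
    · fun_prop
    · exact (continuous_const.sub ((Complex.continuous_conj.comp continuous_fst).mul hi)).continuousAt
  · exact (continuous_snd.sub (hi.smul continuous_const)).continuousAt

end

/-- **The operator for one tube.** -/
theorem op1 {K δ : ℝ} (hK : 0 ≤ K) (hδ0 : 0 ≤ δ) (hδ : δ < 1) : ∃ C : ℝ, 0 ≤ C ∧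
    ∀ (X : Type) [NormedAddCommGroup X] [InnerProductSpace ℂ X] [FiniteDimensional ℂ X]
      (e : X) (a : ℂ), ‖e‖ = 1 → ‖a‖ < 1 → ∀ A : Set ℂ, IsOpen A →
      (∀ ζ ∈ A, ‖ζ‖ < 1 ∧ ‖bl a ζ‖ ≤ δ) → ∀ μ : ℂ → ℂ, Measurable μ → (∀ ζ, ζ ∉ A → μ ζ = 0) →
      (∀ ζ, ‖μ ζ‖ ≤ K / SS a) → ∀ (lam : X → ℂ) (Λ : ℝ), 0 ≤ Λ →
      DifferentiableOn ℂ lam {z | ‖z‖ < 1 ∧ (inner ℂ e z : ℂ) ∈ A} →
      (∀ z : X, ‖z‖ < 1 → (inner ℂ e z : ℂ) ∈ A → ‖lam z‖ ≤ Λ) →
      ∃ v : X → ℂ, (∀ z ∈ ball (0 : X) 1, ‖v z‖ ≤ C * Λ) ∧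
        (∀ (Ω : Set ℂ) (γ : ℂ → X), IsOpen Ω → DifferentiableOn ℂ γ Ω →
          MapsTo γ Ω (ball 0 1) → (∀ s ∈ Ω, (inner ℂ e (γ s) : ℂ) = s) →
          WD Ω (fun s => v (γ s)) (fun s => μ s * lam (γ s))) ∧
        (∀ x ∈ ball (0 : X) 1, ∀ h : X, (inner ℂ e h : ℂ) = 0 →
          DifferentiableAt ℂ (fun t : ℂ => v (x + t • h)) 0) := by
  have hθ : 0 < 1 - δ ^ 2 := by nlinarith
  refine ⟨1 / Real.pi * (K * (3 * Real.pi * (3 / (1 - δ ^ 2)))), by positivity, ?_⟩
  intro X _ _ _ e a he ha A hA hAt μ hμm hμ0 hμb lam Λ hΛ hld hlb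
  classical
  have hS := SS_pos ha
  -- the support
  have hsupp : ∀ ζ ∈ A, ζ ∈ ball a (3 * SS a / (1 - δ ^ 2)) := by
    intro ζ hζ
    obtain ⟨h1, h2⟩ := hAt ζ hζ
    rw [mem_ball, dist_eq_norm]
    have h3 := tube_mm ha h1 hδ0 hδ h2
    have h4 := norm_sub_le_mm ha h1.le
    rw [lt_div_iff₀ hθ]
    nlinarith
  have hA1 : A ⊆ ball (0 : ℂ) 1 := fun ζ hζ => mem_ball_zero_iff.2 (hAt ζ hζ).1
  have hA2 : A ⊆ ball (0 : ℂ) 2 := hA1.trans (ball_subset_ball (by norm_num))
  set kz : ℂ → X → ℂ := fun ζ z => A.indicator (fun ζ => μ ζ * lam (TT e ζ z)) ζ with hkz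
  have hTA : ∀ ζ ∈ A, ∀ z : X, ‖z‖ < 1 → ‖TT e ζ z‖ < 1 ∧ (inner ℂ e (TT e ζ z) : ℂ) ∈ A :=
    fun ζ hζ z hz => ⟨TT_lt he (hAt ζ hζ).1 hz, by rw [TT_inner he]; exact hζ⟩
  have hkb : ∀ ζ, ∀ z : X, ‖z‖ < 1 → ‖kz ζ z‖ ≤ A.indicator (fun _ => K / SS a * Λ) ζ := by
    intro ζ z hz
    simp only [hkz]
    by_cases h : ζ ∈ A
    · rw [indicator_of_mem h, indicator_of_mem h, norm_mul]
      have h1 := hTA ζ h z hz
      have h2 := hlb _ h1.1 h1.2
      have h3 := hμb ζ
      gcongr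
    · rw [indicator_of_notMem h, indicator_of_notMem h, norm_zero]
  have hkd : ∀ ζ, ∀ z : X, ‖z‖ < 1 → DifferentiableAt ℂ (kz ζ) z := by
    intro ζ z hz
    by_cases h : ζ ∈ A
    · have h1 := hTA ζ h z hz
      have hO : IsOpen {z : X | ‖z‖ < 1 ∧ (inner ℂ e z : ℂ) ∈ A} := by
        refine IsOpen.inter (isOpen_lt continuous_norm continuous_const) ?_
        exact hA.preimage (innerSL ℂ e).continuous
      have h2 : DifferentiableAt ℂ lam (TT e ζ z) := hld.differentiableAt (hO.mem_nhds h1)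
      have h3 := (DifferentiableAt.comp (g := lam) (f := TT e ζ) z h2
        (TT_diff he (hAt ζ h).1 hz)).const_mul (μ ζ)
      refine h3.congr_of_eventuallyEq (Eventually.of_forall fun y => ?_)
      simp only [hkz, indicator_of_mem h]
      rfl
    · have h0 : kz ζ = fun _ => 0 := by
        funext y
        simp only [hkz, indicator_of_notMem h]
      rw [h0]
      exact differentiableAt_const _
  -- measurability of the kernel along a continuous curve
  have hmeas : ∀ (Ω : Set ℂ) (γ : ℂ → X), IsOpen Ω → ContinuousOn γ Ω → MapsTo γ Ω (ball 0 1) →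
      Measurable (fun p : ℂ × ℂ => Ω.indicator (fun w => kz p.1 (γ w)) p.2) := by
    intro Ω γ hΩ hγ hγm
    have h1 : (fun p : ℂ × ℂ => Ω.indicator (fun w => kz p.1 (γ w)) p.2) =
        fun p : ℂ × ℂ => μ p.1 * (A ×ˢ Ω).indicator (fun p => lam (TT e p.1 (γ p.2))) p := by
      funext p
      by_cases h2 : p.2 ∈ Ω
      · rw [indicator_of_mem h2]
        by_cases h3 : p.1 ∈ A
        · rw [indicator_of_mem (show p ∈ A ×ˢ Ω from ⟨h3, h2⟩)]
          simp only [hkz, indicator_of_mem h3]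
        · rw [indicator_of_notMem (show p ∉ A ×ˢ Ω from fun h => h3 h.1)]
          simp only [hkz, indicator_of_notMem h3, mul_zero]
      · rw [indicator_of_notMem h2, indicator_of_notMem (show p ∉ A ×ˢ Ω from fun h => h2 h.2),
          mul_zero]
    rw [h1]
    refine (hμm.comp measurable_fst).mul ?_
    rw [← Set.piecewise_eq_indicator]
    refine ContinuousOn.measurable_piecewise ?_ continuousOn_const (hA.prod hΩ).measurableSet
    have h2 : ContinuousOn (fun p : ℂ × ℂ => TT e p.1 (γ p.2)) (A ×ˢ Ω) := by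
      refine (TT_cont e he).comp (f := fun p : ℂ × ℂ => (p.1, γ p.2)) ?_ ?_
      · exact continuousOn_fst.prodMk (hγ.comp continuousOn_snd (fun p hp => hp.2))
      · intro p hp
        exact ⟨hA1 hp.1, hγm hp.2⟩
    exact hld.continuousOn.comp h2 (fun p hp => hTA p.1 hp.1 _ (mem_ball_zero_iff.1 (hγm hp.2)))
  set v : X → ℂ := fun z => (1 / Real.pi : ℂ) * ∫ ζ, kz ζ z / ((inner ℂ e z : ℂ) - ζ) with hv
  set Mb : ℝ := K / SS a * Λ with hMb
  have hMb0 : 0 ≤ Mb := by positivity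
  have hkb2 : ∀ ζ, ∀ z : X, ‖z‖ < 1 → ‖kz ζ z‖ ≤ (ball (0 : ℂ) 2).indicator (fun _ => Mb) ζ := by
    intro ζ z hz
    refine (hkb ζ z hz).trans ?_
    exact indicator_le_indicator_of_subset hA2 (fun _ => hMb0) ζ
  refine ⟨v, ?_, ?_, ?_⟩
  · -- the bound
    intro z hz
    have hz1 := mem_ball_zero_iff.1 hz
    set r : ℝ := 3 * SS a / (1 - δ ^ 2) with hr
    have hr0 : 0 < r := by positivity
    have h1 : ‖∫ ζ, kz ζ z / ((inner ℂ e z : ℂ) - ζ)‖ ≤ Mb * (3 * Real.pi * r) := by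
      have h2 : Integrable ((ball a r).indicator
          (fun ζ : ℂ => Mb * ‖(inner ℂ e z : ℂ) - ζ‖⁻¹)) := by
        refine (integrable_indicator_iff measurableSet_ball).2 (Integrable.const_mul ?_ _)
        refine (inv_ball_int (inner ℂ e z : ℂ) (‖(inner ℂ e z : ℂ) - a‖ + r)).mono_set
          (ball_subset_ball' ?_)
        rw [dist_comm, dist_eq_norm]
        linarith
      refine (norm_integral_le_of_norm_le h2 (Eventually.of_forall fun ζ => ?_)).trans ?_
      · rw [norm_div, div_eq_mul_inv]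
        have h3 := hkb ζ z hz1
        by_cases h : ζ ∈ A
        · rw [indicator_of_mem h] at h3
          rw [indicator_of_mem (hsupp ζ h)]
          gcongr
        · rw [indicator_of_notMem h] at h3
          have h4 : ‖kz ζ z‖ = 0 := le_antisymm h3 (norm_nonneg _)
          rw [h4, zero_mul]
          exact indicator_nonneg (fun _ _ => by positivity) _
      · rw [integral_indicator measurableSet_ball, integral_const_mul]
        have := inv_ball_le (inner ℂ e z : ℂ) a hr0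
        gcongr
    simp only [hv]
    rw [norm_mul, norm_div, norm_one, Complex.norm_real, Real.norm_of_nonneg Real.pi_pos.le]
    have hpi := Real.pi_pos
    calc 1 / Real.pi * ‖∫ ζ, kz ζ z / ((inner ℂ e z : ℂ) - ζ)‖
        ≤ 1 / Real.pi * (Mb * (3 * Real.pi * r)) := by gcongr
      _ = 1 / Real.pi * (K * (3 * Real.pi * (3 / (1 - δ ^ 2)))) * Λ := by
        rw [hMb, hr]
        field_simp
  · -- the equation
    intro Ω γ hΩ hγ hγm hγs
    set B : ℂ → ℂ → ℂ := fun ζ w => Ω.indicator (fun w => kz ζ (γ w)) w with hB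
    have h1 : WD Ω (CT B) (fun z => B z z) := by
      refine CT_weak hΩ (ρ := 2) (M := Mb) (by norm_num) hMb0 (hmeas Ω γ hΩ hγ.continuousOn hγm)
        ?_ ?_
      · intro ζ w hw
        have h2 : DifferentiableWithinAt ℂ (fun w => kz ζ (γ w)) Ω w :=
          (hkd ζ _ (mem_ball_zero_iff.1 (hγm hw))).comp_differentiableWithinAt w (hγ w hw)
        refine h2.congr (fun y hy => ?_) ?_
        · simp only [hB, indicator_of_mem hy]
        · simp only [hB, indicator_of_mem hw]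
      · intro ζ w
        by_cases hw : w ∈ Ω
        · simp only [hB, indicator_of_mem hw]
          exact hkb2 ζ _ (mem_ball_zero_iff.1 (hγm hw))
        · simp only [hB, indicator_of_notMem hw, norm_zero]
          exact indicator_nonneg (fun _ _ => hMb0) _
    refine h1.congr hΩ (fun s hs => ?_) (fun s hs => ?_)
    · simp only [hv, CT, hB]
      congr 1
      refine integral_congr_ae (Eventually.of_forall fun ζ => ?_)
      simp only [indicator_of_mem hs, hγs s hs]
    · simp only [hB, indicator_of_mem hs, hkz]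
      by_cases h : s ∈ A
      · rw [indicator_of_mem h]
        congr 2
        have := TT_self he (mem_ball_zero_iff.1 (hγm hs))
        rw [hγs s hs] at this
        exact this.symm
      · rw [indicator_of_notMem h, hμ0 s h, zero_mul]
  · -- along the fibres
    intro x hx h hh
    have hline : Differentiable ℂ (fun t : ℂ => x + t • h) := by fun_prop
    set O : Set ℂ := {t | x + t • h ∈ ball (0 : X) 1} with hO
    have hOo : IsOpen O := isOpen_ball.preimage hline.continuous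
    have hO0 : (0 : ℂ) ∈ O := by simpa [hO] using hx
    have hinner : ∀ t : ℂ, (inner ℂ e (x + t • h) : ℂ) = inner ℂ e x := by
      intro t
      rw [inner_add_right, inner_smul_right, hh, mul_zero, add_zero]
    have h1 := Pool.Agent.HP.differentiableOn_integral (X := ℂ) (E := ℂ) volume
      (fun ζ t => kz ζ (x + t • h) / ((inner ℂ e x : ℂ) - ζ)) O hOo
      (fun t ht => by
        have h2 := hmeas univ (fun _ => x + t • h) isOpen_univ continuousOn_const
          (fun _ _ => ht)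
        have h3 : Measurable (fun ζ => kz ζ (x + t • h)) := by
          have h5 : (fun ζ => kz ζ (x + t • h)) =
              (fun p : ℂ × ℂ => univ.indicator (fun _ => kz p.1 (x + t • h)) p.2) ∘
                (fun ζ : ℂ => ((ζ, 0) : ℂ × ℂ)) := by
            funext ζ
            simp only [Function.comp_apply, indicator_of_mem (mem_univ _)]
          rw [h5]
          exact h2.comp (measurable_id.prodMk measurable_const)
        exact (h3.div (measurable_const.sub measurable_id)).aestronglyMeasurable)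
      (fun ζ t ht => by
        have h2 : DifferentiableAt ℂ (fun t : ℂ => kz ζ (x + t • h)) t :=
          DifferentiableAt.comp (g := kz ζ) t (hkd ζ _ (mem_ball_zero_iff.1 ht))
            hline.differentiableAt
        simp only [div_eq_mul_inv]
        exact (h2.mul_const _).differentiableWithinAt)
      (fun ζ => (ball (0 : ℂ) 2).indicator (fun _ => Mb) ζ * ‖(inner ℂ e x : ℂ) - ζ‖⁻¹)
      (dom_int _ 2 Mb)
      (fun ζ t ht => by
        rw [norm_div, div_eq_mul_inv]
        exact mul_le_mul_of_nonneg_right (hkb2 ζ _ (mem_ball_zero_iff.1 ht)) (by positivity))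
    have h2 := (h1.differentiableAt (hOo.mem_nhds hO0)).const_mul (1 / Real.pi : ℂ)
    refine h2.congr_of_eventuallyEq (Eventually.of_forall fun t => ?_)
    simp only [hv, hinner]

end Run7.h512
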