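import Mathlib
import Pool.Agent.H720R2.HP.Asm
import Pool.Agent.Run7.h512.Op
import Pool.Agent.Run7.h512.Wt

/-!
Gluing solutions of the Bezout equation along families of cells.
-/

set_option autoImplicit false
set_option linter.unusedSectionVars false

open MeasureTheory Metric Set Filter Topology Complex
open scoped ContDiff

namespace Run7.h512

open Pool.Agent.H720R2 Pool.Agent.H720R2.HP
open Pool.Agent.Y263.LF (Bez)
open Pool.Agent.Y263.GF (line_holo)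

/-- the properties of the solutions of the d-bar equation along the direction `e` -/
structure Sol1 {X : Type} [NormedAddCommGroup X] [InnerProductSpace ℂ X] (e : X) (v : X → ℂ)
    (μ : ℂ → ℂ) (lam : X → ℂ) : Prop where
  wd : ∀ (Ω : Set ℂ) (γ : ℂ → X), IsOpen Ω → DifferentiableOn ℂ γ Ω →
    MapsTo γ Ω (ball 0 1) → (∀ s ∈ Ω, (inner ℂ e (γ s) : ℂ) = s) →
    WD Ω (fun s => v (γ s)) (fun s => μ s * lam (γ s))
  fb : ∀ x ∈ ball (0 : X) 1, ∀ h : X, (inner ℂ e h : ℂ) = 0 →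
    DifferentiableAt ℂ (fun t : ℂ => v (x + t • h)) 0

section

variable {X : Type} [NormedAddCommGroup X] [InnerProductSpace ℂ X] [FiniteDimensional ℂ X]

theorem hol_line {U : Set X} (hU : IsOpen U) {f : X → ℂ} (hf : DifferentiableOn ℂ f U) {x h : X}
    (hx : x ∈ U) : DifferentiableAt ℂ (fun t : ℂ => f (x + t • h)) 0 := by
  have h1 : DifferentiableAt ℂ f (x + (0 : ℂ) • h) := by
    rw [zero_smul, add_zero]
    exact hf.differentiableAt (hU.mem_nhds hx)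
  have h2 : DifferentiableAt ℂ (fun t : ℂ => x + t • h) 0 := by fun_prop
  exact DifferentiableAt.comp (g := f) (0 : ℂ) h1 h2

theorem fib_zero {e x h : X} (H : ∀ᶠ t in 𝓝 (0 : ℂ), (inner ℂ e (x + t • h) : ℂ) = inner ℂ e x) :
    (inner ℂ e h : ℂ) = 0 := by
  obtain ⟨ε, hε, hb⟩ := Metric.eventually_nhds_iff.1 H
  have h1 := @hb ((ε / 2 : ℝ) : ℂ) (by
    rw [dist_zero_right, Complex.norm_real, Real.norm_of_nonneg (by positivity)]
    linarith)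
  rw [inner_add_right, inner_smul_right, add_eq_left] at h1
  rcases mul_eq_zero.1 h1 with h2 | h2
  · exfalso
    have : (ε / 2 : ℝ) = 0 := by exact_mod_cast h2
    linarith
  · exact h2

theorem fib_of {e x h : X} {t : ℂ} (hh : (inner ℂ e h : ℂ) = 0) :
    (inner ℂ e (x + t • h) : ℂ) = inner ℂ e x := by
  rw [inner_add_right, inner_smul_right, hh, mul_zero, add_zero]

/-- holomorphy where the density vanishes -/
theorem Sol1.holo {e : X} {v : X → ℂ} {μ : ℂ → ℂ} {lam : X → ℂ} (he : ‖e‖ = 1)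
    (h : Sol1 e v μ lam) {C : ℝ} (hb : ∀ z ∈ ball (0 : X) 1, ‖v z‖ ≤ C) {O : Set ℂ} (hO : IsOpen O)
    (h0 : ∀ ζ ∈ O, ‖ζ‖ < 1 → μ ζ = 0) :
    DifferentiableOn ℂ v {z | z ∈ ball (0 : X) 1 ∧ (inner ℂ e z : ℂ) ∈ O} := by
  have hU : IsOpen {z : X | z ∈ ball (0 : X) 1 ∧ (inner ℂ e z : ℂ) ∈ O} :=
    isOpen_ball.inter (hO.preimage (innerSL ℂ e).continuous)
  have hW : Differentiable ℂ (fun z : X => (inner ℂ e z : ℂ)) := (innerSL ℂ e).differentiable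
  have hfd : ∀ x y : X, fderiv ℂ (fun z : X => (inner ℂ e z : ℂ)) x y = inner ℂ e y := by
    intro x y
    have h1 : (fun z : X => (inner ℂ e z : ℂ)) = innerSL ℂ e := by
      funext z
      simp
    rw [h1, (innerSL ℂ e).fderiv]
    simp
  refine line_holo hU (W := fun z => (inner ℂ e z : ℂ)) hW.differentiableOn ?_
    (fun x hx => hb x hx.1) ?_ ?_
  · intro x _ y hy
    rw [hfd] at hy
    exact Eventually.of_forall fun t => fib_of hy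
  · intro x hx y hy
    exact h.fb x hx.1 y (fib_zero hy)
  · intro Ω γ hΩ hγ hm hs
    have h1 := h.wd Ω γ hΩ hγ (fun s hsΩ => (hm hsΩ).1) hs
    refine h1.holo hΩ (fun s hsΩ => ?_)
    have h2 := hm hsΩ
    have h3 : ‖(inner ℂ e (γ s) : ℂ)‖ < 1 := inner_lt he (mem_ball_zero_iff.1 h2.1)
    rw [hs s hsΩ] at h3
    have h4 := h2.2
    rw [hs s hsΩ] at h4
    rw [h0 s h4 h3, zero_mul]

end

/-- **Cells.** -/
theorem cells {K δ M : ℝ} (hK : 0 ≤ K) (hδ0 : 0 ≤ δ) (hδ : δ < 1) : ∃ C : ℝ, 0 ≤ C ∧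
    ∀ (X : Type) [NormedAddCommGroup X] [InnerProductSpace ℂ X] [FiniteDimensional ℂ X]
      (ι : Type) [Fintype ι] (e : ι → X) (a : ι → ℂ), HF X e a M →
      ∀ A : ι → Set ℂ, (∀ i, IsOpen (A i)) → (∀ i, ∀ ζ ∈ A i, ‖ζ‖ < 1 ∧ ‖bl (a i) ζ‖ ≤ δ) →
      ∀ μ : ι → ℂ → ℂ, (∀ i, Measurable (μ i)) → (∀ i, ∀ ζ, ζ ∉ A i → μ i ζ = 0) →
      (∀ i, ∀ ζ, ‖μ i ζ‖ ≤ K / SS (a i)) → ∀ (lam : ι → X → ℂ) (Λ : ℝ), 0 ≤ Λ →
      (∀ i, DifferentiableOn ℂ (lam i) {z | ‖z‖ < 1 ∧ (inner ℂ (e i) z : ℂ) ∈ A i}) →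
      (∀ i, ∀ z : X, ‖z‖ < 1 → (inner ℂ (e i) z : ℂ) ∈ A i → ‖lam i z‖ ≤ Λ) →
      ∃ v : ι → X → ℂ, (∀ z ∈ ball (0 : X) 1, ∑ i, ‖v i z‖ ≤ C * Λ) ∧
        ∀ i, Sol1 (e i) (v i) (μ i) (lam i) := by
  obtain ⟨L, c, hc, HW⟩ := weights δ M hδ0 hδ
  obtain ⟨C₁, hC₁, H1⟩ := op1 hK hδ0 hδ
  refine ⟨max L 0 * (C₁ / c), by positivity, ?_⟩
  intro X _ _ _ ι _ e a h A hA hAt μ hμm hμ0 hμb lam Λ hΛ hld hlb
  obtain ⟨W, w1, w2, w3, w4⟩ := HW X ι e a h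
  have hAz : ∀ i, ∀ z ∈ {z : X | ‖z‖ < 1 ∧ (inner ℂ (e i) z : ℂ) ∈ A i}, c ≤ ‖W i z‖ :=
    fun i z hz => w4 i z (mem_ball_zero_iff.2 hz.1) (hAt i _ hz.2).2
  have hne : ∀ i, ∀ z ∈ {z : X | ‖z‖ < 1 ∧ (inner ℂ (e i) z : ℂ) ∈ A i}, W i z ≠ 0 :=
    fun i z hz => norm_pos_iff.1 (lt_of_lt_of_le hc (hAz i z hz))
  have hk : ∀ i, ∃ v : X → ℂ, (∀ z ∈ ball (0 : X) 1, ‖v z‖ ≤ C₁ * (Λ / c)) ∧
      Sol1 (e i) v (μ i) (fun z => lam i z * (W i z)⁻¹) := by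
    intro i
    obtain ⟨v, v1, v2, v3⟩ := H1 X (e i) (a i) (h.he i) (h.ha i) (A i) (hA i) (hAt i) (μ i) (hμm i)
      (hμ0 i) (hμb i) (fun z => lam i z * (W i z)⁻¹) (Λ / c) (by positivity)
      ((hld i).mul (((w1 i).mono (fun z hz => mem_ball_zero_iff.2 hz.1)).inv (hne i)))
      (fun z hz hzA => by
        rw [norm_mul, norm_inv, ← div_eq_mul_inv]
        have h1 := hlb i z hz hzA
        have h2 := hAz i z ⟨hz, hzA⟩
        gcongr)
    exact ⟨v, v1, v2, v3⟩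
  choose v v1 v2 using hk
  refine ⟨fun i z => W i z * v i z, ?_, ?_⟩
  · intro z hz
    have h1 : ∀ i ∈ (Finset.univ : Finset ι), ‖W i z * v i z‖ ≤ ‖W i z‖ * (C₁ * (Λ / c)) := by
      intro i _
      rw [norm_mul]
      have := v1 i z hz
      gcongr
    refine (Finset.sum_le_sum h1).trans ?_
    rw [← Finset.sum_mul]
    have h2 : ∑ i, ‖W i z‖ ≤ max L 0 := (w3 z hz).trans (le_max_left _ _)
    calc (∑ i, ‖W i z‖) * (C₁ * (Λ / c)) ≤ max L 0 * (C₁ * (Λ / c)) := by gcongr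
      _ = _ := by ring
  · intro i
    refine ⟨?_, ?_⟩
    · intro Ω γ hΩ hγ hm hs
      have h1 := (v2 i).wd Ω γ hΩ hγ hm hs
      have h2 : DifferentiableOn ℂ (fun s => W i (γ s)) Ω := (w1 i).comp hγ hm
      refine (h1.mul_holo hΩ h2).congr hΩ (fun s _ => rfl) (fun s hsΩ => ?_)
      by_cases hsA : s ∈ A i
      · have h3 : W i (γ s) ≠ 0 := hne i (γ s) ⟨mem_ball_zero_iff.1 (hm hsΩ), by
          rw [hs s hsΩ]; exact hsA⟩
        field_simp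
      · rw [hμ0 i s hsA]
        ring
    · intro x hx y hy
      exact (hol_line isOpen_ball (w1 i) hx).mul ((v2 i).fb x hx y hy)

end Run7.h512
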