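import Mathlib
import Pool.Agent.H720R2.Cor.Lim
import Pool.Agent.Run7.h512.Cut
import Pool.Agent.Run7.h512.Glue

/-!
Weights for families of bounded holomorphic functions of one variable in varying directions.
-/

set_option autoImplicit false
set_option linter.unusedSectionVars false

open MeasureTheory Metric Set Filter Topology Complex
open scoped ContDiff

namespace Run7.h512

open Pool.Agent.H720R2 Pool.Agent.H720R2.HP
open Pool.Agent.Y263.GF (line_holo)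

/-- **Weights**, functions holomorphic in a neighbourhood of the closed disc. -/
theorem fw_nice (M : ℝ) : ∃ L ε₁ : ℝ, 0 ≤ L ∧ 0 < ε₁ ∧
    ∀ (X : Type) [NormedAddCommGroup X] [InnerProductSpace ℂ X] [FiniteDimensional ℂ X]
      (κ : Type) [Fintype κ] (e : κ → X) (f : κ → ℂ → ℂ) (R ρ : ℝ), 1 < R → 0 < ρ → ρ < 1 →
      (∀ k, ‖e k‖ = 1) →
      (∀ k, DifferentiableOn ℂ (f k) (ball 0 R)) → (∀ k, ∀ ζ : ℂ, ‖ζ‖ ≤ 1 → ‖f k ζ‖ ≤ 1) →
      (∀ z : X, ‖z‖ < 1 → ∑ k, (1 - ‖f k (inner ℂ (e k) z)‖ ^ 2) ≤ M) →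
      ∃ W : κ → X → ℂ, (∀ k, DifferentiableOn ℂ (W k) (ball 0 ρ)) ∧
        (∀ z ∈ ball (0 : X) ρ, ∑ k, ‖W k z‖ ≤ L) ∧
        ∀ k, ∀ z ∈ ball (0 : X) ρ, ‖f k (inner ℂ (e k) z)‖ ≤ ε₁ → 1 / 2 ≤ ‖W k z‖ := by
  obtain ⟨ε', C, Cs, hε', hε'1, hC, hCs, hcc⟩ := cc (ε := 1 / 16) (by norm_num) le_rfl
  obtain ⟨C₁, hC₁, H1⟩ := cells (M := Cs * M) hC (δ := 3 / 4) (by norm_num) (by norm_num)
  set Λ : ℝ := 2 / ε' with hΛ
  have hΛ0 : 0 < Λ := by positivity
  refine ⟨64 / 63 * max M 0 + C₁ * Λ, min (ε' / 2) (1 / (2 * (C₁ * Λ + 1))), by positivity,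
    by positivity, ?_⟩
  intro X _ _ _ κ _ e f R ρ hR hρ0 hρ1 he hf hf1 hsum
  classical
  choose S b A χ c1 c2 c3 c4 c5 c6 c7 c8 c9 c10 using
    fun k => hcc (f k) R ρ hR hρ0 hρ1 (hf k) (hf1 k)
  have hff : ∀ k, DifferentiableOn ℂ (f k) (ball 0 1) := fun k =>
    (hf k).mono (ball_subset_ball hR.le)
  set ι : Type := Σ k, S k with hι
  have hxi : ∀ k (z : X), ‖z‖ < 1 → ‖(inner ℂ (e k) z : ℂ)‖ < 1 := fun k z hz => inner_lt (he k) hz
  have hHF : HF X (fun i : ι => e i.1) (fun i : ι => b i.1 i.2) (Cs * M) := by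
    refine ⟨fun i => he _, fun i => c1 _ _, fun z hz => ?_⟩
    rw [Fintype.sum_sigma]
    refine (Finset.sum_le_sum (fun k _ => c10 k _ (hxi k z hz))).trans ?_
    rw [← Finset.mul_sum]
    exact mul_le_mul_of_nonneg_left (hsum z hz) hCs
  set A' : ι → Set ℂ := fun i => {ζ | ζ ∈ ball (0 : ℂ) 1 ∧ ‖bl (b i.1 i.2) ζ‖ < 3 / 4 ∧
    ε' / 2 < ‖f i.1 ζ‖} with hA'
  have hA'o : ∀ i, IsOpen (A' i) := by
    intro i
    have h1 := (bl_diff (c1 i.1 i.2)).continuousOn.norm.isOpen_inter_preimage isOpen_ball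
      (isOpen_Iio (a := (3 / 4 : ℝ)))
    have h2 := (hff i.1).continuousOn.norm.isOpen_inter_preimage isOpen_ball
      (isOpen_Ioi (a := (ε' / 2 : ℝ)))
    have h3 : A' i = (ball 0 1 ∩ (fun x => ‖bl (b i.1 i.2) x‖) ⁻¹' Iio (3 / 4)) ∩
        (ball 0 1 ∩ (fun x => ‖f i.1 x‖) ⁻¹' Ioi (ε' / 2)) := by
      ext ζ
      simp only [hA', mem_ofPred_eq, mem_inter_iff, mem_preimage, mem_Iio, mem_Ioi]
      tauto
    rw [h3]
    exact h1.inter h2
  have hAA' : ∀ i : ι, A i.1 i.2 ⊆ A' i := by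
    intro i ζ hζ
    obtain ⟨h1, h2, h3, h4⟩ := c3 i.1 i.2 ζ hζ
    exact ⟨mem_ball_zero_iff.2 h1, h2, by linarith⟩
  set μ : ι → ℂ → ℂ := fun i => (A i.1 i.2).indicator (db (χ i.1)) with hμ
  have hμm : ∀ i, Measurable (μ i) := fun i => (db_meas _).indicator (c2 i.1 i.2)
  have hμ0 : ∀ i, ∀ ζ, ζ ∉ A' i → μ i ζ = 0 := fun i ζ hζ =>
    indicator_of_notMem (fun h => hζ (hAA' i h)) _
  have hμb : ∀ i, ∀ ζ, ‖μ i ζ‖ ≤ C / SS (b i.1 i.2) := by
    intro i ζ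
    have hS := SS_pos (c1 i.1 i.2)
    simp only [hμ]
    by_cases h : ζ ∈ A i.1 i.2
    · rw [indicator_of_mem h]
      exact c9 i.1 i.2 ζ h
    · rw [indicator_of_notMem h, norm_zero]
      positivity
  have hfz : ∀ k, DifferentiableOn ℂ (fun z : X => f k (inner ℂ (e k) z)) (ball 0 1) := fun k =>
    (hff k).comp (innerSL ℂ (e k)).differentiable.differentiableOn
      (fun z hz => mem_ball_zero_iff.2 (hxi k z (mem_ball_zero_iff.1 hz)))
  obtain ⟨v, v1, v2⟩ := H1 X ι (fun i => e i.1) (fun i => b i.1 i.2) hHF A' hA'o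
    (fun i ζ hζ => ⟨mem_ball_zero_iff.1 hζ.1, hζ.2.1.le⟩) μ hμm hμ0 hμb
    (fun i z => (f i.1 (inner ℂ (e i.1) z))⁻¹) Λ hΛ0.le
    (fun i => by
      refine DifferentiableOn.inv ((hfz i.1).mono (fun z hz => mem_ball_zero_iff.2 hz.1)) ?_
      intro z hz
      have h1 : ε' / 2 < ‖f i.1 (inner ℂ (e i.1) z)‖ := hz.2.2.2
      exact norm_pos_iff.1 (by linarith))
    (fun i z hz hA => by
      have h1 : ε' / 2 < ‖f i.1 (inner ℂ (e i.1) z)‖ := hA.2.2
      rw [norm_inv, hΛ, inv_le_comm₀ (by linarith) (by positivity), inv_div]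
      exact h1.le)
  have hv1 : ∀ i : ι, ∀ z ∈ ball (0 : X) 1, ‖v i z‖ ≤ C₁ * Λ := fun i z hz =>
    (Finset.single_le_sum (f := fun i => ‖v i z‖) (fun _ _ => norm_nonneg _)
      (Finset.mem_univ i)).trans (v1 z hz)
  have hvs : ∀ z ∈ ball (0 : X) 1, ∑ k, ∑ i : S k, ‖v ⟨k, i⟩ z‖ ≤ C₁ * Λ := by
    intro z hz
    have h1 := v1 z hz
    rwa [Fintype.sum_sigma] at h1
  have hvk : ∀ k, ∀ z ∈ ball (0 : X) 1, ∑ i : S k, ‖v ⟨k, i⟩ z‖ ≤ C₁ * Λ := by
    intro k z hz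
    refine le_trans ?_ (hvs z hz)
    exact Finset.single_le_sum (f := fun k => ∑ i : S k, ‖v ⟨k, i⟩ z‖)
      (fun _ _ => Finset.sum_nonneg (fun _ _ => norm_nonneg _)) (Finset.mem_univ k)
  set W : κ → X → ℂ := fun k z => χ k (inner ℂ (e k) z) -
    f k (inner ℂ (e k) z) * ∑ i : S k, v ⟨k, i⟩ z with hW
  have hsub1 : ball (0 : X) ρ ⊆ ball 0 1 := ball_subset_ball hρ1.le
  have hmemρ : ∀ k (z : X), ‖z‖ < ρ → (inner ℂ (e k) z : ℂ) ∈ ball (0 : ℂ) ρ := by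
    intro k z hz
    rw [mem_ball_zero_iff]
    have := norm_inner_le_norm (𝕜 := ℂ) (e k) z
    rw [he k, one_mul] at this
    linarith
  have hWn : ∀ k, ∀ z ∈ ball (0 : X) ρ, ‖W k z‖ ≤ 64 / 63 * (1 - ‖f k (inner ℂ (e k) z)‖ ^ 2) +
      ∑ i : S k, ‖v ⟨k, i⟩ z‖ := by
    intro k z hz
    have hzρ := mem_ball_zero_iff.1 hz
    have hz1 : ‖z‖ < 1 := by linarith
    have hfk := hf1 k _ (hxi k z hz1).le
    refine (norm_sub_le _ _).trans (add_le_add ?_ ?_)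
    · by_cases h0 : χ k (inner ℂ (e k) z) = 0
      · rw [h0, norm_zero]
        nlinarith [norm_nonneg (f k (inner ℂ (e k) z))]
      · have h1 := c5 k _ (hmemρ k z hzρ)
        have h2 := c6 k _ (hmemρ k z hzρ) h0
        nlinarith [norm_nonneg (f k (inner ℂ (e k) z))]
    · rw [norm_mul]
      have h1 := norm_sum_le (Finset.univ : Finset (S k)) (fun i => v ⟨k, i⟩ z)
      have h2 : 0 ≤ ∑ i : S k, ‖v ⟨k, i⟩ z‖ := Finset.sum_nonneg (fun _ _ => norm_nonneg _)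
      calc ‖f k (inner ℂ (e k) z)‖ * ‖∑ i : S k, v ⟨k, i⟩ z‖
          ≤ 1 * ∑ i : S k, ‖v ⟨k, i⟩ z‖ := by gcongr
        _ = _ := one_mul _
  refine ⟨W, ?_, ?_, ?_⟩
  · -- holomorphy
    intro k
    have hWd : Differentiable ℂ (fun z : X => (inner ℂ (e k) z : ℂ)) :=
      (innerSL ℂ (e k)).differentiable
    have hfd : ∀ x y : X, fderiv ℂ (fun z : X => (inner ℂ (e k) z : ℂ)) x y =
        inner ℂ (e k) y := by
      intro x y
      have h1 : (fun z : X => (inner ℂ (e k) z : ℂ)) = innerSL ℂ (e k) := by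
        funext z
        simp
      rw [h1, (innerSL ℂ (e k)).fderiv]
      simp
    refine line_holo isOpen_ball (W := fun z => (inner ℂ (e k) z : ℂ)) hWd.differentiableOn
      (C := 64 / 63 + C₁ * Λ) ?_ ?_ ?_ ?_
    · intro x _ y hy
      rw [hfd] at hy
      exact Eventually.of_forall fun t => fib_of hy
    · intro x hx
      refine (hWn k x hx).trans (add_le_add ?_ (hvk k x (hsub1 hx)))
      nlinarith [sq_nonneg ‖f k (inner ℂ (e k) x)‖]
    · intro x hx y hy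
      have hy0 := fib_zero hy
      have hcst : (fun t : ℂ => W k (x + t • y)) =
          fun t : ℂ => χ k (inner ℂ (e k) x) - f k (inner ℂ (e k) x) *
            ∑ i : S k, v ⟨k, i⟩ (x + t • y) := by
        funext t
        simp only [hW]
        rw [fib_of hy0]
      rw [hcst]
      refine DifferentiableAt.const_sub (DifferentiableAt.const_mul ?_ _) _
      exact DifferentiableAt.fun_sum (fun i _ => (v2 ⟨k, i⟩).fb x (hsub1 hx) y hy0)
    · intro Ω γ hΩ hγ hm hs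
      have hsb : ∀ s ∈ Ω, s ∈ ball (0 : ℂ) ρ := by
        intro s hsΩ
        have := hmemρ k (γ s) (mem_ball_zero_iff.1 (hm hsΩ))
        rwa [hs s hsΩ] at this
      have hsb1 : ∀ s ∈ Ω, s ∈ ball (0 : ℂ) 1 := fun s hsΩ =>
        ball_subset_ball hρ1.le (hsb s hsΩ)
      have hmb : MapsTo γ Ω (ball 0 1) := fun s hsΩ => hsub1 (hm hsΩ)
      have d1 : WD Ω (fun s => χ k s) (fun s => db (χ k) s) :=
        WD.of_C1 hΩ ((c4 k).mono hsb)
      have d2 : WD Ω (fun s => ∑ i : S k, v ⟨k, i⟩ (γ s))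
          (fun s => ∑ i : S k, μ ⟨k, i⟩ s * (f k (inner ℂ (e k) (γ s)))⁻¹) := by
        refine WD.sum hΩ Finset.univ (fun i _ => ?_)
        exact (v2 ⟨k, i⟩).wd Ω γ hΩ hγ hmb hs
      have d3 := d2.mul_holo hΩ ((hff k).mono hsb1)
      have d4 := d1.add hΩ (d3.mul_holo hΩ (differentiableOn_const (-1 : ℂ)))
      have d5 := d4.holo hΩ (fun s hsΩ => by
        have hsum : ∑ i : S k, μ ⟨k, i⟩ s * (f k (inner ℂ (e k) (γ s)))⁻¹ =
            db (χ k) s * (f k s)⁻¹ := by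
          rw [hs s hsΩ, ← c8 k s (hsb s hsΩ), Finset.sum_mul]
        rw [hsum]
        by_cases hf0 : f k s = 0
        · have h1 : db (χ k) s = 0 := by
            rw [← c8 k s (hsb s hsΩ)]
            refine Finset.sum_eq_zero (fun i _ => indicator_of_notMem (fun hi => ?_) _)
            have h2 := (c3 k i s hi).2.2.1
            rw [hf0, norm_zero] at h2
            linarith
          rw [h1]
          simp
        · field_simp
          ring)
      refine d5.congr (fun s hsΩ => ?_)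
      simp only [hW, hs s hsΩ]
      ring
  · intro z hz
    refine (Finset.sum_le_sum (fun k _ => hWn k z hz)).trans ?_
    rw [Finset.sum_add_distrib, ← Finset.mul_sum]
    refine add_le_add ?_ (hvs z (hsub1 hz))
    have h1 := hsum z (by have := mem_ball_zero_iff.1 hz; linarith)
    have h2 := le_max_left M 0
    linarith
  · intro k z hz hsm
    have hzρ := mem_ball_zero_iff.1 hz
    have h1 : ‖f k (inner ℂ (e k) z)‖ < ε' := by
      have := hsm.trans (min_le_left _ _)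
      linarith
    have h2 : χ k (inner ℂ (e k) z) = 1 := by
      by_contra hne
      have := c7 k _ (hmemρ k z hzρ) hne
      linarith
    have h3 := hsm.trans (min_le_right _ _)
    have h4 : ‖f k (inner ℂ (e k) z) * ∑ i : S k, v ⟨k, i⟩ z‖ ≤ 1 / 2 := by
      rw [norm_mul]
      have h5 := (norm_sum_le (Finset.univ : Finset (S k)) (fun i => v ⟨k, i⟩ z)).trans
        (hvk k z (hsub1 hz))
      have h6 : 0 < C₁ * Λ + 1 := by positivity
      calc ‖f k (inner ℂ (e k) z)‖ * ‖∑ i : S k, v ⟨k, i⟩ z‖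
          ≤ 1 / (2 * (C₁ * Λ + 1)) * (C₁ * Λ) := by gcongr
        _ ≤ 1 / 2 := by
          rw [div_mul_eq_mul_div, div_le_div_iff₀ (by positivity) (by norm_num)]
          nlinarith
    have h7 := norm_sub_norm_le (1 : ℂ) (f k (inner ℂ (e k) z) * ∑ i : S k, v ⟨k, i⟩ z)
    rw [norm_one] at h7
    simp only [hW]
    rw [h2]
    linarith

/-- the radii which tend to `1` -/
noncomputable def rr (n : ℕ) : ℝ := 1 - 1 / (n + 2)

theorem rr_pos (n : ℕ) : 0 < rr n := by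
  unfold rr
  have h1 : (1 : ℝ) / (n + 2) ≤ 1 / 2 := by
    refine one_div_le_one_div_of_le (by norm_num) ?_
    have : (0 : ℝ) ≤ n := Nat.cast_nonneg n
    linarith
  linarith

theorem rr_lt (n : ℕ) : rr n < 1 := by
  unfold rr
  have h1 : (0 : ℝ) < 1 / (n + 2) := by positivity
  linarith

theorem rr_tendsto : Tendsto rr atTop (𝓝 1) := by
  have h1 : Tendsto (fun n : ℕ => 1 / ((n : ℝ) + 2)) atTop (𝓝 0) := by
    have h2 := (tendsto_one_div_add_atTop_nhds_zero_nat (𝕜 := ℝ)).comp (tendsto_add_atTop_nat 1)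
    refine h2.congr (fun n => ?_)
    simp only [Function.comp_apply]
    push_cast
    congr 1
    ring
  have h3 := h1.const_sub 1
  rw [sub_zero] at h3
  exact h3

/-- **Weights for families of bounded holomorphic functions in varying directions.** -/
theorem fw (M : ℝ) : ∃ L ε₁ : ℝ, 0 ≤ L ∧ 0 < ε₁ ∧
    ∀ (X : Type) [NormedAddCommGroup X] [InnerProductSpace ℂ X] [FiniteDimensional ℂ X]
      (κ : Type) [Fintype κ] (e : κ → X) (f : κ → ℂ → ℂ), (∀ k, ‖e k‖ = 1) →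
      (∀ k, DifferentiableOn ℂ (f k) (ball 0 1)) →
      (∀ k, ∀ ζ ∈ ball (0 : ℂ) 1, ‖f k ζ‖ ≤ 1) →
      (∀ z : X, ‖z‖ < 1 → ∑ k, (1 - ‖f k (inner ℂ (e k) z)‖ ^ 2) ≤ M) →
      ∃ W : κ → X → ℂ, (∀ k, DifferentiableOn ℂ (W k) (ball 0 1)) ∧
        (∀ z ∈ ball (0 : X) 1, ∑ k, ‖W k z‖ ≤ L) ∧
        ∀ k, ∀ z ∈ ball (0 : X) 1, ‖f k (inner ℂ (e k) z)‖ < ε₁ → 1 / 2 ≤ ‖W k z‖ := by
  obtain ⟨L, ε₁, hL, hε₁, H⟩ := fw_nice M
  refine ⟨L, ε₁, hL, hε₁, ?_⟩
  intro X _ _ _ κ _ e f he hf hf1 hsum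
  classical
  have hrn : ∀ (n : ℕ) (ζ : ℂ), ‖ζ‖ < 1 / rr n → ‖(rr n : ℂ) * ζ‖ < 1 := by
    intro n ζ hζ
    rw [norm_mul, Complex.norm_real, Real.norm_of_nonneg (rr_pos n).le]
    have h1 := rr_pos n
    rw [lt_div_iff₀ h1] at hζ
    linarith
  have hR : ∀ n, 1 < 1 / rr n := fun n => by
    rw [lt_div_iff₀ (rr_pos n), one_mul]
    exact rr_lt n
  have hz : ∀ (n : ℕ) (z : X), ‖z‖ < 1 → ‖(rr n : ℂ) • z‖ < rr n := by
    intro n z hz
    rw [norm_smul, Complex.norm_real, Real.norm_of_nonneg (rr_pos n).le]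
    have h1 := rr_pos n
    nlinarith
  have key : ∀ n : ℕ, ∃ W : κ → X → ℂ, (∀ k, DifferentiableOn ℂ (W k) (ball 0 (rr n))) ∧
        (∀ z ∈ ball (0 : X) (rr n), ∑ k, ‖W k z‖ ≤ L) ∧
        ∀ k, ∀ z ∈ ball (0 : X) (rr n), ‖f k (rr n * inner ℂ (e k) z)‖ ≤ ε₁ →
          1 / 2 ≤ ‖W k z‖ := by
    intro n
    refine H X κ e (fun k ζ => f k (rr n * ζ)) (1 / rr n) (rr n) (hR n) (rr_pos n) (rr_lt n) he
      ?_ ?_ ?_
    · intro k
      refine (hf k).comp (by fun_prop) ?_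
      intro ζ hζ
      exact mem_ball_zero_iff.2 (hrn n ζ (mem_ball_zero_iff.1 hζ))
    · intro k ζ hζ
      exact hf1 k _ (mem_ball_zero_iff.2 (hrn n ζ (lt_of_le_of_lt hζ (hR n))))
    · intro z hz1
      have h1 := hsum ((rr n : ℂ) • z) ((hz n z hz1).trans (rr_lt n))
      simp only [inner_smul_right] at h1
      exact h1
  choose V v1 v2 v3 using key
  set W : ℕ → κ → X → ℂ := fun n k z => V n k ((rr n : ℂ) • z) with hW
  have hmap : ∀ n, MapsTo (fun z : X => (rr n : ℂ) • z) (ball 0 1) (ball 0 (rr n)) := fun n z hz1 =>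
    mem_ball_zero_iff.2 (hz n z (mem_ball_zero_iff.1 hz1))
  have w1 : ∀ n k, DifferentiableOn ℂ (W n k) (ball 0 1) := fun n k =>
    (v1 n k).comp (by fun_prop) (hmap n)
  have w2 : ∀ n, ∀ z ∈ ball (0 : X) 1, ∑ k, ‖W n k z‖ ≤ L := fun n z hz1 => v2 n _ (hmap n hz1)
  have w3 : ∀ n k, ∀ z ∈ ball (0 : X) 1, ‖W n k z‖ ≤ L := fun n k z hz1 =>
    (Finset.single_le_sum (f := fun k => ‖W n k z‖) (fun _ _ => norm_nonneg _)
      (Finset.mem_univ k)).trans (w2 n z hz1)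
  set 𝒰 : Ultrafilter ℕ := Ultrafilter.of atTop with h𝒰
  have hle : (𝒰 : Filter ℕ) ≤ atTop := Ultrafilter.of_le _
  have k1 : ∀ k, ∃ v : X → ℂ, DifferentiableOn ℂ v (ball 0 1) ∧ (∀ p ∈ ball (0 : X) 1, ‖v p‖ ≤ L) ∧
      ∀ p ∈ ball (0 : X) 1, Tendsto (fun n => W n k p) 𝒰 (𝓝 (v p)) := fun k =>
    Pool.Agent.H720R2.Cor.ultra_lim isOpen_ball 𝒰 (fun n => W n k) (fun n => w1 n k)
      (fun n => w3 n k)
  choose U u1 u2 u3 using k1
  refine ⟨U, u1, ?_, ?_⟩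
  · intro z hz1
    have h1 : Tendsto (fun n => ∑ k, ‖W n k z‖) 𝒰 (𝓝 (∑ k, ‖U k z‖)) :=
      tendsto_finsetSum _ (fun k _ => (u3 k z hz1).norm)
    exact le_of_tendsto h1 (Eventually.of_forall (fun n => w2 n z hz1))
  · intro k z hz1 hlt
    have hzi : ‖(inner ℂ (e k) z : ℂ)‖ < 1 := inner_lt (he k) (mem_ball_zero_iff.1 hz1)
    have h1 : Tendsto (fun n : ℕ => ((rr n : ℂ) * (rr n * inner ℂ (e k) z))) atTop
        (𝓝 (inner ℂ (e k) z)) := by
      have h2 : Tendsto (fun n : ℕ => (rr n : ℂ)) atTop (𝓝 1) := by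
        have h3 : Tendsto (fun n : ℕ => (rr n : ℂ)) atTop (𝓝 ((1 : ℝ) : ℂ)) :=
          (Complex.continuous_ofReal.tendsto 1).comp rr_tendsto
        rwa [Complex.ofReal_one] at h3
      have h3 := h2.mul (h2.mul_const (inner ℂ (e k) z))
      simpa using h3
    have h2 : ContinuousAt (f k) (inner ℂ (e k) z) :=
      ((hf k).differentiableAt (isOpen_ball.mem_nhds (mem_ball_zero_iff.2 hzi))).continuousAt
    have h3 : Tendsto (fun n : ℕ => ‖f k ((rr n : ℂ) * (rr n * inner ℂ (e k) z))‖) atTop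
        (𝓝 ‖f k (inner ℂ (e k) z)‖) := (h2.tendsto.comp h1).norm
    have h4 : ∀ᶠ n in atTop, ‖f k ((rr n : ℂ) * (rr n * inner ℂ (e k) z))‖ < ε₁ :=
      h3.eventually_lt_const hlt
    have h5 : ∀ᶠ n in (𝒰 : Filter ℕ), 1 / 2 ≤ ‖W n k z‖ := by
      filter_upwards [hle h4] with n hn
      refine v3 n k _ (hmap n hz1) ?_
      rw [inner_smul_right]
      exact hn.le
    exact ge_of_tendsto (u3 k z hz1).norm h5

end Run7.h512
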