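import Mathlib
import Pool.Agent.Run7.h512.Glue

/-!
Gluing solutions of the Bezout equation along families of cells: the main theorem.
-/

set_option autoImplicit false
set_option linter.unusedSectionVars false

open MeasureTheory Metric Set Filter Topology Complex
open scoped ContDiff

namespace Run7.h512

open Pool.Agent.H720R2 Pool.Agent.H720R2.HP
open Pool.Agent.Y263.LF (Bez)
open Pool.Agent.Y263.GF (line_holo)

/-- cutoff functions in the directions `e k`, with gradients supported on cells -/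
structure Cuts {X : Type} [NormedAddCommGroup X] [InnerProductSpace ℂ X] {κ ι : Type} [Fintype ι]
    [DecidableEq κ] (e : κ → X) (d : ι → κ) (a : ι → ℂ) (A R : ι → Set ℂ) (χ : κ → ℂ → ℂ)
    (I O : κ → Set ℂ) (K δ ρ : ℝ) : Prop where
  Ao : ∀ i, IsOpen (A i)
  At : ∀ i, ∀ ζ ∈ A i, ‖ζ‖ < 1 ∧ ‖bl (a i) ζ‖ ≤ δ
  Rm : ∀ i, MeasurableSet (R i)
  RA : ∀ i, R i ⊆ A i
  sm : ∀ k, ContDiffOn ℝ 1 (χ k) (ball 0 ρ)
  bd : ∀ k, ∀ ζ ∈ ball (0 : ℂ) ρ, ‖χ k ζ‖ ≤ 1
  cov : ∀ k, ∀ ζ ∈ ball (0 : ℂ) 1, ζ ∉ I k → ζ ∈ O k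
  Io : ∀ k, IsOpen (I k)
  Oo : ∀ k, IsOpen (O k)
  I0 : ∀ k, ∀ ζ ∈ ball (0 : ℂ) ρ, ζ ∉ I k → χ k =ᶠ[𝓝 ζ] fun _ => 0
  O1 : ∀ k, ∀ ζ ∈ ball (0 : ℂ) ρ, ζ ∉ O k → χ k =ᶠ[𝓝 ζ] fun _ => 1
  AI : ∀ i, A i ⊆ I (d i) ∩ O (d i)
  supp : ∀ k, ∀ ζ ∈ ball (0 : ℂ) ρ,
    ∑ i ∈ Finset.univ.filter (fun i => d i = k), (R i).indicator (db (χ k)) ζ = db (χ k) ζ
  grad : ∀ i, ∀ ζ ∈ R i, ‖db (χ (d i)) ζ‖ ≤ K / SS (a i)
  dis : ∀ j k, j ≠ k → ∀ z ∈ ball (0 : X) 1, (inner ℂ (e j) z : ℂ) ∈ I j →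
    (inner ℂ (e k) z : ℂ) ∉ I k

theorem sum_anti {N : ℕ} (F : Fin N → ℂ) (b : Fin N → Fin N → ℂ) :
    ∑ i, F i * ∑ j, F j * (b i j - b j i) = 0 := by
  have h1 : ∑ i, F i * ∑ j, F j * (b i j - b j i) =
      ∑ i, ∑ j, F i * F j * b i j - ∑ i, ∑ j, F i * F j * b j i := by
    rw [← Finset.sum_sub_distrib]
    refine Finset.sum_congr rfl (fun i _ => ?_)
    rw [← Finset.sum_sub_distrib, Finset.mul_sum]
    exact Finset.sum_congr rfl (fun j _ => by ring)
  rw [h1, Finset.sum_comm (f := fun i j => F i * F j * b j i), sub_eq_zero]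
  refine Finset.sum_congr rfl (fun i _ => Finset.sum_congr rfl (fun j _ => by ring))

/-- **Gluing theorem.** -/
theorem glue {K δ M : ℝ} (N : ℕ) (Q : ℝ) (hK : 0 ≤ K) (hδ0 : 0 ≤ δ) (hδ : δ < 1) :
    ∃ C : ℝ, 0 ≤ C ∧
    ∀ (X : Type) [NormedAddCommGroup X] [InnerProductSpace ℂ X] [FiniteDimensional ℂ X]
      (κ ι : Type) [Fintype κ] [DecidableEq κ] [Fintype ι] (e : κ → X) (d : ι → κ) (a : ι → ℂ)
      (A R : ι → Set ℂ) (χ : κ → ℂ → ℂ) (I O : κ → Set ℂ) (ρ : ℝ), ρ ≤ 1 → (∀ k, ‖e k‖ = 1) →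
      HF X (fun i => e (d i)) a M → Cuts e d a A R χ I O K δ ρ →
      ∀ F : Fin N → X → ℂ, (∀ i, DifferentiableOn ℂ (F i) (ball 0 1)) →
      (∀ i, ∀ z ∈ ball (0 : X) 1, ‖F i z‖ ≤ 1) →
      (∀ k, Bez {z : X | ‖z‖ < 1 ∧ (inner ℂ (e k) z : ℂ) ∈ I k} F Q) →
      Bez {z : X | ‖z‖ < 1 ∧ ∀ k, (inner ℂ (e k) z : ℂ) ∈ O k} F Q →
      Bez (ball 0 ρ) F C := by
  obtain ⟨C₁, hC₁, H1⟩ := cells (M := M) hK hδ0 hδ
  set Q' : ℝ := max Q 0 with hQ'
  have hQ0 : 0 ≤ Q' := le_max_right _ _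
  refine ⟨3 * Q' + N * (2 * (C₁ * Q' ^ 2)), by positivity, ?_⟩
  intro X _ _ _ κ ι _ _ _ e d a A R χ I O ρ hρ he hHF hc F hF hF1 hin hout
  classical
  choose g g1 g2 g3 using hin
  obtain ⟨g0, p1, p2, p3⟩ := hout
  have g2' : ∀ k i, ∀ z ∈ {z : X | ‖z‖ < 1 ∧ (inner ℂ (e k) z : ℂ) ∈ I k}, ‖g k i z‖ ≤ Q' :=
    fun k i z hz => (g2 k i z hz).trans (le_max_left _ _)
  have p2' : ∀ i, ∀ z ∈ {z : X | ‖z‖ < 1 ∧ ∀ k, (inner ℂ (e k) z : ℂ) ∈ O k}, ‖g0 i z‖ ≤ Q' :=
    fun i z hz => (p2 i z hz).trans (le_max_left _ _)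
  have hmemI : ∀ k (z : X), ‖z‖ < 1 → (inner ℂ (e k) z : ℂ) ∈ ball (0 : ℂ) 1 := fun k z hz =>
    mem_ball_zero_iff.2 (inner_lt (he k) hz)
  have hmemρ : ∀ k (z : X), ‖z‖ < ρ → (inner ℂ (e k) z : ℂ) ∈ ball (0 : ℂ) ρ := by
    intro k z hz
    rw [mem_ball_zero_iff]
    have := norm_inner_le_norm (𝕜 := ℂ) (e k) z
    rw [he k, one_mul] at this
    linarith
  have hsub1 : ball (0 : X) ρ ⊆ ball 0 1 := ball_subset_ball hρ
  -- the sets `I` and `O` cover
  have hcov := hc.cov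
  have hother : ∀ k (z : X), ‖z‖ < 1 → (inner ℂ (e k) z : ℂ) ∈ I k → ∀ j, j ≠ k →
      (inner ℂ (e j) z : ℂ) ∈ O j := fun k z hz hI j hjk =>
    hcov j _ (hmemI j z hz) (hc.dis k j hjk.symm z (mem_ball_zero_iff.2 hz) hI)
  have hIO : ∀ k (z : X), ‖z‖ < 1 → (inner ℂ (e k) z : ℂ) ∈ I k → (inner ℂ (e k) z : ℂ) ∈ O k →
      z ∈ {z : X | ‖z‖ < 1 ∧ ∀ k, (inner ℂ (e k) z : ℂ) ∈ O k} := by
    intro k z hz hI hO
    refine ⟨hz, fun j => ?_⟩
    by_cases hjk : j = k
    · rw [hjk]; exact hO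
    · exact hother k z hz hI j hjk
  have hUI : ∀ k, IsOpen {z : X | ‖z‖ < 1 ∧ (inner ℂ (e k) z : ℂ) ∈ I k} := fun k =>
    (isOpen_lt continuous_norm continuous_const).inter
      ((hc.Io k).preimage (innerSL ℂ (e k)).continuous)
  have hUO : IsOpen {z : X | ‖z‖ < 1 ∧ ∀ k, (inner ℂ (e k) z : ℂ) ∈ O k} := by
    have h1 : {z : X | ‖z‖ < 1 ∧ ∀ k, (inner ℂ (e k) z : ℂ) ∈ O k} =
        {z : X | ‖z‖ < 1} ∩ ⋂ k, {z : X | (inner ℂ (e k) z : ℂ) ∈ O k} := by
      ext z
      simp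
    rw [h1]
    exact (isOpen_lt continuous_norm continuous_const).inter (isOpen_iInter_of_finite
      (fun k => (hc.Oo k).preimage (innerSL ℂ (e k)).continuous))
  have hAIO : ∀ i (z : X), ‖z‖ < 1 → (inner ℂ (e (d i)) z : ℂ) ∈ A i →
      z ∈ {z : X | ‖z‖ < 1 ∧ (inner ℂ (e (d i)) z : ℂ) ∈ I (d i)} ∧
      z ∈ {z : X | ‖z‖ < 1 ∧ ∀ k, (inner ℂ (e k) z : ℂ) ∈ O k} := by
    intro i z hz hA
    have h1 := hc.AI i hA
    exact ⟨⟨hz, h1.1⟩, hIO (d i) z hz h1.1 h1.2⟩
  -- the densities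
  set μ : ι → ℂ → ℂ := fun i => (R i).indicator (db (χ (d i))) with hμ
  have hμm : ∀ i, Measurable (μ i) := fun i => (db_meas _).indicator (hc.Rm i)
  have hμ0 : ∀ i, ∀ ζ, ζ ∉ A i → μ i ζ = 0 := fun i ζ hζ =>
    indicator_of_notMem (fun h => hζ (hc.RA i h)) _
  have hμb : ∀ i, ∀ ζ, ‖μ i ζ‖ ≤ K / SS (a i) := by
    intro i ζ
    have hS := SS_pos (hHF.ha i)
    simp only [hμ]
    by_cases h : ζ ∈ R i
    · rw [indicator_of_mem h]
      exact hc.grad i ζ h
    · rw [indicator_of_notMem h, norm_zero]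
      positivity
  -- the solutions of the d-bar equations
  have hb : ∀ i j, ∃ v : ι → X → ℂ, (∀ z ∈ ball (0 : X) 1, ∑ n, ‖v n z‖ ≤ C₁ * (Q' * Q')) ∧
      ∀ n, Sol1 (e (d n)) (v n) (μ n) (fun z => g0 i z * g (d n) j z) := by
    intro i j
    refine H1 X ι (fun n => e (d n)) a hHF A hc.Ao hc.At μ hμm hμ0 hμb
      (fun n z => g0 i z * g (d n) j z) (Q' * Q') (by positivity) ?_ ?_
    · intro n
      refine DifferentiableOn.mul ?_ ?_
      · exact (p1 i).mono (fun z hz => (hAIO n z hz.1 hz.2).2)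
      · exact (g1 (d n) j).mono (fun z hz => (hAIO n z hz.1 hz.2).1)
    · intro n z hz hA
      rw [norm_mul]
      have h1 := hAIO n z hz hA
      have h2 := p2' i z h1.2
      have h3 := g2' (d n) j z h1.1
      gcongr
  choose b b1 b2 using hb
  have b1n : ∀ i j n, ∀ z ∈ ball (0 : X) 1, ‖b i j n z‖ ≤ C₁ * (Q' * Q') := by
    intro i j n z hz
    exact (Finset.single_le_sum (f := fun n => ‖b i j n z‖) (fun _ _ => norm_nonneg _)
      (Finset.mem_univ n)).trans (b1 i j z hz)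
  set φ : Fin N → X → ℂ := fun i z => g0 i z +
    ∑ k, χ k (inner ℂ (e k) z) * (g k i z - g0 i z) with hφ
  set h : Fin N → X → ℂ := fun i z => φ i z + ∑ j, F j z *
    (∑ n, b i j n z - ∑ n, b j i n z) with hh
  -- the values of `φ`
  have hφin : ∀ k i (z : X), ‖z‖ < ρ → (inner ℂ (e k) z : ℂ) ∈ I k →
      φ i z = g0 i z + χ k (inner ℂ (e k) z) * (g k i z - g0 i z) := by
    intro k i z hz hI
    simp only [hφ]
    congr 1
    refine Finset.sum_eq_single k (fun j _ hjk => ?_) (fun h => absurd (Finset.mem_univ k) h)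
    have h1 := hc.dis k j hjk.symm z (mem_ball_zero_iff.2 (lt_of_lt_of_le hz hρ)) hI
    rw [(hc.I0 j _ (hmemρ j z hz) h1).eq_of_nhds, zero_mul]
  have hφout : ∀ i (z : X), ‖z‖ < ρ → (∀ k, (inner ℂ (e k) z : ℂ) ∉ I k) → φ i z = g0 i z := by
    intro i z hz hI
    simp only [hφ]
    rw [Finset.sum_eq_zero, add_zero]
    intro j _
    rw [(hc.I0 j _ (hmemρ j z hz) (hI j)).eq_of_nhds, zero_mul]
  refine ⟨h, ?_, ?_, ?_⟩
  · -- holomorphy
    intro i
    -- the functions `b` away from the cells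
    have hbd : ∀ i j n (O' : Set ℂ), IsOpen O' → (∀ ζ ∈ O', ‖ζ‖ < 1 → μ n ζ = 0) → ∀ z : X,
        ‖z‖ < 1 → (inner ℂ (e (d n)) z : ℂ) ∈ O' → DifferentiableAt ℂ (b i j n) z := by
      intro i j n O' hO' h0 z hz hzO
      have h1 := (b2 i j n).holo (he (d n)) (b1n i j n) hO' h0
      refine h1.differentiableAt (IsOpen.mem_nhds ?_ ⟨mem_ball_zero_iff.2 hz, hzO⟩)
      exact isOpen_ball.inter (hO'.preimage (innerSL ℂ (e (d n))).continuous)
    -- vanishing of the density near points outside of `I` or `O`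
    have hdb0 : ∀ k, ∀ ζ ∈ ball (0 : ℂ) ρ, (ζ ∉ I k ∨ ζ ∉ O k) →
        ∃ O' : Set ℂ, IsOpen O' ∧ ζ ∈ O' ∧ ∀ ξ ∈ O', db (χ k) ξ = 0 := by
      intro k ζ hζ hor
      have h1 : ∃ c : ℂ, χ k =ᶠ[𝓝 ζ] fun _ => c := by
        rcases hor with h | h
        · exact ⟨0, hc.I0 k ζ hζ h⟩
        · exact ⟨1, hc.O1 k ζ hζ h⟩
      obtain ⟨c, h1⟩ := h1
      obtain ⟨O', h2, h3, h4⟩ := _root_.eventually_nhds_iff.1 h1
      refine ⟨O', h3, h4, fun ξ hξ => ?_⟩
      have h5 : χ k =ᶠ[𝓝 ξ] fun _ => c := by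
        filter_upwards [h3.mem_nhds hξ] with y hy
        exact h2 y hy
      rw [db_congr h5]
      unfold db
      simp
    have hbk : ∀ i j n (z : X), ‖z‖ < ρ → ((inner ℂ (e (d n)) z : ℂ) ∉ I (d n) ∨
        (inner ℂ (e (d n)) z : ℂ) ∉ O (d n)) → DifferentiableAt ℂ (b i j n) z := by
      intro i j n z hz hor
      obtain ⟨O', o1, o2, o3⟩ := hdb0 (d n) _ (hmemρ (d n) z hz) hor
      refine hbd i j n O' o1 (fun ζ hζ _ => ?_) z (lt_of_lt_of_le hz hρ) o2
      simp only [hμ]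
      by_cases hR : ζ ∈ R n
      · rw [indicator_of_mem hR]
        exact o3 ζ hζ
      · exact indicator_of_notMem hR _
    have hFat : ∀ j (z : X), ‖z‖ < 1 → DifferentiableAt ℂ (F j) z := fun j z hz =>
      (hF j).differentiableAt (isOpen_ball.mem_nhds (mem_ball_zero_iff.2 hz))
    intro z hz
    have hzρ := mem_ball_zero_iff.1 hz
    have hz1 : ‖z‖ < 1 := lt_of_lt_of_le hzρ hρ
    refine DifferentiableAt.differentiableWithinAt ?_
    by_cases hex : ∃ k, (inner ℂ (e k) z : ℂ) ∈ I k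
    swap
    · -- outside of all sets `I k`
      push Not at hex
      have hz0 : z ∈ {z : X | ‖z‖ < 1 ∧ ∀ k, (inner ℂ (e k) z : ℂ) ∈ O k} :=
        ⟨hz1, fun k => hcov k _ (hmemI k z hz1) (hex k)⟩
      have e1 : DifferentiableAt ℂ (φ i) z := by
        have h2 : φ i =ᶠ[𝓝 z] g0 i := by
          have h3 : ∀ k, ∀ᶠ y in 𝓝 z, χ k (inner ℂ (e k) y) = 0 := by
            intro k
            have h4 := hc.I0 k _ (hmemρ k z hzρ) (hex k)
            exact (innerSL ℂ (e k)).continuous.continuousAt.eventually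
              (show ∀ᶠ y in 𝓝 ((innerSL ℂ (e k)) z), χ k y = 0 from h4)
          filter_upwards [eventually_all.2 h3] with y hy
          simp only [hφ]
          rw [Finset.sum_eq_zero (fun k _ => by rw [hy k, zero_mul]), add_zero]
        exact ((p1 i).differentiableAt (hUO.mem_nhds hz0)).congr_of_eventuallyEq h2
      refine e1.add (DifferentiableAt.fun_sum (fun j _ => (hFat j z hz1).mul ?_))
      exact (DifferentiableAt.fun_sum (fun n _ => hbk i j n z hzρ (Or.inl (hex _)))).sub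
        (DifferentiableAt.fun_sum (fun n _ => hbk j i n z hzρ (Or.inl (hex _))))
    obtain ⟨k, hkI⟩ := hex
    have hnk : ∀ n, d n ≠ k → (inner ℂ (e (d n)) z : ℂ) ∉ I (d n) := fun n hn =>
      hc.dis k (d n) hn.symm z (hsub1 hz) hkI
    by_cases hkO : (inner ℂ (e k) z : ℂ) ∈ O k
    swap
    · -- where the cutoff function is `1`
      have e1 : DifferentiableAt ℂ (φ i) z := by
        have h2 : φ i =ᶠ[𝓝 z] g k i := by
          have h4 := hc.O1 k _ (hmemρ k z hzρ) hkO
          have h5 : ∀ᶠ y in 𝓝 z, χ k (inner ℂ (e k) y) = 1 :=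
            (innerSL ℂ (e k)).continuous.continuousAt.eventually
              (show ∀ᶠ y in 𝓝 ((innerSL ℂ (e k)) z), χ k y = 1 from h4)
          filter_upwards [h5, (hUI k).mem_nhds ⟨hz1, hkI⟩, isOpen_ball.mem_nhds hz] with y hy hyI hyρ
          rw [hφin k i y (mem_ball_zero_iff.1 hyρ) hyI.2, hy]
          ring
        exact ((g1 k i).differentiableAt ((hUI k).mem_nhds ⟨hz1, hkI⟩)).congr_of_eventuallyEq h2
      have e2 : ∀ i j n, DifferentiableAt ℂ (b i j n) z := by
        intro i j n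
        by_cases hn : d n = k
        · exact hbk i j n z hzρ (Or.inr (by rw [hn]; exact hkO))
        · exact hbk i j n z hzρ (Or.inl (hnk n hn))
      refine e1.add (DifferentiableAt.fun_sum (fun j _ => (hFat j z hz1).mul ?_))
      exact (DifferentiableAt.fun_sum (fun n _ => e2 i j n)).sub
        (DifferentiableAt.fun_sum (fun n _ => e2 j i n))
    -- the transition region
    set U : Set X := {z : X | ‖z‖ < ρ ∧ (inner ℂ (e k) z : ℂ) ∈ I k ∩ O k} with hU
    have hUo : IsOpen U := (isOpen_lt continuous_norm continuous_const).inter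
      (((hc.Io k).inter (hc.Oo k)).preimage (innerSL ℂ (e k)).continuous)
    have hzU : z ∈ U := ⟨hzρ, hkI, hkO⟩
    have hUb : U ⊆ ball (0 : X) 1 := fun y hy => mem_ball_zero_iff.2 (lt_of_lt_of_le hy.1 hρ)
    have hUg : ∀ i, DifferentiableOn ℂ (g k i) U := fun i => (g1 k i).mono
      (fun y hy => ⟨lt_of_lt_of_le hy.1 hρ, hy.2.1⟩)
    have hUsub : ∀ y ∈ U, y ∈ {z : X | ‖z‖ < 1 ∧ ∀ k, (inner ℂ (e k) z : ℂ) ∈ O k} := fun y hy =>
      hIO k y (lt_of_lt_of_le hy.1 hρ) hy.2.1 hy.2.2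
    have hUg0 : ∀ i, DifferentiableOn ℂ (g0 i) U := fun i => (p1 i).mono hUsub
    set Nk : Finset ι := Finset.univ.filter (fun n => d n = k) with hNk
    set H1f : X → ℂ := fun y => χ k (inner ℂ (e k) y) * (g k i y - g0 i y) +
      ∑ j, F j y * (∑ n ∈ Nk, b i j n y - ∑ n ∈ Nk, b j i n y) with hH1
    have hmain : DifferentiableOn ℂ H1f U := by
      have hW : Differentiable ℂ (fun z : X => (inner ℂ (e k) z : ℂ)) :=
        (innerSL ℂ (e k)).differentiable
      have hfd : ∀ x y : X, fderiv ℂ (fun z : X => (inner ℂ (e k) z : ℂ)) x y =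
          inner ℂ (e k) y := by
        intro x y
        have h1 : (fun z : X => (inner ℂ (e k) z : ℂ)) = innerSL ℂ (e k) := by
          funext z
          simp
        rw [h1, (innerSL ℂ (e k)).fderiv]
        simp
      refine line_holo hUo (W := fun z => (inner ℂ (e k) z : ℂ)) hW.differentiableOn
        (C := 2 * Q' + N * (2 * (Nk.card * (C₁ * (Q' * Q'))))) ?_ ?_ ?_ ?_
      · intro x _ y hy
        rw [hfd] at hy
        exact Eventually.of_forall fun t => fib_of hy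
      · intro x hx
        have q1 := g2' k i x ⟨lt_of_lt_of_le hx.1 hρ, hx.2.1⟩
        have q2 := p2' i x (hUsub x hx)
        have q3 := hc.bd k _ (hmemρ k x hx.1)
        have q4 : ∀ i j, ‖∑ n ∈ Nk, b i j n x‖ ≤ Nk.card * (C₁ * (Q' * Q')) := by
          intro i j
          refine (norm_sum_le _ _).trans ?_
          refine (Finset.sum_le_sum (fun n _ => b1n i j n x (hUb hx))).trans (le_of_eq ?_)
          rw [Finset.sum_const, nsmul_eq_mul]
        refine (norm_add_le _ _).trans (add_le_add ?_ ?_)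
        · rw [norm_mul]
          calc ‖χ k (inner ℂ (e k) x)‖ * ‖g k i x - g0 i x‖ ≤ 1 * (Q' + Q') := by
                gcongr
                exact (norm_sub_le _ _).trans (add_le_add q1 q2)
            _ = 2 * Q' := by ring
        · refine (norm_sum_le _ _).trans ?_
          have q5 : ∀ j ∈ (Finset.univ : Finset (Fin N)),
              ‖F j x * (∑ n ∈ Nk, b i j n x - ∑ n ∈ Nk, b j i n x)‖ ≤
                2 * (Nk.card * (C₁ * (Q' * Q'))) := by
            intro j _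
            rw [norm_mul]
            calc ‖F j x‖ * ‖∑ n ∈ Nk, b i j n x - ∑ n ∈ Nk, b j i n x‖
                ≤ 1 * (Nk.card * (C₁ * (Q' * Q')) + Nk.card * (C₁ * (Q' * Q'))) := by
                  gcongr
                  · exact hF1 j x (hUb hx)
                  · exact (norm_sub_le _ _).trans (add_le_add (q4 i j) (q4 j i))
              _ = _ := by ring
          refine (Finset.sum_le_sum q5).trans (le_of_eq ?_)
          simp
      · intro x hx y hy
        have hy0 := fib_zero hy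
        have hcst : (fun t : ℂ => χ k (inner ℂ (e k) (x + t • y)) *
            (g k i (x + t • y) - g0 i (x + t • y))) =
            fun t : ℂ => χ k (inner ℂ (e k) x) * (g k i (x + t • y) - g0 i (x + t • y)) := by
          funext t
          rw [fib_of hy0]
        have d1 : DifferentiableAt ℂ (fun t : ℂ => χ k (inner ℂ (e k) (x + t • y)) *
            (g k i (x + t • y) - g0 i (x + t • y))) 0 := by
          rw [hcst]
          exact ((hol_line hUo (hUg i) hx).sub (hol_line hUo (hUg0 i) hx)).const_mul _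
        refine d1.add (DifferentiableAt.fun_sum (fun j _ => ?_))
        refine (hol_line isOpen_ball (hF j) (hUb hx)).mul ?_
        have hbn : ∀ i j, ∀ n ∈ Nk, DifferentiableAt ℂ (fun t : ℂ => b i j n (x + t • y)) 0 := by
          intro i j n hn
          rw [hNk, Finset.mem_filter] at hn
          exact (b2 i j n).fb x (hUb hx) y (by rw [hn.2]; exact hy0)
        exact (DifferentiableAt.fun_sum (fun n hn => hbn i j n hn)).sub
          (DifferentiableAt.fun_sum (fun n hn => hbn j i n hn))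
      · intro Ω γ hΩ hγ hm hs
        have hsb : ∀ s ∈ Ω, s ∈ ball (0 : ℂ) ρ := by
          intro s hsΩ
          have := hmemρ k (γ s) (hm hsΩ).1
          rwa [hs s hsΩ] at this
        have hmb : MapsTo γ Ω (ball 0 1) := fun s hsΩ => hUb (hm hsΩ)
        have hgd : DifferentiableOn ℂ (fun s => g k i (γ s) - g0 i (γ s)) Ω :=
          ((hUg i).comp hγ hm).sub ((hUg0 i).comp hγ hm)
        have d1 : WD Ω (fun s => (g k i (γ s) - g0 i (γ s)) * χ k s)
            (fun s => (g k i (γ s) - g0 i (γ s)) * db (χ k) s) :=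
          (WD.of_C1 hΩ ((hc.sm k).mono hsb)).mul_holo hΩ hgd
        have d2 : ∀ i j, WD Ω (fun s => ∑ n ∈ Nk, b i j n (γ s))
            (fun s => ∑ n ∈ Nk, μ n s * (g0 i (γ s) * g (d n) j (γ s))) := by
          intro i j
          refine WD.sum hΩ Nk (fun n hn => ?_)
          rw [hNk, Finset.mem_filter] at hn
          exact (b2 i j n).wd Ω γ hΩ hγ hmb (by rw [hn.2]; exact hs)
        have d3 : WD Ω (fun s => ∑ j, F j (γ s) * (∑ n ∈ Nk, b i j n (γ s) +
            (-1) * ∑ n ∈ Nk, b j i n (γ s)))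
            (fun s => ∑ j, F j (γ s) * (∑ n ∈ Nk, μ n s * (g0 i (γ s) * g (d n) j (γ s)) +
              (-1) * ∑ n ∈ Nk, μ n s * (g0 j (γ s) * g (d n) i (γ s)))) := by
          refine WD.sum hΩ Finset.univ (fun j _ => ?_)
          refine ((d2 i j).add hΩ ((d2 j i).mul_holo hΩ (differentiableOn_const _))).mul_holo hΩ ?_
          exact (hF j).comp hγ hmb
        have d4 := d1.add hΩ d3
        have d5 := d4.holo hΩ (fun s hsΩ => by
          have hsum : ∀ i j, ∑ n ∈ Nk, μ n s * (g0 i (γ s) * g (d n) j (γ s)) =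
              db (χ k) s * (g0 i (γ s) * g k j (γ s)) := by
            intro i j
            rw [← hc.supp k s (hsb s hsΩ), Finset.sum_mul]
            refine Finset.sum_congr rfl (fun n hn => ?_)
            rw [Finset.mem_filter] at hn
            simp only [hμ, hn.2]
          simp only [hsum]
          have hy := hm hsΩ
          have e1 := g3 k (γ s) ⟨lt_of_lt_of_le hy.1 hρ, hy.2.1⟩
          have e2 := p3 (γ s) (hUsub _ hy)
          have e3 : ∑ j, F j (γ s) * (db (χ k) s * (g0 i (γ s) * g k j (γ s)) +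
              (-1) * (db (χ k) s * (g0 j (γ s) * g k i (γ s)))) =
              db (χ k) s * (g0 i (γ s) * ∑ j, F j (γ s) * g k j (γ s)) -
              db (χ k) s * (g k i (γ s) * ∑ j, F j (γ s) * g0 j (γ s)) := by
            rw [Finset.mul_sum, Finset.mul_sum, Finset.mul_sum, Finset.mul_sum,
              ← Finset.sum_sub_distrib]
            exact Finset.sum_congr rfl (fun j _ => by ring)
          rw [e3, e1, e2]
          ring)
        refine d5.congr (fun s hsΩ => ?_)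
        simp only [hH1, hs s hsΩ]
        congr 1
        · ring
        · refine Finset.sum_congr rfl (fun j _ => ?_)
          ring
    -- conclusion in the transition region
    have hrest : ∀ i j, DifferentiableAt ℂ (fun y => ∑ n ∈ Finset.univ.filter (fun n => ¬ d n = k),
        b i j n y) z := fun i j => DifferentiableAt.fun_sum (fun n hn => by
      rw [Finset.mem_filter] at hn
      exact hbk i j n z hzρ (Or.inl (hnk n hn.2)))
    have hfin : DifferentiableAt ℂ (fun y => (g0 i y + H1f y) + ∑ j, F j y *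
        (∑ n ∈ Finset.univ.filter (fun n => ¬ d n = k), b i j n y -
          ∑ n ∈ Finset.univ.filter (fun n => ¬ d n = k), b j i n y)) z := by
      refine DifferentiableAt.add (DifferentiableAt.add ?_ ?_) ?_
      · exact (hUg0 i).differentiableAt (hUo.mem_nhds hzU)
      · exact hmain.differentiableAt (hUo.mem_nhds hzU)
      · exact DifferentiableAt.fun_sum (fun j _ =>
          (hFat j z hz1).mul ((hrest i j).sub (hrest j i)))
    refine hfin.congr_of_eventuallyEq ?_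
    filter_upwards [hUo.mem_nhds hzU] with y hy
    simp only [hh, hH1]
    rw [hφin k i y hy.1 hy.2.1]
    have hsplit : ∀ i j, ∑ n, b i j n y = ∑ n ∈ Nk, b i j n y +
        ∑ n ∈ Finset.univ.filter (fun n => ¬ d n = k), b i j n y := fun i j =>
      (Finset.sum_filter_add_sum_filter_not _ _ _).symm
    have e4 : ∑ j, F j y * (∑ n, b i j n y - ∑ n, b j i n y) =
        ∑ j, F j y * (∑ n ∈ Nk, b i j n y - ∑ n ∈ Nk, b j i n y) +
        ∑ j, F j y * (∑ n ∈ Finset.univ.filter (fun n => ¬ d n = k), b i j n y -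
          ∑ n ∈ Finset.univ.filter (fun n => ¬ d n = k), b j i n y) := by
      rw [← Finset.sum_add_distrib]
      refine Finset.sum_congr rfl (fun j _ => ?_)
      rw [hsplit i j, hsplit j i]
      ring
    rw [e4]
    ring
  · -- the bound
    intro i z hz
    have hzρ := mem_ball_zero_iff.1 hz
    have hz1 : ‖z‖ < 1 := lt_of_lt_of_le hzρ hρ
    refine (norm_add_le _ _).trans (add_le_add ?_ ?_)
    · by_cases hex : ∃ k, (inner ℂ (e k) z : ℂ) ∈ I k
      · obtain ⟨k, hkI⟩ := hex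
        rw [hφin k i z hzρ hkI]
        have q1 := g2' k i z ⟨hz1, hkI⟩
        by_cases hkO : (inner ℂ (e k) z : ℂ) ∈ O k
        · have q2 := p2' i z (hIO k z hz1 hkI hkO)
          have q3 := hc.bd k _ (hmemρ k z hzρ)
          refine (norm_add_le _ _).trans ?_
          rw [norm_mul]
          have q5 : ‖g k i z - g0 i z‖ ≤ Q' + Q' := (norm_sub_le _ _).trans (add_le_add q1 q2)
          calc ‖g0 i z‖ + ‖χ k (inner ℂ (e k) z)‖ * ‖g k i z - g0 i z‖ ≤ Q' + 1 * (Q' + Q') := by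
                gcongr
            _ = 3 * Q' := by ring
        · rw [(hc.O1 k _ (hmemρ k z hzρ) hkO).eq_of_nhds]
          have : g0 i z + 1 * (g k i z - g0 i z) = g k i z := by ring
          rw [this]
          linarith
      · push Not at hex
        rw [hφout i z hzρ hex]
        have q2 := p2' i z ⟨hz1, fun k => hcov k _ (hmemI k z hz1) (hex k)⟩
        linarith
    · refine (norm_sum_le _ _).trans ?_
      have q4 : ∀ i j, ‖∑ n, b i j n z‖ ≤ C₁ * Q' ^ 2 := by
        intro i j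
        refine (norm_sum_le _ _).trans ((b1 i j z (hsub1 hz)).trans (le_of_eq (by ring)))
      have q5 : ∀ j ∈ (Finset.univ : Finset (Fin N)),
          ‖F j z * (∑ n, b i j n z - ∑ n, b j i n z)‖ ≤ 2 * (C₁ * Q' ^ 2) := by
        intro j _
        rw [norm_mul]
        calc ‖F j z‖ * ‖∑ n, b i j n z - ∑ n, b j i n z‖
            ≤ 1 * (C₁ * Q' ^ 2 + C₁ * Q' ^ 2) := by
              gcongr
              · exact hF1 j z (hsub1 hz)
              · exact (norm_sub_le _ _).trans (add_le_add (q4 i j) (q4 j i))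
          _ = _ := by ring
      refine (Finset.sum_le_sum q5).trans (le_of_eq ?_)
      simp
  · -- the Bezout equation
    intro z hz
    have hzρ := mem_ball_zero_iff.1 hz
    have hz1 : ‖z‖ < 1 := lt_of_lt_of_le hzρ hρ
    have e1 : ∑ i, F i z * h i z = ∑ i, F i z * φ i z +
        ∑ i, F i z * ∑ j, F j z * (∑ n, b i j n z - ∑ n, b j i n z) := by
      rw [← Finset.sum_add_distrib]
      exact Finset.sum_congr rfl (fun i _ => by simp only [hh]; ring)
    rw [e1, sum_anti (fun i => F i z) (fun i j => ∑ n, b i j n z), add_zero]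
    by_cases hex : ∃ k, (inner ℂ (e k) z : ℂ) ∈ I k
    · obtain ⟨k, hkI⟩ := hex
      have e2 := g3 k z ⟨hz1, hkI⟩
      by_cases hkO : (inner ℂ (e k) z : ℂ) ∈ O k
      · have e3 := p3 z (hIO k z hz1 hkI hkO)
        have e4 : ∑ i, F i z * φ i z = (1 - χ k (inner ℂ (e k) z)) * ∑ i, F i z * g0 i z +
            χ k (inner ℂ (e k) z) * ∑ i, F i z * g k i z := by
          rw [Finset.mul_sum, Finset.mul_sum, ← Finset.sum_add_distrib]
          refine Finset.sum_congr rfl (fun i _ => ?_)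
          rw [hφin k i z hzρ hkI]
          ring
        rw [e4, e2, e3]
        ring
      · rw [← e2]
        refine Finset.sum_congr rfl (fun i _ => ?_)
        rw [hφin k i z hzρ hkI, (hc.O1 k _ (hmemρ k z hzρ) hkO).eq_of_nhds]
        ring
    · push Not at hex
      rw [← p3 z ⟨hz1, fun k => hcov k _ (hmemI k z hz1) (hex k)⟩]
      exact Finset.sum_congr rfl (fun i _ => by rw [hφout i z hzρ hex])

end Run7.h512
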