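import Mathlib
import Pool.Agent.H720R2.Cor.Lim
import Pool.Agent.Run7.h512.FW
import Pool.Agent.Run7.h512.Glue2

/-!
Gluing solutions of the Bezout equation along the sublevel sets of functions of one variable in
varying directions.
-/

set_option autoImplicit false
set_option linter.unusedSectionVars false

open MeasureTheory Metric Set Filter Topology Complex
open scoped ContDiff

namespace Run7.h512

open Pool.Agent.H720R2 Pool.Agent.H720R2.HP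
open Pool.Agent.Y263.LF (Bez)

/-- **Gluing**, functions holomorphic in a neighbourhood of the closed disc. -/
theorem gl_nice {ε : ℝ} (hε : 0 < ε) : ∃ ε' : ℝ, 0 < ε' ∧ ε' ≤ ε ∧ ∀ (N : ℕ) (M Q : ℝ),
    ∃ C : ℝ, 0 ≤ C ∧
    ∀ (X : Type) [NormedAddCommGroup X] [InnerProductSpace ℂ X] [FiniteDimensional ℂ X]
      (κ : Type) [Fintype κ] (e : κ → X) (f : κ → ℂ → ℂ) (R ρ : ℝ), 1 < R → 0 < ρ → ρ < 1 →
      (∀ k, ‖e k‖ = 1) →
      (∀ k, DifferentiableOn ℂ (f k) (ball 0 R)) → (∀ k, ∀ ζ : ℂ, ‖ζ‖ ≤ 1 → ‖f k ζ‖ ≤ 1) →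
      (∀ z : X, ‖z‖ < 1 → ∑ k, (1 - ‖f k (inner ℂ (e k) z)‖ ^ 2) ≤ M) →
      (∀ j k, j ≠ k → ∀ z ∈ ball (0 : X) 1, ‖f j (inner ℂ (e j) z)‖ < ε →
        ε ≤ ‖f k (inner ℂ (e k) z)‖) →
      ∀ F : Fin N → X → ℂ, (∀ i, DifferentiableOn ℂ (F i) (ball 0 1)) →
      (∀ i, ∀ z ∈ ball (0 : X) 1, ‖F i z‖ ≤ 1) →
      (∀ k, Bez {z : X | ‖z‖ < 1 ∧ ‖f k (inner ℂ (e k) z)‖ < ε} F Q) →
      Bez {z : X | ‖z‖ < 1 ∧ ∀ k, ε' < ‖f k (inner ℂ (e k) z)‖} F Q →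
      Bez (ball 0 ρ) F C := by
  set ε₁ : ℝ := min (ε / 3) (1 / 16) with hε₁
  have hε₁0 : 0 < ε₁ := by positivity
  have hε₁1 : 3 * ε₁ ≤ ε := by
    have := min_le_left (ε / 3) (1 / 16)
    linarith
  obtain ⟨ε', K, Cs, hε', hε'1, hK, hCs, hcc⟩ := cc hε₁0 (min_le_right _ _)
  refine ⟨ε' / 2, by positivity, by linarith, ?_⟩
  intro N M Q
  obtain ⟨C, hC, H⟩ := glue (M := Cs * M) N Q hK (δ := 3 / 4) (by norm_num) (by norm_num)
  refine ⟨C, hC, ?_⟩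
  intro X _ _ _ κ _ e f R ρ hR hρ0 hρ1 he hf hf1 hsum hdis F hF hF1 hin hout
  classical
  choose S b A χ c1 c2 c3 c4 c5 c6 c7 c8 c9 c10 using
    fun k => hcc (f k) R ρ hR hρ0 hρ1 (hf k) (hf1 k)
  have hff : ∀ k, DifferentiableOn ℂ (f k) (ball 0 1) := fun k =>
    (hf k).mono (ball_subset_ball hR.le)
  have hxi : ∀ k (z : X), ‖z‖ < 1 → ‖(inner ℂ (e k) z : ℂ)‖ < 1 := fun k z hz => inner_lt (he k) hz
  have hHF : HF X (fun i : (Σ k, S k) => e i.1) (fun i : (Σ k, S k) => b i.1 i.2) (Cs * M) := by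
    refine ⟨fun i => he _, fun i => c1 _ _, fun z hz => ?_⟩
    rw [Fintype.sum_sigma]
    refine (Finset.sum_le_sum (fun k _ => c10 k _ (hxi k z hz))).trans ?_
    rw [← Finset.mul_sum]
    exact mul_le_mul_of_nonneg_left (hsum z hz) hCs
  -- the sets
  set I : κ → Set ℂ := fun k => {ζ | ζ ∈ ball (0 : ℂ) 1 ∧ ‖f k ζ‖ < ε} with hI
  set O : κ → Set ℂ := fun k => {ζ | ζ ∈ ball (0 : ℂ) 1 ∧ ε' / 2 < ‖f k ζ‖} with hO
  have hIo : ∀ k, IsOpen (I k) := fun k =>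
    (hff k).continuousOn.norm.isOpen_inter_preimage isOpen_ball (isOpen_Iio (a := (ε : ℝ)))
  have hOo : ∀ k, IsOpen (O k) := fun k =>
    (hff k).continuousOn.norm.isOpen_inter_preimage isOpen_ball (isOpen_Ioi (a := (ε' / 2 : ℝ)))
  set A' : (Σ k, S k) → Set ℂ := fun i => {ζ | ζ ∈ ball (0 : ℂ) 1 ∧ ‖bl (b i.1 i.2) ζ‖ < 3 / 4} ∩
    (I i.1 ∩ O i.1) with hA'
  have hA'o : ∀ i, IsOpen (A' i) := by
    intro i
    have h1 := (bl_diff (c1 i.1 i.2)).continuousOn.norm.isOpen_inter_preimage isOpen_ball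
      (isOpen_Iio (a := (3 / 4 : ℝ)))
    exact h1.inter ((hIo _).inter (hOo _))
  have hcont : ∀ k, ∀ ζ ∈ ball (0 : ℂ) 1, ContinuousAt (fun x => ‖f k x‖) ζ := fun k ζ hζ =>
    ((hff k).differentiableAt (isOpen_ball.mem_nhds hζ)).continuousAt.norm
  have hsubρ : ball (0 : ℂ) ρ ⊆ ball 0 1 := ball_subset_ball hρ1.le
  have hcuts : Cuts e (fun i : (Σ k, S k) => i.1) (fun i => b i.1 i.2) A' (fun i => A i.1 i.2) χ
      I O K (3 / 4) ρ := by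
    refine { Ao := hA'o, At := ?_, Rm := fun i => c2 _ _, RA := ?_, sm := c4, bd := c5, cov := ?_,
             Io := hIo, Oo := hOo, I0 := ?_, O1 := ?_, AI := ?_, supp := ?_, grad := ?_, dis := ?_ }
    · intro i ζ hζ
      exact ⟨mem_ball_zero_iff.1 hζ.1.1, hζ.1.2.le⟩
    · intro i ζ hζ
      obtain ⟨h1, h2, h3, h4⟩ := c3 i.1 i.2 ζ hζ
      have h5 := mem_ball_zero_iff.2 h1
      exact ⟨⟨h5, h2⟩, ⟨h5, by linarith⟩, ⟨h5, by linarith⟩⟩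
    · intro k ζ hζ hζI
      refine ⟨hζ, ?_⟩
      have h1 : ε ≤ ‖f k ζ‖ := by
        by_contra hcon
        push Not at hcon
        exact hζI ⟨hζ, hcon⟩
      linarith
    · intro k ζ hζ hζI
      have h1 : 2 * ε₁ < ‖f k ζ‖ := by
        have h2 : ε ≤ ‖f k ζ‖ := by
          by_contra hcon
          push Not at hcon
          exact hζI ⟨hsubρ hζ, hcon⟩
        linarith
      filter_upwards [(hcont k ζ (hsubρ hζ)).eventually_const_lt h1, isOpen_ball.mem_nhds hζ]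
        with y hy hyρ
      by_contra hne
      have := c6 k y hyρ hne
      linarith
    · intro k ζ hζ hζO
      have h1 : ‖f k ζ‖ < ε' := by
        have h2 : ‖f k ζ‖ ≤ ε' / 2 := by
          by_contra hcon
          push Not at hcon
          exact hζO ⟨hsubρ hζ, hcon⟩
        linarith
      filter_upwards [(hcont k ζ (hsubρ hζ)).eventually_lt_const h1, isOpen_ball.mem_nhds hζ]
        with y hy hyρ
      by_contra hne
      have := c7 k y hyρ hne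
      linarith
    · intro i ζ hζ
      exact hζ.2
    · intro k ζ hζ
      rw [← c8 k ζ hζ, Finset.sum_filter, Fintype.sum_sigma]
      rw [Finset.sum_eq_single k]
      · refine Finset.sum_congr rfl (fun i _ => ?_)
        simp
      · intro j _ hjk
        refine Finset.sum_eq_zero (fun i _ => ?_)
        simp [hjk]
      · intro h
        exact absurd (Finset.mem_univ _) h
    · intro i ζ hζ
      exact c9 i.1 i.2 ζ hζ
    · intro j k hjk z hz hzI hzI'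
      have := hdis j k hjk z hz hzI.2
      have := hzI'.2
      linarith
  have hz1 : ∀ k (z : X), ‖z‖ < 1 → (inner ℂ (e k) z : ℂ) ∈ ball (0 : ℂ) 1 := fun k z hz =>
    mem_ball_zero_iff.2 (hxi k z hz)
  refine H X κ (Σ k, S k) e (fun i => i.1) (fun i => b i.1 i.2) A' (fun i => A i.1 i.2) χ I O ρ
    hρ1.le he hHF hcuts F hF hF1 (fun k => ?_) ?_
  · exact (hin k).mono (fun z hz => ⟨hz.1, hz.2.2⟩) le_rfl
  · exact hout.mono (fun z hz => ⟨hz.1, fun k => (hz.2 k).2⟩) le_rfl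

/-- the Schwarz-Pick inequality -/
theorem pick2 {f : ℂ → ℂ} (hf : DifferentiableOn ℂ f (ball 0 1))
    (hf1 : ∀ ζ ∈ ball (0 : ℂ) 1, ‖f ζ‖ ≤ 1) {ζ : ℂ} (hζ : ‖ζ‖ < 1) :
    (1 - ‖ζ‖ ^ 2) * (1 - ‖f 0‖ * ‖f ζ‖) ^ 2 ≤ (1 - ‖f 0‖ ^ 2) * (1 - ‖f ζ‖ ^ 2) := by
  have key : ∀ t : ℝ, 0 ≤ t → t < 1 → (1 - ‖ζ‖ ^ 2) * (1 - t ^ 2 * (‖f 0‖ * ‖f ζ‖)) ^ 2 ≤
      (1 - t ^ 2 * ‖f 0‖ ^ 2) * (1 - t ^ 2 * ‖f ζ‖ ^ 2) := by
    intro t ht0 ht1
    set c : ℂ := t * f 0 with hc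
    have hcn : ‖c‖ = t * ‖f 0‖ := by
      rw [hc, norm_mul, Complex.norm_real, Real.norm_of_nonneg ht0]
    have h0 := hf1 0 (by simp)
    have hc1 : ‖c‖ < 1 := by
      rw [hcn]
      nlinarith [norm_nonneg (f 0)]
    have hx1 : ∀ x ∈ ball (0 : ℂ) 1, ‖(t : ℂ) * f x‖ < 1 := by
      intro x hx
      rw [norm_mul, Complex.norm_real, Real.norm_of_nonneg ht0]
      have := hf1 x hx
      nlinarith [norm_nonneg (f x)]
    have h1 := Complex.norm_le_norm_of_mapsTo_ball (f := fun x => bl c (t * f x)) (R := 1) (z := ζ)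
      ((bl_diff hc1).comp (hf.const_mul _) (fun x hx => mem_ball_zero_iff.2 (hx1 x hx)))
      (fun x hx => mem_closedBall_zero_iff.2 (bl_lt hc1 (hx1 x hx)).le) (by
        unfold bl
        simp [hc]) hζ
    have h2 := uu_eq hc1 (hx1 ζ (mem_ball_zero_iff.2 hζ)).le
    have h3 : 1 - ‖ζ‖ ^ 2 ≤ uu c (t * f ζ) := by
      rw [← h2]
      nlinarith [norm_nonneg (bl c (t * f ζ)), norm_nonneg ζ]
    have hm := mm_pos hc1 (hx1 ζ (mem_ball_zero_iff.2 hζ)).le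
    unfold uu at h3
    rw [le_div_iff₀ (by positivity)] at h3
    have h4 := @mm_ge c (t * f ζ)
    have hfn : ‖(t : ℂ) * f ζ‖ = t * ‖f ζ‖ := by
      rw [norm_mul, Complex.norm_real, Real.norm_of_nonneg ht0]
    rw [hfn] at h3 h4
    unfold SS at h3
    rw [hcn] at h3 h4
    have h5 : 0 ≤ 1 - t * ‖f 0‖ * (t * ‖f ζ‖) := by
      have i1 := hf1 ζ (mem_ball_zero_iff.2 hζ)
      have i2 : t * ‖f 0‖ ≤ 1 := by nlinarith [norm_nonneg (f 0)]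
      have i3 : t * ‖f ζ‖ ≤ 1 := by nlinarith [norm_nonneg (f ζ)]
      have i4 : 0 ≤ t * ‖f 0‖ := by positivity
      have i5 : 0 ≤ t * ‖f ζ‖ := by positivity
      nlinarith
    have h6 : 0 ≤ 1 - ‖ζ‖ ^ 2 := by nlinarith [norm_nonneg ζ]
    calc (1 - ‖ζ‖ ^ 2) * (1 - t ^ 2 * (‖f 0‖ * ‖f ζ‖)) ^ 2
        = (1 - ‖ζ‖ ^ 2) * (1 - t * ‖f 0‖ * (t * ‖f ζ‖)) ^ 2 := by ring
      _ ≤ (1 - ‖ζ‖ ^ 2) * mm c (t * f ζ) ^ 2 := by gcongr
      _ ≤ _ := h3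
      _ = _ := by ring
  have hev : ∀ᶠ t : ℝ in 𝓝[<] 1, (1 - ‖ζ‖ ^ 2) * (1 - t ^ 2 * (‖f 0‖ * ‖f ζ‖)) ^ 2 ≤
      (1 - t ^ 2 * ‖f 0‖ ^ 2) * (1 - t ^ 2 * ‖f ζ‖ ^ 2) := by
    have h1 : ∀ᶠ t : ℝ in 𝓝[<] 1, 0 < t :=
      mem_nhdsWithin_of_mem_nhds (isOpen_Ioi.mem_nhds (by simp : (1 : ℝ) ∈ Ioi 0))
    filter_upwards [h1, self_mem_nhdsWithin] with t ht0 ht1
    exact key t ht0.le ht1
  have hc1 : Tendsto (fun t : ℝ => (1 - ‖ζ‖ ^ 2) * (1 - t ^ 2 * (‖f 0‖ * ‖f ζ‖)) ^ 2) (𝓝[<] 1)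
      (𝓝 ((1 - ‖ζ‖ ^ 2) * (1 - 1 ^ 2 * (‖f 0‖ * ‖f ζ‖)) ^ 2)) := by
    refine Tendsto.mono_left (Continuous.tendsto ?_ 1) nhdsWithin_le_nhds
    fun_prop
  have hc2 : Tendsto (fun t : ℝ => (1 - t ^ 2 * ‖f 0‖ ^ 2) * (1 - t ^ 2 * ‖f ζ‖ ^ 2)) (𝓝[<] 1)
      (𝓝 ((1 - 1 ^ 2 * ‖f 0‖ ^ 2) * (1 - 1 ^ 2 * ‖f ζ‖ ^ 2))) := by
    refine Tendsto.mono_left (Continuous.tendsto ?_ 1) nhdsWithin_le_nhds
    fun_prop
  have h := le_of_tendsto_of_tendsto hc1 hc2 hev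
  simpa using h

/-- finitely many of the functions are small somewhere on a smaller disc -/
theorem fin_small {κ : Type} {f : κ → ℂ → ℂ} {M ε r : ℝ}
    (hf : ∀ k, DifferentiableOn ℂ (f k) (ball 0 1)) (hf1 : ∀ k, ∀ ζ ∈ ball (0 : ℂ) 1, ‖f k ζ‖ ≤ 1)
    (hs : ∀ s : Finset κ, ∑ k ∈ s, (1 - ‖f k 0‖ ^ 2) ≤ M) (hε : ε < 1) (hr0 : 0 < r)
    (hr : r < 1) : {k | ∃ ζ : ℂ, ‖ζ‖ ≤ r ∧ ‖f k ζ‖ ≤ ε}.Finite := by
  rcases lt_or_ge ε 0 with h0 | h0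
  · have : {k | ∃ ζ : ℂ, ‖ζ‖ ≤ r ∧ ‖f k ζ‖ ≤ ε} = ∅ := by
      ext k
      simp only [mem_ofPred_eq, mem_empty_iff_false, iff_false]
      rintro ⟨ζ, -, h⟩
      linarith [norm_nonneg (f k ζ)]
    rw [this]
    exact Set.finite_empty
  by_contra hinf
  set c : ℝ := (1 - r ^ 2) * (1 - ε) ^ 2 with hc
  have hc0 : 0 < c := by
    have : 0 < 1 - r ^ 2 := by nlinarith
    have : 0 < 1 - ε := by linarith
    positivity
  obtain ⟨n, hn⟩ := exists_nat_gt (M / c)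
  obtain ⟨t, ht, htn⟩ := Set.Infinite.exists_subset_card_eq hinf n
  have h1 : ∀ k ∈ t, c ≤ 1 - ‖f k 0‖ ^ 2 := by
    intro k hk
    obtain ⟨ζ, hζ, hζ2⟩ := ht hk
    have hζ1 : ‖ζ‖ < 1 := by linarith
    have h2 := pick2 (hf k) (hf1 k) hζ1
    have h3 := hf1 k 0 (by simp)
    have h4 := norm_nonneg (f k 0)
    have h5 := norm_nonneg (f k ζ)
    have h6 : 1 - ε ≤ 1 - ‖f k 0‖ * ‖f k ζ‖ := by nlinarith
    have h7 : 1 - r ^ 2 ≤ 1 - ‖ζ‖ ^ 2 := by nlinarith [norm_nonneg ζ]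
    have h8 : 0 < 1 - r ^ 2 := by nlinarith
    have h9 : 0 < 1 - ε := by linarith
    have h10 : 0 ≤ 1 - ‖ζ‖ ^ 2 := by linarith
    have h11 : 0 ≤ 1 - ‖f k 0‖ ^ 2 := by nlinarith
    calc c ≤ (1 - ‖ζ‖ ^ 2) * (1 - ‖f k 0‖ * ‖f k ζ‖) ^ 2 := by rw [hc]; gcongr
      _ ≤ _ := h2
      _ ≤ 1 - ‖f k 0‖ ^ 2 := by nlinarith [mul_nonneg h11 (sq_nonneg ‖f k ζ‖)]
  have h2 := Finset.sum_le_sum h1
  rw [Finset.sum_const, nsmul_eq_mul, htn] at h2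
  have h3 := h2.trans (hs t)
  rw [div_lt_iff₀ hc0] at hn
  linarith

/-- **Gluing theorem.** -/
theorem gl_main {ε : ℝ} (hε : 0 < ε) : ∃ ε' : ℝ, 0 < ε' ∧ ε' ≤ ε ∧ ∀ (N : ℕ) (M Q : ℝ),
    ∃ C : ℝ, 0 ≤ C ∧
    ∀ (X : Type) [NormedAddCommGroup X] [InnerProductSpace ℂ X] [FiniteDimensional ℂ X]
      (κ : Type) (e : κ → X) (f : κ → ℂ → ℂ), (∀ k, ‖e k‖ = 1) →
      (∀ k, DifferentiableOn ℂ (f k) (ball 0 1)) →
      (∀ k, ∀ ζ ∈ ball (0 : ℂ) 1, ‖f k ζ‖ ≤ 1) →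
      (∀ z ∈ ball (0 : X) 1, ∀ s : Finset κ, ∑ k ∈ s, (1 - ‖f k (inner ℂ (e k) z)‖ ^ 2) ≤ M) →
      (∀ j k, j ≠ k → ∀ z ∈ ball (0 : X) 1, ‖f j (inner ℂ (e j) z)‖ < ε →
        ε ≤ ‖f k (inner ℂ (e k) z)‖) →
      ∀ F : Fin N → X → ℂ, (∀ i, DifferentiableOn ℂ (F i) (ball 0 1)) →
      (∀ i, ∀ z ∈ ball (0 : X) 1, ‖F i z‖ ≤ 1) →
      (∀ k, Bez {z : X | ‖z‖ < 1 ∧ ‖f k (inner ℂ (e k) z)‖ < ε} F Q) →
      Bez {z : X | ‖z‖ < 1 ∧ ∀ k, ε' < ‖f k (inner ℂ (e k) z)‖} F Q →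
      Bez (ball 0 1) F C := by
  set ε₀ : ℝ := min ε (1 / 2) with hε₀
  have hε₀0 : 0 < ε₀ := by positivity
  have hε₀1 : ε₀ ≤ ε := min_le_left _ _
  have hε₀2 : ε₀ < 1 := lt_of_le_of_lt (min_le_right _ _) (by norm_num)
  obtain ⟨ε', hε', hε'1, H0⟩ := gl_nice hε₀0
  refine ⟨ε', hε', hε'1.trans hε₀1, ?_⟩
  intro N M Q
  obtain ⟨C, hC, H⟩ := H0 N M Q
  refine ⟨C, hC, ?_⟩
  intro X _ _ _ κ e f he hf hf1 hsum hdis F hF hF1 hin hout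
  classical
  have hrn : ∀ (n : ℕ) (ζ : ℂ), ‖ζ‖ < 1 / rr n → ‖(rr n : ℂ) * ζ‖ < 1 := by
    intro n ζ hζ
    rw [norm_mul, Complex.norm_real, Real.norm_of_nonneg (rr_pos n).le]
    have h1 := rr_pos n
    rw [lt_div_iff₀ h1] at hζ
    linarith
  have hR : ∀ n, 1 < 1 / rr n := fun n => by
    rw [lt_div_iff₀ (rr_pos n), one_mul]
    exact rr_lt n
  have hz : ∀ (n : ℕ) (z : X), ‖z‖ < 1 → ‖(rr n : ℂ) • z‖ < rr n := by
    intro n z hz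
    rw [norm_smul, Complex.norm_real, Real.norm_of_nonneg (rr_pos n).le]
    have h1 := rr_pos n
    nlinarith
  have hzb : ∀ (n : ℕ) (z : X), ‖z‖ < 1 → ‖(rr n : ℂ) • z‖ < 1 := fun n z h =>
    (hz n z h).trans (rr_lt n)
  have hmap1 : ∀ n, MapsTo (fun z : X => (rr n : ℂ) • z) (ball 0 1) (ball 0 1) := fun n z h =>
    mem_ball_zero_iff.2 (hzb n z (mem_ball_zero_iff.1 h))
  have hzero : ∀ s : Finset κ, ∑ k ∈ s, (1 - ‖f k 0‖ ^ 2) ≤ M := by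
    intro s
    have := hsum 0 (by simp) s
    simpa using this
  have hfin : ∀ n : ℕ, {k | ∃ ζ : ℂ, ‖ζ‖ ≤ rr n ∧ ‖f k ζ‖ ≤ ε₀}.Finite := fun n =>
    fin_small hf hf1 hzero hε₀2 (rr_pos n) (rr_lt n)
  have key : ∀ n : ℕ, Bez (ball (0 : X) (rr n)) (fun i z => F i ((rr n : ℂ) • z)) C := by
    intro n
    set s : Finset κ := (hfin n).toFinset with hs
    refine H X s (fun k => e k) (fun k ζ => f k (rr n * ζ)) (1 / rr n) (rr n) (hR n) (rr_pos n)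
      (rr_lt n) (fun k => he k) ?_ ?_ ?_ ?_ _ ?_ ?_ ?_ ?_
    · intro k
      refine (hf k).comp (by fun_prop) ?_
      intro ζ hζ
      exact mem_ball_zero_iff.2 (hrn n ζ (mem_ball_zero_iff.1 hζ))
    · intro k ζ hζ
      exact hf1 k _ (mem_ball_zero_iff.2 (hrn n ζ (lt_of_le_of_lt hζ (hR n))))
    · intro z hz1
      have h1 := hsum ((rr n : ℂ) • z) (mem_ball_zero_iff.2 (hzb n z hz1)) s
      rw [← Finset.sum_coe_sort s] at h1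
      simp only [inner_smul_right] at h1
      exact h1
    · intro j k hjk z hz1 hlt
      have h1 := hdis j k (fun h => hjk (Subtype.ext h)) ((rr n : ℂ) • z) (hmap1 n hz1)
      rw [inner_smul_right, inner_smul_right] at h1
      exact hε₀1.trans (h1 (lt_of_lt_of_le hlt hε₀1))
    · intro i
      exact (hF i).comp (by fun_prop) (hmap1 n)
    · intro i z hz1
      exact hF1 i _ (hmap1 n hz1)
    · intro k
      obtain ⟨g, g1, g2, g3⟩ := hin k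
      have hm : MapsTo (fun z : X => (rr n : ℂ) • z)
          {z : X | ‖z‖ < 1 ∧ ‖f k (rr n * inner ℂ (e k) z)‖ < ε₀}
          {z : X | ‖z‖ < 1 ∧ ‖f k (inner ℂ (e k) z)‖ < ε} := by
        intro z hz1
        refine ⟨hzb n z hz1.1, ?_⟩
        rw [inner_smul_right]
        exact lt_of_lt_of_le hz1.2 hε₀1
      exact ⟨fun i z => g i ((rr n : ℂ) • z), fun i => (g1 i).comp (by fun_prop) hm,
        fun i z hz1 => g2 i _ (hm hz1), fun z hz1 => g3 _ (hm hz1)⟩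
    · obtain ⟨g, g1, g2, g3⟩ := hout
      have hm : MapsTo (fun z : X => (rr n : ℂ) • z)
          {z : X | ‖z‖ < 1 ∧ ∀ k : s, ε' < ‖f k (rr n * inner ℂ (e k) z)‖}
          {z : X | ‖z‖ < 1 ∧ ∀ k, ε' < ‖f k (inner ℂ (e k) z)‖} := by
        intro z hz1
        refine ⟨hzb n z hz1.1, fun k => ?_⟩
        by_cases hk : k ∈ s
        · have h1 := hz1.2 ⟨k, hk⟩
          rw [inner_smul_right]
          exact h1
        · by_contra hcon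
          push Not at hcon
          apply hk
          rw [hs, Set.Finite.mem_toFinset]
          refine ⟨inner ℂ (e k) ((rr n : ℂ) • z), ?_, hcon.trans hε'1⟩
          have h1 := norm_inner_le_norm (𝕜 := ℂ) (e k) ((rr n : ℂ) • z)
          rw [he k, one_mul] at h1
          exact h1.trans (hz n z hz1.1).le
      exact ⟨fun i z => g i ((rr n : ℂ) • z), fun i => (g1 i).comp (by fun_prop) hm,
        fun i z hz1 => g2 i _ (hm hz1), fun z hz1 => g3 _ (hm hz1)⟩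
  choose g g1 g2 g3 using key
  set G : ℕ → Fin N → X → ℂ := fun n i z => g n i ((rr n : ℂ) • z) with hG
  have hmap : ∀ n, MapsTo (fun z : X => (rr n : ℂ) • z) (ball 0 1) (ball 0 (rr n)) := fun n z hz1 =>
    mem_ball_zero_iff.2 (hz n z (mem_ball_zero_iff.1 hz1))
  have w1 : ∀ n i, DifferentiableOn ℂ (G n i) (ball 0 1) := fun n i =>
    (g1 n i).comp (by fun_prop) (hmap n)
  have w2 : ∀ n i, ∀ z ∈ ball (0 : X) 1, ‖G n i z‖ ≤ C := fun n i z hz1 => g2 n i _ (hmap n hz1)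
  set 𝒰 : Ultrafilter ℕ := Ultrafilter.of atTop with h𝒰
  have hle : (𝒰 : Filter ℕ) ≤ atTop := Ultrafilter.of_le _
  have k1 : ∀ i, ∃ v : X → ℂ, DifferentiableOn ℂ v (ball 0 1) ∧ (∀ p ∈ ball (0 : X) 1, ‖v p‖ ≤ C) ∧
      ∀ p ∈ ball (0 : X) 1, Tendsto (fun n => G n i p) 𝒰 (𝓝 (v p)) := fun i =>
    Pool.Agent.H720R2.Cor.ultra_lim isOpen_ball 𝒰 (fun n => G n i) (fun n => w1 n i)
      (fun n => w2 n i)
  choose U u1 u2 u3 using k1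
  refine ⟨U, u1, u2, ?_⟩
  intro z hz1
  have h1 : Tendsto (fun n : ℕ => ((rr n : ℂ) • ((rr n : ℂ) • z))) atTop (𝓝 z) := by
    have h2 : Tendsto (fun n : ℕ => (rr n : ℂ)) atTop (𝓝 1) := by
      have h3 : Tendsto (fun n : ℕ => (rr n : ℂ)) atTop (𝓝 ((1 : ℝ) : ℂ)) :=
        (Complex.continuous_ofReal.tendsto 1).comp rr_tendsto
      rwa [Complex.ofReal_one] at h3
    have h3 := h2.smul (h2.smul_const z)
    simpa using h3
  have h2 : ∀ i, Tendsto (fun n : ℕ => F i ((rr n : ℂ) • ((rr n : ℂ) • z))) 𝒰 (𝓝 (F i z)) := by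
    intro i
    have h3 : ContinuousAt (F i) z :=
      ((hF i).differentiableAt (isOpen_ball.mem_nhds hz1)).continuousAt
    exact (h3.tendsto.comp h1).mono_left hle
  have hlim : Tendsto (fun n : ℕ => ∑ i, F i ((rr n : ℂ) • ((rr n : ℂ) • z)) * G n i z) 𝒰
      (𝓝 (∑ i, F i z * U i z)) :=
    tendsto_finsetSum _ (fun i _ => (h2 i).mul (u3 i z hz1))
  have hconst : Tendsto (fun n : ℕ => ∑ i, F i ((rr n : ℂ) • ((rr n : ℂ) • z)) * G n i z) 𝒰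
      (𝓝 1) := by
    have : (fun n : ℕ => ∑ i, F i ((rr n : ℂ) • ((rr n : ℂ) • z)) * G n i z) = fun _ => 1 := by
      funext n
      exact g3 n _ (hmap n hz1)
    rw [this]
    exact tendsto_const_nhds
  exact tendsto_nhds_unique hlim hconst

end Run7.h512
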