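import Mathlib
import Pool.Agent.H720R2.Cor.Lim
import Pool.Agent.Run7.h512.Op

/-!
Corona data on infinitely many complex geodesics of the ball.
-/

set_option autoImplicit false

open Metric Set Filter Topology Complex

namespace Run7.h512

open Pool.Agent.Y263.LF (Bez)
open Pool.Agent.Y263.GF (AF frac_AF loc_aff)

/-- Carleson's theorem with uniform constants -/
theorem carl (N : ℕ) {δ : ℝ} (hδ : 0 < δ) : ∃ C : ℝ, 0 ≤ C ∧ ∀ f : Fin N → ℂ → ℂ,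
    (∀ i, DifferentiableOn ℂ (f i) (ball 0 1)) → (∀ i, ∀ x ∈ ball (0 : ℂ) 1, ‖f i x‖ ≤ 1) →
    (∀ x ∈ ball (0 : ℂ) 1, δ ≤ ∑ i, ‖f i x‖) →
    ∃ g : Fin N → ℂ → ℂ, (∀ i, DifferentiableOn ℂ (g i) (ball 0 1)) ∧
      (∀ i, ∀ x ∈ ball (0 : ℂ) 1, ‖g i x‖ ≤ C) ∧
      ∀ x ∈ ball (0 : ℂ) 1, ∑ i, f i x * g i x = 1 := by
  have hN : (0 : ℝ) < N + 1 := by positivity
  obtain ⟨C, hC, H⟩ := loc_aff N 1 0 (ε := δ / (N + 1)) (Q := 0) (by positivity) le_rfl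
  refine ⟨C, hC, ?_⟩
  intro f hf hfb hfl
  have h1 : ∀ z : ℂ, (inner ℂ (1 : ℂ) z : ℂ) = z := fun z => by simp
  obtain ⟨g, g1, g2, g3⟩ := H ℂ (fun _ z => (inner ℂ (1 : ℂ) z : ℂ)) (fun _ => f)
    (fun _ => lin_AF (1 : ℂ)) (fun _ z hz => by rw [h1]; exact mem_ball_zero_iff.1 hz)
    (fun _ i => hf i) (fun _ i => hfb i) (fun j => j.elim0) (fun j => j.elim0)
    (fun j => j.elim0) (by
      refine ⟨fun j => j.elim0, fun j => j.elim0, fun j => j.elim0, ?_⟩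
      rintro z ⟨hz, hz2⟩
      exfalso
      have h2 := hfl z (mem_ball_zero_iff.2 hz)
      have h3 : ∑ i, ‖f i z‖ ≤ N * (δ / (N + 1)) := by
        have h5 : ∀ i ∈ (Finset.univ : Finset (Fin N)), ‖f i z‖ ≤ δ / (N + 1) := by
          intro i _
          have := hz2 0 i
          rw [h1] at this
          exact this.le
        refine (Finset.sum_le_sum h5).trans (le_of_eq ?_)
        rw [Finset.sum_const, Finset.card_univ, Fintype.card_fin, nsmul_eq_mul]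
      have h4 : N * (δ / (N + 1)) < δ := by
        rw [mul_div_assoc', div_lt_iff₀ hN]
        nlinarith
      linarith)
  refine ⟨fun i => g (Sum.inl (0, i)), fun i => g1 _, fun i x hx => g2 _ x hx, fun x hx => ?_⟩
  have h2 := g3 x hx
  rw [Fintype.sum_sum_type, Fintype.sum_prod_type] at h2
  simp only [Sum.elim_inl, Finset.univ_unique, Fin.default_eq_zero, Fin.isValue,
    Finset.sum_singleton, Finset.univ_eq_empty, Finset.sum_empty, add_zero] at h2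
  rw [← h2]
  refine Finset.sum_congr rfl (fun i _ => ?_)
  rw [h1]

section

variable {X : Type} [NormedAddCommGroup X] [InnerProductSpace ℂ X]

/-- the retraction of the ball onto the disc `p + ζ u` -/
noncomputable def rho (p u : X) (z : X) : ℂ :=
  (√(1 - ‖p‖ ^ 2) : ℂ) * inner ℂ u z / (1 - inner ℂ p z)

theorem one_sub_ne' {p z : X} (hp : ‖p‖ < 1) (hz : ‖z‖ < 1) : (1 : ℂ) - inner ℂ p z ≠ 0 := by
  intro h
  have h1 : (inner ℂ p z : ℂ) = 1 := by linear_combination -h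
  have h2 := norm_inner_le_norm (𝕜 := ℂ) p z
  rw [h1, norm_one] at h2
  nlinarith [norm_nonneg p, norm_nonneg z]

theorem rho_lt {p u z : X} (hp : ‖p‖ < 1) (hu : ‖u‖ = 1) (hup : (inner ℂ u p : ℂ) = 0)
    (hz : ‖z‖ < 1) : ‖rho p u z‖ < 1 := by
  have hne := one_sub_ne' hp hz
  have hpos : 0 < ‖(1 : ℂ) - inner ℂ p z‖ := norm_pos_iff.2 hne
  have hs : 0 ≤ 1 - ‖p‖ ^ 2 := by nlinarith [norm_nonneg p]
  have hs' : 0 < 1 - ‖p‖ ^ 2 := by nlinarith [norm_nonneg p]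
  -- Bessel
  set x : ℂ := inner ℂ u z with hx
  set α : ℂ := inner ℂ p z with hα
  have hz' : ‖z - x • u‖ ^ 2 = ‖z‖ ^ 2 - ‖x‖ ^ 2 := orth_sq hu
  have h1 : (inner ℂ p (z - x • u) : ℂ) = α := by
    rw [inner_sub_right, inner_smul_right]
    have : (inner ℂ p u : ℂ) = 0 := by
      rw [← inner_conj_symm, hup, map_zero]
    rw [this, mul_zero, sub_zero]
  have h2 : ‖α‖ ^ 2 ≤ ‖p‖ ^ 2 * (‖z‖ ^ 2 - ‖x‖ ^ 2) := by
    rw [← hz', ← mul_pow, ← h1]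
    gcongr
    exact norm_inner_le_norm (𝕜 := ℂ) p _
  have h3 : ‖α‖ ^ 2 ≤ ‖p‖ ^ 2 * (1 - ‖x‖ ^ 2) := by
    refine h2.trans ?_
    gcongr
    nlinarith [norm_nonneg z]
  have h4 : 1 - ‖α‖ ≤ ‖(1 : ℂ) - α‖ := by
    have := norm_sub_norm_le (1 : ℂ) α
    rwa [norm_one] at this
  have h5 : ‖α‖ < 1 := by
    refine lt_of_le_of_lt (norm_inner_le_norm (𝕜 := ℂ) p z) ?_
    nlinarith [norm_nonneg p, norm_nonneg z]
  have hxlt : ‖x‖ < 1 := inner_lt hu hz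
  -- main inequality
  have h6 : (1 - ‖p‖ ^ 2) * ‖x‖ ^ 2 < (1 - ‖α‖) ^ 2 := by
    rcases eq_or_lt_of_le (norm_nonneg p) with hp0 | hp0
    · have hα0 : ‖α‖ ^ 2 ≤ 0 := by
        rw [← hp0] at h3
        simpa using h3
      have hα1 : ‖α‖ = 0 := by nlinarith [norm_nonneg α]
      rw [hα1, ← hp0]
      nlinarith [norm_nonneg x]
    · have h2' : ‖p‖ ^ 2 * ‖x‖ ^ 2 < ‖p‖ ^ 2 - ‖α‖ ^ 2 := by
        have hpp : 0 < ‖p‖ ^ 2 := by positivity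
        have hz1 : ‖z‖ ^ 2 < 1 := by nlinarith [norm_nonneg z]
        nlinarith
      have hpp : 0 < ‖p‖ ^ 2 := by positivity
      have h7 : ‖p‖ ^ 2 * ((1 - ‖p‖ ^ 2) * ‖x‖ ^ 2) < ‖p‖ ^ 2 * (1 - ‖α‖) ^ 2 := by
        calc ‖p‖ ^ 2 * ((1 - ‖p‖ ^ 2) * ‖x‖ ^ 2) = (1 - ‖p‖ ^ 2) * (‖p‖ ^ 2 * ‖x‖ ^ 2) := by ring
          _ < (1 - ‖p‖ ^ 2) * (‖p‖ ^ 2 - ‖α‖ ^ 2) := by gcongr
          _ ≤ ‖p‖ ^ 2 * (1 - ‖α‖) ^ 2 := by nlinarith [sq_nonneg (‖α‖ - ‖p‖ ^ 2)]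
      exact lt_of_mul_lt_mul_left h7 hpp.le
  unfold rho
  rw [norm_div, norm_mul, Complex.norm_real, Real.norm_of_nonneg (Real.sqrt_nonneg _), ← hx, ← hα,
    div_lt_one (by rw [hα]; exact hpos)]
  have h8 : (√(1 - ‖p‖ ^ 2) * ‖x‖) ^ 2 < ‖(1 : ℂ) - α‖ ^ 2 := by
    rw [mul_pow, Real.sq_sqrt hs]
    refine lt_of_lt_of_le h6 ?_
    gcongr
  exact lt_of_pow_lt_pow_left₀ 2 (norm_nonneg _) h8

theorem rho_diff {p u : X} (hp : ‖p‖ < 1) : DifferentiableOn ℂ (rho p u) (ball 0 1) := by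
  intro z hz
  have hne := one_sub_ne' hp (mem_ball_zero_iff.1 hz)
  have h1 : DifferentiableAt ℂ (fun z : X => (inner ℂ u z : ℂ)) z := (innerSL ℂ u).differentiableAt
  have h2 : DifferentiableAt ℂ (fun z : X => (inner ℂ p z : ℂ)) z := (innerSL ℂ p).differentiableAt
  unfold rho
  simp only [div_eq_mul_inv]
  exact ((h1.const_mul _).fun_mul ((h2.const_sub _).fun_inv hne)).differentiableWithinAt

/-- the value of the retraction on the disc -/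
theorem rho_self {p u : X} (hp : ‖p‖ < 1) (hu : ‖u‖ = 1) (hup : (inner ℂ u p : ℂ) = 0) (ζ : ℂ) :
    (√(1 - ‖p‖ ^ 2) : ℂ) * rho p u (p + ζ • u) = ζ := by
  have hs' : 0 < 1 - ‖p‖ ^ 2 := by nlinarith [norm_nonneg p]
  have hpu : (inner ℂ p u : ℂ) = 0 := by
    rw [← inner_conj_symm, hup, map_zero]
  have hpp : (inner ℂ p p : ℂ) = ((‖p‖ ^ 2 : ℝ) : ℂ) := by
    rw [inner_self_eq_norm_sq_to_K]
    simp
  have huu : (inner ℂ u u : ℂ) = 1 := by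
    rw [inner_self_eq_norm_sq_to_K, hu]
    simp
  unfold rho
  rw [inner_add_right, inner_add_right, inner_smul_right, inner_smul_right, hup, hpu, hpp, huu]
  have h1 : (1 : ℂ) - (((‖p‖ ^ 2 : ℝ) : ℂ) + ζ * 0) = ((1 - ‖p‖ ^ 2 : ℝ) : ℂ) := by
    push_cast
    ring
  have h2 : ((1 - ‖p‖ ^ 2 : ℝ) : ℂ) = (√(1 - ‖p‖ ^ 2) : ℂ) * (√(1 - ‖p‖ ^ 2) : ℂ) := by
    rw [← Complex.ofReal_mul, Real.mul_self_sqrt hs'.le]
  have h3 : (√(1 - ‖p‖ ^ 2) : ℂ) ≠ 0 := by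
    have := Real.sqrt_pos.2 hs'
    exact_mod_cast this.ne'
  rw [h1, h2]
  field_simp
  simp

theorem disc_mem {p u : X} (hp : ‖p‖ < 1) (hu : ‖u‖ = 1) (hup : (inner ℂ u p : ℂ) = 0) {x : ℂ}
    (hx : ‖x‖ < 1) : ‖p + ((√(1 - ‖p‖ ^ 2) : ℂ) * x) • u‖ < 1 := by
  have hs' : 0 < 1 - ‖p‖ ^ 2 := by nlinarith [norm_nonneg p]
  have hpu : (inner ℂ p u : ℂ) = 0 := by
    rw [← inner_conj_symm, hup, map_zero]
  have h1 := @norm_add_sq ℂ X _ _ _ p (((√(1 - ‖p‖ ^ 2) : ℂ) * x) • u)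
  rw [inner_smul_right, hpu, mul_zero, map_zero, mul_zero, add_zero, norm_smul, hu, mul_one,
    norm_mul, Complex.norm_real, Real.norm_of_nonneg (Real.sqrt_nonneg _), mul_pow,
    Real.sq_sqrt hs'.le] at h1
  have h2 : ‖x‖ ^ 2 < 1 := by nlinarith [norm_nonneg x]
  have h3 : ‖p + ((√(1 - ‖p‖ ^ 2) : ℂ) * x) • u‖ ^ 2 < 1 := by
    rw [h1]
    nlinarith
  nlinarith [norm_nonneg (p + ((√(1 - ‖p‖ ^ 2) : ℂ) * x) • u)]

end

/-- one disc: bounded functions on the ball which solve the equation on the disc -/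
theorem one_disc (N : ℕ) {δ : ℝ} (hδ : 0 < δ) : ∃ C : ℝ, 0 ≤ C ∧
    ∀ (X : Type) [NormedAddCommGroup X] [InnerProductSpace ℂ X] (p u : X), ‖p‖ < 1 → ‖u‖ = 1 →
    (inner ℂ u p : ℂ) = 0 → ∀ F : Fin N → X → ℂ, (∀ i, DifferentiableOn ℂ (F i) (ball 0 1)) →
    (∀ i, ∀ z ∈ ball (0 : X) 1, ‖F i z‖ ≤ 1) →
    (∀ ζ : ℂ, p + ζ • u ∈ ball (0 : X) 1 → δ ≤ ∑ i, ‖F i (p + ζ • u)‖) →
    ∃ b : Fin N → X → ℂ, (∀ i, DifferentiableOn ℂ (b i) (ball 0 1)) ∧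
      (∀ i, ∀ z ∈ ball (0 : X) 1, ‖b i z‖ ≤ C) ∧
      ∀ ζ : ℂ, p + ζ • u ∈ ball (0 : X) 1 → ∑ i, F i (p + ζ • u) * b i (p + ζ • u) = 1 := by
  obtain ⟨C, hC, H⟩ := carl N hδ
  refine ⟨C, hC, ?_⟩
  intro X _ _ p u hp hu hup F hF hF1 hFl
  set γ : ℂ → X := fun x => p + ((√(1 - ‖p‖ ^ 2) : ℂ) * x) • u with hγ
  have hγm : ∀ x ∈ ball (0 : ℂ) 1, γ x ∈ ball (0 : X) 1 := fun x hx =>
    mem_ball_zero_iff.2 (disc_mem hp hu hup (mem_ball_zero_iff.1 hx))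
  have hγd : Differentiable ℂ γ := by
    intro x
    simp only [hγ]
    exact (((differentiableAt_id.const_mul _).smul_const _).const_add _)
  obtain ⟨g, g1, g2, g3⟩ := H (fun i x => F i (γ x))
    (fun i => (hF i).comp hγd.differentiableOn hγm) (fun i x hx => hF1 i _ (hγm x hx))
    (fun x hx => hFl _ (hγm x hx))
  have hρm : ∀ z ∈ ball (0 : X) 1, rho p u z ∈ ball (0 : ℂ) 1 := fun z hz =>
    mem_ball_zero_iff.2 (rho_lt hp hu hup (mem_ball_zero_iff.1 hz))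
  refine ⟨fun i z => g i (rho p u z), fun i => (g1 i).comp (rho_diff hp) hρm,
    fun i z hz => g2 i _ (hρm z hz), fun ζ hζ => ?_⟩
  have h1 := g3 _ (hρm _ hζ)
  have h2 : γ (rho p u (p + ζ • u)) = p + ζ • u := by
    simp only [hγ]
    rw [rho_self hp hu hup ζ]
  rw [h2] at h1
  exact h1

/-- weights which are `1` on the hyperplanes -/
theorem weights1 (M : ℝ) : ∃ L : ℝ, 0 ≤ L ∧ ∀ (X : Type) [NormedAddCommGroup X]
      [InnerProductSpace ℂ X] (ι : Type)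
      [Fintype ι] (e : ι → X) (a : ι → ℂ), HF X e a M →
      ∃ W : ι → X → ℂ, (∀ k, DifferentiableOn ℂ (W k) (ball 0 1)) ∧
        (∀ z ∈ ball (0 : X) 1, ∑ k, ‖W k z‖ ≤ L) ∧
        ∀ k, ∀ z ∈ ball (0 : X) 1, (inner ℂ (e k) z : ℂ) = a k → W k z = 1 := by
  obtain ⟨L, c, hc, H⟩ := weights 0 M le_rfl one_pos
  refine ⟨max L 0 / c, by positivity, ?_⟩
  intro X _ _ ι _ e a h
  obtain ⟨W, w1, w2, w3, w4⟩ := H X ι e a h
  have hT : ∀ k, ∀ z ∈ ball (0 : X) 1, TT (e k) (a k) z ∈ ball (0 : X) 1 := fun k z hz =>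
    mem_ball_zero_iff.2 (TT_lt (h.he k) (h.ha k) (mem_ball_zero_iff.1 hz))
  have hlow : ∀ k, ∀ z ∈ ball (0 : X) 1, c ≤ ‖W k (TT (e k) (a k) z)‖ := by
    intro k z hz
    refine w4 k _ (hT k z hz) ?_
    rw [TT_inner (h.he k)]
    unfold bl
    simp
  have hne : ∀ k, ∀ z ∈ ball (0 : X) 1, W k (TT (e k) (a k) z) ≠ 0 := fun k z hz =>
    norm_pos_iff.1 (lt_of_lt_of_le hc (hlow k z hz))
  refine ⟨fun k z => W k z * (W k (TT (e k) (a k) z))⁻¹, fun k => ?_, fun z hz => ?_,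
    fun k z hz hza => ?_⟩
  · refine (w1 k).mul (DifferentiableOn.inv ?_ (hne k))
    refine (w1 k).comp (g := W k) (f := TT (e k) (a k)) ?_ (hT k)
    intro z hz
    exact (TT_diff (h.he k) (h.ha k) (mem_ball_zero_iff.1 hz)).differentiableWithinAt
  · have h1 : ∀ k, ‖W k z * (W k (TT (e k) (a k) z))⁻¹‖ ≤ ‖W k z‖ / c := by
      intro k
      rw [norm_mul, norm_inv, ← div_eq_mul_inv]
      have := hlow k z hz
      gcongr
    refine (Finset.sum_le_sum (fun k _ => h1 k)).trans ?_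
    rw [← Finset.sum_div]
    gcongr
    exact (w3 z hz).trans (le_max_left _ _)
  · have h1 : TT (e k) (a k) z = z := by
      rw [← hza]
      exact TT_self (h.he k) (mem_ball_zero_iff.1 hz)
    simp only [h1]
    refine mul_inv_cancel₀ ?_
    have := hne k z hz
    rwa [h1] at this

/-- gluing of solutions on subsets of the hyperplanes, finite families -/
theorem sec_fin (N : ℕ) (M : ℝ) {Q : ℝ} (hQ : 0 ≤ Q) : ∃ C : ℝ, 0 ≤ C ∧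
    ∀ (X : Type) [NormedAddCommGroup X] [InnerProductSpace ℂ X] (ι : Type) [Fintype ι]
    (e : ι → X) (a : ι → ℂ), HF X e a M → ∀ F : Fin N → X → ℂ,
    (∀ i, DifferentiableOn ℂ (F i) (ball 0 1)) →
    (∀ i, ∀ z ∈ ball (0 : X) 1, ‖F i z‖ ≤ 1) → ∀ (S : ι → Set X),
    (∀ k, ∀ z ∈ S k, z ∈ ball (0 : X) 1 ∧ (inner ℂ (e k) z : ℂ) = a k) →
    (∀ k, ∃ b : Fin N → X → ℂ, (∀ i, DifferentiableOn ℂ (b i) (ball 0 1)) ∧
      (∀ i, ∀ z ∈ ball (0 : X) 1, ‖b i z‖ ≤ Q) ∧ ∀ z ∈ S k, ∑ i, F i z * b i z = 1) →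
    ∃ y : Fin N → X → ℂ, (∀ i, DifferentiableOn ℂ (y i) (ball 0 1)) ∧
      (∀ i, ∀ z ∈ ball (0 : X) 1, ‖y i z‖ ≤ C) ∧
      ∀ k, ∀ z ∈ S k, ∑ i, F i z * y i z = 1 := by
  obtain ⟨L, hL, H⟩ := weights1 M
  refine ⟨Q * L * Real.exp (N * Q * L), by positivity, ?_⟩
  intro X _ _ ι _ e a h F hF hF1 S hS hb
  classical
  obtain ⟨W, w1, w2, w3⟩ := H X ι e a h
  choose b b1 b2 b3 using hb
  obtain ⟨y, y1, y2, y3⟩ := expand hQ W F b w1 hF hF1 b1 b2 Finset.univ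
  refine ⟨y, y1, fun i z hz => (y2 i z hz).trans ?_, fun k z hz => ?_⟩
  · have h0 : 0 ≤ ∑ k, ‖W k z‖ := Finset.sum_nonneg (fun k _ => norm_nonneg _)
    have := w2 z hz
    gcongr
  · obtain ⟨hz1, hz2⟩ := hS k z hz
    rw [← y3 z hz1]
    have h1 : 1 - W k z * ∑ i, F i z * b k i z = 0 := by
      rw [w3 k z hz1 hz2, b3 k z hz]
      ring
    rw [Finset.prod_eq_zero (Finset.mem_univ k) h1, sub_zero]

/-- gluing of solutions on subsets of the hyperplanes, infinite families -/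
theorem sec_inf (N : ℕ) (M : ℝ) {Q : ℝ} (hQ : 0 ≤ Q) : ∃ C : ℝ, 0 ≤ C ∧
    ∀ (X : Type) [NormedAddCommGroup X] [InnerProductSpace ℂ X] [FiniteDimensional ℂ X]
    (ι : Type) (e : ι → X) (a : ι → ℂ), (∀ k, ‖e k‖ = 1) → (∀ k, ‖a k‖ < 1) →
    (∀ z ∈ ball (0 : X) 1, ∀ s : Finset ι,
        ∑ k ∈ s, (1 - ‖bl (a k) (inner ℂ (e k) z)‖ ^ 2) ≤ M) →
    ∀ F : Fin N → X → ℂ, (∀ i, DifferentiableOn ℂ (F i) (ball 0 1)) →
    (∀ i, ∀ z ∈ ball (0 : X) 1, ‖F i z‖ ≤ 1) → ∀ (S : ι → Set X),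
    (∀ k, ∀ z ∈ S k, z ∈ ball (0 : X) 1 ∧ (inner ℂ (e k) z : ℂ) = a k) →
    (∀ k, ∃ b : Fin N → X → ℂ, (∀ i, DifferentiableOn ℂ (b i) (ball 0 1)) ∧
      (∀ i, ∀ z ∈ ball (0 : X) 1, ‖b i z‖ ≤ Q) ∧ ∀ z ∈ S k, ∑ i, F i z * b i z = 1) →
    ∃ y : Fin N → X → ℂ, (∀ i, DifferentiableOn ℂ (y i) (ball 0 1)) ∧
      (∀ i, ∀ z ∈ ball (0 : X) 1, ‖y i z‖ ≤ C) ∧
      ∀ k, ∀ z ∈ S k, ∑ i, F i z * y i z = 1 := by
  obtain ⟨C, hC, H⟩ := sec_fin N M hQ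
  refine ⟨C, hC, ?_⟩
  intro X _ _ _ ι e a he ha hsum F hF hF1 S hS hb
  classical
  have h1 : ∀ s : Finset ι, ∃ y : Fin N → X → ℂ, (∀ i, DifferentiableOn ℂ (y i) (ball 0 1)) ∧
      (∀ i, ∀ z ∈ ball (0 : X) 1, ‖y i z‖ ≤ C) ∧
      ∀ k ∈ s, ∀ z ∈ S k, ∑ i, F i z * y i z = 1 := by
    intro s
    have hHF : HF X (fun k : s => e k) (fun k : s => a k) M := by
      refine ⟨fun k => he k, fun k => ha k, fun z hz => ?_⟩
      have h2 := hsum z (mem_ball_zero_iff.2 hz) s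
      rw [← Finset.sum_coe_sort] at h2
      refine le_trans (le_of_eq ?_) h2
      exact Finset.sum_congr rfl (fun k _ => (uu_eq (ha k) (inner_lt (he k) hz).le).symm)
    obtain ⟨y, y1, y2, y3⟩ := H X s (fun k : s => e k) (fun k : s => a k) hHF F hF hF1
      (fun k : s => S k) (fun k => hS k) (fun k => hb k)
    exact ⟨y, y1, y2, fun k hk => y3 ⟨k, hk⟩⟩
  choose y y1 y2 y3 using h1
  set 𝒰 : Ultrafilter (Finset ι) := Ultrafilter.of atTop with h𝒰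
  have hle : (𝒰 : Filter (Finset ι)) ≤ atTop := Ultrafilter.of_le _
  have k1 : ∀ i, ∃ v : X → ℂ, DifferentiableOn ℂ v (ball 0 1) ∧ (∀ p ∈ ball (0 : X) 1, ‖v p‖ ≤ C) ∧
      ∀ p ∈ ball (0 : X) 1, Tendsto (fun s => y s i p) 𝒰 (𝓝 (v p)) := fun i =>
    Pool.Agent.H720R2.Cor.ultra_lim isOpen_ball 𝒰 (fun s => y s i) (fun s => y1 s i)
      (fun s => y2 s i)
  choose v v1 v2 v3 using k1
  refine ⟨v, v1, v2, fun k z hz => ?_⟩
  have hz1 := (hS k z hz).1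
  have hlim : Tendsto (fun s : Finset ι => ∑ i, F i z * y s i z) 𝒰
      (𝓝 (∑ i, F i z * v i z)) :=
    tendsto_finsetSum _ (fun i _ => (v3 i z hz1).const_mul _)
  have hev : (fun s : Finset ι => ∑ i, F i z * y s i z) =ᶠ[(𝒰 : Filter (Finset ι))]
      fun _ => (1 : ℂ) := by
    refine hle ?_
    filter_upwards [eventually_ge_atTop ({k} : Finset ι)] with s hs
    exact y3 s k (hs (Finset.mem_singleton_self k)) z hz
  exact tendsto_nhds_unique (hlim.congr' hev) tendsto_const_nhds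

end Run7.h512
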