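import Mathlib
import Pool.Agent.Run7.h512.MaxP
import Pool.Agent.Run7.h512.Sec

/-!
Corona data on infinitely many complex geodesics of the ball: neighbourhoods.
-/

set_option autoImplicit false

open Metric Set Filter Topology Complex

namespace Run7.h512

variable {X : Type} [NormedAddCommGroup X] [InnerProductSpace ℂ X]

/-- a point of the ball on the line `p + ζ u` is given by a point of the disc -/
theorem line_pt {p u : X} (hp : ‖p‖ < 1) (hu : ‖u‖ = 1) (hup : (inner ℂ u p : ℂ) = 0) {ζ : ℂ}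
    (h : ‖p + ζ • u‖ < 1) : ∃ x : ℂ, ‖x‖ < 1 ∧ ζ = (√(1 - ‖p‖ ^ 2) : ℂ) * x :=
  ⟨rho p u (p + ζ • u), rho_lt hp hu hup h, (rho_self hp hu hup ζ).symm⟩

theorem inner_line {p u : X} (hu : ‖u‖ = 1) (hup : (inner ℂ u p : ℂ) = 0) (a b : ℂ) :
    (inner ℂ (p + a • u) (p + b • u) : ℂ) = ((‖p‖ ^ 2 : ℝ) : ℂ) + starRingEnd ℂ a * b := by
  have hpu : (inner ℂ p u : ℂ) = 0 := by
    rw [← inner_conj_symm, hup, map_zero]
  have hpp : (inner ℂ p p : ℂ) = ((‖p‖ ^ 2 : ℝ) : ℂ) := by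
    rw [inner_self_eq_norm_sq_to_K]
    simp
  have huu : (inner ℂ u u : ℂ) = 1 := by
    rw [inner_self_eq_norm_sq_to_K, hu]
    simp
  rw [inner_add_left, inner_add_right, inner_add_right, inner_smul_right, inner_smul_left,
    inner_smul_left, inner_smul_right, hpu, hup, hpp, huu]
  ring

/-- Schwarz-Pick lemma on the ball -/
theorem pick_ball {A : ℝ} (hA : 0 < A) {h : X → ℂ} (hd : DifferentiableOn ℂ h (ball 0 1))
    (hb : ∀ z ∈ ball (0 : X) 1, ‖h z‖ ≤ A) {x z : X} (hx : ‖x‖ < 1) (hz : ‖z‖ < 1)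
    (h0 : h x = 0) {r : ℝ} (hr : 0 ≤ r)
    (hr2 : (1 - r ^ 2) * ‖1 - (inner ℂ x z : ℂ)‖ ^ 2 ≤ (1 - ‖x‖ ^ 2) * (1 - ‖z‖ ^ 2)) :
    ‖h z‖ ≤ 2 * A * r := by
  by_cases hxz : z = x
  · rw [hxz, h0, norm_zero]
    positivity
  have hn : 0 < ‖z - x‖ := norm_pos_iff.2 (sub_ne_zero.2 hxz)
  set u : X := ((‖z - x‖ : ℂ)⁻¹) • (z - x) with hud
  have hnc : (‖z - x‖ : ℂ) ≠ 0 := by exact_mod_cast hn.ne'
  have hu : ‖u‖ = 1 := by
    rw [hud, norm_smul, norm_inv, Complex.norm_real, Real.norm_of_nonneg hn.le]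
    field_simp
  have huu : (inner ℂ u u : ℂ) = 1 := by
    rw [inner_self_eq_norm_sq_to_K, hu]
    simp
  set α : ℂ := inner ℂ u x with hα
  set p : X := x - α • u with hpd
  have hup : (inner ℂ u p : ℂ) = 0 := by
    rw [hpd, inner_sub_right, inner_smul_right, huu, ← hα]
    ring
  have hpn : ‖p‖ < 1 := by
    have h1 : ‖p‖ ^ 2 = ‖x‖ ^ 2 - ‖α‖ ^ 2 := orth_sq hu
    have h2 : ‖p‖ ^ 2 < 1 := by nlinarith [norm_nonneg α, norm_nonneg x]
    nlinarith [norm_nonneg p]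
  have hxp : x = p + α • u := by rw [hpd]; abel
  have hzp : z = p + (α + (‖z - x‖ : ℂ)) • u := by
    rw [add_smul, ← add_assoc, ← hxp, hud, smul_smul, mul_inv_cancel₀ hnc, one_smul]
    abel
  obtain ⟨x', hx', hxe⟩ := line_pt hpn hu hup (by rw [← hxp]; exact hx)
  obtain ⟨z', hz', hze⟩ := line_pt hpn hu hup (by rw [← hzp]; exact hz)
  set s : ℝ := √(1 - ‖p‖ ^ 2) with hs
  have hs1 : 0 < 1 - ‖p‖ ^ 2 := by nlinarith [norm_nonneg p]
  have hss : s ^ 2 = 1 - ‖p‖ ^ 2 := Real.sq_sqrt hs1.le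
  have hs0 : 0 < s := Real.sqrt_pos.2 hs1
  rw [hxe] at hxp
  rw [hze] at hzp
  set γ : ℂ → X := fun y => p + ((s : ℂ) * y) • u with hγ
  have hγm : ∀ y ∈ ball (0 : ℂ) 1, γ y ∈ ball (0 : X) 1 := fun y hy =>
    mem_ball_zero_iff.2 (disc_mem hpn hu hup (mem_ball_zero_iff.1 hy))
  have hγd : Differentiable ℂ γ := by
    intro y
    simp only [hγ]
    exact (((differentiableAt_id.const_mul _).smul_const _).const_add _)
  have hAc : (A : ℂ) ≠ 0 := by exact_mod_cast hA.ne'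
  have h1 := pick (f := fun y => (A : ℂ)⁻¹ * h (γ y))
    ((hd.comp hγd.differentiableOn hγm).const_mul _) (fun y hy => by
      rw [norm_mul, norm_inv, Complex.norm_real, Real.norm_of_nonneg hA.le, inv_mul_le_iff₀ hA,
        mul_one]
      exact hb _ (hγm y hy)) hx' hz'
  have hγx : γ x' = x := hxp.symm
  have hγz : γ z' = z := hzp.symm
  simp only [hγx, hγz, h0, mul_zero, sub_zero] at h1
  rw [norm_mul, norm_inv, Complex.norm_real, Real.norm_of_nonneg hA.le, inv_mul_le_iff₀ hA] at h1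
  -- the distance
  have hpu : (inner ℂ p u : ℂ) = 0 := by
    rw [← inner_conj_symm, hup, map_zero]
  have e1 : (1 : ℂ) - inner ℂ x z = ((s ^ 2 : ℝ) : ℂ) * (1 - starRingEnd ℂ x' * z') := by
    rw [hxp, hzp, inner_line hu hup, hss, map_mul, Complex.conj_ofReal]
    have : ((1 - ‖p‖ ^ 2 : ℝ) : ℂ) = (s : ℂ) * s := by
      rw [← hss]
      push_cast
      ring
    rw [this]
    have h5 : ((‖p‖ ^ 2 : ℝ) : ℂ) = 1 - (s : ℂ) * s := by
      rw [← this]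
      push_cast
      ring
    rw [h5]
    ring
  have e2 : ∀ y : ℂ, 1 - ‖p + ((s : ℂ) * y) • u‖ ^ 2 = s ^ 2 * (1 - ‖y‖ ^ 2) := by
    intro y
    have h1 := @norm_add_sq ℂ X _ _ _ p (((s : ℂ) * y) • u)
    rw [inner_smul_right, hpu, mul_zero, map_zero, mul_zero, add_zero, norm_smul, hu, mul_one,
      norm_mul, Complex.norm_real, Real.norm_of_nonneg hs0.le, mul_pow, hss] at h1
    rw [h1, hss]
    ring
  have e3 : ‖(1 : ℂ) - inner ℂ x z‖ ^ 2 = s ^ 4 * mm x' z' ^ 2 := by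
    rw [e1, norm_mul, Complex.norm_real, Real.norm_of_nonneg (by positivity)]
    unfold mm
    ring
  have e4 : 1 - ‖x‖ ^ 2 = s ^ 2 * (1 - ‖x'‖ ^ 2) := by rw [hxp]; exact e2 x'
  have e5 : 1 - ‖z‖ ^ 2 = s ^ 2 * (1 - ‖z'‖ ^ 2) := by rw [hzp]; exact e2 z'
  rw [e3, e4, e5] at hr2
  have hs4 : 0 < s ^ 4 := by positivity
  have hm := mm_pos hx' hz'.le
  have h6 : (1 - r ^ 2) * mm x' z' ^ 2 ≤ SS x' * (1 - ‖z'‖ ^ 2) := by
    have : s ^ 4 * ((1 - r ^ 2) * mm x' z' ^ 2) ≤ s ^ 4 * (SS x' * (1 - ‖z'‖ ^ 2)) := by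
      unfold SS
      nlinarith
    exact le_of_mul_le_mul_left this hs4
  have h7 : 1 - r ^ 2 ≤ uu x' z' := by
    unfold uu
    rw [le_div_iff₀ (by positivity)]
    exact h6
  rw [← uu_eq hx' hz'.le] at h7
  have h8 : ‖bl x' z'‖ ≤ r := abs_le_of_sq_le_sq' (by linarith) hr |>.2
  calc ‖h z‖ ≤ A * (2 * ‖bl x' z'‖) := h1
    _ ≤ A * (2 * r) := by gcongr
    _ = 2 * A * r := by ring

/-- powers of the error -/
theorem power {N : ℕ} {X : Type} [NormedAddCommGroup X] [NormedSpace ℂ X] {C A : ℝ} (hC : 0 ≤ C)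
    (hA : 1 ≤ A) (F y : Fin N → X → ℂ) (hF : ∀ i, DifferentiableOn ℂ (F i) (ball 0 1))
    (hy : ∀ i, DifferentiableOn ℂ (y i) (ball 0 1)) (hyC : ∀ i, ∀ z ∈ ball (0 : X) 1, ‖y i z‖ ≤ C)
    (hA2 : ∀ z ∈ ball (0 : X) 1, ‖1 - ∑ i, F i z * y i z‖ ≤ A) (q : ℕ) :
    ∃ w : Fin N → X → ℂ, (∀ i, DifferentiableOn ℂ (w i) (ball 0 1)) ∧
      (∀ i, ∀ z ∈ ball (0 : X) 1, ‖w i z‖ ≤ C * (q * A ^ q)) ∧
      ∀ z ∈ ball (0 : X) 1, 1 - ∑ i, F i z * w i z = (1 - ∑ i, F i z * y i z) ^ q := by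
  have hP : DifferentiableOn ℂ (fun z => 1 - ∑ i, F i z * y i z) (ball 0 1) :=
    (differentiableOn_const _).sub (DifferentiableOn.fun_sum (fun i _ => (hF i).mul (hy i)))
  refine ⟨fun i z => y i z * ∑ j ∈ Finset.range q, (1 - ∑ i, F i z * y i z) ^ j,
    fun i => (hy i).mul (DifferentiableOn.fun_sum (fun j _ => hP.pow j)), fun i z hz => ?_,
    fun z hz => ?_⟩
  · rw [norm_mul]
    have h1 : ‖∑ j ∈ Finset.range q, (1 - ∑ i, F i z * y i z) ^ j‖ ≤ q * A ^ q := by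
      refine (norm_sum_le _ _).trans ?_
      have : ∀ j ∈ Finset.range q, ‖(1 - ∑ i, F i z * y i z) ^ j‖ ≤ A ^ q := by
        intro j hj
        rw [norm_pow]
        calc ‖1 - ∑ i, F i z * y i z‖ ^ j ≤ A ^ j := by
              have := hA2 z hz
              gcongr
          _ ≤ A ^ q := pow_le_pow_right₀ hA (Finset.mem_range.1 hj).le
      refine (Finset.sum_le_sum this).trans (le_of_eq ?_)
      rw [Finset.sum_const, Finset.card_range, nsmul_eq_mul]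
    have h2 := hyC i z hz
    gcongr
  · set P : ℂ := 1 - ∑ i, F i z * y i z with hPd
    have h1 : ∑ i, F i z * (y i z * ∑ j ∈ Finset.range q, P ^ j) =
        (1 - P) * ∑ j ∈ Finset.range q, P ^ j := by
      rw [hPd, sub_sub_cancel, Finset.sum_mul]
      exact Finset.sum_congr rfl (fun i _ => by ring)
    rw [h1]
    have h2 := mul_neg_geom_sum P q
    rw [h2]
    ring

/-- **Main theorem.** -/
theorem geo_inf (N : ℕ) (M : ℝ) {δ : ℝ} (hδ : 0 < δ) : ∃ r : ℝ, 0 < r ∧ ∀ ε : ℝ, 0 < ε → ∃ C : ℝ,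
    0 ≤ C ∧ ∀ (X : Type) [NormedAddCommGroup X] [InnerProductSpace ℂ X] [FiniteDimensional ℂ X]
    (ι : Type) (e p u : ι → X), (∀ k, ‖e k‖ = 1) → (∀ k, ‖p k‖ < 1) → (∀ k, u k ≠ 0) →
    (∀ k, (inner ℂ (e k) (u k) : ℂ) = 0) →
    (∀ z ∈ ball (0 : X) 1, ∀ s : Finset ι,
        ∑ k ∈ s, (1 - ‖bl (inner ℂ (e k) (p k)) (inner ℂ (e k) z)‖ ^ 2) ≤ M) →
    ∀ F : Fin N → X → ℂ, (∀ i, DifferentiableOn ℂ (F i) (ball 0 1)) →
    (∀ i, ∀ z ∈ ball (0 : X) 1, ‖F i z‖ ≤ 1) →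
    (∀ k, ∀ ζ : ℂ, p k + ζ • u k ∈ ball (0 : X) 1 → δ ≤ ∑ i, ‖F i (p k + ζ • u k)‖) →
    ∃ y : Fin N → X → ℂ, (∀ i, DifferentiableOn ℂ (y i) (ball 0 1)) ∧
      (∀ i, ∀ z ∈ ball (0 : X) 1, ‖y i z‖ ≤ C) ∧
      (∀ k, ∀ ζ : ℂ, p k + ζ • u k ∈ ball (0 : X) 1 →
        ∑ i, F i (p k + ζ • u k) * y i (p k + ζ • u k) = 1) ∧
      ∀ k, ∀ ζ : ℂ, p k + ζ • u k ∈ ball (0 : X) 1 → ∀ z ∈ ball (0 : X) 1,
        (1 - r ^ 2) * ‖1 - (inner ℂ (p k + ζ • u k) z : ℂ)‖ ^ 2 ≤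
          (1 - ‖p k + ζ • u k‖ ^ 2) * (1 - ‖z‖ ^ 2) → ‖∑ i, F i z * y i z - 1‖ ≤ ε := by
  obtain ⟨Q, hQ, H1⟩ := one_disc N hδ
  obtain ⟨C, hC, H2⟩ := sec_inf N M hQ
  set A : ℝ := 1 + N * C with hA
  have hA1 : 1 ≤ A := by
    rw [hA]
    have : 0 ≤ N * C := by positivity
    linarith
  have hA0 : 0 < A := by linarith
  refine ⟨1 / (4 * A), by positivity, ?_⟩
  intro ε hε
  obtain ⟨q, hq⟩ := exists_pow_lt_of_lt_one hε (show (1 / 2 : ℝ) < 1 by norm_num)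
  refine ⟨C * ((q + 1 : ℕ) * A ^ (q + 1)), by positivity, ?_⟩
  intro X _ _ _ ι e p u he hp hu heu hsum F hF hF1 hFl
  -- normalisation of the lines
  have hn : ∀ k, 0 < ‖u k‖ := fun k => norm_pos_iff.2 (hu k)
  have hnc : ∀ k, (‖u k‖ : ℂ) ≠ 0 := fun k => by exact_mod_cast (hn k).ne'
  set v : ι → X := fun k => ((‖u k‖ : ℂ)⁻¹) • u k with hv
  have hv1 : ∀ k, ‖v k‖ = 1 := by
    intro k
    rw [hv, norm_smul, norm_inv, Complex.norm_real, Real.norm_of_nonneg (hn k).le]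
    have := (hn k).ne'
    field_simp
  have huv : ∀ k, u k = (‖u k‖ : ℂ) • v k := by
    intro k
    simp only [hv]
    rw [smul_smul, mul_inv_cancel₀ (hnc k), one_smul]
  have hvv : ∀ k, (inner ℂ (v k) (v k) : ℂ) = 1 := by
    intro k
    rw [inner_self_eq_norm_sq_to_K, hv1 k]
    simp
  have hev : ∀ k, (inner ℂ (e k) (v k) : ℂ) = 0 := by
    intro k
    simp only [hv]
    rw [inner_smul_right, heu k, mul_zero]
  set α : ι → ℂ := fun k => inner ℂ (v k) (p k) with hα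
  set c : ι → X := fun k => p k - α k • v k with hc
  have hvc : ∀ k, (inner ℂ (v k) (c k) : ℂ) = 0 := by
    intro k
    simp only [hc, hα]
    rw [inner_sub_right, inner_smul_right, hvv k]
    ring
  have hcn : ∀ k, ‖c k‖ < 1 := by
    intro k
    have h1 : ‖c k‖ ^ 2 = ‖p k‖ ^ 2 - ‖α k‖ ^ 2 := orth_sq (hv1 k)
    have h2 : ‖c k‖ ^ 2 < 1 := by nlinarith [norm_nonneg (α k), norm_nonneg (p k), hp k]
    nlinarith [norm_nonneg (c k)]
  have hpt : ∀ k, ∀ ζ : ℂ, p k + ζ • u k = c k + (α k + ζ * ‖u k‖) • v k := by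
    intro k ζ
    simp only [hc]
    rw [add_smul, mul_smul, ← huv k]
    abel
  have hpt' : ∀ k, ∀ ζ : ℂ, c k + ζ • v k = p k + ((ζ - α k) * (‖u k‖ : ℂ)⁻¹) • u k := by
    intro k ζ
    rw [hpt k]
    congr 2
    have := hnc k
    field_simp
    ring
  set S : ι → Set X := fun k => {z | z ∈ ball (0 : X) 1 ∧ ∃ ζ : ℂ, z = p k + ζ • u k} with hS
  have hep : ∀ k, ‖(inner ℂ (e k) (p k) : ℂ)‖ < 1 := fun k => inner_lt (he k) (hp k)
  obtain ⟨y₀, y1, y2, y3⟩ := H2 X ι e (fun k => inner ℂ (e k) (p k)) he hep hsum F hF hF1 S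
    (by
      rintro k z ⟨hz, ζ, rfl⟩
      refine ⟨hz, ?_⟩
      rw [inner_add_right, inner_smul_right, heu k, mul_zero, add_zero])
    (by
      intro k
      obtain ⟨b, b1, b2, b3⟩ := H1 X (c k) (v k) (hcn k) (hv1 k) (hvc k) F hF hF1 (by
        intro ζ hζ
        rw [hpt' k] at hζ ⊢
        exact hFl k _ hζ)
      refine ⟨b, b1, b2, ?_⟩
      rintro z ⟨hz, ζ, rfl⟩
      rw [hpt k] at hz ⊢
      exact b3 _ hz)
  have hPb : ∀ z ∈ ball (0 : X) 1, ‖1 - ∑ i, F i z * y₀ i z‖ ≤ A := by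
    intro z hz
    refine (norm_sub_le _ _).trans ?_
    rw [norm_one, hA]
    gcongr
    refine (norm_sum_le _ _).trans ?_
    have : ∀ i ∈ (Finset.univ : Finset (Fin N)), ‖F i z * y₀ i z‖ ≤ C := by
      intro i _
      rw [norm_mul]
      have h3 := hF1 i z hz
      have h4 := y2 i z hz
      nlinarith [norm_nonneg (F i z), norm_nonneg (y₀ i z)]
    refine (Finset.sum_le_sum this).trans ?_
    simp
  obtain ⟨w, w1, w2, w3⟩ := power hC hA1 F y₀ hF y1 y2 hPb (q + 1)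
  have hPd : DifferentiableOn ℂ (fun z => 1 - ∑ i, F i z * y₀ i z) (ball 0 1) :=
    (differentiableOn_const _).sub (DifferentiableOn.fun_sum (fun i _ => (hF i).mul (y1 i)))
  refine ⟨w, w1, w2, ?_, ?_⟩
  · intro k ζ hz
    have h3 := w3 _ hz
    rw [y3 k _ ⟨hz, ζ, rfl⟩, sub_self, zero_pow (Nat.succ_ne_zero q)] at h3
    linear_combination -h3
  · intro k ζ hx z hz hr
    have h3 := pick_ball hA0 hPd hPb (mem_ball_zero_iff.1 hx) (mem_ball_zero_iff.1 hz)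
      (by rw [y3 k _ ⟨hx, ζ, rfl⟩, sub_self]) (by positivity) hr
    have h4 : 2 * A * (1 / (4 * A)) = 1 / 2 := by
      field_simp
      norm_num
    rw [h4] at h3
    rw [norm_sub_rev, w3 z hz, norm_pow]
    calc ‖1 - ∑ i, F i z * y₀ i z‖ ^ (q + 1) ≤ (1 / 2) ^ (q + 1) := by gcongr
      _ ≤ (1 / 2) ^ q := pow_le_pow_of_le_one (by norm_num) (by norm_num) (Nat.le_succ q)
      _ ≤ ε := hq.le

end Run7.h512
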