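import Mathlib
import Pool.Agent.H720R2.Cor.Lim
import Pool.Agent.Run7.h512.FW

/-!
Corona data with products of functions of one variable in varying directions.
-/

set_option autoImplicit false

open Metric Set Filter Topology Complex

namespace Run7.h512

open Pool.Agent.Y263.LF (Bez)
open Pool.Agent.Y263.GF (AF frac_AF loc_aff)

/-- one function -/
theorem one_fun (m : ℕ) {δ Q c : ℝ} (hδ : 0 < δ) (hc : 0 < c) : ∃ C : ℝ, 0 ≤ C ∧
    ∀ (X : Type) [NormedAddCommGroup X] [InnerProductSpace ℂ X] [FiniteDimensional ℂ X]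
    (e : X) (f : ℂ → ℂ), ‖e‖ = 1 → DifferentiableOn ℂ f (ball 0 1) →
    (∀ ζ ∈ ball (0 : ℂ) 1, ‖f ζ‖ ≤ 1) → ∀ W : X → ℂ, DifferentiableOn ℂ W (ball 0 1) →
    (∀ z ∈ ball (0 : X) 1, ‖W z‖ ≤ 1) →
    (∀ z ∈ ball (0 : X) 1, ‖f (inner ℂ e z)‖ < δ → c ≤ ‖W z‖) →
    ∀ F : Fin m → X → ℂ, (∀ i, DifferentiableOn ℂ (F i) (ball 0 1)) →
    (∀ i, ∀ z ∈ ball (0 : X) 1, ‖F i z‖ ≤ 1) →
    Bez {z : X | ‖z‖ < 1 ∧ ‖f (inner ℂ e z)‖ < δ} F Q →
    ∃ (g : X → ℂ) (b : Fin m → X → ℂ), DifferentiableOn ℂ g (ball 0 1) ∧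
      (∀ i, DifferentiableOn ℂ (b i) (ball 0 1)) ∧ (∀ z ∈ ball (0 : X) 1, ‖g z‖ ≤ C) ∧
      (∀ i, ∀ z ∈ ball (0 : X) 1, ‖b i z‖ ≤ C) ∧
      ∀ z ∈ ball (0 : X) 1, f (inner ℂ e z) * g z = 1 - W z * ∑ i, F i z * b i z := by
  obtain ⟨C, hC, H⟩ := loc_aff 1 1 m (ε := δ) (Q := max Q 0 / c) hδ (by positivity)
  refine ⟨C, hC, ?_⟩
  intro X _ _ _ e f he hf hf1 W hW hW1 hWc F hF hF1 hbez
  obtain ⟨h, h1, h2, h3⟩ := H X (fun _ z => (inner ℂ e z : ℂ)) (fun _ _ => f)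
    (fun _ => lin_AF e) (fun _ z hz => inner_lt he (mem_ball_zero_iff.1 hz))
    (fun _ _ => hf) (fun _ _ x hx => hf1 x hx)
    (fun i z => W z * F i z) (fun i => hW.mul (hF i))
    (fun i z hz => by
      rw [norm_mul]
      have := hW1 z hz
      have := hF1 i z hz
      nlinarith [norm_nonneg (W z), norm_nonneg (F i z)])
    (by
      obtain ⟨g, g1, g2, g3⟩ := hbez
      have hsub : {z : X | ‖z‖ < 1 ∧ ∀ _ : Fin 1, ∀ _ : Fin 1, ‖f (inner ℂ e z)‖ < δ} ⊆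
          {z : X | ‖z‖ < 1 ∧ ‖f (inner ℂ e z)‖ < δ} := fun z hz => ⟨hz.1, hz.2 0 0⟩
      have hne : ∀ z ∈ {z : X | ‖z‖ < 1 ∧ ‖f (inner ℂ e z)‖ < δ}, W z ≠ 0 := by
        intro z hz
        have h4 := hWc z (mem_ball_zero_iff.2 hz.1) hz.2
        exact norm_pos_iff.1 (lt_of_lt_of_le hc h4)
      refine ⟨fun i z => g i z * (W z)⁻¹, fun i => ?_, fun i z hz => ?_, fun z hz => ?_⟩
      · refine DifferentiableOn.mono ?_ hsub
        refine (g1 i).mul ?_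
        exact (hW.mono (fun z hz => mem_ball_zero_iff.2 hz.1)).inv hne
      · have hz' := hsub hz
        have h4 := hWc z (mem_ball_zero_iff.2 hz'.1) hz'.2
        have h5 := g2 i z hz'
        rw [norm_mul, norm_inv, ← div_eq_mul_inv]
        have h6 : ‖g i z‖ ≤ max Q 0 := h5.trans (le_max_left _ _)
        gcongr
      · have hz' := hsub hz
        rw [← g3 z hz']
        refine Finset.sum_congr rfl (fun i _ => ?_)
        have := hne z hz'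
        field_simp)
  refine ⟨h (Sum.inl (0, 0)), fun i => h (Sum.inr i), h1 _, fun i => h1 _, fun z hz => h2 _ z hz,
    fun i z hz => h2 _ z hz, fun z hz => ?_⟩
  have h4 := h3 z hz
  rw [Fintype.sum_sum_type] at h4
  simp only [Sum.elim_inl, Sum.elim_inr] at h4
  have h5 : ∑ q : Fin 1 × Fin 1, f (inner ℂ e z) * h (Sum.inl q) z =
      f (inner ℂ e z) * h (Sum.inl (0, 0)) z := by
    rw [Fintype.sum_prod_type]
    simp
  rw [h5] at h4
  rw [Finset.mul_sum, eq_sub_iff_add_eq]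
  rw [← h4]
  congr 1
  exact Finset.sum_congr rfl (fun i _ => by ring)

/-- **Finite products.** -/
theorem prod_main (m : ℕ) (M : ℝ) {ε : ℝ} (Q : ℝ) (hε : 0 < ε) : ∃ C : ℝ, 0 ≤ C ∧
    ∀ (X : Type) [NormedAddCommGroup X] [InnerProductSpace ℂ X] [FiniteDimensional ℂ X]
      (κ : Type) [Fintype κ] (e : κ → X) (f : κ → ℂ → ℂ), (∀ k, ‖e k‖ = 1) →
      (∀ k, DifferentiableOn ℂ (f k) (ball 0 1)) →
      (∀ k, ∀ ζ ∈ ball (0 : ℂ) 1, ‖f k ζ‖ ≤ 1) →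
      (∀ z : X, ‖z‖ < 1 → ∑ k, (1 - ‖f k (inner ℂ (e k) z)‖ ^ 2) ≤ M) →
      ∀ F : Fin m → X → ℂ, (∀ i, DifferentiableOn ℂ (F i) (ball 0 1)) →
      (∀ i, ∀ z ∈ ball (0 : X) 1, ‖F i z‖ ≤ 1) →
      (∀ k, Bez {z : X | ‖z‖ < 1 ∧ ‖f k (inner ℂ (e k) z)‖ < ε} F Q) →
      ∃ (h : Fin m → X → ℂ) (g : X → ℂ), (∀ i, DifferentiableOn ℂ (h i) (ball 0 1)) ∧
        DifferentiableOn ℂ g (ball 0 1) ∧ (∀ i, ∀ z ∈ ball (0 : X) 1, ‖h i z‖ ≤ C) ∧
        (∀ z ∈ ball (0 : X) 1, ‖g z‖ ≤ C) ∧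
        ∀ z ∈ ball (0 : X) 1, ∑ i, F i z * h i z +
          (∏ k, f k (inner ℂ (e k) z)) * g z = 1 := by
  obtain ⟨L, ε₁, hL, hε₁, HW⟩ := fw M
  set δ : ℝ := min (min ε ε₁) (1 / 2) with hδd
  have hδ : 0 < δ := by positivity
  have hδ2 : δ ≤ 1 / 2 := min_le_right _ _
  have hδε : δ ≤ ε := (min_le_left _ _).trans (min_le_left _ _)
  have hδε₁ : δ ≤ ε₁ := (min_le_left _ _).trans (min_le_right _ _)
  set c : ℝ := 1 / 2 / (L + 1) with hcd
  have hc : 0 < c := by positivity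
  obtain ⟨C₀, hC₀, H1⟩ := one_fun m (δ := δ) (Q := Q) hδ hc
  refine ⟨max (C₀ * 1 * Real.exp (m * C₀ * 1))
    (Real.exp (m * C₀ * 1 + (1 / δ ^ 2 + 2 * C₀) * max M 0)), by positivity, ?_⟩
  intro X _ _ _ κ _ e f he hf hf1 hsum F hF hF1 hbez
  classical
  obtain ⟨W₀, w01, w02, w03⟩ := HW X κ e f he hf hf1 hsum
  set W : κ → X → ℂ := fun k z => ((L + 1 : ℝ) : ℂ)⁻¹ * W₀ k z with hW
  have hL1 : 0 < L + 1 := by positivity
  have hWn : ∀ k z, ‖W k z‖ = ‖W₀ k z‖ / (L + 1) := by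
    intro k z
    simp only [hW]
    rw [norm_mul, norm_inv, Complex.norm_real, Real.norm_of_nonneg hL1.le]
    ring
  have w1 : ∀ k, DifferentiableOn ℂ (W k) (ball 0 1) := fun k => (w01 k).const_mul _
  have w3 : ∀ z ∈ ball (0 : X) 1, ∑ k, ‖W k z‖ ≤ 1 := by
    intro z hz
    simp only [hWn]
    rw [← Finset.sum_div, div_le_one hL1]
    have := w02 z hz
    linarith
  have w2 : ∀ k, ∀ z ∈ ball (0 : X) 1, ‖W k z‖ ≤ 1 := fun k z hz =>
    (Finset.single_le_sum (f := fun k => ‖W k z‖) (fun _ _ => norm_nonneg _)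
      (Finset.mem_univ k)).trans (w3 z hz)
  have w4 : ∀ k, ∀ z ∈ ball (0 : X) 1, ‖f k (inner ℂ (e k) z)‖ < δ → c ≤ ‖W k z‖ := by
    intro k z hz h
    rw [hWn, hcd]
    have := w03 k z hz (lt_of_lt_of_le h hδε₁)
    gcongr
  have hk : ∀ k, ∃ (g : X → ℂ) (b : Fin m → X → ℂ), DifferentiableOn ℂ g (ball 0 1) ∧
      (∀ i, DifferentiableOn ℂ (b i) (ball 0 1)) ∧ (∀ z ∈ ball (0 : X) 1, ‖g z‖ ≤ C₀) ∧
      (∀ i, ∀ z ∈ ball (0 : X) 1, ‖b i z‖ ≤ C₀) ∧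
      ∀ z ∈ ball (0 : X) 1, f k (inner ℂ (e k) z) * g z =
        1 - W k z * ∑ i, F i z * b i z := by
    intro k
    refine H1 X (e k) (f k) (he k) (hf k) (hf1 k) (W k) (w1 k) (w2 k)
      (fun z hz hzt => w4 k z hz hzt) F hF hF1 ?_
    exact (hbez k).mono (fun z hz => ⟨hz.1, lt_of_lt_of_le hz.2 hδε⟩) le_rfl
  choose g b g1 b1 g2 b2 g3 using hk
  obtain ⟨y, y1, y2, y3⟩ := expand hC₀ W F b w1 hF hF1 b1 b2 Finset.univ
  refine ⟨y, fun z => ∏ k, g k z, y1, ?_, ?_, ?_, ?_⟩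
  · exact prod_diff _ _ _ (fun k _ => g1 k)
  · intro i z hz
    refine le_trans ((y2 i z hz).trans ?_) (le_max_left _ _)
    have h0 : 0 ≤ ∑ k, ‖W k z‖ := Finset.sum_nonneg (fun k _ => norm_nonneg _)
    have := w3 z hz
    gcongr
  · intro z hz
    have hz1 := mem_ball_zero_iff.1 hz
    refine le_trans ?_ (le_max_right _ _)
    have h1 : ∀ k ∈ (Finset.univ : Finset κ), ‖g k z‖ ≤ Real.exp (m * C₀ * ‖W k z‖ +
        (1 / δ ^ 2 + 2 * C₀) * (1 - ‖f k (inner ℂ (e k) z)‖ ^ 2)) := by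
      intro k _
      have hβ1 := hf1 k _ (mem_ball_zero_iff.2 (inner_lt (he k) hz1))
      set β := f k (inner ℂ (e k) z) with hβ
      set u : ℝ := 1 - ‖β‖ ^ 2 with hud
      have hu0 : 0 ≤ u := by
        rw [hud]
        nlinarith [norm_nonneg β]
      by_cases hlt : ‖β‖ < δ
      · have h2 : 3 / 4 ≤ u := by
          rw [hud]
          nlinarith [norm_nonneg β]
        refine (g2 k z hz).trans ?_
        have h3 : C₀ ≤ Real.exp C₀ := by linarith [Real.add_one_le_exp C₀]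
        refine h3.trans (Real.exp_le_exp.2 ?_)
        have h4 : 0 ≤ m * C₀ * ‖W k z‖ := by positivity
        have h5 : 0 ≤ 1 / δ ^ 2 * u := by positivity
        nlinarith
      · push Not at hlt
        have hβ0 : 0 < ‖β‖ := lt_of_lt_of_le hδ hlt
        have h2 : ‖g k z‖ = ‖1 - W k z * ∑ i, F i z * b k i z‖ / ‖β‖ := by
          rw [← g3 k z hz, norm_mul, ← hβ]
          field_simp
        have h3 : ‖1 - W k z * ∑ i, F i z * b k i z‖ ≤ Real.exp (m * C₀ * ‖W k z‖) := by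
          have i1 : ‖∑ i, F i z * b k i z‖ ≤ m * C₀ := by
            refine (norm_sum_le _ _).trans ?_
            have : ∀ i ∈ (Finset.univ : Finset (Fin m)), ‖F i z * b k i z‖ ≤ C₀ := by
              intro i _
              rw [norm_mul]
              have j1 := hF1 i z hz
              have j2 := b2 k i z hz
              nlinarith [norm_nonneg (F i z), norm_nonneg (b k i z)]
            refine (Finset.sum_le_sum this).trans ?_
            simp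
          have i2 : ‖1 - W k z * ∑ i, F i z * b k i z‖ ≤ 1 + ‖W k z‖ * (m * C₀) := by
            refine (norm_sub_le _ _).trans ?_
            rw [norm_one, norm_mul]
            gcongr
          refine i2.trans ?_
          have := Real.add_one_le_exp (m * C₀ * ‖W k z‖)
          linarith
        have h4 : 1 / ‖β‖ ≤ Real.exp (1 / δ ^ 2 * u) := by
          have j1 : 1 / ‖β‖ ≤ 1 / ‖β‖ ^ 2 := by
            refine one_div_le_one_div_of_le (by positivity) ?_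
            nlinarith
          have j2 : 1 / ‖β‖ ^ 2 = 1 + u / ‖β‖ ^ 2 := by
            rw [hud]
            field_simp
            ring
          have j3 : u / ‖β‖ ^ 2 ≤ u / δ ^ 2 := by gcongr
          have j4 := Real.add_one_le_exp (1 / δ ^ 2 * u)
          have j5 : u / δ ^ 2 = 1 / δ ^ 2 * u := by ring
          linarith
        rw [h2, div_eq_mul_one_div]
        calc ‖1 - W k z * ∑ i, F i z * b k i z‖ * (1 / ‖β‖)
            ≤ Real.exp (m * C₀ * ‖W k z‖) * Real.exp (1 / δ ^ 2 * u) := by gcongr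
          _ = Real.exp (m * C₀ * ‖W k z‖ + 1 / δ ^ 2 * u) := by rw [← Real.exp_add]
          _ ≤ _ := by
            refine Real.exp_le_exp.2 ?_
            nlinarith
    refine (prod_le_exp _ _ _ h1).trans (Real.exp_le_exp.2 ?_)
    rw [Finset.sum_add_distrib, ← Finset.mul_sum, ← Finset.mul_sum]
    have h2 := w3 z hz
    have h3 : ∑ k, (1 - ‖f k (inner ℂ (e k) z)‖ ^ 2) ≤ max M 0 :=
      (hsum z hz1).trans (le_max_left _ _)
    gcongr
  · intro z hz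
    have h1 := y3 z hz
    have h2 : ∏ k, (1 - W k z * ∑ i, F i z * b k i z) =
        (∏ k, f k (inner ℂ (e k) z)) * ∏ k, g k z := by
      rw [← Finset.prod_mul_distrib]
      exact Finset.prod_congr rfl (fun k _ => (g3 k z hz).symm)
    rw [← h1, h2]
    ring

/-- **Infinite products.** -/
theorem prod_inf (m : ℕ) (M : ℝ) {ε : ℝ} (Q : ℝ) (hε : 0 < ε) : ∃ C : ℝ, 0 ≤ C ∧
    ∀ (X : Type) [NormedAddCommGroup X] [InnerProductSpace ℂ X] [FiniteDimensional ℂ X]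
      (κ : Type) (e : κ → X) (f : κ → ℂ → ℂ) (f₀ : X → ℂ), (∀ k, ‖e k‖ = 1) →
      (∀ k, DifferentiableOn ℂ (f k) (ball 0 1)) →
      (∀ k, ∀ ζ ∈ ball (0 : ℂ) 1, ‖f k ζ‖ ≤ 1) →
      (∀ z ∈ ball (0 : X) 1, ∀ s : Finset κ, ∑ k ∈ s, (1 - ‖f k (inner ℂ (e k) z)‖ ^ 2) ≤ M) →
      (∀ z ∈ ball (0 : X) 1, HasProd (fun k => f k (inner ℂ (e k) z)) (f₀ z)) →
      ∀ F : Fin m → X → ℂ, (∀ i, DifferentiableOn ℂ (F i) (ball 0 1)) →
      (∀ i, ∀ z ∈ ball (0 : X) 1, ‖F i z‖ ≤ 1) →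
      (∀ k, Bez {z : X | ‖z‖ < 1 ∧ ‖f k (inner ℂ (e k) z)‖ < ε} F Q) →
      ∃ (h : Fin m → X → ℂ) (g : X → ℂ), (∀ i, DifferentiableOn ℂ (h i) (ball 0 1)) ∧
        DifferentiableOn ℂ g (ball 0 1) ∧ (∀ i, ∀ z ∈ ball (0 : X) 1, ‖h i z‖ ≤ C) ∧
        (∀ z ∈ ball (0 : X) 1, ‖g z‖ ≤ C) ∧
        ∀ z ∈ ball (0 : X) 1, ∑ i, F i z * h i z + f₀ z * g z = 1 := by
  obtain ⟨C, hC, H⟩ := prod_main m M Q hε
  refine ⟨C, hC, ?_⟩
  intro X _ _ _ κ e f f₀ he hf hf1 hsum hprod F hF hF1 hbez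
  classical
  have h1 : ∀ s : Finset κ, ∃ (h : Fin m → X → ℂ) (g : X → ℂ),
      (∀ i, DifferentiableOn ℂ (h i) (ball 0 1)) ∧
        DifferentiableOn ℂ g (ball 0 1) ∧ (∀ i, ∀ z ∈ ball (0 : X) 1, ‖h i z‖ ≤ C) ∧
        (∀ z ∈ ball (0 : X) 1, ‖g z‖ ≤ C) ∧
        ∀ z ∈ ball (0 : X) 1, ∑ i, F i z * h i z +
          (∏ k ∈ s, f k (inner ℂ (e k) z)) * g z = 1 := by
    intro s
    obtain ⟨h, g, a1, a2, a3, a4, a5⟩ := H X s (fun k : s => e k) (fun k : s => f k)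
      (fun k => he k) (fun k => hf k) (fun k => hf1 k) (by
        intro z hz
        have h2 := hsum z (mem_ball_zero_iff.2 hz) s
        rwa [← Finset.sum_coe_sort s] at h2) F hF hF1 (fun k => hbez k)
    refine ⟨h, g, a1, a2, a3, a4, ?_⟩
    intro z hz
    have h2 := a5 z hz
    rwa [Finset.prod_coe_sort s (fun k => f k (inner ℂ (e k) z))] at h2
  choose h g a1 a2 a3 a4 a5 using h1
  set 𝒰 : Ultrafilter (Finset κ) := Ultrafilter.of atTop with h𝒰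
  have hle : (𝒰 : Filter (Finset κ)) ≤ atTop := Ultrafilter.of_le _
  have k1 : ∀ i, ∃ v : X → ℂ, DifferentiableOn ℂ v (ball 0 1) ∧ (∀ p ∈ ball (0 : X) 1, ‖v p‖ ≤ C) ∧
      ∀ p ∈ ball (0 : X) 1, Tendsto (fun s => h s i p) 𝒰 (𝓝 (v p)) := fun i =>
    Pool.Agent.H720R2.Cor.ultra_lim isOpen_ball 𝒰 (fun s => h s i) (fun s => a1 s i)
      (fun s => a3 s i)
  choose v v1 v2 v3 using k1
  obtain ⟨u, u1, u2, u3⟩ := Pool.Agent.H720R2.Cor.ultra_lim (X := X) isOpen_ball 𝒰 g a2 a4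
  refine ⟨v, u, v1, u1, v2, u2, ?_⟩
  intro z hz
  have hlim : Tendsto (fun s : Finset κ => ∑ i, F i z * h s i z +
      (∏ k ∈ s, f k (inner ℂ (e k) z)) * g s z) 𝒰
      (𝓝 (∑ i, F i z * v i z + f₀ z * u z)) := by
    refine Tendsto.add ?_ ?_
    · exact tendsto_finsetSum _ (fun i _ => (v3 i z hz).const_mul _)
    · exact Tendsto.mul ((hprod z hz).mono_left hle) (u3 z hz)
  have hconst : Tendsto (fun s : Finset κ => ∑ i, F i z * h s i z +
      (∏ k ∈ s, f k (inner ℂ (e k) z)) * g s z) 𝒰 (𝓝 1) := by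
    have : (fun s : Finset κ => ∑ i, F i z * h s i z +
      (∏ k ∈ s, f k (inner ℂ (e k) z)) * g s z) = fun _ => 1 := by
      funext s
      exact a5 s z hz
    rw [this]
    exact tendsto_const_nhds
  exact tendsto_nhds_unique hlim hconst

end Run7.h512
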