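import Mathlib
import Pool.Agent.Run7.h512.Prod

/-!
Several infinite products of functions of one variable in varying directions: induction on the number
of products.
-/

set_option autoImplicit false

open Metric Set Filter Topology Complex

namespace Run7.h512

open Pool.Agent.Y263.LF (Bez)
open Pool.Agent.Y263.GF (AF frac_AF loc_aff)

/-- infinite products are holomorphic -/
theorem hol_of_prod {X : Type} [NormedAddCommGroup X] [NormedSpace ℂ X] [FiniteDimensional ℂ X]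
    {κ : Type} (g : κ → X → ℂ)
    (f₀ : X → ℂ) (hg : ∀ k, DifferentiableOn ℂ (g k) (ball 0 1))
    (hg1 : ∀ k, ∀ z ∈ ball (0 : X) 1, ‖g k z‖ ≤ 1)
    (hp : ∀ z ∈ ball (0 : X) 1, HasProd (fun k => g k z) (f₀ z)) :
    DifferentiableOn ℂ f₀ (ball 0 1) ∧ ∀ z ∈ ball (0 : X) 1, ‖f₀ z‖ ≤ 1 := by
  classical
  set 𝒰 : Ultrafilter (Finset κ) := Ultrafilter.of atTop with h𝒰
  have hle : (𝒰 : Filter (Finset κ)) ≤ atTop := Ultrafilter.of_le _
  obtain ⟨u, u1, u2, u3⟩ := Pool.Agent.H720R2.Cor.ultra_lim (X := X) (C := 1) isOpen_ball 𝒰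
    (fun s z => ∏ k ∈ s, g k z) (fun s => prod_diff s _ _ (fun k _ => hg k)) (fun s z hz => by
      rw [norm_prod]
      exact Finset.prod_le_one (fun _ _ => norm_nonneg _) (fun k _ => hg1 k z hz))
  have heq : ∀ z ∈ ball (0 : X) 1, f₀ z = u z := fun z hz =>
    tendsto_nhds_unique ((hp z hz).mono_left hle) (u3 z hz)
  exact ⟨u1.congr heq, fun z hz => by rw [heq z hz]; exact u2 z hz⟩

/-- solvability of the equation `∑ F_i h_i + ∑ f_j g_j = 1` on the ball -/
def Sol2 {X : Type} [NormedAddCommGroup X] [NormedSpace ℂ X] {m N : ℕ} (F : Fin m → X → ℂ)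
    (f : Fin N → X → ℂ) (C : ℝ) : Prop :=
  ∃ (h : Fin m → X → ℂ) (g : Fin N → X → ℂ), (∀ i, DifferentiableOn ℂ (h i) (ball 0 1)) ∧
    (∀ j, DifferentiableOn ℂ (g j) (ball 0 1)) ∧ (∀ i, ∀ z ∈ ball (0 : X) 1, ‖h i z‖ ≤ C) ∧
    (∀ j, ∀ z ∈ ball (0 : X) 1, ‖g j z‖ ≤ C) ∧
    ∀ z ∈ ball (0 : X) 1, ∑ i, F i z * h i z + ∑ j, f j z * g j z = 1

/-- products of functions of one variable -/
structure PF {X : Type} [NormedAddCommGroup X] [InnerProductSpace ℂ X] {κ : Type} (e : κ → X)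
    (f : κ → ℂ → ℂ) (f₀ : X → ℂ) (M : ℝ) : Prop where
  he : ∀ k, ‖e k‖ = 1
  hf : ∀ k, DifferentiableOn ℂ (f k) (ball 0 1)
  hf1 : ∀ k, ∀ ζ ∈ ball (0 : ℂ) 1, ‖f k ζ‖ ≤ 1
  hs : ∀ z ∈ ball (0 : X) 1, ∀ s : Finset κ, ∑ k ∈ s, (1 - ‖f k (inner ℂ (e k) z)‖ ^ 2) ≤ M
  hp : ∀ z ∈ ball (0 : X) 1, HasProd (fun k => f k (inner ℂ (e k) z)) (f₀ z)

section

variable {X : Type} [NormedAddCommGroup X] [InnerProductSpace ℂ X] {κ : Type}
    {e : κ → X} {f : κ → ℂ → ℂ} {f₀ : X → ℂ} {M : ℝ}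

theorem PF.fd (h : PF e f f₀ M) (k : κ) :
    DifferentiableOn ℂ (fun z : X => f k (inner ℂ (e k) z)) (ball 0 1) :=
  (h.hf k).comp (innerSL ℂ (e k)).differentiable.differentiableOn
    (fun z hz => mem_ball_zero_iff.2 (inner_lt (h.he k) (mem_ball_zero_iff.1 hz)))

theorem PF.f1 (h : PF e f f₀ M) (k : κ) :
    ∀ z ∈ ball (0 : X) 1, ‖f k (inner ℂ (e k) z)‖ ≤ 1 := fun z hz =>
  h.hf1 k _ (mem_ball_zero_iff.2 (inner_lt (h.he k) (mem_ball_zero_iff.1 hz)))

end

/-- **From single factors to products.** -/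
theorem ind (N : ℕ) : ∀ (m : ℕ) (M Q : ℝ), ∃ C : ℝ, 0 ≤ C ∧
    ∀ (X : Type) [NormedAddCommGroup X] [InnerProductSpace ℂ X] [FiniteDimensional ℂ X]
      (κ : Fin N → Type) (e : ∀ j, κ j → X) (f : ∀ j, κ j → ℂ → ℂ) (f₀ : Fin N → X → ℂ),
      (∀ j, PF (e j) (f j) (f₀ j) M) →
      ∀ F : Fin m → X → ℂ, (∀ i, DifferentiableOn ℂ (F i) (ball 0 1)) →
      (∀ i, ∀ z ∈ ball (0 : X) 1, ‖F i z‖ ≤ 1) →
      (∀ k : ∀ j, κ j, Sol2 F (fun j z => f j (k j) (inner ℂ (e j (k j)) z)) Q) →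
      Sol2 F f₀ C := by
  induction N with
  | zero =>
    intro m M Q
    refine ⟨max Q 0, le_max_right _ _, ?_⟩
    intro X _ _ _ κ e f f₀ hP F hF hF1 hsol
    obtain ⟨h, g, a1, a2, a3, a4, a5⟩ := hsol (fun j => j.elim0)
    refine ⟨h, fun j => j.elim0, a1, fun j => j.elim0, fun i z hz => (a3 i z hz).trans
      (le_max_left _ _), fun j => j.elim0, fun z hz => ?_⟩
    have := a5 z hz
    simpa using this
  | succ N ih =>
    intro m M Q
    obtain ⟨C₂, hC₂, H₂⟩ := ih (m + 1) M Q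
    obtain ⟨C, hC, H⟩ := prod_inf (m + N) M (ε := 1 / (2 * C₂ + 1)) (2 * C₂) (by positivity)
    refine ⟨C, hC, ?_⟩
    intro X _ _ _ κ e f f₀ hP F hF hF1 hsol
    have hol := fun j => hol_of_prod (fun k z => f j k (inner ℂ (e j k) z)) (f₀ j)
      (fun k => (hP j).fd k) (fun k => (hP j).f1 k) (hP j).hp
    -- the data without the first product
    set G : Fin (m + N) → X → ℂ := Fin.append F (fun j => f₀ j.succ) with hG
    have hGd : ∀ i, DifferentiableOn ℂ (G i) (ball 0 1) := by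
      intro i
      refine Fin.addCases (fun i => ?_) (fun j => ?_) i
      · rw [hG, Fin.append_left]
        exact hF i
      · rw [hG, Fin.append_right]
        exact (hol _).1
    have hG1 : ∀ i, ∀ z ∈ ball (0 : X) 1, ‖G i z‖ ≤ 1 := by
      intro i
      refine Fin.addCases (fun i => ?_) (fun j => ?_) i
      · rw [hG, Fin.append_left]
        exact hF1 i
      · rw [hG, Fin.append_right]
        exact (hol _).2
    have hbez : ∀ k₀ : κ 0, Bez {z : X | ‖z‖ < 1 ∧ ‖f 0 k₀ (inner ℂ (e 0 k₀) z)‖ <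
        1 / (2 * C₂ + 1)} G (2 * C₂) := by
      intro k₀
      obtain ⟨a, c, a1, c1, a2, c2, a3⟩ := H₂ X (fun j => κ j.succ) (fun j => e j.succ)
        (fun j => f j.succ) (fun j => f₀ j.succ) (fun j => hP j.succ)
        (Fin.cons (fun z => f 0 k₀ (inner ℂ (e 0 k₀) z)) F) (by
          intro i
          refine Fin.cases ?_ (fun i => ?_) i
          · exact (hP 0).fd k₀
          · exact hF i) (by
          intro i
          refine Fin.cases ?_ (fun i => ?_) i
          · exact (hP 0).f1 k₀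
          · exact hF1 i) (by
          intro k'
          obtain ⟨h, g, b1, b2, b3, b4, b5⟩ := hsol (Fin.cons (α := κ) k₀ k')
          refine ⟨Fin.cons (g 0) h, fun j => g j.succ, ?_, fun j => b2 _, ?_, fun j => b4 _, ?_⟩
          · intro i
            refine Fin.cases ?_ (fun i => ?_) i
            · exact b2 0
            · exact b1 i
          · intro i
            refine Fin.cases ?_ (fun i => ?_) i
            · exact b4 0
            · exact b3 i
          · intro z hz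
            have h6 := b5 z hz
            rw [Fin.sum_univ_succ (n := N)] at h6
            rw [Fin.sum_univ_succ (n := m)]
            simp only [Fin.cons_zero, Fin.cons_succ] at h6 ⊢
            rw [← h6]
            ring)
      set B : Set X := {z : X | ‖z‖ < 1 ∧ ‖f 0 k₀ (inner ℂ (e 0 k₀) z)‖ < 1 / (2 * C₂ + 1)}
      have hBs : B ⊆ ball 0 1 := fun z hz => mem_ball_zero_iff.2 hz.1
      have hS : ∀ z ∈ B, 1 / 2 ≤ ‖1 - f 0 k₀ (inner ℂ (e 0 k₀) z) * a 0 z‖ := by
        intro z hz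
        have h1 := a2 0 z (hBs hz)
        have h2 := hz.2
        have h3 : ‖f 0 k₀ (inner ℂ (e 0 k₀) z) * a 0 z‖ ≤ 1 / 2 := by
          rw [norm_mul]
          calc ‖f 0 k₀ (inner ℂ (e 0 k₀) z)‖ * ‖a 0 z‖ ≤ 1 / (2 * C₂ + 1) * C₂ := by gcongr
            _ ≤ 1 / 2 := by
              rw [div_mul_eq_mul_div, div_le_div_iff₀ (by positivity) (by norm_num)]
              linarith
        have h4 := norm_sub_norm_le (1 : ℂ) (f 0 k₀ (inner ℂ (e 0 k₀) z) * a 0 z)
        rw [norm_one] at h4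
        linarith
      have hSne : ∀ z ∈ B, 1 - f 0 k₀ (inner ℂ (e 0 k₀) z) * a 0 z ≠ 0 := fun z hz =>
        norm_pos_iff.1 (by linarith [hS z hz])
      have hSd : DifferentiableOn ℂ (fun z => (1 - f 0 k₀ (inner ℂ (e 0 k₀) z) * a 0 z)⁻¹) B := by
        refine DifferentiableOn.inv ?_ hSne
        exact (differentiableOn_const _).sub ((((hP 0).fd k₀).mul (a1 0)).mono hBs)
      have hSb : ∀ z ∈ B, ∀ y : ℂ, ‖y‖ ≤ C₂ →
          ‖y * (1 - f 0 k₀ (inner ℂ (e 0 k₀) z) * a 0 z)⁻¹‖ ≤ 2 * C₂ := by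
        intro z hz y hy
        have h1 := hS z hz
        rw [norm_mul, norm_inv]
        have h2 : ‖1 - f 0 k₀ (inner ℂ (e 0 k₀) z) * a 0 z‖⁻¹ ≤ 2 := by
          rw [inv_le_comm₀ (by linarith) (by norm_num)]
          linarith
        have h3 : 0 ≤ ‖1 - f 0 k₀ (inner ℂ (e 0 k₀) z) * a 0 z‖⁻¹ := by positivity
        calc ‖y‖ * ‖1 - f 0 k₀ (inner ℂ (e 0 k₀) z) * a 0 z‖⁻¹ ≤ C₂ * 2 := by gcongr
          _ = 2 * C₂ := mul_comm _ _
      refine ⟨Fin.append (fun i z => a i.succ z *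
          (1 - f 0 k₀ (inner ℂ (e 0 k₀) z) * a 0 z)⁻¹) (fun j z => c j z *
          (1 - f 0 k₀ (inner ℂ (e 0 k₀) z) * a 0 z)⁻¹), ?_, ?_, ?_⟩
      · intro i
        refine Fin.addCases (fun i => ?_) (fun j => ?_) i
        · rw [Fin.append_left]
          exact ((a1 i.succ).mono hBs).mul hSd
        · rw [Fin.append_right]
          exact ((c1 j).mono hBs).mul hSd
      · intro i
        refine Fin.addCases (fun i => ?_) (fun j => ?_) i
        · rw [Fin.append_left]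
          exact fun z hz => hSb z hz _ (a2 _ z (hBs hz))
        · rw [Fin.append_right]
          exact fun z hz => hSb z hz _ (c2 _ z (hBs hz))
      · intro z hz
        have h6 := a3 z (hBs hz)
        rw [Fin.sum_univ_succ (n := m)] at h6
        simp only [Fin.cons_zero, Fin.cons_succ] at h6
        rw [Fin.sum_univ_add]
        simp only [hG, Fin.append_left, Fin.append_right]
        have h7 := hSne z hz
        have h8 : ∑ i, F i z * (a i.succ z * (1 - f 0 k₀ (inner ℂ (e 0 k₀) z) * a 0 z)⁻¹) +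
            ∑ j : Fin N, f₀ j.succ z * (c j z * (1 - f 0 k₀ (inner ℂ (e 0 k₀) z) * a 0 z)⁻¹) =
            (∑ i, F i z * a i.succ z + ∑ j : Fin N, f₀ j.succ z * c j z) *
              (1 - f 0 k₀ (inner ℂ (e 0 k₀) z) * a 0 z)⁻¹ := by
          rw [add_mul, Finset.sum_mul, Finset.sum_mul]
          congr 1
          · exact Finset.sum_congr rfl (fun _ _ => by ring)
          · exact Finset.sum_congr rfl (fun _ _ => by ring)
        rw [h8]
        have h9 : ∑ i, F i z * a i.succ z + ∑ j : Fin N, f₀ j.succ z * c j z =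
            1 - f 0 k₀ (inner ℂ (e 0 k₀) z) * a 0 z := by
          rw [← h6]
          ring
        rw [h9]
        exact mul_inv_cancel₀ h7
    obtain ⟨h, g, a1, a2, a3, a4, a5⟩ := H X (κ 0) (e 0) (f 0) (f₀ 0) (hP 0).he (hP 0).hf
      (hP 0).hf1 (hP 0).hs (hP 0).hp G hGd hG1 hbez
    refine ⟨fun i => h (Fin.castAdd N i), Fin.cons g (fun j => h (Fin.natAdd m j)),
      fun i => a1 _, ?_, fun i => a3 _, ?_, ?_⟩
    · intro j
      refine Fin.cases ?_ (fun j => ?_) j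
      · exact a2
      · exact a1 _
    · intro j
      refine Fin.cases ?_ (fun j => ?_) j
      · exact a4
      · exact a3 _
    · intro z hz
      have h6 := a5 z hz
      rw [Fin.sum_univ_add] at h6
      simp only [hG, Fin.append_left, Fin.append_right] at h6
      rw [Fin.sum_univ_succ (n := N)]
      simp only [Fin.cons_zero, Fin.cons_succ]
      rw [← h6]
      ring

/-- **Localisation to the sets where one factor of each product is small.** -/
theorem prods (N m : ℕ) (M : ℝ) {ε : ℝ} (Q : ℝ) (hε : 0 < ε) : ∃ C : ℝ, 0 ≤ C ∧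
    ∀ (X : Type) [NormedAddCommGroup X] [InnerProductSpace ℂ X] [FiniteDimensional ℂ X]
      (κ : Fin N → Type) (e : ∀ j, κ j → X) (f : ∀ j, κ j → ℂ → ℂ) (f₀ : Fin N → X → ℂ),
      (∀ j, PF (e j) (f j) (f₀ j) M) →
      ∀ F : Fin m → X → ℂ, (∀ i, DifferentiableOn ℂ (F i) (ball 0 1)) →
      (∀ i, ∀ z ∈ ball (0 : X) 1, ‖F i z‖ ≤ 1) →
      (∀ k : ∀ j, κ j, Bez {z : X | ‖z‖ < 1 ∧ ∀ j, ‖f j (k j) (inner ℂ (e j (k j)) z)‖ < ε}
        F Q) →
      Sol2 F f₀ C := by
  obtain ⟨C₁, hC₁, H₁⟩ := loc_aff 1 N m (ε := ε) (Q := max Q 0) hε (le_max_right _ _)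
  obtain ⟨C, hC, H⟩ := ind N m M C₁
  refine ⟨C, hC, ?_⟩
  intro X _ _ _ κ e f f₀ hP F hF hF1 hbez
  refine H X κ e f f₀ hP F hF hF1 (fun k => ?_)
  obtain ⟨h, h1, h2, h3⟩ := H₁ X (fun j z => (inner ℂ (e j (k j)) z : ℂ)) (fun j _ => f j (k j))
    (fun j => lin_AF _) (fun j z hz => inner_lt ((hP j).he _) (mem_ball_zero_iff.1 hz))
    (fun j _ => (hP j).hf _) (fun j _ => (hP j).hf1 _) F hF hF1
    ((hbez k).mono (fun z hz => ⟨hz.1, fun j => hz.2 j 0⟩) (le_max_left _ _))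
  refine ⟨fun i => h (Sum.inr i), fun j => h (Sum.inl (j, 0)), fun i => h1 _, fun j => h1 _,
    fun i => h2 _, fun j => h2 _, fun z hz => ?_⟩
  have h4 := h3 z hz
  rw [Fintype.sum_sum_type, Fintype.sum_prod_type] at h4
  simp only [Sum.elim_inl, Sum.elim_inr, Finset.univ_unique, Finset.sum_singleton] at h4
  rw [add_comm]
  exact h4

end Run7.h512
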