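import Mathlib
import Pool.Agent.W732.Cor.All
import Pool.Agent.Y263.GF.Alg
import Pool.Agent.Run7.h512.Tubes

/-!
Localisation of arbitrary corona data on the ball along several geodesic directions at once.
-/

set_option autoImplicit false

open Metric Set Filter Topology Complex

namespace Run7.h512

open Pool.Agent.Y263.LF (Bez)
open Pool.Agent.Y263.GF (AF frac_AF loc_aff)
open Pool.Agent.W732.Cor (V mv t_ball t_mv S_ball)

/-- the function `⟨p, φ(z)⟩` for the automorphism `φ = mv q b` -/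
noncomputable def pr {m : ℕ} (p q : V m) (b : ℂ) (z : V m) : ℂ := inner ℂ p (mv q b z)

theorem pr_AF {m : ℕ} (p : V m) {q : V m} {b : ℂ} (hq : ‖q‖ = 1) (hb : ‖b‖ < 1) :
    AF (ball (0 : V m) 1) (pr p q b) := by
  set s : ℂ := ((√(1 - ‖b‖ ^ 2) : ℝ) : ℂ) with hs
  set α : V m →L[ℂ] ℂ := ((inner ℂ p q : ℂ) * (1 - s)) • innerSL ℂ q + s • innerSL ℂ p with hα
  set β : V m →L[ℂ] ℂ := (starRingEnd ℂ b) • innerSL ℂ q with hβ
  have hne : ∀ z ∈ ball (0 : V m) 1, β z + 1 ≠ 0 := by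
    intro z hz h0
    have hz1 := mem_ball_zero_iff.1 hz
    have h1 : (starRingEnd ℂ b) * inner ℂ q z = -1 := by
      have : β z = (starRingEnd ℂ b) * inner ℂ q z := by simp [hβ]
      rw [← this]
      linear_combination h0
    have h2 := congrArg norm h1
    rw [norm_mul, RCLike.norm_conj, norm_neg, norm_one] at h2
    have h3 := inner_lt hq hz1
    nlinarith [norm_nonneg b, norm_nonneg (inner ℂ q z : ℂ)]
  have h := frac_AF α β (b * inner ℂ p q) 1 hne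
  have h1 : (fun z => (α z + b * inner ℂ p q) / (β z + 1)) = pr p q b := by
    funext z
    simp only [pr, mv, hα, hβ, ← hs, add_apply, smul_apply, innerSL_apply_apply, smul_eq_mul,
      inner_smul_right, inner_add_right, inner_sub_right]
    rw [one_div, div_eq_inv_mul]
    congr 1
    · rw [add_comm]
    · ring
  rwa [h1] at h

theorem pr_lt {m : ℕ} {p q : V m} {b : ℂ} (hp : ‖p‖ = 1) (hq : ‖q‖ = 1) (hb : ‖b‖ < 1) {z : V m}
    (hz : ‖z‖ < 1) : ‖pr p q b z‖ < 1 := by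
  have h1 := (t_mv m q hq b (mem_ball_zero_iff.2 hb)).2.1 (mem_ball_zero_iff.2 hz)
  exact inner_lt hp (mem_ball_zero_iff.1 h1)

/-- slice localisation along the fibres of `pr p q b` -/
theorem ball_geod (N : ℕ) (C : ℝ) : ∃ C' : ℝ, ∀ (m : ℕ) (p q : V m) (b : ℂ), ‖p‖ = 1 → ‖q‖ = 1 →
    ‖b‖ < 1 → ∀ F : Fin N → V m → ℂ, (∀ i, DifferentiableOn ℂ (F i) (ball 0 1)) →
      (∀ i, ∀ z ∈ ball (0 : V m) 1, ‖F i z‖ ≤ 1) →
      (∀ a : ℂ, ‖a‖ < 1 → ∃ (g : Fin N → V m → ℂ) (g₀ : V m → ℂ),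
        (∀ i, DifferentiableOn ℂ (g i) (ball 0 1)) ∧ DifferentiableOn ℂ g₀ (ball 0 1) ∧
        (∀ i, ∀ z ∈ ball (0 : V m) 1, ‖g i z‖ ≤ C) ∧ (∀ z ∈ ball (0 : V m) 1, ‖g₀ z‖ ≤ C) ∧
        ∀ z ∈ ball (0 : V m) 1, ∑ i, F i z * g i z + bl a (pr p q b z) * g₀ z = 1) →
      ∃ h : Fin N → V m → ℂ, (∀ i, DifferentiableOn ℂ (h i) (ball 0 1)) ∧
        (∀ i, ∀ z ∈ ball (0 : V m) 1, ‖h i z‖ ≤ C') ∧
        ∀ z ∈ ball (0 : V m) 1, ∑ i, F i z * h i z = 1 := by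
  obtain ⟨C', H⟩ := t_ball N C
  refine ⟨C', ?_⟩
  intro m p q b hp hq hb F hF hF1 hsol
  have hb' : ‖-b‖ < 1 := by rwa [norm_neg]
  obtain ⟨d1, m1, i1, -, -⟩ := t_mv m q hq b (mem_ball_zero_iff.2 hb)
  obtain ⟨d2, m2, i2, -, -⟩ := t_mv m q hq (-b) (mem_ball_zero_iff.2 hb')
  rw [neg_neg] at i2
  obtain ⟨h, h1, h2, h3⟩ := H m p hp (fun i z => F i (mv q (-b) z))
    (fun i => (hF i).comp d2 m2) (fun i z hz => hF1 i _ (m2 hz)) (by
      intro a ha
      obtain ⟨g, g₀, g1, g2, g3, g4, g5⟩ := hsol a (mem_ball_zero_iff.1 ha)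
      refine ⟨fun i z => g i (mv q (-b) z), fun z => g₀ (mv q (-b) z), fun i => (g1 i).comp d2 m2,
        g2.comp d2 m2, fun i z hz => g3 i _ (m2 hz), fun z hz => g4 _ (m2 hz), fun z hz => ?_⟩
      have h6 := g5 _ (m2 hz)
      have h7 : pr p q b (mv q (-b) z) = inner ℂ p z := by
        unfold pr
        rw [i2 z hz]
      rw [h7] at h6
      exact h6)
  refine ⟨fun i z => h i (mv q b z), fun i => (h1 i).comp d1 m1, fun i z hz => h2 i _ (m1 hz),
    fun z hz => ?_⟩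
  have h4 := h3 _ (m1 hz)
  simp only [i1 z hz] at h4
  exact h4

/-- the iteration -/
theorem iter (K : ℕ) : ∀ (N : ℕ) (C : ℝ), ∃ C' : ℝ, ∀ (m : ℕ) (p q : Fin K → V m) (b : Fin K → ℂ),
    (∀ k, ‖p k‖ = 1) → (∀ k, ‖q k‖ = 1) → (∀ k, ‖b k‖ < 1) →
    ∀ F : Fin N → V m → ℂ, (∀ i, DifferentiableOn ℂ (F i) (ball 0 1)) →
      (∀ i, ∀ z ∈ ball (0 : V m) 1, ‖F i z‖ ≤ 1) →
      (∀ a : Fin K → ℂ, (∀ k, ‖a k‖ < 1) → ∃ (g : Fin N → V m → ℂ) (g' : Fin K → V m → ℂ),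
        (∀ i, DifferentiableOn ℂ (g i) (ball 0 1)) ∧
        (∀ k, DifferentiableOn ℂ (g' k) (ball 0 1)) ∧
        (∀ i, ∀ z ∈ ball (0 : V m) 1, ‖g i z‖ ≤ C) ∧
        (∀ k, ∀ z ∈ ball (0 : V m) 1, ‖g' k z‖ ≤ C) ∧
        ∀ z ∈ ball (0 : V m) 1, ∑ i, F i z * g i z +
          ∑ k, bl (a k) (pr (p k) (q k) (b k) z) * g' k z = 1) →
      ∃ h : Fin N → V m → ℂ, (∀ i, DifferentiableOn ℂ (h i) (ball 0 1)) ∧
        (∀ i, ∀ z ∈ ball (0 : V m) 1, ‖h i z‖ ≤ C') ∧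
        ∀ z ∈ ball (0 : V m) 1, ∑ i, F i z * h i z = 1 := by
  induction K with
  | zero =>
    intro N C
    refine ⟨C, ?_⟩
    intro m p q b hp hq hb F hF hF1 hsol
    obtain ⟨g, g', g1, -, g3, -, g5⟩ := hsol (fun _ => 0) (fun k => k.elim0)
    refine ⟨g, g1, g3, fun z hz => ?_⟩
    have := g5 z hz
    simpa using this
  | succ K ih =>
    intro N C
    obtain ⟨C₁, H₁⟩ := ih (N + 1) C
    obtain ⟨C', H'⟩ := ball_geod N C₁
    refine ⟨C', ?_⟩
    intro m p q b hp hq hb F hF hF1 hsol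
    refine H' m (p 0) (q 0) (b 0) (hp 0) (hq 0) (hb 0) F hF hF1 ?_
    intro a₀ ha₀
    have hprd : DifferentiableOn ℂ (fun z => bl a₀ (pr (p 0) (q 0) (b 0) z)) (ball 0 1) :=
      (bl_diff ha₀).comp (pr_AF (p 0) (hq 0) (hb 0)).diff
        (fun z hz => mem_ball_zero_iff.2 (pr_lt (hp 0) (hq 0) (hb 0) (mem_ball_zero_iff.1 hz)))
    obtain ⟨h, h1, h2, h3⟩ := H₁ m (fun k => p k.succ) (fun k => q k.succ) (fun k => b k.succ)
      (fun k => hp _) (fun k => hq _) (fun k => hb _)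
      (Fin.cons (fun z => bl a₀ (pr (p 0) (q 0) (b 0) z)) F) (by
        intro i
        refine Fin.cases ?_ (fun i => ?_) i
        · exact hprd
        · exact hF i) (by
        intro i z hz
        refine Fin.cases ?_ (fun i => ?_) i
        · exact bl_le ha₀ (pr_lt (hp 0) (hq 0) (hb 0) (mem_ball_zero_iff.1 hz)).le
        · exact hF1 i z hz) (by
        intro a ha
        obtain ⟨g, g', g1, g2, g3, g4, g5⟩ := hsol (Fin.cons a₀ a) (by
          intro k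
          refine Fin.cases ?_ (fun k => ?_) k
          · exact ha₀
          · exact ha k)
        refine ⟨Fin.cons (g' 0) g, fun k => g' k.succ, ?_, fun k => g2 _, ?_, fun k => g4 _, ?_⟩
        · intro i
          refine Fin.cases ?_ (fun i => ?_) i
          · exact g2 0
          · exact g1 i
        · intro i z hz
          refine Fin.cases ?_ (fun i => ?_) i
          · exact g4 0 z hz
          · exact g3 i z hz
        · intro z hz
          have h6 := g5 z hz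
          rw [Fin.sum_univ_succ (n := K)] at h6
          rw [Fin.sum_univ_succ (n := N)]
          simp only [Fin.cons_zero, Fin.cons_succ] at h6 ⊢
          rw [← h6]
          ring)
    refine ⟨fun i => h i.succ, h 0, fun i => h1 _, h1 0, fun i => h2 _, h2 0, fun z hz => ?_⟩
    have h4 := h3 z hz
    rw [Fin.sum_univ_succ] at h4
    simp only [Fin.cons_zero, Fin.cons_succ] at h4
    rw [← h4]
    ring

/-- **Localisation to the intersections of tubes along `K` geodesics.** -/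
theorem multi (N K : ℕ) {η : ℝ} (C : ℝ) (hη : 0 < η) : ∃ C' : ℝ, ∀ (m : ℕ) (p q : Fin K → V m)
    (b : Fin K → ℂ), (∀ k, ‖p k‖ = 1) → (∀ k, ‖q k‖ = 1) → (∀ k, ‖b k‖ < 1) →
    ∀ F : Fin N → V m → ℂ, (∀ i, DifferentiableOn ℂ (F i) (ball 0 1)) →
      (∀ i, ∀ z ∈ ball (0 : V m) 1, ‖F i z‖ ≤ 1) →
      (∀ a : Fin K → ℂ, (∀ k, ‖a k‖ < 1) →
        Bez {z : V m | ‖z‖ < 1 ∧ ∀ k, ‖bl (a k) (pr (p k) (q k) (b k) z)‖ < η} F C) →
      Bez (ball 0 1) F C' := by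
  obtain ⟨C₁, hC₁, H₁⟩ := loc_aff 1 K N (ε := η) (Q := max C 0) hη (le_max_right _ _)
  obtain ⟨C', H'⟩ := iter K N C₁
  refine ⟨C', ?_⟩
  intro m p q b hp hq hb F hF hF1 hsol
  refine H' m p q b hp hq hb F hF hF1 ?_
  intro a ha
  obtain ⟨h, h1, h2, h3⟩ := H₁ (V m) (fun k => pr (p k) (q k) (b k)) (fun k _ => bl (a k))
    (fun k => pr_AF (p k) (hq k) (hb k))
    (fun k z hz => pr_lt (hp k) (hq k) (hb k) (mem_ball_zero_iff.1 hz))
    (fun k _ => bl_diff (ha k)) (fun k _ x hx => bl_le (ha k) (mem_ball_zero_iff.1 hx).le)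
    F hF hF1 ((hsol a ha).mono (fun z hz => ⟨hz.1, fun k => hz.2 k 0⟩) (le_max_left _ _))
  refine ⟨fun i => h (Sum.inr i), fun k => h (Sum.inl (k, 0)), fun i => h1 _, fun k => h1 _,
    fun i => h2 _, fun k => h2 _, fun z hz => ?_⟩
  have h4 := h3 z hz
  rw [Fintype.sum_sum_type, Fintype.sum_prod_type] at h4
  simp only [Sum.elim_inl, Sum.elim_inr, Finset.univ_unique, Finset.sum_singleton] at h4
  rw [add_comm]
  exact h4

end Run7.h512
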