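import Mathlib
import Pool.Agent.H720R2.Cor.Lim
import Pool.Agent.Run7.h512.Tubes

/-!
Corona data which are solvable on the tubes of a family of hyperplanes: infinite products.
-/

set_option autoImplicit false

open Metric Set Filter Topology Complex

namespace Run7.h512

open Pool.Agent.Y263.LF (Bez)

theorem tubes_inf (m : ℕ) (M : ℝ) {ε : ℝ} (Q : ℝ) (hε : 0 < ε) : ∃ C : ℝ, 0 ≤ C ∧
    ∀ (X : Type) [NormedAddCommGroup X] [InnerProductSpace ℂ X] [FiniteDimensional ℂ X]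
      (ι : Type) (e : ι → X) (a σ : ι → ℂ) (f : X → ℂ), (∀ k, ‖e k‖ = 1) → (∀ k, ‖a k‖ < 1) →
      (∀ k, ‖σ k‖ = 1) →
      (∀ z ∈ ball (0 : X) 1, ∀ s : Finset ι,
        ∑ k ∈ s, (1 - ‖bl (a k) (inner ℂ (e k) z)‖ ^ 2) ≤ M) →
      (∀ z ∈ ball (0 : X) 1, HasProd (fun k => σ k * bl (a k) (inner ℂ (e k) z)) (f z)) →
      ∀ F : Fin m → X → ℂ, (∀ i, DifferentiableOn ℂ (F i) (ball 0 1)) →
      (∀ i, ∀ z ∈ ball (0 : X) 1, ‖F i z‖ ≤ 1) →
      (∀ k, Bez {z : X | ‖z‖ < 1 ∧ ‖bl (a k) (inner ℂ (e k) z)‖ < ε} F Q) →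
      ∃ (h : Fin m → X → ℂ) (g : X → ℂ), (∀ i, DifferentiableOn ℂ (h i) (ball 0 1)) ∧
        DifferentiableOn ℂ g (ball 0 1) ∧ (∀ i, ∀ z ∈ ball (0 : X) 1, ‖h i z‖ ≤ C) ∧
        (∀ z ∈ ball (0 : X) 1, ‖g z‖ ≤ C) ∧
        ∀ z ∈ ball (0 : X) 1, ∑ i, F i z * h i z + f z * g z = 1 := by
  obtain ⟨C, hC, H⟩ := tubes_main m M Q hε
  refine ⟨C, hC, ?_⟩
  intro X _ _ _ ι e a σ f he ha hσ hsum hprod F hF hF1 hbez
  classical
  have h1 : ∀ s : Finset ι, ∃ (h : Fin m → X → ℂ) (g : X → ℂ),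
      (∀ i, DifferentiableOn ℂ (h i) (ball 0 1)) ∧
        DifferentiableOn ℂ g (ball 0 1) ∧ (∀ i, ∀ z ∈ ball (0 : X) 1, ‖h i z‖ ≤ C) ∧
        (∀ z ∈ ball (0 : X) 1, ‖g z‖ ≤ C) ∧
        ∀ z ∈ ball (0 : X) 1, ∑ i, F i z * h i z +
          (∏ k ∈ s, σ k * bl (a k) (inner ℂ (e k) z)) * g z = 1 := by
    intro s
    have hHF : HF X (fun k : s => e k) (fun k : s => a k) M := by
      refine ⟨fun k => he k, fun k => ha k, fun z hz => ?_⟩
      have h2 := hsum z (mem_ball_zero_iff.2 hz) s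
      rw [← Finset.sum_coe_sort] at h2
      refine le_trans (le_of_eq ?_) h2
      exact Finset.sum_congr rfl (fun k _ => (uu_eq (ha k) (inner_lt (he k) hz).le).symm)
    obtain ⟨h, g, a1, a2, a3, a4, a5⟩ := H X s (fun k : s => e k) (fun k : s => a k) hHF F hF hF1
      (fun k => hbez k)
    have hs : ‖∏ k ∈ s, σ k‖ = 1 := by
      rw [norm_prod]
      exact Finset.prod_eq_one (fun k _ => hσ k)
    have hs0 : (∏ k ∈ s, σ k) ≠ 0 := by
      intro h0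
      rw [h0, norm_zero] at hs
      exact zero_ne_one hs
    refine ⟨h, fun z => (∏ k ∈ s, σ k)⁻¹ * g z, a1, a2.const_mul _, a3, ?_, ?_⟩
    · intro z hz
      rw [norm_mul, norm_inv, hs, inv_one, one_mul]
      exact a4 z hz
    · intro z hz
      have h2 := a5 z hz
      rw [Finset.prod_mul_distrib]
      rw [← Finset.prod_coe_sort s (fun k => bl (a k) (inner ℂ (e k) z))]
      rw [← h2]
      congr 1
      field_simp
  choose h g a1 a2 a3 a4 a5 using h1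
  set 𝒰 : Ultrafilter (Finset ι) := Ultrafilter.of atTop with h𝒰
  have hle : (𝒰 : Filter (Finset ι)) ≤ atTop := Ultrafilter.of_le _
  have k1 : ∀ i, ∃ v : X → ℂ, DifferentiableOn ℂ v (ball 0 1) ∧ (∀ p ∈ ball (0 : X) 1, ‖v p‖ ≤ C) ∧
      ∀ p ∈ ball (0 : X) 1, Tendsto (fun s => h s i p) 𝒰 (𝓝 (v p)) := fun i =>
    Pool.Agent.H720R2.Cor.ultra_lim isOpen_ball 𝒰 (fun s => h s i) (fun s => a1 s i)
      (fun s => a3 s i)
  choose v v1 v2 v3 using k1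
  obtain ⟨u, u1, u2, u3⟩ := Pool.Agent.H720R2.Cor.ultra_lim (X := X) isOpen_ball 𝒰 g a2 a4
  refine ⟨v, u, v1, u1, v2, u2, ?_⟩
  intro z hz
  have hlim : Tendsto (fun s : Finset ι => ∑ i, F i z * h s i z +
      (∏ k ∈ s, σ k * bl (a k) (inner ℂ (e k) z)) * g s z) 𝒰
      (𝓝 (∑ i, F i z * v i z + f z * u z)) := by
    refine Tendsto.add ?_ ?_
    · exact tendsto_finsetSum _ (fun i _ => (v3 i z hz).const_mul _)
    · exact Tendsto.mul ((hprod z hz).mono_left hle) (u3 z hz)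
  have hconst : Tendsto (fun s : Finset ι => ∑ i, F i z * h s i z +
      (∏ k ∈ s, σ k * bl (a k) (inner ℂ (e k) z)) * g s z) 𝒰 (𝓝 1) := by
    have : (fun s : Finset ι => ∑ i, F i z * h s i z +
      (∏ k ∈ s, σ k * bl (a k) (inner ℂ (e k) z)) * g s z) = fun _ => 1 := by
      funext s
      exact a5 s z hz
    rw [this]
    exact tendsto_const_nhds
  exact tendsto_nhds_unique hlim hconst

end Run7.h512
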