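import Mathlib
import Pool.Agent.Run7.h512.TubesInf

/-!
Corona problem on the unit ball of `ℂ^n`: infinite products of Moebius factors of hyperplanes in
arbitrary directions, together with arbitrary data which are solvable near each hyperplane. The
constants do not depend on the dimension, nor on the number or the directions of the hyperplanes.

* `Pool.Agent.Run7.h512.{Hyp, Geo}`: geometry of the tubes around hyperplanes in the ball.
* `Pool.Agent.Run7.h512.Wt`: bounded holomorphic weights `W_k` on the ball with `∑ |W_k|` bounded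
  and `|W_k|` bounded below on the `k`-th tube.
* `Pool.Agent.Run7.h512.{Tubes, TubesInf}`: the corona theorem; for a single tube the localisation
  theorem of `Pool.Agent.Y263.GF` is used.
-/

set_option autoImplicit false

open Metric Set

namespace Run7.h512.HyperplaneProducts

abbrev V (n : ℕ) := EuclideanSpace ℂ (Fin n)

/-- The Moebius factor `(⟨e, z⟩ - a) / (1 - conj a ⟨e, z⟩)` of the hyperplane `⟨e, z⟩ = a`. -/
noncomputable def mob {n : ℕ} (e : V n) (a : ℂ) (z : V n) : ℂ :=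
  ((inner ℂ e z : ℂ) - a) / (1 - starRingEnd ℂ a * inner ℂ e z)

/-- The equation `∑ F_j g_j = 1` has a solution with `g_j` holomorphic on `Ω` and bounded by `C`. -/
def Solvable {n m : ℕ} (Ω : Set (V n)) (F : Fin m → V n → ℂ) (C : ℝ) : Prop :=
  ∃ g : Fin m → V n → ℂ, (∀ j, DifferentiableOn ℂ (g j) Ω) ∧ (∀ j, ∀ z ∈ Ω, ‖g j z‖ ≤ C) ∧
    ∀ z ∈ Ω, ∑ j, F j z * g j z = 1

/-- **Corona theorem for hyperplane products.** If `∑ (1 - |b_k|²) ≤ M` on the ball for the Moebius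
factors `b_k` of a family of hyperplanes, `f = ∏ σ_k b_k` with `|σ_k| = 1`, and if the arbitrary
data `F_1, …, F_m` are solvable with bound `Q` on each tube `|b_k| < ε`, then `F_1, …, F_m, f` are
solvable on the ball, with a bound which depends only on `m`, `M`, `ε` and `Q`. -/
theorem result (m : ℕ) (M ε Q : ℝ) (hε : 0 < ε) :
    ∃ C : ℝ, ∀ (n : ℕ) (ι : Type) (e : ι → V n) (a σ : ι → ℂ) (f : V n → ℂ)
      (F : Fin m → V n → ℂ), (∀ k, ‖e k‖ = 1 ∧ ‖a k‖ < 1 ∧ ‖σ k‖ = 1) →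
      (∀ z ∈ ball (0 : V n) 1, ∀ s : Finset ι, ∑ k ∈ s, (1 - ‖mob (e k) (a k) z‖ ^ 2) ≤ M) →
      (∀ z ∈ ball (0 : V n) 1, HasProd (fun k => σ k * mob (e k) (a k) z) (f z)) →
      (∀ i, DifferentiableOn ℂ (F i) (ball 0 1) ∧ ∀ z ∈ ball (0 : V n) 1, ‖F i z‖ ≤ 1) →
      (∀ k, Solvable {z | z ∈ ball (0 : V n) 1 ∧ ‖mob (e k) (a k) z‖ < ε} F Q) →
      ∃ (h : Fin m → V n → ℂ) (g : V n → ℂ), (∀ i, DifferentiableOn ℂ (h i) (ball 0 1)) ∧
        DifferentiableOn ℂ g (ball 0 1) ∧ (∀ i, ∀ z ∈ ball (0 : V n) 1, ‖h i z‖ ≤ C) ∧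
        (∀ z ∈ ball (0 : V n) 1, ‖g z‖ ≤ C) ∧
        ∀ z ∈ ball (0 : V n) 1, ∑ i, F i z * h i z + f z * g z = 1 := by
  obtain ⟨C, -, H⟩ := Run7.h512.tubes_inf m M Q hε
  refine ⟨C, ?_⟩
  intro n ι e a σ f F h1 h2 h3 h4 h5
  refine H (V n) ι e a σ f (fun k => (h1 k).1) (fun k => (h1 k).2.1) (fun k => (h1 k).2.2) h2 h3 F
    (fun i => (h4 i).1) (fun i => (h4 i).2) (fun k => ?_)
  obtain ⟨g, g1, g2, g3⟩ := h5 k
  have hsub : {z : V n | ‖z‖ < 1 ∧ ‖Run7.h512.bl (a k) (inner ℂ (e k) z)‖ < ε} ⊆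
      {z | z ∈ ball (0 : V n) 1 ∧ ‖mob (e k) (a k) z‖ < ε} :=
    fun z hz => ⟨mem_ball_zero_iff.2 hz.1, hz.2⟩
  exact ⟨g, fun j => (g1 j).mono hsub, fun j z hz => g2 j z (hsub hz), fun z hz => g3 z (hsub hz)⟩

end Run7.h512.HyperplaneProducts
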